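import Pool.Agent.H11.LQ.Defs

/-!
# LQ module Chain: the robust chains, and the reductions

`chain_card`: `f` changes sign under multiplication by 2, 3, 5.  Let `Bd` be the set on the right:
`u + w = 2 n`, `f u = 1`, `f w = 1`.  Let `c = n - 2 z`, `n / 4 < z < n / 2`, `z ≠ n / 3`,
`f c ≠ f z`.  Follow `chain2` in Pool/Agent/H34PG/Base.lean (q = n), where (B) is used: if a use of
(B) fails then a known linear expression of `z` is in `Bd`; a use of `ruleA` for `u + v = n` is a use
of (B) for `2 u, 2 v`.  Result: one of the following 12 numbers is in `Bd`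
* `f z = 1`: `4 z` (as `f (4 z) = 1` and `f (2 c) = 1`),
* `f z = -1`, `z > n/3`: `3 z`, `4 n - 6 z`, `12 z - 4 n`,
* `f z = -1`, `z < n/3`: `5 z`, `8 z - 2 n`; if `15 z > 4 n`: `6 n - 15 z`, `30 z - 8 n`,
  `8 n - 24 z`; if `15 z ≤ 4 n`: `4 n - 10 z`, `20 z - 4 n`, `12 n - 40 z`.
All are injective functions of `z` where they are used (no truncated subtraction), so there are at
most `12 * Bd.card + 1` such `z`.

`red_mixed`: `x ∈ Ex m 1 2`.  For `x ≤ m/4` and `x ≥ 3m/4` there is no exception.  For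
`m/4 < x < m/2`: `F (2 x) = lam (m - 2 x)`, `F x = lam x = - lam (2 x)`, so `2 x` is in the set on the
right; for `m/2 < x < 3m/4`: `F (2 x) = lam (2 x - m)`, `F x = lam (m - x) = - lam (2 m - 2 x)`, so
`2 x - m` is in that set; `x = m/2`: one more.

`red_same`: `η = -1`.  For `x ≤ m/4` and `x > 3m/4` there is no exception.  For `m/4 < x < m/2`:
`F (2 x) = - lam (m - 2 x)`, `F x = lam x`: `x` is in the set of `chain_card` (with `f = s * lam`,
`n = m`).  For `m/2 < x < 3m/4`: `F (2 x) = lam (2 x - m)`, `F x = - lam (m - x)`: `z = m - x` is in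
that set.  `x = m/2` and `x = 3m/4`: two more.
-/

set_option autoImplicit false

namespace Pool.Agent.H11.LQ

open Finset
open Pool.Agent.H34PG (lam lam_val lam_mul lam_prime)

private theorem chain_inj (n : ℕ) (B : Finset ℕ) (P : ℕ → Prop) [DecidablePred P] (g : ℕ → ℕ)
    (hg : ∀ x y, P x → P y → g x = g y → x = y) :
    ((range n).filter fun z => P z ∧ g z ∈ B).card ≤ B.card := by
  refine card_le_card_of_injOn g ?_ ?_
  · intro z hz
    rw [mem_coe, mem_filter] at hz
    exact mem_coe.mpr hz.2.2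
  · intro x hx y hy hxy
    rw [mem_coe, mem_filter] at hx hy
    exact hg x y hx.2.1 hy.2.1 hxy

/-- the twelve possibilities -/
private theorem chain_cover (n : ℕ) (f : ℕ → ℤ) (hf : ∀ u, 0 < u → f u = 1 ∨ f u = -1)
    (h2 : ∀ u, 0 < u → f (2 * u) = -f u) (h3 : ∀ u, 0 < u → f (3 * u) = -f u)
    (h5 : ∀ u, 0 < u → f (5 * u) = -f u) (B : Finset ℕ)
    (hB : ∀ u v, 0 < u → 0 < v → u + v = 2 * n → f u = 1 → f v = 1 → u ∈ B)
    (z : ℕ) (hz1 : n < 4 * z) (hz2 : 2 * z < n) (hne : f (n - 2 * z) ≠ f z) (hz3 : 3 * z ≠ n) :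
    4 * z ∈ B ∨ 3 * z ∈ B ∨ 4 * n - 6 * z ∈ B ∨ (n < 3 * z ∧ 12 * z - 4 * n ∈ B) ∨ 5 * z ∈ B ∨
    8 * z - 2 * n ∈ B ∨ (5 * z < 2 * n ∧ 6 * n - 15 * z ∈ B) ∨ (4 * n < 15 * z ∧ 30 * z - 8 * n ∈ B) ∨
    (3 * z < n ∧ 8 * n - 24 * z ∈ B) ∨ (5 * z < 2 * n ∧ 4 * n - 10 * z ∈ B) ∨ 20 * z - 4 * n ∈ B ∨
    (15 * z ≤ 4 * n ∧ 12 * n - 40 * z ∈ B) := by
  have f4 : ∀ u, 0 < u → f (4 * u) = f u := by
    intro u hu
    have e : 4 * u = 2 * (2 * u) := by ring
    rw [e, h2 _ (by omega), h2 u hu, neg_neg]
  -- the two rules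
  have RB : ∀ u v, 0 < u → 0 < v → u + v = 2 * n → f u = 1 → u ∉ B → f v = -1 := by
    intro u v hu hv huv h1 hnB
    rcases hf v hv with h | h
    · exact absurd (hB u v hu hv huv h1 h) hnB
    · exact h
  have RA : ∀ u v, 0 < u → 0 < v → u + v = n → f u = -1 → 2 * u ∉ B → f v = 1 := by
    intro u v hu hv huv h1 hnB
    have e := RB (2 * u) (2 * v) (by omega) (by omega) (by omega) (by rw [h2 u hu, h1]; norm_num) hnB
    rw [h2 v hv] at e
    linarith
  obtain ⟨c, hc⟩ : ∃ c, 2 * z + c = n := ⟨n - 2 * z, by omega⟩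
  have hc0 : 0 < c := by omega
  have hcn : n - 2 * z = c := by omega
  rw [hcn] at hne
  have hz0 : 0 < z := by omega
  by_contra hcon
  simp only [not_or, not_and] at hcon
  obtain ⟨n1, n2, n3, n4, n5, n6, n7, n8, n9, n10, n11, n12⟩ := hcon
  rcases hf z hz0 with hz | hz
  · -- `f z = 1`
    have hcv : f c = -1 := by
      rcases hf c hc0 with h | h
      · exact absurd (h.trans hz.symm) hne
      · exact h
    exact n1 (hB (4 * z) (2 * c) (by omega) (by omega) (by omega) (by rw [f4 z hz0, hz])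
      (by rw [h2 c hc0, hcv]; norm_num))
  · -- `f z = -1`
    have hcv : f c = 1 := by
      rcases hf c hc0 with h | h
      · exact h
      · exact absurd (h.trans hz.symm) hne
    rcases Nat.lt_or_ge n (3 * z) with h | h
    · obtain ⟨a, ha⟩ : ∃ a, 3 * z + a = 2 * n := ⟨2 * n - 3 * z, by omega⟩
      obtain ⟨b, hb⟩ : ∃ b, n + b = 3 * z := ⟨3 * z - n, by omega⟩
      have e1 : f (3 * z) = 1 := by rw [h3 z hz0, hz]; norm_num
      have e2 : f a = -1 := RB _ _ (by omega) (by omega) ha e1 n2
      have e3 : f b = 1 := RA a b (by omega) (by omega) (by omega) e2 (by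
        have : 2 * a = 4 * n - 6 * z := by omega
        rw [this]
        exact n3)
      have e4 : f (2 * b) = -1 := by rw [h2 b (by omega), e3]
      have e5 : f (3 * c) = 1 := RA (2 * b) (3 * c) (by omega) (by omega) (by omega) e4 (by
        have : 2 * (2 * b) = 12 * z - 4 * n := by omega
        rw [this]
        exact n4 h)
      rw [h3 c hc0] at e5
      linarith
    · have h' : 3 * z < n := by omega
      obtain ⟨a, ha⟩ : ∃ a, 5 * z + a = 2 * n := ⟨2 * n - 5 * z, by omega⟩
      obtain ⟨g, hg⟩ : ∃ g, n + g = 4 * z := ⟨4 * z - n, by omega⟩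
      have e1 : f (5 * z) = 1 := by rw [h5 z hz0, hz]; norm_num
      have e2 : f a = -1 := RB _ _ (by omega) (by omega) ha e1 n5
      have hfin : f g = -1 → False := by
        intro e
        have e5 : f (2 * c) = 1 := RA g (2 * c) (by omega) (by omega) (by omega) e (by
          have : 2 * g = 8 * z - 2 * n := by omega
          rw [this]
          exact n6)
        rw [h2 c hc0] at e5
        linarith
      rcases Nat.lt_or_ge (4 * n) (15 * z) with h'' | h''
      · obtain ⟨d, hd⟩ : ∃ d, 4 * n + d = 15 * z := ⟨15 * z - 4 * n, by omega⟩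
        obtain ⟨e, he⟩ : ∃ e, 3 * z + e = n := ⟨n - 3 * z, by omega⟩
        have e3 : f (3 * a) = 1 := by rw [h3 a (by omega), e2]; norm_num
        have e4 : f d = -1 := RB (3 * a) d (by omega) (by omega) (by omega) e3 (by
          have : 3 * a = 6 * n - 15 * z := by omega
          rw [this]
          exact n7 (by omega))
        have e5 : f (5 * e) = 1 := RA d (5 * e) (by omega) (by omega) (by omega) e4 (by
          have : 2 * d = 30 * z - 8 * n := by omega
          rw [this]
          exact n8 h'')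
        have e6 : f e = -1 := by
          rw [h5 e (by omega)] at e5
          linarith
        have e7 : f (4 * e) = -1 := by rw [f4 e (by omega), e6]
        have e8 : f (3 * g) = 1 := RA (4 * e) (3 * g) (by omega) (by omega) (by omega) e7 (by
          have : 2 * (4 * e) = 8 * n - 24 * z := by omega
          rw [this]
          exact n9 h')
        apply hfin
        rw [h3 g (by omega)] at e8
        linarith
      · obtain ⟨b, hb⟩ : ∃ b, n + b = 5 * z := ⟨5 * z - n, by omega⟩
        obtain ⟨k, hk⟩ : ∃ k, 10 * z + k = 3 * n := ⟨3 * n - 10 * z, by omega⟩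
        have e3 : f b = 1 := RA a b (by omega) (by omega) (by omega) e2 (by
          have : 2 * a = 4 * n - 10 * z := by omega
          rw [this]
          exact n10 (by omega))
        have e4 : f (2 * b) = -1 := by rw [h2 b (by omega), e3]
        have e5 : f k = 1 := RA (2 * b) k (by omega) (by omega) (by omega) e4 (by
          have : 2 * (2 * b) = 20 * z - 4 * n := by omega
          rw [this]
          exact n11)
        have e6 : f (2 * k) = -1 := by rw [h2 k (by omega), e5]
        have e7 : f (5 * g) = 1 := RA (2 * k) (5 * g) (by omega) (by omega) (by omega) e6 (by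
          have : 2 * (2 * k) = 12 * n - 40 * z := by omega
          rw [this]
          exact n12 h'')
        apply hfin
        rw [h5 g (by omega)] at e7
        linarith

theorem chain_card (n : ℕ) (f : ℕ → ℤ) (hf : ∀ u, 0 < u → f u = 1 ∨ f u = -1)
    (h2 : ∀ u, 0 < u → f (2 * u) = -f u) (h3 : ∀ u, 0 < u → f (3 * u) = -f u)
    (h5 : ∀ u, 0 < u → f (5 * u) = -f u) :
    ((range n).filter fun z => n < 4 * z ∧ 2 * z < n ∧ f (n - 2 * z) ≠ f z).card ≤
      12 * ((range (2 * n)).filter fun u => 0 < u ∧ f u = 1 ∧ f (2 * n - u) = 1).card + 1 := by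
  classical
  set B : Finset ℕ := (range (2 * n)).filter fun u => 0 < u ∧ f u = 1 ∧ f (2 * n - u) = 1 with hBdef
  have hB : ∀ u v, 0 < u → 0 < v → u + v = 2 * n → f u = 1 → f v = 1 → u ∈ B := by
    intro u v hu hv huv h1 h1'
    rw [hBdef, mem_filter, mem_range]
    refine ⟨by omega, hu, h1, ?_⟩
    have : 2 * n - u = v := by omega
    rw [this]
    exact h1'
  have c1 := chain_inj n B (fun z => n < 4 * z) (fun z => 4 * z) (by intro x y hx hy hxy; omega)
  have c2 := chain_inj n B (fun z => n < 4 * z) (fun z => 3 * z) (by intro x y hx hy hxy; omega)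
  have c3 := chain_inj n B (fun z => 2 * z < n) (fun z => 4 * n - 6 * z)
    (by intro x y hx hy hxy; omega)
  have c4 := chain_inj n B (fun z => n < 3 * z) (fun z => 12 * z - 4 * n)
    (by intro x y hx hy hxy; omega)
  have c5 := chain_inj n B (fun z => n < 4 * z) (fun z => 5 * z) (by intro x y hx hy hxy; omega)
  have c6 := chain_inj n B (fun z => n < 4 * z) (fun z => 8 * z - 2 * n)
    (by intro x y hx hy hxy; omega)
  have c7 := chain_inj n B (fun z => 5 * z < 2 * n) (fun z => 6 * n - 15 * z)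
    (by intro x y hx hy hxy; omega)
  have c8 := chain_inj n B (fun z => 4 * n < 15 * z) (fun z => 30 * z - 8 * n)
    (by intro x y hx hy hxy; omega)
  have c9 := chain_inj n B (fun z => 3 * z < n) (fun z => 8 * n - 24 * z)
    (by intro x y hx hy hxy; omega)
  have c10 := chain_inj n B (fun z => 5 * z < 2 * n) (fun z => 4 * n - 10 * z)
    (by intro x y hx hy hxy; omega)
  have c11 := chain_inj n B (fun z => n < 4 * z) (fun z => 20 * z - 4 * n)
    (by intro x y hx hy hxy; omega)
  have c12 := chain_inj n B (fun z => 15 * z ≤ 4 * n) (fun z => 12 * n - 40 * z)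
    (by intro x y hx hy hxy; omega)
  set T1 := (range n).filter fun z => n < 4 * z ∧ 4 * z ∈ B
  set T2 := (range n).filter fun z => n < 4 * z ∧ 3 * z ∈ B
  set T3 := (range n).filter fun z => 2 * z < n ∧ 4 * n - 6 * z ∈ B
  set T4 := (range n).filter fun z => n < 3 * z ∧ 12 * z - 4 * n ∈ B
  set T5 := (range n).filter fun z => n < 4 * z ∧ 5 * z ∈ B
  set T6 := (range n).filter fun z => n < 4 * z ∧ 8 * z - 2 * n ∈ B
  set T7 := (range n).filter fun z => 5 * z < 2 * n ∧ 6 * n - 15 * z ∈ B
  set T8 := (range n).filter fun z => 4 * n < 15 * z ∧ 30 * z - 8 * n ∈ B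
  set T9 := (range n).filter fun z => 3 * z < n ∧ 8 * n - 24 * z ∈ B
  set T10 := (range n).filter fun z => 5 * z < 2 * n ∧ 4 * n - 10 * z ∈ B
  set T11 := (range n).filter fun z => n < 4 * z ∧ 20 * z - 4 * n ∈ B
  set T12 := (range n).filter fun z => 15 * z ≤ 4 * n ∧ 12 * n - 40 * z ∈ B
  have hsub : ((range n).filter fun z => n < 4 * z ∧ 2 * z < n ∧ f (n - 2 * z) ≠ f z) ⊆
      {n / 3} ∪ (T1 ∪ (T2 ∪ (T3 ∪ (T4 ∪ (T5 ∪ (T6 ∪ (T7 ∪ (T8 ∪ (T9 ∪ (T10 ∪ (T11 ∪ T12))))))))))) := by
    intro z hz
    rw [mem_filter, mem_range] at hz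
    obtain ⟨hzn, hz1, hz2, hne⟩ := hz
    by_cases hz3 : 3 * z = n
    · refine mem_union_left _ ?_
      rw [mem_singleton]
      omega
    refine mem_union_right _ ?_
    simp only [mem_union, T1, T2, T3, T4, T5, T6, T7, T8, T9, T10, T11, T12, mem_filter, mem_range]
    rcases chain_cover n f hf h2 h3 h5 B hB z hz1 hz2 hne hz3 with
      h | h | h | h | h | h | h | h | h | h | h | h
    · exact Or.inl ⟨hzn, hz1, h⟩
    · exact Or.inr (Or.inl ⟨hzn, hz1, h⟩)
    · exact Or.inr (Or.inr (Or.inl ⟨hzn, hz2, h⟩))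
    · exact Or.inr (Or.inr (Or.inr (Or.inl ⟨hzn, h.1, h.2⟩)))
    · exact Or.inr (Or.inr (Or.inr (Or.inr (Or.inl ⟨hzn, hz1, h⟩))))
    · exact Or.inr (Or.inr (Or.inr (Or.inr (Or.inr (Or.inl ⟨hzn, hz1, h⟩)))))
    · exact Or.inr (Or.inr (Or.inr (Or.inr (Or.inr (Or.inr (Or.inl ⟨hzn, h.1, h.2⟩))))))
    · exact Or.inr (Or.inr (Or.inr (Or.inr (Or.inr (Or.inr (Or.inr (Or.inl ⟨hzn, h.1, h.2⟩)))))))
    · exact Or.inr (Or.inr (Or.inr (Or.inr (Or.inr (Or.inr (Or.inr (Or.inr (Or.inl
        ⟨hzn, h.1, h.2⟩))))))))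
    · exact Or.inr (Or.inr (Or.inr (Or.inr (Or.inr (Or.inr (Or.inr (Or.inr (Or.inr (Or.inl
        ⟨hzn, h.1, h.2⟩)))))))))
    · exact Or.inr (Or.inr (Or.inr (Or.inr (Or.inr (Or.inr (Or.inr (Or.inr (Or.inr (Or.inr (Or.inl
        ⟨hzn, hz1, h⟩))))))))))
    · exact Or.inr (Or.inr (Or.inr (Or.inr (Or.inr (Or.inr (Or.inr (Or.inr (Or.inr (Or.inr (Or.inr
        ⟨hzn, h.1, h.2⟩))))))))))
  have u0 := card_le_card hsub
  have u1 := card_union_le {n / 3} (T1 ∪ (T2 ∪ (T3 ∪ (T4 ∪ (T5 ∪ (T6 ∪ (T7 ∪ (T8 ∪ (T9 ∪ (T10 ∪ (T11 ∪ T12)))))))))))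
  have u2 := card_union_le T1 (T2 ∪ (T3 ∪ (T4 ∪ (T5 ∪ (T6 ∪ (T7 ∪ (T8 ∪ (T9 ∪ (T10 ∪ (T11 ∪ T12))))))))))
  have u3 := card_union_le T2 (T3 ∪ (T4 ∪ (T5 ∪ (T6 ∪ (T7 ∪ (T8 ∪ (T9 ∪ (T10 ∪ (T11 ∪ T12)))))))))
  have u4 := card_union_le T3 (T4 ∪ (T5 ∪ (T6 ∪ (T7 ∪ (T8 ∪ (T9 ∪ (T10 ∪ (T11 ∪ T12))))))))
  have u5 := card_union_le T4 (T5 ∪ (T6 ∪ (T7 ∪ (T8 ∪ (T9 ∪ (T10 ∪ (T11 ∪ T12)))))))
  have u6 := card_union_le T5 (T6 ∪ (T7 ∪ (T8 ∪ (T9 ∪ (T10 ∪ (T11 ∪ T12))))))
  have u7 := card_union_le T6 (T7 ∪ (T8 ∪ (T9 ∪ (T10 ∪ (T11 ∪ T12)))))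
  have u8 := card_union_le T7 (T8 ∪ (T9 ∪ (T10 ∪ (T11 ∪ T12))))
  have u9 := card_union_le T8 (T9 ∪ (T10 ∪ (T11 ∪ T12)))
  have u10 := card_union_le T9 (T10 ∪ (T11 ∪ T12))
  have u11 := card_union_le T10 (T11 ∪ T12)
  have u12 := card_union_le T11 T12
  rw [card_singleton] at u1
  omega

private theorem lam_two {u : ℕ} (hu : 0 < u) : lam (2 * u) = -lam u := by
  rw [lam_mul 2 u (by norm_num) hu, lam_prime Nat.prime_two]
  ring

private theorem chain_two : lam 2 = -1 := lam_prime Nat.prime_two

theorem red_mixed (m : ℕ) : (Ex m 1 2).card ≤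
    2 * ((range m).filter fun a => 0 < a ∧ lam a ≠ lam (m - a)).card + 1 := by
  classical
  set B : Finset ℕ := (range m).filter fun a => 0 < a ∧ lam a ≠ lam (m - a) with hBdef
  have c1 := chain_inj m B (fun x => 2 * x < m) (fun x => 2 * x)
    (by intro x y hx hy hxy; omega)
  have c2 := chain_inj m B (fun x => m < 2 * x) (fun x => 2 * x - m)
    (by intro x y hx hy hxy; omega)
  set T1 := (range m).filter fun x => 2 * x < m ∧ 2 * x ∈ B
  set T2 := (range m).filter fun x => m < 2 * x ∧ 2 * x - m ∈ B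
  have hsub : Ex m 1 2 ⊆ {m / 2} ∪ (T1 ∪ T2) := by
    intro x hx
    rw [mem_Ex, chain_two] at hx
    obtain ⟨hxm, hne⟩ := hx
    rcases lt_trichotomy (2 * x) m with h | h | h
    · -- small
      rcases Nat.eq_zero_or_pos x with h0 | h0
      · exfalso
        subst h0
        apply hne
        rw [mul_zero, F_zero, mul_zero]
      rw [F_small h0 h.le] at hne
      rcases Nat.lt_or_ge m (4 * x) with h4 | h4
      · refine mem_union_right _ (mem_union_left _ ?_)
        rw [F_big (by omega) h] at hne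
        simp only [T1, mem_filter, mem_range, hBdef]
        refine ⟨hxm, h, h, by omega, ?_⟩
        rw [lam_two h0]
        intro e
        apply hne
        rw [← e]
        ring
      · exfalso
        apply hne
        rw [F_small (by omega) (by omega), lam_two h0]
        ring
    · refine mem_union_left _ ?_
      rw [mem_singleton]
      omega
    · rw [F_big h hxm] at hne
      have hx2 : F m 1 (2 * x) = F m 1 (2 * x - m) := by
        apply F_congr
        have : 2 * x = (2 * x - m) + m := by omega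
        conv_lhs => rw [this, Nat.add_mod_right]
      rw [hx2] at hne
      have hmx : 0 < m - x := by omega
      have h22 : lam (2 * (m - x)) = -lam (m - x) := lam_two hmx
      rcases Nat.lt_or_ge (4 * x) (3 * m) with h4 | h4
      · refine mem_union_right _ (mem_union_right _ ?_)
        rw [F_small (by omega) (by omega)] at hne
        simp only [T2, mem_filter, mem_range, hBdef]
        refine ⟨hxm, h, by omega, by omega, ?_⟩
        intro e
        apply hne
        have : m - (2 * x - m) = 2 * (m - x) := by omega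
        rw [e, this, h22]
        ring
      · exfalso
        apply hne
        rcases Nat.eq_or_lt_of_le h4 with h4 | h4
        · rw [F_small (by omega) (by omega)]
          have : 2 * x - m = 2 * (m - x) := by omega
          rw [this, h22]
          ring
        · rw [F_big (by omega) (by omega)]
          have : m - (2 * x - m) = 2 * (m - x) := by omega
          rw [this, h22]
          ring
  have u0 := card_le_card hsub
  have u1 := card_union_le {m / 2} (T1 ∪ T2)
  have u2 := card_union_le T1 T2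
  rw [card_singleton] at u1
  omega

theorem red_same (m : ℕ) {s : ℤ} (hs : s = 1 ∨ s = -1) : (Ex m (-1) 2).card ≤
    24 * ((range (2 * m)).filter fun a => 0 < a ∧ lam a = s ∧ lam (2 * m - a) = s).card + 4 := by
  classical
  have hss : s * s = 1 := by rcases hs with h | h <;> rw [h] <;> norm_num
  have key : ∀ u, s * lam u = 1 ↔ lam u = s := by
    intro u
    constructor
    · intro h
      have : s * (s * lam u) = s * 1 := by rw [h]
      rw [← mul_assoc, hss, one_mul, mul_one] at this
      exact this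
    · intro h
      rw [h, hss]
  have hch := chain_card m (fun u => s * lam u)
    (by
      intro u _
      rcases hs with h | h <;> rcases lam_val u with h' | h' <;> rw [h, h'] <;> norm_num)
    (by
      intro u hu
      rw [lam_two hu]
      ring)
    (by
      intro u hu
      rw [lam_mul 3 u (by norm_num) hu, lam_prime Nat.prime_three]
      ring)
    (by
      intro u hu
      rw [lam_mul 5 u (by norm_num) hu, lam_prime Nat.prime_five]
      ring)
  simp only [key] at hch
  set C : ℕ := ((range (2 * m)).filter fun a => 0 < a ∧ lam a = s ∧ lam (2 * m - a) = s).card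
  set B : Finset ℕ := (range m).filter fun z => m < 4 * z ∧ 2 * z < m ∧ s * lam (m - 2 * z) ≠ s * lam z
    with hBdef
  have hmemB : ∀ z, z < m → m < 4 * z → 2 * z < m → lam (m - 2 * z) ≠ lam z → z ∈ B := by
    intro z h1 h2 h3 h4
    rw [hBdef, mem_filter, mem_range]
    refine ⟨h1, h2, h3, fun e => h4 ?_⟩
    have : s * (s * lam (m - 2 * z)) = s * (s * lam z) := by rw [e]
    rwa [← mul_assoc, ← mul_assoc, hss, one_mul, one_mul] at this
  have c2 := chain_inj m B (fun x => x < m) (fun x => m - x)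
    (by intro x y hx hy hxy; omega)
  set T2 := (range m).filter fun x => x < m ∧ m - x ∈ B
  have hsub : Ex m (-1) 2 ⊆ {m / 2} ∪ ({3 * m / 4} ∪ (B ∪ T2)) := by
    intro x hx
    rw [mem_Ex, chain_two] at hx
    obtain ⟨hxm, hne⟩ := hx
    rcases lt_trichotomy (2 * x) m with h | h | h
    · rcases Nat.eq_zero_or_pos x with h0 | h0
      · exfalso
        subst h0
        apply hne
        rw [mul_zero, F_zero, mul_zero]
      rw [F_small h0 h.le] at hne
      rcases Nat.lt_or_ge m (4 * x) with h4 | h4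
      · refine mem_union_right _ (mem_union_right _ (mem_union_left _ ?_))
        rw [F_big (by omega) h] at hne
        refine hmemB x hxm h4 h fun e => hne ?_
        rw [e]
      · exfalso
        apply hne
        rw [F_small (by omega) (by omega), lam_two h0]
        ring
    · refine mem_union_left _ ?_
      rw [mem_singleton]
      omega
    · rw [F_big h hxm] at hne
      have hx2 : F m (-1) (2 * x) = F m (-1) (2 * x - m) := by
        apply F_congr
        have : 2 * x = (2 * x - m) + m := by omega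
        conv_lhs => rw [this, Nat.add_mod_right]
      rw [hx2] at hne
      have hmx : 0 < m - x := by omega
      have h22 : lam (2 * (m - x)) = -lam (m - x) := lam_two hmx
      rcases lt_trichotomy (4 * x) (3 * m) with h4 | h4 | h4
      · refine mem_union_right _ (mem_union_right _ (mem_union_right _ ?_))
        rw [F_small (by omega) (by omega)] at hne
        simp only [T2, mem_filter, mem_range]
        refine ⟨hxm, hxm, hmemB (m - x) (by omega) (by omega) (by omega) fun e => hne ?_⟩
        have : m - 2 * (m - x) = 2 * x - m := by omega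
        rw [this] at e
        rw [e]
        ring
      · refine mem_union_right _ (mem_union_left _ ?_)
        rw [mem_singleton]
        omega
      · exfalso
        apply hne
        rw [F_big (by omega) (by omega)]
        have : m - (2 * x - m) = 2 * (m - x) := by omega
        rw [this, h22]
        ring
  have u0 := card_le_card hsub
  have u1 := card_union_le {m / 2} ({3 * m / 4} ∪ (B ∪ T2))
  have u2 := card_union_le {3 * m / 4} (B ∪ T2)
  have u3 := card_union_le B T2
  rw [card_singleton] at u1 u2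
  omega

end Pool.Agent.H11.LQ
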