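import Pool.Agent.H11.LQ.Defs

/-!
# LQ module Even: moduli divisible by a large power of two

`halve`.  `m = 2 n`.  If `x` and `x + n` are not in `Ex 2` then `F m x = - F m (2 x) = F m (x + n)`
(mod `m`).  Compare `F m x` with `F n x`: for `0 ≤ x ≤ m/4` and for `3m/4 < x < m` they are equal by
definition, for `m/4 < x < m/2` one uses `F m x = F m (x + n)`, for `m/2 < x ≤ 3m/4` one uses
`F m x = F m (x - n)`; `x = n` is an exception.  So at most `2 e_2 + 1` exceptions.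
If `x < n` is in `Ex n 2` then `x` is one of these exceptions, or `2 x < m` is one, or `x ∈ Ex m 2`:
`e_2(n) ≤ 5 e_2 + 2`.

`halves`: induction; `e_2(m / 2 ^ i) + 1 ≤ 5 ^ i (e_2(m) + 1)`, and the exceptions at step `i` are at
most `2 ^ i (2 e_2(m / 2 ^ i) + 1) ≤ 2 * 10 ^ i (e_2(m) + 1)` residues mod `m` (periodicity).

`even_case`: choose `j` with `m ^ (ε/16) / 2 < 2 ^ j ≤ m ^ (ε/16)`; `2 ^ j ∣ m`, `m' = m / 2 ^ j`.
For a prime `q` with `2 q ≤ 2 ^ j` and `x ∈ Ex m' q`: `x < m'`, so `2 q x < m` and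
`F m (q x) = lam q * F m x` (`not_mem_Ex_of_near`), hence `F m x ≠ F m' x` or
`F m (q x) ≠ F m' (q x)` (`q x < m`, `x ↦ q x` injective).  So
`card (Ex m' q) ≤ 2 * 10 ^ j (e_2 + 1) ≤ 2 m ^ (ε/4) (m ^ (1 - ε) + 1) ≤ m' ^ (1 - δ)`.
(Use `10 ^ j ≤ 16 ^ j = (2 ^ j) ^ 4`.)
-/

set_option autoImplicit false

namespace Pool.Agent.H11.LQ

open Finset
open Pool.Agent.H34PG (lam lam_val lam_mul lam_prime)

variable {m : ℕ} {η : ℤ}

/-- the residues mod `m` where the functions for `m` and `n` differ -/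
private def df (m n : ℕ) (η : ℤ) : Finset ℕ := (range m).filter fun x => F m η x ≠ F n η x

private theorem mem_df {m n : ℕ} {η : ℤ} {x : ℕ} :
    x ∈ df m n η ↔ x < m ∧ F m η x ≠ F n η x := by
  unfold df
  rw [mem_filter, mem_range]

private theorem even_ex2 {m : ℕ} {η : ℤ} {x : ℕ} (hx : x < m) (h : x ∉ Ex m η 2) :
    F m η (2 * x) = - F m η x := by
  rw [mem_Ex, not_and, not_not] at h
  rw [h hx, lam_prime Nat.prime_two]
  ring

private theorem even_key {n : ℕ} (hn : 0 < n) {x : ℕ} (hx : x ∈ df (2 * n) n η) :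
    x ∈ Ex (2 * n) η 2 ∨ (x + n) % (2 * n) ∈ Ex (2 * n) η 2 ∨ x = n := by
  rw [mem_df] at hx
  obtain ⟨h1, h2⟩ := hx
  by_contra hcon
  rw [not_or, not_or] at hcon
  obtain ⟨c1, c2, c3⟩ := hcon
  have hm : 0 < 2 * n := by omega
  have d1 := even_ex2 h1 c1
  have d2 := even_ex2 (Nat.mod_lt _ hm) c2
  rw [F_mod_mul, F_mod] at d2
  have e1 : F (2 * n) η (2 * (x + n)) = F (2 * n) η (2 * x) := by
    refine F_congr ?_
    rw [show 2 * (x + n) = 2 * x + 2 * n by ring, Nat.add_mod_right]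
  have e2 : F (2 * n) η x = F (2 * n) η (x + n) := by
    rw [e1, d1] at d2
    linarith
  apply h2
  rcases Nat.eq_zero_or_pos x with h0 | h0
  · subst h0
    rw [F_zero, F_zero]
  rcases Nat.lt_or_ge x n with h3 | h3
  · rcases Nat.lt_or_ge n (2 * x) with h4 | h4
    · rw [e2, F_big (by omega) (by omega), F_big h4 h3]
      congr 2
      omega
    · rw [F_small h0 (by omega), F_small h0 h4]
  · have h5 : n < x := by omega
    have e3 : F n η x = F n η (x - n) := by
      refine F_congr ?_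
      rw [Nat.mod_eq_sub_mod h3]
    rw [e3]
    rcases Nat.lt_or_ge n (2 * (x - n)) with h4 | h4
    · rw [F_big (m := n) h4 (by omega), F_big (by omega) h1]
      congr 2
      omega
    · rw [F_small (m := n) (by omega) h4, e2]
      have e4 : F (2 * n) η (x + n) = F (2 * n) η (x - n) := by
        refine F_congr ?_
        rw [show x + n = (x - n) + 2 * n by omega, Nat.add_mod_right]
      rw [e4, F_small (by omega) (by omega)]

private theorem even_df_card {n : ℕ} (hn : 0 < n) :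
    (df (2 * n) n η).card ≤ 2 * (Ex (2 * n) η 2).card + 1 := by
  classical
  have h1 : df (2 * n) n η ⊆ Ex (2 * n) η 2 ∪
      (((range (2 * n)).filter fun x => (x + n) % (2 * n) ∈ Ex (2 * n) η 2) ∪ {n}) := by
    intro x hx
    rw [mem_union, mem_union, mem_singleton, mem_filter, mem_range]
    rcases even_key hn hx with h | h | h
    · exact Or.inl h
    · exact Or.inr (Or.inl ⟨(mem_df.mp hx).1, h⟩)
    · exact Or.inr (Or.inr h)
  have h2 : ((range (2 * n)).filter fun x => (x + n) % (2 * n) ∈ Ex (2 * n) η 2).card ≤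
      (Ex (2 * n) η 2).card := by
    refine Finset.card_le_card_of_injOn (fun x => (x + n) % (2 * n)) ?_ ?_
    · intro x hx
      exact (mem_filter.mp hx).2
    · intro x hx y hy hxy
      have hx1 := mem_range.mp (mem_filter.mp hx).1
      have hy1 := mem_range.mp (mem_filter.mp hy).1
      have h3 : (x + n) ≡ (y + n) [MOD 2 * n] := hxy
      have h4 : x ≡ y [MOD 2 * n] := Nat.ModEq.add_right_cancel' n h3
      have h5 : x % (2 * n) = y % (2 * n) := h4
      rwa [Nat.mod_eq_of_lt hx1, Nat.mod_eq_of_lt hy1] at h5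
  have h3 := Finset.card_le_card h1
  have h4 := Finset.card_union_le (Ex (2 * n) η 2)
    (((range (2 * n)).filter fun x => (x + n) % (2 * n) ∈ Ex (2 * n) η 2) ∪ {n})
  have h5 := Finset.card_union_le
    ((range (2 * n)).filter fun x => (x + n) % (2 * n) ∈ Ex (2 * n) η 2) {n}
  rw [card_singleton] at h5
  omega

/-- multiples of elements -/
private theorem even_scale {m' m q : ℕ} (hq : 0 < q) (X S : Finset ℕ)
    (h : ∀ x ∈ S, q * x ∈ X) : S.card ≤ X.card := by
  refine Finset.card_le_card_of_injOn (fun x => q * x) (fun x hx => h x hx) ?_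
  intro x _ y _ hxy
  exact Nat.eq_of_mul_eq_mul_left hq hxy

private theorem even_halve_aux {n : ℕ} (hn : 0 < n) :
    (df (2 * n) n η).card ≤ 2 * (Ex (2 * n) η 2).card + 1 ∧
    (Ex n η 2).card ≤ 5 * (Ex (2 * n) η 2).card + 4 := by
  classical
  have h0 := even_df_card (η := η) hn
  refine ⟨h0, ?_⟩
  have h1 : Ex n η 2 ⊆ (df (2 * n) n η ∪
      ((range n).filter fun x => 2 * x ∈ df (2 * n) n η)) ∪ Ex (2 * n) η 2 := by
    intro x hx
    by_contra hcon
    rw [mem_union, mem_union, not_or, not_or, mem_filter, mem_range] at hcon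
    obtain ⟨⟨c1, c2⟩, c3⟩ := hcon
    rw [mem_Ex] at hx
    obtain ⟨h2, h3⟩ := hx
    have c2' : 2 * x ∉ df (2 * n) n η := fun h => c2 ⟨h2, h⟩
    rw [mem_df, not_and, not_not] at c1 c2'
    have d1 := c1 (by omega)
    have d2 := c2' (by omega)
    have d3 := even_ex2 (by omega) c3
    apply h3
    rw [← d1, ← d2, d3, lam_prime Nat.prime_two]
    ring
  have h2 : ((range n).filter fun x => 2 * x ∈ df (2 * n) n η).card ≤ (df (2 * n) n η).card :=
    even_scale (m' := n) (m := n) two_pos _ _ fun x hx => (mem_filter.mp hx).2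
  have h3 := Finset.card_le_card h1
  have h4 := Finset.card_union_le (df (2 * n) n η ∪
      ((range n).filter fun x => 2 * x ∈ df (2 * n) n η)) (Ex (2 * n) η 2)
  have h5 := Finset.card_union_le (df (2 * n) n η)
      ((range n).filter fun x => 2 * x ∈ df (2 * n) n η)
  omega

theorem halve (hη : η = 1 ∨ η = -1) (hm : 0 < m) (h2 : 2 ∣ m) :
    ((range m).filter fun x => F m η x ≠ F (m / 2) η x).card ≤ 2 * (Ex m η 2).card + 1 ∧
    (Ex (m / 2) η 2).card ≤ 5 * (Ex m η 2).card + 4 := by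
  obtain ⟨n, rfl⟩ := h2
  have hn : 0 < n := by omega
  have e : 2 * n / 2 = n := by omega
  rw [e]
  exact even_halve_aux hn

private theorem even_periodic {a b : ℕ} (ha : 0 < a) (p : ℕ → Prop) [DecidablePred p]
    (hp : ∀ x, p x ↔ p (x % a)) :
    ((range (b * a)).filter p).card ≤ b * ((range a).filter p).card := by
  have h : ((range (b * a)).filter p).card ≤ ((range b) ×ˢ ((range a).filter p)).card := by
    refine Finset.card_le_card_of_injOn (fun x => (x / a, x % a)) ?_ ?_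
    · intro x hx
      have hx' := mem_filter.mp hx
      rw [Finset.coe_product]
      refine ⟨?_, ?_⟩
      · exact mem_coe.mpr (mem_range.mpr
          ((Nat.div_lt_iff_lt_mul ha).mpr (mem_range.mp hx'.1)))
      · exact mem_coe.mpr (mem_filter.mpr
          ⟨mem_range.mpr (Nat.mod_lt _ ha), (hp x).mp hx'.2⟩)
    · intro x _ y _ hxy
      have h1 : x / a = y / a := congrArg Prod.fst hxy
      have h2 : x % a = y % a := congrArg Prod.snd hxy
      rw [← Nat.div_add_mod x a, ← Nat.div_add_mod y a, h1, h2]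
  rwa [Finset.card_product, Finset.card_range] at h

private theorem even_iter (hm : 0 < m) (j : ℕ) : 2 ^ j ∣ m →
    (Ex (m / 2 ^ j) η 2).card + 1 ≤ 5 ^ j * ((Ex m η 2).card + 1) ∧
    (df m (m / 2 ^ j) η).card ≤ 10 ^ j * ((Ex m η 2).card + 1) := by
  classical
  induction j with
  | zero =>
    intro _
    rw [pow_zero, Nat.div_one, pow_zero, one_mul, pow_zero, one_mul]
    refine ⟨le_refl _, ?_⟩
    have : df m m η = ∅ := by
      unfold df
      simp
    rw [this, card_empty]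
    omega
  | succ j ih =>
    intro hd
    have hd' : 2 ^ j ∣ m := (pow_dvd_pow 2 (Nat.le_succ j)).trans hd
    obtain ⟨h1, h2⟩ := ih hd'
    obtain ⟨n, hn⟩ := hd
    have hn0 : 0 < n := by
      rcases Nat.eq_zero_or_pos n with h | h
      · rw [h, mul_zero] at hn
        omega
      · exact h
    have hmj : m = 2 ^ j * (2 * n) := by rw [hn, pow_succ]; ring
    have e1 : m / 2 ^ j = 2 * n := by
      rw [hmj, Nat.mul_div_cancel_left _ (by positivity)]
    have e2 : m / 2 ^ (j + 1) = n := by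
      rw [hn, Nat.mul_div_cancel_left _ (by positivity)]
    rw [e1] at h1 h2
    rw [e2]
    obtain ⟨h3, h4⟩ := even_halve_aux (η := η) hn0
    refine ⟨?_, ?_⟩
    · calc (Ex n η 2).card + 1 ≤ 5 * ((Ex (2 * n) η 2).card + 1) := by omega
        _ ≤ 5 * (5 ^ j * ((Ex m η 2).card + 1)) := Nat.mul_le_mul_left _ h1
        _ = 5 ^ (j + 1) * ((Ex m η 2).card + 1) := by ring
    · have h5 : df m n η ⊆ df m (2 * n) η ∪
          ((range (2 ^ j * (2 * n))).filter fun x => F (2 * n) η x ≠ F n η x) := by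
        intro x hx
        rw [mem_df] at hx
        rw [mem_union, mem_df, mem_filter, mem_range, ← hmj]
        by_cases h : F m η x = F (2 * n) η x
        · right
          exact ⟨hx.1, by rw [← h]; exact hx.2⟩
        · left
          exact ⟨hx.1, h⟩
      have h6 : ((range (2 ^ j * (2 * n))).filter fun x => F (2 * n) η x ≠ F n η x).card ≤
          2 ^ j * (df (2 * n) n η).card := by
        refine even_periodic (by omega) (fun x => F (2 * n) η x ≠ F n η x) fun x => ?_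
        have e3 : F (2 * n) η (x % (2 * n)) = F (2 * n) η x := F_mod _ _ _
        have e4 : F n η (x % (2 * n)) = F n η x := by
          refine F_congr ?_
          exact Nat.mod_mod_of_dvd x (Dvd.intro_left 2 rfl)
        rw [e3, e4]
      have h7 := (Finset.card_le_card h5).trans (Finset.card_union_le _ _)
      have h8 : 2 ^ j * (df (2 * n) n η).card ≤ 2 * (10 ^ j * ((Ex m η 2).card + 1)) := by
        calc 2 ^ j * (df (2 * n) n η).card ≤ 2 ^ j * (2 * (5 ^ j * ((Ex m η 2).card + 1))) :=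
              Nat.mul_le_mul_left _ (by omega)
          _ = 2 * (10 ^ j * ((Ex m η 2).card + 1)) := by
              rw [show (10 : ℕ) = 2 * 5 by norm_num, mul_pow]
              ring
      have h9 : 10 ^ (j + 1) * ((Ex m η 2).card + 1) =
          10 * (10 ^ j * ((Ex m η 2).card + 1)) := by ring
      rw [h9]
      omega

theorem halves (hη : η = 1 ∨ η = -1) (hm : 0 < m) {j : ℕ} (h2 : 2 ^ j ∣ m) :
    ((range m).filter fun x => F m η x ≠ F (m / 2 ^ j) η x).card ≤
      10 ^ j * ((Ex m η 2).card + 1) :=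
  (even_iter hm j h2).2

theorem even_q (hη : η = 1 ∨ η = -1) (hm : 0 < m) {j q : ℕ} (h2 : 2 ^ j ∣ m)
    (hq : 0 < q) (hqj : 2 * q ≤ 2 ^ j) :
    (Ex (m / 2 ^ j) η q).card ≤ 2 * (10 ^ j * ((Ex m η 2).card + 1)) := by
  classical
  obtain ⟨n, hn⟩ := h2
  have e1 : m / 2 ^ j = n := by
    rw [hn, Nat.mul_div_cancel_left _ (by positivity)]
  have hX := (even_iter (η := η) hm j ⟨n, hn⟩).2
  rw [e1] at hX ⊢
  have h1 : Ex n η q ⊆ df m n η ∪ ((range n).filter fun x => q * x ∈ df m n η) := by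
    intro x hx
    by_contra hcon
    rw [mem_union, not_or, mem_filter, mem_range] at hcon
    obtain ⟨c1, c2⟩ := hcon
    rw [mem_Ex] at hx
    obtain ⟨h2, h3⟩ := hx
    have c2' : q * x ∉ df m n η := fun h => c2 ⟨h2, h⟩
    rw [mem_df, not_and, not_not] at c1 c2'
    have h5 : 2 * q * x < m := by
      calc 2 * q * x ≤ 2 ^ j * x := Nat.mul_le_mul_right _ hqj
        _ < 2 ^ j * n := Nat.mul_lt_mul_of_pos_left h2 (by positivity)
        _ = m := hn.symm
    have h6 : x ≤ q * x := Nat.le_mul_of_pos_left x hq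
    have h7 : 2 * (q * x) < m := by rw [← mul_assoc]; exact h5
    have h4 : x ∉ Ex m η q := not_mem_Ex_of_near hη hq (Or.inl h5)
    rw [mem_Ex, not_and, not_not] at h4
    have d1 := c1 (by omega)
    have d2 := c2' (by omega)
    have d3 := h4 (by omega)
    apply h3
    rw [← d1, ← d2, d3]
  have h2 : ((range n).filter fun x => q * x ∈ df m n η).card ≤ (df m n η).card :=
    even_scale (m' := n) (m := n) hq _ _ fun x hx => (mem_filter.mp hx).2
  have h3 := (Finset.card_le_card h1).trans (Finset.card_union_le _ _)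
  omega

theorem even_case (ε : ℝ) (hε : 0 < ε) (hε1 : ε ≤ 1) : ∃ δ : ℝ, 0 < δ ∧ δ ≤ 1 ∧ ∃ m0 : ℕ,
    ∀ m ≥ m0, ∀ η : ℤ, (η = 1 ∨ η = -1) →
    (∃ i, (m : ℝ) ^ (ε / 2) < ((Nat.gcd (2 ^ i) m : ℕ) : ℝ)) →
    ((Ex m η 2).card : ℝ) ≤ (m : ℝ) ^ (1 - ε) →
    ∃ m' : ℕ, (m : ℝ) ^ (1 / 2 : ℝ) ≤ m' ∧ ∀ q : ℕ, q.Prime → (q : ℝ) ≤ (m' : ℝ) ^ δ →
      ((Ex m' η q).card : ℝ) ≤ (m' : ℝ) ^ (1 - δ) := by
  obtain ⟨K, hK⟩ := exists_nat_gt ((4 : ℝ) ^ (80 / ε))
  refine ⟨ε / 20, by positivity, by linarith, K + 1, ?_⟩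
  rintro m hm η hη ⟨i, hi⟩ he
  have hm1 : 1 ≤ m := by omega
  have hm0 : 0 < m := by omega
  have hmr : (1 : ℝ) ≤ m := by exact_mod_cast hm1
  have hmp : (0 : ℝ) < m := by linarith
  have h4 : (4 : ℝ) ≤ (m : ℝ) ^ (ε / 80) := by
    have h6 : ((4 : ℝ) ^ (80 / ε)) ^ (ε / 80) = 4 := by
      rw [← Real.rpow_mul (by norm_num), div_mul_div_comm, mul_comm 80 ε, div_self (by positivity),
        Real.rpow_one]
    rw [← h6]
    refine Real.rpow_le_rpow (by positivity) ?_ (by positivity)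
    have : (K : ℝ) ≤ m := by exact_mod_cast (by omega : K ≤ m)
    linarith
  have hfl : ⌊(m : ℝ) ^ (ε / 16)⌋₊ ≠ 0 := by
    have : 1 ≤ ⌊(m : ℝ) ^ (ε / 16)⌋₊ := by
      refine Nat.le_floor ?_
      rw [Nat.cast_one]
      exact Real.one_le_rpow hmr (by positivity)
    omega
  set j := Nat.log 2 ⌊(m : ℝ) ^ (ε / 16)⌋₊ with hj
  have hj1 : ((2 : ℝ)) ^ j ≤ (m : ℝ) ^ (ε / 16) := by
    have h1 : 2 ^ j ≤ ⌊(m : ℝ) ^ (ε / 16)⌋₊ := Nat.pow_log_le_self 2 hfl
    calc ((2 : ℝ)) ^ j ≤ (⌊(m : ℝ) ^ (ε / 16)⌋₊ : ℝ) := by exact_mod_cast h1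
      _ ≤ (m : ℝ) ^ (ε / 16) := Nat.floor_le (by positivity)
  have hj2 : (m : ℝ) ^ (ε / 16) < 2 * (2 : ℝ) ^ j := by
    have h1 : ⌊(m : ℝ) ^ (ε / 16)⌋₊ < 2 ^ (j + 1) := Nat.lt_pow_succ_log_self (by norm_num) _
    have h2 : (m : ℝ) ^ (ε / 16) < ((2 ^ (j + 1) : ℕ) : ℝ) := (Nat.floor_lt' (by positivity)).mp h1
    push_cast at h2
    rw [pow_succ] at h2
    linarith
  -- `2 ^ j ∣ m`
  have hdvd : 2 ^ j ∣ m := by
    obtain ⟨a, ha, hga⟩ := (Nat.dvd_prime_pow Nat.prime_two).mp (Nat.gcd_dvd_left (2 ^ i) m)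
    rw [hga] at hi
    have h1 : ((2 : ℝ)) ^ j < (2 : ℝ) ^ a := by
      calc ((2 : ℝ)) ^ j ≤ (m : ℝ) ^ (ε / 16) := hj1
        _ ≤ (m : ℝ) ^ (ε / 2) := Real.rpow_le_rpow_of_exponent_le hmr (by linarith)
        _ < (2 : ℝ) ^ a := by exact_mod_cast hi
    have h2 : j < a := (pow_lt_pow_iff_right₀ (by norm_num : (1 : ℝ) < 2)).mp h1
    have h3 : 2 ^ a ∣ m := by rw [← hga]; exact Nat.gcd_dvd_right _ _
    exact (pow_dvd_pow 2 h2.le).trans h3
  have hm' : ((m / 2 ^ j : ℕ) : ℝ) = (m : ℝ) / 2 ^ j := by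
    rw [Nat.cast_div hdvd (by positivity)]
    push_cast
    rfl
  have hlow : (m : ℝ) ^ (1 - ε / 16) ≤ ((m / 2 ^ j : ℕ) : ℝ) := by
    rw [hm', le_div_iff₀ (by positivity), Real.rpow_sub hmp, Real.rpow_one, div_mul_eq_mul_div,
      div_le_iff₀ (by positivity)]
    exact mul_le_mul_of_nonneg_left hj1 hmp.le
  have hup : ((m / 2 ^ j : ℕ) : ℝ) ≤ m := by
    exact_mod_cast Nat.div_le_self m (2 ^ j)
  refine ⟨m / 2 ^ j, ?_, fun q hq hqm => ?_⟩
  · exact (Real.rpow_le_rpow_of_exponent_le hmr (by linarith)).trans hlow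
  · have hq2 : 2 * q ≤ 2 ^ j := by
      have h1 : (q : ℝ) ≤ (m : ℝ) ^ (ε / 20) :=
        hqm.trans (Real.rpow_le_rpow (by positivity) hup (by positivity))
      have h2 : (m : ℝ) ^ (ε / 16) = (m : ℝ) ^ (ε / 80) * (m : ℝ) ^ (ε / 20) := by
        rw [← Real.rpow_add hmp]
        congr 1
        ring
      have h3 : 4 * (m : ℝ) ^ (ε / 20) ≤ (m : ℝ) ^ (ε / 16) := by
        rw [h2]
        exact mul_le_mul_of_nonneg_right h4 (by positivity)
      have h5 : (2 : ℝ) * q ≤ (2 : ℝ) ^ j := by linarith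
      exact_mod_cast h5
    have h1 := even_q hη hm0 hdvd hq.pos hq2
    have h2 : ((Ex (m / 2 ^ j) η q).card : ℝ) ≤ 2 * ((10 : ℝ) ^ j * ((Ex m η 2).card + 1)) := by
      exact_mod_cast h1
    have h3 : (10 : ℝ) ^ j ≤ (m : ℝ) ^ (ε / 4) := by
      calc (10 : ℝ) ^ j ≤ (16 : ℝ) ^ j := pow_le_pow_left₀ (by norm_num) (by norm_num) j
        _ = ((2 : ℝ) ^ j) ^ 4 := by
            rw [← pow_mul, mul_comm, pow_mul]
            norm_num
        _ ≤ ((m : ℝ) ^ (ε / 16)) ^ 4 := pow_le_pow_left₀ (by positivity) hj1 4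
        _ = (m : ℝ) ^ (ε / 4) := by
            rw [← Real.rpow_natCast, ← Real.rpow_mul hmp.le]
            congr 1
            push_cast
            ring
    have h5 : ((Ex m η 2).card : ℝ) + 1 ≤ 2 * (m : ℝ) ^ (1 - ε) := by
      have : (1 : ℝ) ≤ (m : ℝ) ^ (1 - ε) := Real.one_le_rpow hmr (by linarith)
      linarith
    have h6 : ((Ex (m / 2 ^ j) η q).card : ℝ) ≤ 4 * (m : ℝ) ^ (1 - 3 * ε / 4) := by
      have h7 : (m : ℝ) ^ (1 - 3 * ε / 4) = (m : ℝ) ^ (ε / 4) * (m : ℝ) ^ (1 - ε) := by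
        rw [← Real.rpow_add hmp]
        congr 1
        ring
      rw [h7]
      refine h2.trans ?_
      have h8 : (10 : ℝ) ^ j * (((Ex m η 2).card : ℝ) + 1) ≤
          (m : ℝ) ^ (ε / 4) * (2 * (m : ℝ) ^ (1 - ε)) :=
        mul_le_mul h3 h5 (by positivity) (by positivity)
      linarith
    refine h6.trans ?_
    have h9 : ((m : ℝ) ^ (1 - ε / 16)) ^ (1 - ε / 20) ≤ ((m / 2 ^ j : ℕ) : ℝ) ^ (1 - ε / 20) :=
      Real.rpow_le_rpow (by positivity) hlow (by linarith)
    refine le_trans ?_ h9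
    rw [← Real.rpow_mul hmp.le]
    have h10 : (m : ℝ) ^ (1 - 3 * ε / 4 + ε / 80) ≤ (m : ℝ) ^ ((1 - ε / 16) * (1 - ε / 20)) := by
      refine Real.rpow_le_rpow_of_exponent_le hmr ?_
      nlinarith [mul_pos hε hε]
    refine le_trans ?_ h10
    rw [Real.rpow_add hmp, mul_comm]
    exact mul_le_mul_of_nonneg_left h4 (by positivity)

end Pool.Agent.H11.LQ
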