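import Pool.Agent.H11.LQ.Induct
import Pool.Agent.H11.LQ.Even

/-!
# LQ module Combi: the combinatorial part
-/

set_option autoImplicit false

namespace Pool.Agent.H11.LQ

open Finset
open Pool.Agent.H34PG (lam lam_val lam_mul lam_prime)

private theorem combi_pow {x : ℕ} (hx : 1 ≤ x) {a b : ℝ} (h : a ≤ b) :
    (x : ℝ) ^ a ≤ (x : ℝ) ^ b :=
  Real.rpow_le_rpow_of_exponent_le (by exact_mod_cast hx) h

theorem combi (ε : ℝ) (hε : 0 < ε) : ∃ δ : ℝ, 0 < δ ∧ δ ≤ 1 ∧ ∃ m0 : ℕ,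
    ∀ m ≥ m0, ∀ η : ℤ, (η = 1 ∨ η = -1) → ((Ex m η 2).card : ℝ) ≤ (m : ℝ) ^ (1 - ε) →
    ∃ m' : ℕ, (m : ℝ) ^ (1 / 2 : ℝ) ≤ m' ∧ ∀ q : ℕ, q.Prime → (q : ℝ) ≤ (m' : ℝ) ^ δ →
      ((Ex m' η q).card : ℝ) ≤ (m' : ℝ) ^ (1 - δ) := by
  have h0 : 0 < min ε 1 := lt_min hε one_pos
  obtain ⟨δ1, hδ1, hδ1', m1, h1⟩ := induct (min ε 1) h0 (min_le_right _ _)
  obtain ⟨δ2, hδ2, hδ2', m2, h2⟩ := even_case (min ε 1) h0 (min_le_right _ _)
  refine ⟨min δ1 δ2, lt_min hδ1 hδ2, (min_le_left _ _).trans hδ1', m1 + m2 + 1, ?_⟩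
  intro m hm η hη he
  have hm1 : 1 ≤ m := by omega
  have he' : ((Ex m η 2).card : ℝ) ≤ (m : ℝ) ^ (1 - min ε 1) :=
    he.trans (combi_pow hm1 (by have := min_le_left ε 1; linarith))
  by_cases hg : ∀ i, ((Nat.gcd (2 ^ i) m : ℕ) : ℝ) ≤ (m : ℝ) ^ (min ε 1 / 2)
  · refine ⟨m, ?_, fun q hq hqm => ?_⟩
    · calc (m : ℝ) ^ (1 / 2 : ℝ) ≤ (m : ℝ) ^ (1 : ℝ) := combi_pow hm1 (by norm_num)
        _ = m := Real.rpow_one _
    · refine (h1 m (by omega) η hη hg he' q hq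
        (hqm.trans (combi_pow hm1 (min_le_left _ _)))).trans (combi_pow hm1 ?_)
      have := min_le_left δ1 δ2
      linarith
  · push Not at hg
    obtain ⟨m', hm', h3⟩ := h2 m (by omega) η hη hg he'
    have hm'1 : 1 ≤ m' := by
      have : (1 : ℝ) ≤ (m : ℝ) ^ (1 / 2 : ℝ) :=
        Real.one_le_rpow (by exact_mod_cast hm1) (by norm_num)
      exact_mod_cast this.trans hm'
    refine ⟨m', hm', fun q hq hqm => ?_⟩
    refine (h3 q hq (hqm.trans (combi_pow hm'1 (min_le_right _ _)))).trans (combi_pow hm'1 ?_)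
    have := min_le_right δ1 δ2
    linarith

end Pool.Agent.H11.LQ
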