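import Pool.Agent.H11.LQ.Even

/-!
# LQ stage 2, module Even2: moduli divisible by a power of two larger than `ρ ^ (-1/8)`

Model: `even_case` in Pool/Agent/H11/LQ/Even.lean; use `even_q` of that file.
`j = Nat.log 2 ⌊ρ ^ (-1/16)⌋`: `2 ^ j ≤ ρ ^ (-1/16) < 2 ^ (j + 1)`; `2 ^ j ∣ m`, `m1 = m / 2 ^ j ≥ ρ ^ (1/16) m ≥
m ^ (1/2)`.  For a prime `q ≤ (log m) ^ 800`: `2 q ≤ 2 ^ j` as `2 ^ j ≥ ρ ^ (-1/16) / 2 ≥ (log m) ^ (C0/16) / 2`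
with `C0 = 16 * 801` (or larger) and `log m ≥ 4`.  `even_q`:
`card (Ex m1 q) ≤ 2 * 10 ^ j (e_2 + 1) ≤ 2 ρ ^ (-1/4) (ρ m + 1) ≤ 4 ρ ^ (3/4) m ≤ √ρ m1`
(`10 ^ j ≤ 16 ^ j = (2 ^ j) ^ 4 ≤ ρ ^ (-1/4)`, `1 ≤ ρ m` from `m ^ (-c0) ≤ ρ`, `c0 = 1/2`, `4 ≤ ρ ^ (-3/16)`).
-/

set_option autoImplicit false

namespace Pool.Agent.H11.LQ

open Finset
open Pool.Agent.H34PG (lam lam_val lam_mul lam_prime)

theorem even_case2 : ∃ c0 : ℝ, 0 < c0 ∧ ∃ C0 : ℕ, ∃ m0 : ℕ, ∀ m ≥ m0, ∀ ρ : ℝ,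
    (m : ℝ) ^ (-c0) ≤ ρ → ρ * Real.log m ^ C0 ≤ 1 → ∀ η : ℤ, (η = 1 ∨ η = -1) →
    (∃ i, ρ ^ (-(1 / 8) : ℝ) < ((Nat.gcd (2 ^ i) m : ℕ) : ℝ)) →
    ((Ex m η 2).card : ℝ) ≤ ρ * m →
    ∃ m1 : ℕ, m1 ∣ m ∧ (m : ℝ) ^ (1 / 2 : ℝ) ≤ m1 ∧ ∀ q : ℕ, q.Prime →
      (q : ℝ) ≤ Real.log m1 ^ 800 → ((Ex m1 η q).card : ℝ) ≤ Real.sqrt ρ * m1 := by
  refine ⟨1 / 2, by norm_num, 16 * 801, 100, ?_⟩
  rintro m hm ρ hρ hρ1 η hη ⟨i, hi⟩ he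
  have hm0 : 0 < m := by omega
  have hmr : (100 : ℝ) ≤ m := by exact_mod_cast hm
  have hmp : (0 : ℝ) < m := by linarith
  have hρ0 : 0 < ρ := lt_of_lt_of_le (Real.rpow_pos_of_pos hmp _) hρ
  -- `4 ≤ log m`
  have hL : (4 : ℝ) ≤ Real.log m := by
    rw [Real.le_log_iff_exp_le hmp]
    have h1 : Real.exp 4 = Real.exp 1 ^ 4 := by
      rw [← Real.exp_nat_mul]
      norm_num
    have h2 : Real.exp 1 < 3 := Real.exp_one_lt_d9.trans (by norm_num)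
    have h3 : Real.exp 1 ^ 4 ≤ 3 ^ 4 := pow_le_pow_left₀ (Real.exp_pos 1).le h2.le 4
    rw [h1]
    linarith
  -- the number `R = ρ ^ (-1/16)`
  obtain ⟨R, hR⟩ : ∃ R, R = ρ ^ (-(1 / 16) : ℝ) := ⟨_, rfl⟩
  have hR0 : 0 < R := by rw [hR]; exact Real.rpow_pos_of_pos hρ0 _
  have hR16 : R ^ 16 * ρ = 1 := by
    rw [hR, ← Real.rpow_natCast, ← Real.rpow_mul hρ0.le]
    norm_num
    rw [Real.rpow_neg_one]
    exact inv_mul_cancel₀ hρ0.ne'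
  have hR2 : ρ ^ (-(1 / 8) : ℝ) = R ^ 2 := by
    rw [hR, ← Real.rpow_natCast, ← Real.rpow_mul hρ0.le]
    norm_num
  have hRL : Real.log m ^ 801 ≤ R := by
    have h1 : (Real.log m ^ 801) ^ 16 ≤ R ^ 16 := by
      have h2 : (Real.log m ^ 801) ^ 16 * ρ ≤ R ^ 16 * ρ := by
        rw [hR16, ← pow_mul, mul_comm 801 16, mul_comm]
        exact hρ1
      exact le_of_mul_le_mul_right h2 hρ0
    exact le_of_pow_le_pow_left₀ (by norm_num) hR0.le h1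
  have hR4 : (4 : ℝ) ≤ R := by
    refine hL.trans (le_trans ?_ hRL)
    exact le_self_pow₀ (by linarith) (by norm_num)
  have hR1 : (1 : ℝ) ≤ R := by linarith
  have hRm : R ^ 16 ≤ (m : ℝ) ^ (1 / 2 : ℝ) := by
    have h1 : (m : ℝ) ^ (-(1 / 2) : ℝ) * (m : ℝ) ^ (1 / 2 : ℝ) = 1 := by
      rw [← Real.rpow_add hmp]
      norm_num
    have h2 : R ^ 16 * ρ ≤ (m : ℝ) ^ (1 / 2 : ℝ) * ρ := by
      have h3 : (m : ℝ) ^ (1 / 2 : ℝ) * (m : ℝ) ^ (-(1 / 2) : ℝ) ≤ (m : ℝ) ^ (1 / 2 : ℝ) * ρ :=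
        mul_le_mul_of_nonneg_left hρ (by positivity)
      rw [hR16]
      linarith
    exact le_of_mul_le_mul_right h2 hρ0
  have hsq : (m : ℝ) ^ (1 / 2 : ℝ) * (m : ℝ) ^ (1 / 2 : ℝ) = m := by
    rw [← Real.rpow_add hmp]
    norm_num
  have hsm : (m : ℝ) ^ (1 / 2 : ℝ) ≤ m := by
    calc (m : ℝ) ^ (1 / 2 : ℝ) ≤ (m : ℝ) ^ (1 : ℝ) :=
          Real.rpow_le_rpow_of_exponent_le (by linarith) (by norm_num)
      _ = m := Real.rpow_one _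
  have hRR : R ≤ (m : ℝ) ^ (1 / 2 : ℝ) := (le_self_pow₀ hR1 (by norm_num)).trans hRm
  have hfl : ⌊R⌋₊ ≠ 0 := by
    have : 1 ≤ ⌊R⌋₊ := by
      refine Nat.le_floor ?_
      rw [Nat.cast_one]
      exact hR1
    omega
  obtain ⟨j, hj⟩ : ∃ j, j = Nat.log 2 ⌊R⌋₊ := ⟨_, rfl⟩
  have hj1 : ((2 : ℝ)) ^ j ≤ R := by
    have h1 : 2 ^ j ≤ ⌊R⌋₊ := by rw [hj]; exact Nat.pow_log_le_self 2 hfl
    calc ((2 : ℝ)) ^ j ≤ (⌊R⌋₊ : ℝ) := by exact_mod_cast h1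
      _ ≤ R := Nat.floor_le hR0.le
  have hj2 : R < 2 * (2 : ℝ) ^ j := by
    have h1 : ⌊R⌋₊ < 2 ^ (j + 1) := by rw [hj]; exact Nat.lt_pow_succ_log_self (by norm_num) _
    have h2 : R < ((2 ^ (j + 1) : ℕ) : ℝ) := (Nat.floor_lt' (by positivity)).mp h1
    push_cast at h2
    rw [pow_succ] at h2
    linarith
  have hdvd : 2 ^ j ∣ m := by
    obtain ⟨a, ha, hga⟩ := (Nat.dvd_prime_pow Nat.prime_two).mp (Nat.gcd_dvd_left (2 ^ i) m)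
    rw [hga, hR2] at hi
    have h1 : ((2 : ℝ)) ^ j < (2 : ℝ) ^ a := by
      calc ((2 : ℝ)) ^ j ≤ R := hj1
        _ ≤ R ^ 2 := le_self_pow₀ hR1 (by norm_num)
        _ < (2 : ℝ) ^ a := by exact_mod_cast hi
    have h2 : j < a := (pow_lt_pow_iff_right₀ (by norm_num : (1 : ℝ) < 2)).mp h1
    have h3 : 2 ^ a ∣ m := by rw [← hga]; exact Nat.gcd_dvd_right _ _
    exact (pow_dvd_pow 2 h2.le).trans h3
  have hm' : ((m / 2 ^ j : ℕ) : ℝ) * 2 ^ j = (m : ℝ) := by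
    have h1 : m / 2 ^ j * 2 ^ j = m := Nat.div_mul_cancel hdvd
    exact_mod_cast h1
  obtain ⟨m1, hm1⟩ : ∃ m1, m1 = m / 2 ^ j := ⟨_, rfl⟩
  rw [← hm1] at hm'
  have hlow : (m : ℝ) ≤ (m1 : ℝ) * R := by
    rw [← hm']
    exact mul_le_mul_of_nonneg_left hj1 (by positivity)
  have hup : (m1 : ℝ) ≤ m := by
    rw [hm1]
    exact_mod_cast Nat.div_le_self m (2 ^ j)
  have hm1r : (m : ℝ) ^ (1 / 2 : ℝ) ≤ (m1 : ℝ) := by
    by_contra hcon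
    rw [not_le] at hcon
    have h1 : (m1 : ℝ) * R < (m : ℝ) ^ (1 / 2 : ℝ) * (m : ℝ) ^ (1 / 2 : ℝ) :=
      mul_lt_mul hcon hRR hR0 (by positivity)
    rw [hsq] at h1
    linarith
  have hm11 : (1 : ℝ) ≤ m1 := le_trans (Real.one_le_rpow (by linarith) (by norm_num)) hm1r
  refine ⟨m1, by rw [hm1]; exact Nat.div_dvd_of_dvd hdvd, hm1r, fun q hq hqm => ?_⟩
  have hq2 : 2 * q ≤ 2 ^ j := by
    have h0 : Real.log m1 ≤ Real.log m := Real.log_le_log (by linarith) hup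
    have h1 : (q : ℝ) ≤ Real.log m ^ 800 :=
      hqm.trans (pow_le_pow_left₀ (Real.log_nonneg hm11) h0 800)
    have h2 : Real.log m ^ 801 = Real.log m ^ 800 * Real.log m := pow_succ _ _
    have h3 : Real.log m ^ 800 * 4 ≤ Real.log m ^ 800 * Real.log m :=
      mul_le_mul_of_nonneg_left hL (by positivity)
    have h5 : (2 : ℝ) * q ≤ (2 : ℝ) ^ j := by linarith
    exact_mod_cast h5
  have h1 := even_q hη hm0 hdvd hq.pos hq2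
  rw [← hm1] at h1
  have h2 : ((Ex m1 η q).card : ℝ) ≤ 2 * ((10 : ℝ) ^ j * ((Ex m η 2).card + 1)) := by
    exact_mod_cast h1
  have h3 : (10 : ℝ) ^ j ≤ R ^ 4 := by
    calc (10 : ℝ) ^ j ≤ (16 : ℝ) ^ j := pow_le_pow_left₀ (by norm_num) (by norm_num) j
      _ = ((2 : ℝ) ^ j) ^ 4 := by
          rw [← pow_mul, mul_comm, pow_mul]
          norm_num
      _ ≤ R ^ 4 := pow_le_pow_left₀ (by positivity) hj1 4
  have h4 : (1 : ℝ) ≤ ρ * m := by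
    have h5 : R ^ 16 * ρ ≤ m * ρ := mul_le_mul_of_nonneg_right (hRm.trans hsm) hρ0.le
    rw [hR16] at h5
    linarith
  have h5 : ((Ex m η 2).card : ℝ) + 1 ≤ 2 * (ρ * m) := by linarith
  have h6 : ((Ex m1 η q).card : ℝ) ≤ 2 * (R ^ 4 * (2 * (ρ * m))) := by
    refine h2.trans ?_
    exact mul_le_mul_of_nonneg_left (mul_le_mul h3 h5 (by positivity) (by positivity)) (by norm_num)
  have hs : Real.sqrt ρ * R ^ 8 = 1 := by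
    have h7 : ρ = ((R ^ 8)⁻¹) ^ 2 := by
      rw [inv_pow, ← pow_mul]
      norm_num
      exact eq_inv_of_mul_eq_one_left (by rw [mul_comm]; exact hR16)
    rw [h7, Real.sqrt_sq (by positivity)]
    exact inv_mul_cancel₀ (by positivity)
  -- multiply by `R ^ 12`
  have h8 : ((Ex m1 η q).card : ℝ) * R ^ 12 ≤ (Real.sqrt ρ * m1) * R ^ 12 := by
    calc ((Ex m1 η q).card : ℝ) * R ^ 12 ≤ 2 * (R ^ 4 * (2 * (ρ * m))) * R ^ 12 :=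
          mul_le_mul_of_nonneg_right h6 (by positivity)
      _ = 4 * m * (R ^ 16 * ρ) := by ring
      _ = 4 * m := by rw [hR16, mul_one]
      _ ≤ R ^ 3 * (m1 * R) := by
          have h9 : R ≤ R ^ 3 := le_self_pow₀ hR1 (by norm_num)
          exact mul_le_mul (by linarith) hlow hmp.le (by positivity)
      _ = (Real.sqrt ρ * R ^ 8) * (m1 * R ^ 4) := by rw [hs]; ring
      _ = (Real.sqrt ρ * m1) * R ^ 12 := by ring
  exact le_of_mul_le_mul_right h8 (by positivity)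

end Pool.Agent.H11.LQ
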