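import Pool.Agent.H11.LQ.Induct2
import Pool.Agent.H11.LQ.Even2

/-!
# LQ stage 2, module Combi2: the combinatorial part with polylogarithmic loss
-/

set_option autoImplicit false

namespace Pool.Agent.H11.LQ

open Finset
open Pool.Agent.H34PG (lam lam_val lam_mul lam_prime)

theorem combi2 : ∃ c0 : ℝ, 0 < c0 ∧ ∃ C0 : ℕ, ∃ m0 : ℕ, ∀ m ≥ m0, ∀ ρ : ℝ,
    (m : ℝ) ^ (-c0) ≤ ρ → ρ * Real.log m ^ C0 ≤ 1 → ∀ η : ℤ, (η = 1 ∨ η = -1) →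
    ((Ex m η 2).card : ℝ) ≤ ρ * m →
    ∃ m1 : ℕ, m1 ∣ m ∧ (m : ℝ) ^ (1 / 2 : ℝ) ≤ m1 ∧ ∀ q : ℕ, q.Prime →
      (q : ℝ) ≤ Real.log m1 ^ 800 → ((Ex m1 η q).card : ℝ) ≤ Real.sqrt ρ * m1 := by
  obtain ⟨a, ha, A, m1, h1⟩ := induct2
  obtain ⟨b, hb, B, m2, h2⟩ := even_case2
  refine ⟨min a b, lt_min ha hb, A + B, m1 + m2 + 3, fun m hm ρ hρ1 hρ2 η hη he => ?_⟩
  have hm1 : (1 : ℝ) ≤ m := by exact_mod_cast (by omega : 1 ≤ m)
  have hm0 : (0 : ℝ) < m := by linarith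
  have hρ0 : 0 < ρ := lt_of_lt_of_le (by positivity) hρ1
  have hlog : 1 ≤ Real.log m := by
    rw [Real.le_log_iff_exp_le hm0]
    have h3 : (3 : ℝ) ≤ m := by exact_mod_cast (by omega : 3 ≤ m)
    have := Real.exp_one_lt_d9
    linarith
  have hA : ρ * Real.log m ^ A ≤ 1 := by
    refine le_trans (mul_le_mul_of_nonneg_left ?_ hρ0.le) hρ2
    exact pow_le_pow_right₀ hlog (by omega)
  have hB : ρ * Real.log m ^ B ≤ 1 := by
    refine le_trans (mul_le_mul_of_nonneg_left ?_ hρ0.le) hρ2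
    exact pow_le_pow_right₀ hlog (by omega)
  have ha' : (m : ℝ) ^ (-a) ≤ ρ := le_trans (Real.rpow_le_rpow_of_exponent_le hm1
    (by have := min_le_left a b; linarith)) hρ1
  have hb' : (m : ℝ) ^ (-b) ≤ ρ := le_trans (Real.rpow_le_rpow_of_exponent_le hm1
    (by have := min_le_right a b; linarith)) hρ1
  by_cases hg : ∀ i, ((Nat.gcd (2 ^ i) m : ℕ) : ℝ) ≤ ρ ^ (-(1 / 8) : ℝ)
  · refine ⟨m, dvd_refl m, ?_, fun q hq hqm => h1 m (by omega) ρ ha' hA η hη hg he q hq hqm⟩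
    calc (m : ℝ) ^ (1 / 2 : ℝ) ≤ (m : ℝ) ^ (1 : ℝ) :=
          Real.rpow_le_rpow_of_exponent_le hm1 (by norm_num)
      _ = m := Real.rpow_one _
  · push Not at hg
    exact h2 m (by omega) ρ hb' hB η hη hg he

end Pool.Agent.H11.LQ
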