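import Pool.Agent.H34PG.Final

/-!
# LQ (MP_967f73_nt, helper78 and helper11): quantitative parity Goldbach: definitions

`lam` is the Liouville function.  `F m η` is the function of period `m` which is `lam` on `(0, m/2]`,
`η * lam` of the absolute value on `(-m/2, 0)` and `0` at `0`.  `Ex m η b` is the set of residues at
which multiplication by `b` does not multiply `F` by `lam b`.
-/

set_option autoImplicit false

namespace Pool.Agent.H11.LQ

open Finset
open Pool.Agent.H34PG (lam lam_val lam_mul lam_prime)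

/-- the extension of `lam` from `(0, m/2]` to all residues mod `m`, with `F (-x) = η F x`, `F 0 = 0` -/
def F (m : ℕ) (η : ℤ) (n : ℕ) : ℤ :=
  if n % m = 0 then 0 else if 2 * (n % m) ≤ m then lam (n % m) else η * lam (m - n % m)

/-- the residues at which multiplication by `b` is not respected -/
def Ex (m : ℕ) (η : ℤ) (b : ℕ) : Finset ℕ :=
  (range m).filter fun x => F m η (b * x) ≠ lam b * F m η x

variable {m : ℕ} {η : ℤ}

theorem F_mod (m : ℕ) (η : ℤ) (n : ℕ) : F m η (n % m) = F m η n := by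
  unfold F
  rw [Nat.mod_mod]

theorem F_congr {a b : ℕ} (h : a % m = b % m) : F m η a = F m η b := by
  rw [← F_mod, h, F_mod]

theorem F_mod_mul (m : ℕ) (η : ℤ) (b n : ℕ) : F m η (b * (n % m)) = F m η (b * n) :=
  F_congr (by rw [Nat.mul_mod, Nat.mod_mod, ← Nat.mul_mod])

theorem F_zero (m : ℕ) (η : ℤ) : F m η 0 = 0 := by
  unfold F
  rw [Nat.zero_mod, if_pos rfl]

theorem F_dvd {n : ℕ} (h : m ∣ n) : F m η n = 0 := by
  unfold F
  rw [Nat.mod_eq_zero_of_dvd h, if_pos rfl]

theorem F_small {n : ℕ} (h0 : 0 < n) (h : 2 * n ≤ m) : F m η n = lam n := by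
  unfold F
  rw [Nat.mod_eq_of_lt (by omega), if_neg (by omega), if_pos h]

theorem F_big {n : ℕ} (h0 : m < 2 * n) (h : n < m) : F m η n = η * lam (m - n) := by
  unfold F
  rw [Nat.mod_eq_of_lt h, if_neg (by omega), if_neg (by omega)]

theorem F_val (hη : η = 1 ∨ η = -1) {n : ℕ} (h : ¬ m ∣ n) : F m η n = 1 ∨ F m η n = -1 := by
  unfold F
  rw [if_neg fun h1 => h (Nat.dvd_of_mod_eq_zero h1)]
  split_ifs
  · exact lam_val _
  · rcases hη with h3 | h3 <;> rcases lam_val (m - n % m) with h4 | h4 <;> rw [h3, h4] <;> norm_num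

/-- `F (-x) = η F x` (away from `m / 2`). -/
theorem F_neg (hη : η = 1 ∨ η = -1) {a b : ℕ} (h : m ∣ a + b) (h2 : 2 * (a % m) ≠ m) :
    F m η b = η * F m η a := by
  rcases Nat.eq_zero_or_pos m with h0 | h0
  · subst h0
    rw [zero_dvd_iff] at h
    obtain rfl : a = 0 := by omega
    obtain rfl : b = 0 := by omega
    rw [F_zero, mul_zero]
  by_cases ha : m ∣ a
  · rw [F_dvd ha, F_dvd ((Nat.dvd_add_right ha).mp h), mul_zero]
  · have h1 : (a % m + b % m) % m = 0 := by rw [← Nat.add_mod]; exact Nat.mod_eq_zero_of_dvd h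
    have h3 : a % m < m := Nat.mod_lt _ h0
    have h4 : b % m < m := Nat.mod_lt _ h0
    have h5 : a % m ≠ 0 := fun h6 => ha (Nat.dvd_of_mod_eq_zero h6)
    have h6 : a % m + b % m = m := by
      obtain ⟨k, hk⟩ := Nat.dvd_of_mod_eq_zero h1
      have : k = 1 := by
        by_contra hk1
        rcases Nat.lt_or_ge k 1 with h7 | h7
        · have : k = 0 := by omega
          subst this
          omega
        · have : m * 2 ≤ m * k := Nat.mul_le_mul_left _ (by omega)
          omega
      rw [this] at hk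
      omega
    rw [← F_mod m η a, ← F_mod m η b]
    rcases Nat.lt_or_ge m (2 * (a % m)) with h7 | h7
    · rw [F_big h7 h3, F_small (by omega) (by omega)]
      have h8 : m - a % m = b % m := by omega
      rw [h8]
      rcases hη with h9 | h9 <;> rw [h9] <;> ring
    · rw [F_big (n := b % m) (by omega) h4, F_small (n := a % m) (by omega) h7]
      have h8 : m - b % m = a % m := by omega
      rw [h8]

theorem lam_sq (n : ℕ) : lam n * lam n = 1 := by
  rcases lam_val n with h | h <;> rw [h] <;> norm_num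

theorem mem_Ex {b x : ℕ} : x ∈ Ex m η b ↔ x < m ∧ F m η (b * x) ≠ lam b * F m η x := by
  unfold Ex
  rw [mem_filter, mem_range]

/-- the invariance of the exceptional sets -/
theorem Ex_inv {k l a : ℕ} (ha : a ∈ Ex m η k) :
    a ∈ Ex m η l ∨ (k * a) % m ∈ Ex m η l ∨ (l * a) % m ∈ Ex m η k := by
  rw [mem_Ex] at ha
  obtain ⟨h1, h2⟩ := ha
  have hm : 0 < m := by omega
  by_contra hcon
  rw [not_or, not_or] at hcon
  obtain ⟨c1, c2, c3⟩ := hcon
  rw [mem_Ex, not_and, not_not] at c1 c2 c3
  have d1 := c1 h1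
  have d2 := c2 (Nat.mod_lt _ hm)
  have d3 := c3 (Nat.mod_lt _ hm)
  rw [F_mod_mul, F_mod] at d2 d3
  have e1 : l * (k * a) = k * (l * a) := by ring
  rw [e1, d3, d1] at d2
  have e2 := lam_sq l
  apply h2
  have : lam l * (lam k * (lam l * F m η a)) = lam l * (lam l * F m η (k * a)) := by rw [d2]
  have h3 : lam l * (lam k * (lam l * F m η a)) = (lam l * lam l) * (lam k * F m η a) := by ring
  have h4 : lam l * (lam l * F m η (k * a)) = (lam l * lam l) * F m η (k * a) := by ring
  rw [h3, h4, e2, one_mul, one_mul] at this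
  exact this.symm

/-- no exceptions near `0` -/
theorem not_mem_Ex_of_near (hη : η = 1 ∨ η = -1) {k a : ℕ} (hk : 0 < k)
    (h : 2 * k * a < m ∨ 2 * k * (m - a) < m) : a ∉ Ex m η k := by
  rw [mem_Ex, not_and, not_not]
  intro ha
  rcases Nat.eq_zero_or_pos a with h0 | h0
  · subst h0
    rw [mul_zero, F_zero, mul_zero]
  rcases h with h | h
  · have h1 : 2 * (k * a) < m := by rw [← mul_assoc]; exact h
    have h2 : 1 * a ≤ k * a := Nat.mul_le_mul_right _ hk
    rw [F_small (Nat.mul_pos hk h0) h1.le, F_small h0 (by omega), lam_mul k a hk h0]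
  · have h1 : 2 * (k * (m - a)) < m := by rw [← mul_assoc]; exact h
    have h2 : 1 * (m - a) ≤ k * (m - a) := Nat.mul_le_mul_right _ hk
    have h3 : 0 < m - a := by omega
    have e1 : F m η a = η * F m η (m - a) :=
      F_neg hη ⟨1, by omega⟩ (by rw [Nat.mod_eq_of_lt (by omega)]; omega)
    have e2 : F m η (k * a) = η * F m η (k * (m - a)) := by
      refine F_neg hη ⟨k, ?_⟩ (by rw [Nat.mod_eq_of_lt (by omega)]; omega)
      rw [← mul_add, Nat.sub_add_cancel ha.le, mul_comm]
    rw [e1, e2, F_small (Nat.mul_pos hk h3) h1.le, F_small h3 (by omega), lam_mul k _ hk h3]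
    ring

end Pool.Agent.H11.LQ
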