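import Pool.Agent.H11.LQ.Page
import Pool.Agent.H91.EHA.SwD3

/-!
# LQ stage 2, module Exc2: the exceptional conductor and the parity of its character

For `X` let `q X = f` if there is a real primitive nonprincipal character `χ*` of conductor `f ≤ X` with
`‖L(1,χ*)‖ < c1 / log X ^ 4` (choose one), otherwise `q X = X + 1`; `c1` is small; `σ X = χ*(-1)`.
The proof of the lower bound for the other characters uses `page`; a real character mod a multiple of `q X` whose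
value at `-1` is not `σ X` is not induced by `χ*`.
-/

set_option autoImplicit false

namespace Pool.Agent.H11.LQ

open Finset

private theorem exq_prod (N : ℕ) (hN : 1 ≤ N) :
    ∏ p ∈ N.primeFactors, (1 + 1 / (p : ℝ)) ≤ 1 + Real.log N := by
  rw [Finset.prod_one_add]
  have hprime : ∀ t ∈ N.primeFactors.powerset, ∀ p ∈ t, p.Prime := by
    intro t ht p hp
    exact Nat.prime_of_mem_primeFactors (Finset.mem_powerset.mp ht hp)
  have e1 : ∀ t ∈ N.primeFactors.powerset, ∏ p ∈ t, 1 / (p : ℝ) =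
      1 / ((∏ p ∈ t, p : ℕ) : ℝ) := by
    intro t _
    rw [Finset.prod_div_distrib, Finset.prod_const_one, Nat.cast_prod]
  rw [Finset.sum_congr rfl e1]
  have hinj : ∀ t ∈ N.primeFactors.powerset, ∀ t' ∈ N.primeFactors.powerset,
      (∏ p ∈ t, p : ℕ) = ∏ p ∈ t', p → t = t' := by
    intro t ht t' ht' he
    rw [← Nat.primeFactors_prod (hprime t ht), ← Nat.primeFactors_prod (hprime t' ht'), he]
  have e2 : ∑ t ∈ N.primeFactors.powerset, 1 / ((∏ p ∈ t, p : ℕ) : ℝ) =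
      ∑ d ∈ N.primeFactors.powerset.image (fun t => ∏ p ∈ t, p), 1 / (d : ℝ) := by
    rw [Finset.sum_image]
    intro t ht t' ht' he
    exact hinj t ht t' ht' he
  rw [e2]
  have hsub : N.primeFactors.powerset.image (fun t => ∏ p ∈ t, p) ⊆ Finset.Icc 1 N := by
    intro d hd
    rw [Finset.mem_image] at hd
    obtain ⟨t, ht, rfl⟩ := hd
    rw [Finset.mem_Icc]
    constructor
    · exact Finset.prod_pos fun p hp => (hprime t ht p hp).pos
    · have h1 : (∏ p ∈ t, p) ∣ ∏ p ∈ N.primeFactors, p :=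
        Finset.prod_dvd_prod_of_subset _ _ _ (Finset.mem_powerset.mp ht)
      exact Nat.le_of_dvd (by omega) (h1.trans (Nat.prod_primeFactors_dvd N))
  have h2 : ∑ d ∈ N.primeFactors.powerset.image (fun t => ∏ p ∈ t, p), 1 / (d : ℝ) ≤
      ∑ d ∈ Finset.Icc 1 N, 1 / (d : ℝ) :=
    Finset.sum_le_sum_of_subset_of_nonneg hsub fun _ _ _ => by positivity
  refine h2.trans ?_
  have h3 := harmonic_le_one_add_log N
  rw [harmonic_eq_sum_Icc] at h3
  push_cast at h3
  simpa [one_div] using h3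

private theorem exq_level {q N : ℕ} [NeZero q] [NeZero N] (hd : q ∣ N)
    (χ : DirichletCharacter ℂ q) (n : χ ≠ 1) :
    ‖DirichletCharacter.LFunction (DirichletCharacter.changeLevel hd χ) 1‖ ≤
      ‖DirichletCharacter.LFunction χ 1‖ * (1 + Real.log N) := by
  rw [DirichletCharacter.LFunction_changeLevel hd _ (Or.inl n), norm_mul]
  apply mul_le_mul_of_nonneg_left _ (norm_nonneg _)
  refine le_trans ?_ (exq_prod N (Nat.one_le_iff_ne_zero.mpr (NeZero.ne N)))
  rw [norm_prod]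
  apply Finset.prod_le_prod
  · intro p _
    exact norm_nonneg _
  · intro p hp
    have hpp := Nat.prime_of_mem_primeFactors hp
    refine (norm_sub_le _ _).trans ?_
    rw [norm_one, norm_mul, Complex.norm_natCast_cpow_of_pos hpp.pos]
    have h2 : ((-(1 : ℂ))).re = -1 := by simp
    rw [h2, Real.rpow_neg_one, one_div]
    have h4 : ‖χ (p : ZMod q)‖ ≤ 1 := χ.norm_le_one _
    have h5 : 0 ≤ ((p : ℝ))⁻¹ := by positivity
    have h6 := mul_le_mul_of_nonneg_right h4 h5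
    linarith

private theorem exq_tot {m : ℕ} [NeZero m] {q : ℕ} (ψ : DirichletCharacter ℂ q) :
    (m.totient : ℝ) / m ≤ ‖∏ p ∈ m.primeFactors, (1 - ψ p * (p : ℂ) ^ (-(1 : ℂ)))‖ := by
  have hm0 : (m : ℝ) ≠ 0 := by exact_mod_cast NeZero.ne m
  have h1 : ((m.totient : ℚ) : ℝ) = ((m * ∏ p ∈ m.primeFactors, (1 - (p : ℚ)⁻¹) : ℚ) : ℝ) := by
    rw [Nat.totient_eq_mul_prod_factors]
  push_cast at h1
  rw [h1, mul_div_assoc, mul_comm, div_mul_cancel₀ _ hm0, norm_prod]
  refine Finset.prod_le_prod (fun p hp => ?_) fun p hp => ?_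
  · have hp1 : (1 : ℝ) ≤ p := by exact_mod_cast (Nat.prime_of_mem_primeFactors hp).one_le
    have := inv_le_one_of_one_le₀ hp1
    linarith
  · have h2 : ‖ψ p * (p : ℂ) ^ (-(1 : ℂ))‖ ≤ (p : ℝ)⁻¹ := by
      rw [Complex.cpow_neg, Complex.cpow_one, norm_mul, norm_inv, Complex.norm_natCast]
      have h3 := DirichletCharacter.norm_le_one ψ (p : ZMod q)
      have h4 : (0 : ℝ) ≤ (p : ℝ)⁻¹ := by positivity
      exact mul_le_of_le_one_left h4 h3
    have h5 := norm_sub_norm_le (1 : ℂ) (ψ p * (p : ℂ) ^ (-(1 : ℂ)))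
    rw [norm_one] at h5
    linarith

private theorem exq_omega (m y : ℕ) (h1 : 1 ≤ y) (h2 : y ≤ m) :
    (y.primeFactors.card : ℝ) ≤ 2 * Real.log m := by
  have h3 : 2 ^ y.primeFactors.card ≤ m := by
    calc 2 ^ y.primeFactors.card = ∏ _p ∈ y.primeFactors, 2 := by rw [prod_const]
      _ ≤ ∏ p ∈ y.primeFactors, p :=
          prod_le_prod' fun p hp => (Nat.prime_of_mem_primeFactors hp).two_le
      _ ≤ y := Nat.le_of_dvd h1 (Nat.prod_primeFactors_dvd y)
      _ ≤ m := h2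
  have h4 : Real.log ((2 : ℝ) ^ y.primeFactors.card) ≤ Real.log m :=
    Real.log_le_log (by positivity) (by exact_mod_cast h3)
  rw [Real.log_pow] at h4
  have h5 : (1 : ℝ) / 2 ≤ Real.log 2 := by
    have := Real.log_two_gt_d9
    linarith
  have h6 := mul_le_mul_of_nonneg_left h5 (Nat.cast_nonneg (α := ℝ) y.primeFactors.card)
  linarith

private theorem exq_hprod (S : Finset ℕ) : (∀ p ∈ S, 2 ≤ p) →
    ∏ p ∈ S, p ≤ (S.card + 1) * ∏ p ∈ S, (p - 1) := by
  induction S using Finset.induction_on_max with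
  | empty => intro _; simp
  | insert M S hM ih =>
    intro h
    have hS : ∀ p ∈ S, 2 ≤ p := fun p hp => h p (mem_insert_of_mem hp)
    have hM2 : 2 ≤ M := h M (mem_insert_self _ _)
    have hnot : M ∉ S := fun h1 => (hM M h1).false
    have hcard : S.card + 2 ≤ M := by
      have h1 : S ⊆ Ico 2 M := fun p hp => mem_Ico.mpr ⟨hS p hp, hM p hp⟩
      have h2 := card_le_card h1
      rw [Nat.card_Ico] at h2
      omega
    rw [prod_insert hnot, prod_insert hnot, card_insert_of_notMem hnot]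
    obtain ⟨N, rfl⟩ : ∃ N, M = N + 1 := ⟨M - 1, by omega⟩
    have h3 := ih hS
    have h4 : (N + 1) * (S.card + 1) ≤ (S.card + 1 + 1) * N := by nlinarith
    calc (N + 1) * ∏ p ∈ S, p ≤ (N + 1) * ((S.card + 1) * ∏ p ∈ S, (p - 1)) :=
          Nat.mul_le_mul_left _ h3
      _ = ((N + 1) * (S.card + 1)) * ∏ p ∈ S, (p - 1) := by ring
      _ ≤ ((S.card + 1 + 1) * N) * ∏ p ∈ S, (p - 1) := Nat.mul_le_mul_right _ h4
      _ = (S.card + 1 + 1) * ((N + 1 - 1) * ∏ p ∈ S, (p - 1)) := by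
          rw [Nat.add_sub_cancel]; ring

private theorem exq_totlog (m : ℕ) (hm : 1 ≤ m) : (m : ℝ) ≤ (2 + 2 * Real.log m) * m.totient := by
  have h1 := exq_hprod m.primeFactors fun p hp => (Nat.prime_of_mem_primeFactors hp).two_le
  have h2 := Nat.totient_mul_prod_primeFactors m
  have h3 : 0 < ∏ p ∈ m.primeFactors, (p - 1) :=
    prod_pos fun p hp => Nat.sub_pos_of_lt (Nat.prime_of_mem_primeFactors hp).one_lt
  have h4 : m ≤ (m.primeFactors.card + 1) * m.totient := by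
    refine Nat.le_of_mul_le_mul_right ?_ h3
    rw [← h2]
    calc m.totient * ∏ p ∈ m.primeFactors, p
        ≤ m.totient * ((m.primeFactors.card + 1) * ∏ p ∈ m.primeFactors, (p - 1)) :=
          Nat.mul_le_mul_left _ h1
      _ = (m.primeFactors.card + 1) * m.totient * ∏ p ∈ m.primeFactors, (p - 1) := by ring
  have h5 := exq_omega m m hm le_rfl
  have h6 : (m : ℝ) ≤ ((m.primeFactors.card : ℝ) + 1) * m.totient := by exact_mod_cast h4
  refine h6.trans (mul_le_mul_of_nonneg_right ?_ (Nat.cast_nonneg _))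
  linarith

/-- primitive characters which induce the same character have the same level -/
private theorem exq_eq {q1 q : ℕ} [NeZero q1] [NeZero q] (χ1 : DirichletCharacter ℂ q1)
    (χ : DirichletCharacter ℂ q) (hp1 : χ1.IsPrimitive) (hp : χ.IsPrimitive)
    (h4 : DirichletCharacter.changeLevel (Nat.dvd_mul_right q1 q) χ1 =
      DirichletCharacter.changeLevel (Nat.dvd_mul_left q q1) χ) : q = q1 := by
  have : NeZero (q1 * q) := ⟨Nat.mul_ne_zero (NeZero.ne q1) (NeZero.ne q)⟩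
  have e1 := DirichletCharacter.conductor_changeLevel χ1 (Nat.dvd_mul_right q1 q)
  have e2 := DirichletCharacter.conductor_changeLevel χ (Nat.dvd_mul_left q q1)
  rw [h4, e2] at e1
  rw [DirichletCharacter.isPrimitive_def] at hp1 hp
  rw [hp1, hp] at e1
  exact e1

/-- the value at `-1` -/
private theorem exq_neg {m N : ℕ} (hd : m ∣ N) (χ : DirichletCharacter ℂ m) :
    DirichletCharacter.changeLevel hd χ (-1) = χ (-1) := by
  have h := DirichletCharacter.changeLevel_eq_cast_of_dvd' χ hd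
    (a := -1) (isCoprime_one_left.neg_left)
  simpa using h

/-- the primitive character -/
private theorem exq_prim {N : ℕ} [NeZero N] (χ : DirichletCharacter ℂ N) (h2 : χ ^ 2 = 1) (h1 : χ ≠ 1) :
    ∃ (f : ℕ) (_ : NeZero f) (ψ : DirichletCharacter ℂ f), f ∣ N ∧ ψ.IsPrimitive ∧ ψ ^ 2 = 1 ∧ ψ ≠ 1 ∧
      ψ (-1) = χ (-1) ∧
      ‖DirichletCharacter.LFunction ψ 1‖ * ((N.totient : ℝ) / N) ≤ ‖DirichletCharacter.LFunction χ 1‖ := by
  have hcond : NeZero χ.conductor := ⟨by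
    intro h
    have h1 := χ.conductor_dvd_level
    rw [h] at h1
    exact NeZero.ne N (Nat.eq_zero_of_zero_dvd h1)⟩
  obtain ⟨ψ, hψ⟩ : ∃ ψ, ψ = χ.primitiveCharacter := ⟨_, rfl⟩
  have hch : DirichletCharacter.changeLevel χ.conductor_dvd_level ψ = χ := by
    rw [hψ]
    exact χ.changeLevel_primitiveCharacter
  have hψp : ψ.IsPrimitive := by
    rw [hψ]
    exact χ.primitiveCharacter_isPrimitive
  have hψ2 : ψ ^ 2 = 1 := by
    apply DirichletCharacter.changeLevel_injective χ.conductor_dvd_level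
    rw [map_pow, hch, h2, map_one]
  have hψ1 : ψ ≠ 1 := by
    intro h
    apply h1
    rw [← hch, h, map_one]
  have h3 := DirichletCharacter.LFunction_changeLevel χ.conductor_dvd_level ψ (s := 1) (Or.inl hψ1)
  rw [hch] at h3
  refine ⟨χ.conductor, hcond, ψ, χ.conductor_dvd_level, hψp, hψ2, hψ1, ?_, ?_⟩
  · rw [← exq_neg χ.conductor_dvd_level ψ, hch]
  · rw [h3, norm_mul]
    exact mul_le_mul_of_nonneg_left (exq_tot (m := N) ψ) (norm_nonneg _)

/-- two different primitive real characters -/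
private theorem exq_two (c0 : ℝ) (_hc0 : 0 < c0)
    (hp : ∀ (N : ℕ) [NeZero N] (χ1 χ2 : DirichletCharacter ℂ N),
      χ1 ^ 2 = 1 → χ2 ^ 2 = 1 → χ1 ≠ 1 → χ2 ≠ 1 → χ1 ≠ χ2 →
      c0 / Real.log (2 * N) ^ 3 ≤
        max ‖DirichletCharacter.LFunction χ1 1‖ ‖DirichletCharacter.LFunction χ2 1‖)
    {X f g : ℕ} [NeZero f] [NeZero g] (hX : 3 ≤ X) (hf : f ≤ X) (hg : g ≤ X)
    (χ : DirichletCharacter ℂ f) (ψ : DirichletCharacter ℂ g) (hfg : f = g → χ (-1) ≠ ψ (-1)) (a1 : χ.IsPrimitive) (a2 : χ ^ 2 = 1)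
    (a3 : χ ≠ 1) (b1 : ψ.IsPrimitive) (b2 : ψ ^ 2 = 1) (b3 : ψ ≠ 1)
    (hs : ‖DirichletCharacter.LFunction χ 1‖ < c0 / 81 / Real.log X ^ 4) :
    c0 / 81 / Real.log X ^ 4 ≤ ‖DirichletCharacter.LFunction ψ 1‖ := by
  have hM : NeZero (f * g) := ⟨Nat.mul_ne_zero (NeZero.ne f) (NeZero.ne g)⟩
  have hd1 : f ∣ f * g := Nat.dvd_mul_right f g
  have hd2 : g ∣ f * g := Nat.dvd_mul_left g f
  have hXr : (3 : ℝ) ≤ X := by exact_mod_cast hX
  have hX0 : (0 : ℝ) < X := by linarith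
  have hL1 : 1 ≤ Real.log X := by
    have h1 : Real.log 3 ≤ Real.log X := Real.log_le_log (by norm_num) hXr
    have h2 : Real.exp 1 ≤ 3 := by
      have := Real.exp_one_lt_d9
      linarith
    have h3 : 1 ≤ Real.log 3 := (Real.le_log_iff_exp_le (by norm_num)).mpr h2
    linarith
  obtain ⟨L, hL⟩ : ∃ L, L = Real.log X := ⟨_, rfl⟩
  rw [← hL] at hL1 hs ⊢
  have hL0 : 0 < L := by linarith
  have hfg0 : (0 : ℝ) < (f * g : ℕ) := by
    have := NeZero.pos (f * g)
    exact_mod_cast this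
  have hfgX : ((f * g : ℕ) : ℝ) ≤ X ^ 2 := by
    have : f * g ≤ X ^ 2 := by
      rw [pow_two]
      exact Nat.mul_le_mul hf hg
    exact_mod_cast this
  have hlogM : Real.log ((f * g : ℕ) : ℝ) ≤ 2 * L := by
    have h1 := Real.log_le_log hfg0 hfgX
    rw [Real.log_pow, ← hL] at h1
    exact_mod_cast h1
  have hlog2M : Real.log (2 * ((f * g : ℕ) : ℝ)) ≤ 3 * L := by
    have h1 : 2 * ((f * g : ℕ) : ℝ) ≤ X ^ 3 := by
      calc 2 * ((f * g : ℕ) : ℝ) ≤ 2 * X ^ 2 := mul_le_mul_of_nonneg_left hfgX (by norm_num)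
        _ ≤ X * X ^ 2 := mul_le_mul_of_nonneg_right (by linarith) (by positivity)
        _ = X ^ 3 := by ring
    have h2 := Real.log_le_log (by positivity) h1
    rw [Real.log_pow, ← hL] at h2
    exact_mod_cast h2
  have hlog2M0 : 0 < Real.log (2 * ((f * g : ℕ) : ℝ)) := by
    apply Real.log_pos
    have h1 : 1 ≤ f * g := NeZero.pos (f * g)
    have : (1 : ℝ) ≤ (f * g : ℕ) := by exact_mod_cast h1
    linarith
  obtain ⟨u, hu⟩ : ∃ u, u = DirichletCharacter.changeLevel hd1 χ := ⟨_, rfl⟩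
  obtain ⟨v, hv⟩ : ∃ v, v = DirichletCharacter.changeLevel hd2 ψ := ⟨_, rfl⟩
  have hu2 : u ^ 2 = 1 := by rw [hu, ← map_pow, a2, map_one]
  have hv2 : v ^ 2 = 1 := by rw [hv, ← map_pow, b2, map_one]
  have hu1 : u ≠ 1 := fun h => a3 ((DirichletCharacter.changeLevel_eq_one_iff hd1).mp (hu ▸ h))
  have hv1 : v ≠ 1 := fun h => b3 ((DirichletCharacter.changeLevel_eq_one_iff hd2).mp (hv ▸ h))
  have huv : u ≠ v := fun h => by
    refine hfg (exq_eq χ ψ a1 b1 (by rw [← hu, ← hv]; exact h)).symm ?_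
    rw [← exq_neg hd1 χ, ← exq_neg hd2 ψ, ← hu, ← hv, h]
  have h1 := hp (f * g) u v hu2 hv2 hu1 hv1 huv
  have h2 : c0 / (27 * L ^ 3) ≤ c0 / Real.log (2 * ((f * g : ℕ) : ℝ)) ^ 3 := by
    refine div_le_div_of_nonneg_left _hc0.le (by positivity) ?_
    calc Real.log (2 * ((f * g : ℕ) : ℝ)) ^ 3 ≤ (3 * L) ^ 3 := pow_le_pow_left₀ hlog2M0.le hlog2M 3
      _ = 27 * L ^ 3 := by ring
  have h3 : ‖DirichletCharacter.LFunction u 1‖ ≤ ‖DirichletCharacter.LFunction χ 1‖ * (3 * L) := by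
    rw [hu]
    refine (exq_level hd1 χ a3).trans (mul_le_mul_of_nonneg_left ?_ (norm_nonneg _))
    linarith
  have h4 : ‖DirichletCharacter.LFunction v 1‖ ≤ ‖DirichletCharacter.LFunction ψ 1‖ * (3 * L) := by
    rw [hv]
    refine (exq_level hd2 ψ b3).trans (mul_le_mul_of_nonneg_left ?_ (norm_nonneg _))
    linarith
  have h5 : c0 / (27 * L ^ 3) = c0 / 81 / L ^ 4 * (3 * L) := by
    field_simp
    norm_num
  have h6 : ‖DirichletCharacter.LFunction χ 1‖ * (3 * L) < c0 / 81 / L ^ 4 * (3 * L) :=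
    mul_lt_mul_of_pos_right hs (by positivity)
  rcases max_choice ‖DirichletCharacter.LFunction u 1‖ ‖DirichletCharacter.LFunction v 1‖ with h | h
  · rw [h] at h1
    exact absurd (h5 ▸ (h2.trans h1)) (not_le.mpr (h3.trans_lt h6))
  · rw [h] at h1
    have h7 : c0 / 81 / L ^ 4 * (3 * L) ≤ ‖DirichletCharacter.LFunction ψ 1‖ * (3 * L) :=
      (h5 ▸ (h2.trans h1)).trans h4
    exact le_of_mul_le_mul_right h7 (by positivity)

/-- the value at `-1` of a real character -/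
private theorem exq_val {N : ℕ} [NeZero N] (χ : DirichletCharacter ℂ N) (h2 : χ ^ 2 = 1) :
    ∃ e : ℤ, (e = 1 ∨ e = -1) ∧ χ (-1) = (e : ℂ) := by
  have h3 : χ (-1) ^ 2 = 1 := by
    rw [← map_pow]
    norm_num
  have h4 : (χ (-1) - 1) * (χ (-1) + 1) = 0 := by linear_combination h3
  rcases mul_eq_zero.mp h4 with h5 | h5
  · exact ⟨1, Or.inl rfl, by rw [sub_eq_zero.mp h5]; norm_num⟩
  · exact ⟨-1, Or.inr rfl, by rw [eq_neg_of_add_eq_zero_left h5]; norm_num⟩

theorem exc_par : ∃ c : ℝ, 0 < c ∧ ∃ (q : ℕ → ℕ) (σ : ℕ → ℤ), (∀ X, σ X = 1 ∨ σ X = -1) ∧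
    (∀ X M : ℕ, 3 ≤ X → M ≤ X → ∀ [NeZero M], ∀ χ : DirichletCharacter ℂ M,
      χ ^ 2 = 1 → χ ≠ 1 → (q X ∣ M → χ (-1) ≠ (σ X : ℂ)) →
        c / Real.log X ^ 5 ≤ ‖DirichletCharacter.LFunction χ 1‖) ∧
    ∀ A : ℕ, ∃ c' : ℝ, 0 < c' ∧ ∀ X : ℕ, 3 ≤ X → c' * Real.log X ^ A ≤ q X := by
  classical
  obtain ⟨c0, hc0, hp⟩ := page
  obtain ⟨E, hE⟩ : ∃ E : ℕ → ℕ → ℤ → Prop, E = fun (X f : ℕ) (e : ℤ) => f ≤ X ∧ (e = 1 ∨ e = -1) ∧
    ∃ (_ : NeZero f) (χ : DirichletCharacter ℂ f), χ.IsPrimitive ∧ χ ^ 2 = 1 ∧ χ ≠ 1 ∧ χ (-1) = (e : ℂ) ∧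
      ‖DirichletCharacter.LFunction χ 1‖ < c0 / 81 / Real.log X ^ 4 := ⟨_, rfl⟩
  have hEi : ∀ X f e, E X f e ↔ (f ≤ X ∧ (e = 1 ∨ e = -1) ∧
    ∃ (_ : NeZero f) (χ : DirichletCharacter ℂ f), χ.IsPrimitive ∧ χ ^ 2 = 1 ∧ χ ≠ 1 ∧ χ (-1) = (e : ℂ) ∧
      ‖DirichletCharacter.LFunction χ 1‖ < c0 / 81 / Real.log X ^ 4) := by
    intro X f e
    rw [hE]
  have hex : ∀ X : ℕ, ∃ q : ℕ, ∃ e : ℤ, (E X q e ∨ ((∀ f e, ¬ E X f e) ∧ q = X + 1)) ∧
      (e = 1 ∨ e = -1) := by
    intro X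
    by_cases h : ∃ f e, E X f e
    · obtain ⟨f, e, h1⟩ := h
      exact ⟨f, e, Or.inl h1, ((hEi X f e).mp h1).2.1⟩
    · exact ⟨X + 1, 1, Or.inr ⟨fun f e h1 => h ⟨f, e, h1⟩, rfl⟩, Or.inl rfl⟩
  choose q σ hq hσ using hex
  have hlog : ∀ X : ℕ, 3 ≤ X → 1 ≤ Real.log X := by
    intro X hX
    have hXr : (3 : ℝ) ≤ X := by exact_mod_cast hX
    have h1 : Real.log 3 ≤ Real.log X := Real.log_le_log (by norm_num) hXr
    have h2 : Real.exp 1 ≤ 3 := by
      have := Real.exp_one_lt_d9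
      linarith
    have h3 : 1 ≤ Real.log 3 := (Real.le_log_iff_exp_le (by norm_num)).mpr h2
    linarith
  refine ⟨c0 / 81 / 4, by positivity, q, σ, hσ, ?_, ?_⟩
  · intro X N hX hNX _ χ hχ2 hχ1 hqN
    obtain ⟨f, hf, ψ, hfN, b1, b2, b3, b5, b4⟩ := exq_prim χ hχ2 hχ1
    have hN : 1 ≤ N := NeZero.pos N
    have hL1 := hlog X hX
    have hfX : f ≤ X := (Nat.le_of_dvd (by omega) hfN).trans hNX
    have key : c0 / 81 / Real.log X ^ 4 ≤ ‖DirichletCharacter.LFunction ψ 1‖ := by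
      rcases hq X with h | ⟨h, _⟩
      · obtain ⟨h1, _, h2, χ', a1, a2, a3, a5, a4⟩ := (hEi X (q X) (σ X)).mp h
        refine exq_two c0 hc0 hp hX h1 hfX χ' ψ (fun h3 h4 => ?_) a1 a2 a3 b1 b2 b3 a4
        refine hqN (h3 ▸ hfN) ?_
        rw [← b5, ← h4, a5]
      · by_contra hcon
        push Not at hcon
        obtain ⟨e, he1, he2⟩ := exq_val ψ b2
        exact h f e ((hEi X f e).mpr ⟨hfX, he1, hf, ψ, b1, b2, b3, he2, hcon⟩)
    have hNr : (0 : ℝ) < N := by exact_mod_cast (by omega : 0 < N)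
    have htot := exq_totlog N (by omega)
    have hlogN : Real.log N ≤ Real.log X := Real.log_le_log hNr (by exact_mod_cast hNX)
    have hlogN0 : 0 ≤ Real.log N := Real.log_natCast_nonneg N
    have h5 : 1 / (4 * Real.log X) ≤ (N.totient : ℝ) / N := by
      rw [div_le_div_iff₀ (by positivity) hNr, one_mul]
      refine htot.trans ?_
      rw [mul_comm]
      refine mul_le_mul_of_nonneg_left ?_ (Nat.cast_nonneg _)
      linarith
    refine le_trans ?_ b4
    calc c0 / 81 / 4 / Real.log X ^ 5 = c0 / 81 / Real.log X ^ 4 * (1 / (4 * Real.log X)) := by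
          have : Real.log X ≠ 0 := by linarith
          field_simp
      _ ≤ ‖DirichletCharacter.LFunction ψ 1‖ * ((N.totient : ℝ) / N) :=
          mul_le_mul key h5 (by positivity) (norm_nonneg _)
  · intro A
    obtain ⟨c, hc, hs⟩ := Pool.Agent.H91.EHA.siegel (1 / ((A : ℝ) + 1)) (by positivity)
    refine ⟨min ((c / (c0 / 81)) ^ (A + 1)) (1 / (A.factorial : ℝ)), lt_min (by positivity) (by positivity),
      fun X hX => ?_⟩
    have hL1 := hlog X hX
    have hL0 : 0 < Real.log X := by linarith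
    rcases hq X with h | ⟨_, h⟩
    · obtain ⟨h1, _, h2, χ', a1, a2, a3, a5, a4⟩ := (hEi X (q X) (σ X)).mp h
      have h3 := hs (q X) χ' a1 a2 a3
      have hq0 : (0 : ℝ) < q X := by
        have := NeZero.pos (q X)
        exact_mod_cast this
      have h4 := h3.trans_lt a4
      -- `c q^(-1/(A+1)) < c1/L^4`
      rw [Real.rpow_neg hq0.le] at h4
      have hqe : 0 < (q X : ℝ) ^ (1 / ((A : ℝ) + 1)) := Real.rpow_pos_of_pos hq0 _
      have h5 : c / (c0 / 81) * Real.log X ^ 4 ≤ (q X : ℝ) ^ (1 / ((A : ℝ) + 1)) := by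
        rw [← div_eq_mul_inv, div_lt_div_iff₀ hqe (by positivity)] at h4
        rw [div_mul_eq_mul_div, div_le_iff₀ (by positivity)]
        linarith
      have h6 : (c / (c0 / 81) * Real.log X ^ 4) ^ (A + 1) ≤ q X := by
        have h7 := pow_le_pow_left₀ (by positivity) h5 (A + 1)
        refine h7.trans (le_of_eq ?_)
        rw [← Real.rpow_natCast, ← Real.rpow_mul hq0.le]
        have h8 : 1 / ((A : ℝ) + 1) * ((A + 1 : ℕ) : ℝ) = 1 := by
          push_cast
          field_simp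
        rw [h8, Real.rpow_one]
      refine le_trans ?_ h6
      rw [mul_pow]
      refine mul_le_mul (min_le_left _ _) ?_ (by positivity) (by positivity)
      rw [← pow_mul]
      exact pow_le_pow_right₀ hL1 (by omega)
    · rw [h]
      have hXr : (0 : ℝ) < X := by exact_mod_cast (by omega : 0 < X)
      have h3 := Real.pow_div_factorial_le_exp (Real.log X) hL0.le A
      rw [Real.exp_log hXr] at h3
      push_cast
      calc min ((c / (c0 / 81)) ^ (A + 1)) (1 / (A.factorial : ℝ)) * Real.log X ^ A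
          ≤ 1 / (A.factorial : ℝ) * Real.log X ^ A :=
            mul_le_mul_of_nonneg_right (min_le_right _ _) (by positivity)
        _ = Real.log X ^ A / (A.factorial : ℝ) := by ring
        _ ≤ X + 1 := by linarith

end Pool.Agent.H11.LQ
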