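import Mathlib

/-!
# LQ module Fejer: few residues mod `T` avoid `0` under all products of three primes

Let `P` be the number of primes `≤ K`, `H = 8 k ^ 2`, `e(x) = exp (2 π i x)`.  For `d < T` put
`S(d) = ∑_{(p, q, r)} |∑_{j < H} e(j p q r d / T)|²` over triples of primes `≤ K`.
For `d` in the set, `|∑_{j < H} e(j θ)| ≤ 2 k` for `θ = p q r d / T` (`‖θ‖ ≥ 1 / 4k`), so
`S(d) ≤ H P ^ 3 / 2`.
Mean value over `d mod T`: `(1/T) ∑_d S(d) = H P ^ 3`.
Second moment: `(1/T) ∑_d S(d)² = #{((p,q,r), (p',q',r'), j1, j1', j2, j2') :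
(j1 - j1') p q r + (j2 - j2') p' q' r' ≡ 0 mod T}`; as `2 H K ^ 3 < T` the congruence is an equation.
Solutions with `j1 = j1'` have `j2 = j2'`: they give `H² P ^ 6`.  For the others `p', q', r'` are
prime factors of `(j1 - j1') p q r`, and `j2'` is determined by `j2`: at most `P³ H³ L³`, with
`L = log₂ (K ^ 6)`.  Chebyshev, and `Chebyshev.pi_ge`.
-/

set_option autoImplicit false

namespace Pool.Agent.H11.LQ

open Finset

/-- the primes `≤ K` -/
def prs (K : ℕ) : Finset ℕ := (range (K + 1)).filter Nat.Prime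

theorem mem_prs {K p : ℕ} : p ∈ prs K ↔ p.Prime ∧ p ≤ K := by
  unfold prs
  rw [mem_filter, mem_range, Nat.lt_succ_iff, and_comm]

/-! ## roots of unity -/

private noncomputable def fejz (T : ℕ) : ℂ := Complex.exp (2 * Real.pi * Complex.I / T)

private lemma fejer_prim {T : ℕ} (hT : T ≠ 0) : IsPrimitiveRoot (fejz T) T :=
  Complex.isPrimitiveRoot_exp T hT

private lemma fejer_norm {T : ℕ} (hT : T ≠ 0) : ‖fejz T‖ = 1 :=
  (fejer_prim hT).norm'_eq_one hT

private lemma fejer_ne {T : ℕ} (hT : T ≠ 0) : fejz T ≠ 0 := by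
  intro h
  have := fejer_norm hT
  rw [h] at this
  simp at this

private lemma fejer_sum {T : ℕ} (hT : T ≠ 0) (n : ℤ) :
    ∑ d ∈ range T, (fejz T ^ n) ^ d = if (T : ℤ) ∣ n then (T : ℂ) else 0 := by
  split_ifs with h
  · have h1 : fejz T ^ n = 1 := ((fejer_prim hT).zpow_eq_one_iff_dvd n).2 h
    simp [h1]
  · have h1 : fejz T ^ n ≠ 1 := fun h2 => h (((fejer_prim hT).zpow_eq_one_iff_dvd n).1 h2)
    have h3 : (fejz T ^ n) ^ T = 1 := by
      rw [← zpow_natCast, ← zpow_mul, mul_comm, zpow_mul, zpow_natCast,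
        (fejer_prim hT).pow_eq_one, one_zpow]
    rw [geom_sum_eq h1, h3]
    simp

private lemma fejer_moments {ι : Type*} {T : ℕ} (hT : T ≠ 0) (X : Finset ι)
    (n : ι → ℤ) (w : ℕ → ℝ) (hw : ∀ d, (w d : ℂ) = ∑ x ∈ X, (fejz T ^ n x) ^ d) :
    ∑ d ∈ range T, w d = T * ((X.filter fun x => (T : ℤ) ∣ n x).card : ℝ) ∧
    ∑ d ∈ range T, (w d) ^ 2 =
      T * (((X ×ˢ X).filter fun x => (T : ℤ) ∣ n x.1 + n x.2).card : ℝ) := by
  constructor
  · have h : ((∑ d ∈ range T, w d : ℝ) : ℂ) =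
        ((T * ((X.filter fun x => (T : ℤ) ∣ n x).card : ℝ) : ℝ) : ℂ) := by
      push_cast
      rw [Finset.sum_congr rfl (fun d _ => hw d), Finset.sum_comm,
        Finset.sum_congr rfl (fun x _ => fejer_sum hT (n x)), ← Finset.sum_filter,
        Finset.sum_const, nsmul_eq_mul, mul_comm]
    exact_mod_cast h
  · have h : ((∑ d ∈ range T, (w d) ^ 2 : ℝ) : ℂ) =
        ((T * (((X ×ˢ X).filter fun x => (T : ℤ) ∣ n x.1 + n x.2).card : ℝ) : ℝ) : ℂ) := by
      push_cast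
      have h1 : ∀ d ∈ range T, ((w d : ℂ)) ^ 2 =
          ∑ x ∈ X ×ˢ X, (fejz T ^ (n x.1 + n x.2)) ^ d := by
        intro d _
        rw [hw d, sq, Finset.sum_mul_sum, ← Finset.sum_product']
        refine Finset.sum_congr rfl fun x _ => ?_
        rw [← mul_pow, ← zpow_add₀ (fejer_ne hT)]
      rw [Finset.sum_congr rfl h1, Finset.sum_comm,
        Finset.sum_congr rfl (fun x _ => fejer_sum hT (n x.1 + n x.2)), ← Finset.sum_filter,
        Finset.sum_const, nsmul_eq_mul, mul_comm]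
    exact_mod_cast h

private lemma fejer_normsq {z : ℂ} (hz : ‖z‖ = 1) (H : ℕ) :
    ((‖∑ j ∈ range H, z ^ j‖ ^ 2 : ℝ) : ℂ) =
      ∑ y ∈ range H ×ˢ range H, z ^ ((y.1 : ℤ) - (y.2 : ℤ)) := by
  have hz0 : z ≠ 0 := by
    intro h
    rw [h] at hz
    simp at hz
  push_cast
  rw [← Complex.mul_conj', map_sum, Finset.sum_mul_sum, ← Finset.sum_product']
  refine Finset.sum_congr rfl fun y _ => ?_
  rw [map_pow, ← Complex.inv_eq_conj hz, zpow_sub₀ hz0, zpow_natCast, zpow_natCast, inv_pow,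
    div_eq_mul_inv]

/-- far from the integers the geometric sum is small -/
private lemma fejer_geom {T k c H : ℕ} (hT : T ≠ 0) (hk : 0 < k)
    (h1 : T ≤ 4 * k * (c % T)) (h2 : T ≤ 4 * k * (T - c % T)) :
    ‖∑ j ∈ range H, (fejz T ^ c) ^ j‖ ≤ 2 * k := by
  have hT' : (0 : ℝ) < T := by exact_mod_cast Nat.pos_of_ne_zero hT
  have hk' : (0 : ℝ) < k := by exact_mod_cast hk
  set m : ℕ := c % T with hm
  have hmT : m < T := Nat.mod_lt _ (Nat.pos_of_ne_zero hT)
  have hz : fejz T ^ c = fejz T ^ m := pow_eq_pow_mod c (fejer_prim hT).pow_eq_one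
  have hze : fejz T ^ m = Complex.exp (Complex.I * ((2 * Real.pi * (m / T) : ℝ) : ℂ)) := by
    unfold fejz
    rw [← Complex.exp_nat_mul]
    congr 1
    push_cast
    ring
  have h1r : (T : ℝ) ≤ 4 * k * m := by exact_mod_cast h1
  have h2r : (T : ℝ) ≤ 4 * k * (T - m) := by
    have : ((T - m : ℕ) : ℝ) = (T : ℝ) - m := by
      push_cast [Nat.cast_sub hmT.le]
      ring
    rw [← this]
    exact_mod_cast h2
  have hθ1 : 1 / (4 * (k : ℝ)) ≤ (m : ℝ) / T := by
    rw [div_le_div_iff₀ (by positivity) hT']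
    linarith
  have hθ2 : 1 / (4 * (k : ℝ)) ≤ 1 - (m : ℝ) / T := by
    rw [le_sub_iff_add_le, ← le_sub_iff_add_le', div_le_iff₀ hT']
    have : (1 - 1 / (4 * (k : ℝ))) * T = T - T / (4 * k) := by ring
    rw [this]
    have h3 : (T : ℝ) / (4 * k) ≤ T - m := by
      rw [div_le_iff₀ (by positivity)]
      linarith
    linarith
  set θ : ℝ := (m : ℝ) / T with hθ
  have hθ0 : 0 ≤ θ := by positivity
  have hsin : 1 / (2 * (k : ℝ)) ≤ Real.sin (Real.pi * θ) := by
    have e1 : 1 / (2 * (k : ℝ)) = 2 * (1 / (4 * (k : ℝ))) := by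
      field_simp
      norm_num
    rcases le_total θ (1 / 2) with h | h
    · have h3 := Real.mul_le_sin (x := Real.pi * θ) (by positivity)
        (by nlinarith [Real.pi_pos])
      have e2 : 2 / Real.pi * (Real.pi * θ) = 2 * θ := by
        field_simp
      rw [e2] at h3
      rw [e1]
      linarith
    · have h3 := Real.mul_le_sin (x := Real.pi * (1 - θ))
        (mul_nonneg Real.pi_pos.le (by
          have : (0 : ℝ) < 1 / (4 * (k : ℝ)) := by positivity
          linarith))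
        (by nlinarith [Real.pi_pos])
      have e2 : 2 / Real.pi * (Real.pi * (1 - θ)) = 2 * (1 - θ) := by
        field_simp
      have e3 : Real.sin (Real.pi * (1 - θ)) = Real.sin (Real.pi * θ) := by
        rw [show Real.pi * (1 - θ) = Real.pi - Real.pi * θ by ring, Real.sin_pi_sub]
      rw [e2, e3] at h3
      rw [e1]
      linarith
  have hn : 1 / (k : ℝ) ≤ ‖fejz T ^ c - 1‖ := by
    rw [hz, hze, Complex.norm_exp_I_mul_ofReal_sub_one,
      show 2 * Real.pi * θ / 2 = Real.pi * θ by ring, Real.norm_eq_abs]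
    refine le_trans ?_ (le_abs_self _)
    have e1 : 1 / (k : ℝ) = 2 * (1 / (2 * (k : ℝ))) := by
      field_simp
    rw [e1]
    linarith
  have hne : fejz T ^ c ≠ 1 := by
    intro h
    rw [h, sub_self, norm_zero] at hn
    have : (0 : ℝ) < 1 / k := by positivity
    linarith
  rw [geom_sum_eq hne, norm_div]
  have hnum : ‖(fejz T ^ c) ^ H - 1‖ ≤ 2 := by
    refine le_trans (norm_sub_le _ _) ?_
    rw [norm_pow, norm_pow, fejer_norm hT]
    norm_num
  have hpos : 0 < ‖fejz T ^ c - 1‖ := lt_of_lt_of_le (by positivity) hn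
  rw [div_le_iff₀ hpos]
  calc ‖(fejz T ^ c) ^ H - 1‖ ≤ 2 := hnum
    _ = 2 * k * (1 / k) := by field_simp
    _ ≤ 2 * k * ‖fejz T ^ c - 1‖ := by gcongr

/-! ## counting -/

private def fejTr (K : ℕ) : Finset (ℕ × ℕ × ℕ) := prs K ×ˢ prs K ×ˢ prs K

private def fejX (K H : ℕ) : Finset ((ℕ × ℕ × ℕ) × (ℕ × ℕ)) := fejTr K ×ˢ (range H ×ˢ range H)

private def fejc (t : ℕ × ℕ × ℕ) : ℕ := t.1 * t.2.1 * t.2.2

private def fejn (x : (ℕ × ℕ × ℕ) × (ℕ × ℕ)) : ℤ := ((x.2.1 : ℤ) - (x.2.2 : ℤ)) * (fejc x.1 : ℤ)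

private lemma fejc_pos {K : ℕ} {t : ℕ × ℕ × ℕ} (ht : t ∈ fejTr K) : 0 < fejc t := by
  unfold fejTr at ht
  rw [mem_product, mem_product, mem_prs, mem_prs, mem_prs] at ht
  obtain ⟨⟨h1, -⟩, ⟨h2, -⟩, ⟨h3, -⟩⟩ := ht
  unfold fejc
  exact Nat.mul_pos (Nat.mul_pos h1.pos h2.pos) h3.pos

private lemma fejc_le {K : ℕ} {t : ℕ × ℕ × ℕ} (ht : t ∈ fejTr K) : fejc t ≤ K ^ 3 := by
  unfold fejTr at ht
  rw [mem_product, mem_product, mem_prs, mem_prs, mem_prs] at ht
  obtain ⟨⟨-, h1⟩, ⟨-, h2⟩, ⟨-, h3⟩⟩ := ht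
  unfold fejc
  calc t.1 * t.2.1 * t.2.2 ≤ K * K * K := Nat.mul_le_mul (Nat.mul_le_mul h1 h2) h3
    _ = K ^ 3 := by ring

private lemma fejn_abs {K H : ℕ} {x : (ℕ × ℕ × ℕ) × (ℕ × ℕ)} (hx : x ∈ fejX K H) :
    |fejn x| ≤ (H * K ^ 3 : ℕ) := by
  unfold fejX at hx
  rw [mem_product, mem_product, mem_range, mem_range] at hx
  obtain ⟨ht, h1, h2⟩ := hx
  unfold fejn
  rw [abs_mul]
  push_cast
  have e1 : |(x.2.1 : ℤ) - (x.2.2 : ℤ)| ≤ H := by
    rw [abs_le]
    constructor <;> omega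
  have e2 : |(fejc x.1 : ℤ)| ≤ (K : ℤ) ^ 3 := by
    rw [abs_of_nonneg (by positivity)]
    exact_mod_cast fejc_le ht
  exact mul_le_mul e1 e2 (abs_nonneg _) (by positivity)

private lemma fejn_zero {K H : ℕ} {x : (ℕ × ℕ × ℕ) × (ℕ × ℕ)} (hx : x ∈ fejX K H) :
    fejn x = 0 ↔ x.2.1 = x.2.2 := by
  unfold fejX at hx
  rw [mem_product] at hx
  have hc := fejc_pos hx.1
  unfold fejn
  constructor
  · intro h
    rcases mul_eq_zero.1 h with h | h
    · omega
    · exfalso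
      have : (fejc x.1 : ℤ) ≠ 0 := by exact_mod_cast hc.ne'
      exact this h
  · intro h
    rw [h]
    simp

private lemma fej_card_diag (K H : ℕ) :
    ((fejX K H).filter fun x => x.2.1 = x.2.2).card = (prs K).card ^ 3 * H := by
  have h : (fejX K H).filter (fun x => x.2.1 = x.2.2) =
      (fejTr K ×ˢ range H).image (fun y => (y.1, (y.2, y.2))) := by
    ext x
    unfold fejX
    rw [mem_filter, mem_product, mem_product, mem_range, mem_range, mem_image]
    constructor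
    · rintro ⟨⟨h1, h2, -⟩, h4⟩
      refine ⟨(x.1, x.2.1), ?_, ?_⟩
      · rw [mem_product, mem_range]
        exact ⟨h1, h2⟩
      · exact Prod.ext rfl (Prod.ext rfl h4)
    · rintro ⟨y, hy, rfl⟩
      rw [mem_product, mem_range] at hy
      exact ⟨⟨hy.1, hy.2, hy.2⟩, rfl⟩
  rw [h, Finset.card_image_of_injective]
  · unfold fejTr
    rw [card_product, card_product, card_product, card_range]
    ring
  · intro a b hab
    simp only [Prod.mk.injEq] at hab
    ext <;> simp [hab.1, hab.2.1]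

private lemma fej_omega {m : ℕ} (hm : m ≠ 0) : 2 ^ m.primeFactors.card ≤ m := by
  calc 2 ^ m.primeFactors.card ≤ ∏ p ∈ m.primeFactors, p :=
        Finset.pow_card_le_prod _ _ _ (fun p hp => (Nat.prime_of_mem_primeFactors hp).two_le)
    _ ≤ m := Nat.le_of_dvd (Nat.pos_of_ne_zero hm) (Nat.prod_primeFactors_dvd m)

/-- for `n ≠ 0` few `y` have `fejn y = - n` -/
private lemma fej_count_off {K H L : ℕ} {a : ℤ} (ha : a ≠ 0)
    (hL : a.natAbs.primeFactors.card ≤ L) :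
    ((fejX K H).filter fun y => fejn y = -a).card ≤ L ^ 3 * H := by
  set Q := a.natAbs.primeFactors with hQ
  have h1 : ((fejX K H).filter fun y => fejn y = -a).card ≤
      ((Q ×ˢ Q ×ˢ Q) ×ˢ range H).card := by
    refine Finset.card_le_card_of_injOn (fun y => (y.1, y.2.1)) ?_ ?_
    · intro y hy
      simp only [coe_filter, Set.mem_ofPred_eq] at hy
      obtain ⟨hyX, hya⟩ := hy
      have hyX' := hyX
      unfold fejX fejTr at hyX'
      simp only [mem_product, mem_range, mem_prs] at hyX'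
      obtain ⟨⟨⟨p1, -⟩, ⟨p2, -⟩, ⟨p3, -⟩⟩, hj, -⟩ := hyX'
      have hdvd : fejc y.1 ∣ a.natAbs := by
        rw [← Int.natCast_dvd_natCast, Int.dvd_natAbs]
        have : a = -(((y.2.1 : ℤ) - (y.2.2 : ℤ)) * (fejc y.1 : ℤ)) := by
          unfold fejn at hya
          rw [hya]
          ring
        rw [this]
        exact (Dvd.intro_left _ rfl).neg_right
      have hne : a.natAbs ≠ 0 := Int.natAbs_ne_zero.2 ha
      have d1 : y.1.1 ∣ fejc y.1 := by
        unfold fejc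
        exact Dvd.dvd.mul_right (Dvd.intro _ rfl) _
      have d2 : y.1.2.1 ∣ fejc y.1 := by
        unfold fejc
        exact Dvd.dvd.mul_right (Dvd.intro_left _ rfl) _
      have d3 : y.1.2.2 ∣ fejc y.1 := by
        unfold fejc
        exact Dvd.intro_left _ rfl
      simp only [coe_product, Set.mem_prod, mem_coe, hQ, Nat.mem_primeFactors, mem_range]
      exact ⟨⟨⟨p1, d1.trans hdvd, hne⟩, ⟨p2, d2.trans hdvd, hne⟩, ⟨p3, d3.trans hdvd, hne⟩⟩, hj⟩
    · intro y hy y' hy' hyy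
      simp only [coe_filter, Set.mem_ofPred_eq] at hy hy'
      simp only [Prod.mk.injEq] at hyy
      obtain ⟨hyX, hya⟩ := hy
      obtain ⟨hyX', hya'⟩ := hy'
      have hc : (fejc y.1 : ℤ) ≠ 0 := by
        unfold fejX at hyX
        rw [mem_product] at hyX
        exact_mod_cast (fejc_pos hyX.1).ne'
      have h := hya.trans hya'.symm
      unfold fejn at h
      rw [← hyy.1, ← hyy.2] at h
      have h3 := mul_right_cancel₀ hc h
      have h4 : y.2.2 = y'.2.2 := by omega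
      exact Prod.ext hyy.1 (Prod.ext hyy.2 h4)
  refine h1.trans ?_
  rw [card_product, card_product, card_product, card_range]
  calc Q.card * (Q.card * Q.card) * H ≤ L * (L * L) * H := by gcongr
    _ = L ^ 3 * H := by ring

private lemma fej_second {K H T L : ℕ} (hHT : 2 * (H * K ^ 3) < T)
    (hL : ∀ m : ℕ, m ≠ 0 → m ≤ H * K ^ 3 → m.primeFactors.card ≤ L) :
    ((fejX K H ×ˢ fejX K H).filter fun x => (T : ℤ) ∣ fejn x.1 + fejn x.2).card ≤
      ((prs K).card ^ 3 * H) ^ 2 + (prs K).card ^ 3 * H ^ 2 * (L ^ 3 * H) := by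
  set X := fejX K H with hX
  have hzero : ∀ x ∈ X, ∀ y ∈ X, (T : ℤ) ∣ fejn x + fejn y → fejn y = -fejn x := by
    intro x hx y hy h
    have e1 := fejn_abs hx
    have e2 := fejn_abs hy
    have e3 : fejn x + fejn y = 0 := by
      refine Int.eq_zero_of_abs_lt_dvd h ?_
      have hT' : ((2 * (H * K ^ 3) : ℕ) : ℤ) < T := by exact_mod_cast hHT
      have := abs_add_le (fejn x) (fejn y)
      push_cast at *
      linarith
    linarith
  have h1 : ((X ×ˢ X).filter fun x => (T : ℤ) ∣ fejn x.1 + fejn x.2).card =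
      ∑ x ∈ X, (X.filter fun y => (T : ℤ) ∣ fejn x + fejn y).card := by
    rw [Finset.card_filter, Finset.sum_product]
    refine Finset.sum_congr rfl fun x _ => ?_
    rw [Finset.card_filter]
  rw [h1, ← Finset.sum_filter_add_sum_filter_not X (fun x => x.2.1 = x.2.2)]
  have hd : (X.filter fun x => x.2.1 = x.2.2).card = (prs K).card ^ 3 * H := fej_card_diag K H
  refine add_le_add ?_ ?_
  · calc ∑ x ∈ X.filter (fun x => x.2.1 = x.2.2), (X.filter fun y => (T : ℤ) ∣ fejn x + fejn y).card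
        ≤ ∑ x ∈ X.filter (fun x => x.2.1 = x.2.2), (prs K).card ^ 3 * H := by
          refine Finset.sum_le_sum fun x hx => ?_
          rw [mem_filter] at hx
          rw [← hd]
          refine Finset.card_le_card fun y hy => ?_
          rw [mem_filter] at hy ⊢
          refine ⟨hy.1, ?_⟩
          have h2 := hzero x hx.1 y hy.1 hy.2
          rw [(fejn_zero hx.1).2 hx.2, neg_zero] at h2
          exact (fejn_zero hy.1).1 h2
      _ = ((prs K).card ^ 3 * H) ^ 2 := by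
          rw [Finset.sum_const, hd, smul_eq_mul]
          ring
  · calc ∑ x ∈ X.filter (fun x => ¬ x.2.1 = x.2.2), (X.filter fun y => (T : ℤ) ∣ fejn x + fejn y).card
        ≤ ∑ x ∈ X.filter (fun x => ¬ x.2.1 = x.2.2), L ^ 3 * H := by
          refine Finset.sum_le_sum fun x hx => ?_
          rw [mem_filter] at hx
          have hx0 : fejn x ≠ 0 := fun h => hx.2 ((fejn_zero hx.1).1 h)
          have hxL : (fejn x).natAbs.primeFactors.card ≤ L := by
            refine hL _ (Int.natAbs_ne_zero.2 hx0) ?_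
            have := fejn_abs hx.1
            rw [Int.abs_eq_natAbs] at this
            exact_mod_cast this
          refine le_trans (Finset.card_le_card fun y hy => ?_) (fej_count_off (K := K) hx0 hxL)
          rw [mem_filter] at hy ⊢
          exact ⟨hy.1, hzero x hx.1 y hy.1 hy.2⟩
      _ ≤ (prs K).card ^ 3 * H ^ 2 * (L ^ 3 * H) := by
          rw [Finset.sum_const, smul_eq_mul]
          refine Nat.mul_le_mul_right _ ?_
          refine (Finset.card_filter_le _ _).trans ?_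
          rw [hX]
          unfold fejX fejTr
          rw [card_product, card_product, card_product, card_product, card_range]
          apply le_of_eq
          ring

/-- the basic inequality -/
private lemma fej_main {K k T L : ℕ} (hk : 0 < k) (hHT : 2 * (8 * k ^ 2 * K ^ 3) < T)
    (hL : ∀ m : ℕ, m ≠ 0 → m ≤ 8 * k ^ 2 * K ^ 3 → m.primeFactors.card ≤ L)
    (hP : 0 < (prs K).card) :
    (((range T).filter fun d => ∀ p ∈ prs K, ∀ q ∈ prs K, ∀ r ∈ prs K,
      T ≤ 4 * k * ((p * q * r * d) % T) ∧ T ≤ 4 * k * (T - (p * q * r * d) % T)).card : ℝ) *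
      ((prs K).card : ℝ) ^ 3 ≤ T * (32 * (k : ℝ) ^ 2 * (L : ℝ) ^ 3) := by
  have hT : T ≠ 0 := by omega
  set H : ℕ := 8 * k ^ 2 with hH
  set P : ℕ := (prs K).card with hPdef
  set B := (range T).filter fun d => ∀ p ∈ prs K, ∀ q ∈ prs K, ∀ r ∈ prs K,
      T ≤ 4 * k * ((p * q * r * d) % T) ∧ T ≤ 4 * k * (T - (p * q * r * d) % T) with hB
  let w : ℕ → ℝ := fun d => ∑ t ∈ fejTr K, ‖∑ j ∈ range H, (fejz T ^ (fejc t * d)) ^ j‖ ^ 2
  have hw : ∀ d, (w d : ℂ) = ∑ x ∈ fejX K H, (fejz T ^ fejn x) ^ d := by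
    intro d
    unfold fejX
    rw [Finset.sum_product]
    show ((∑ t ∈ fejTr K, ‖∑ j ∈ range H, (fejz T ^ (fejc t * d)) ^ j‖ ^ 2 : ℝ) : ℂ) = _
    rw [Complex.ofReal_sum]
    refine Finset.sum_congr rfl fun t _ => ?_
    have hn : ‖fejz T ^ (fejc t * d)‖ = 1 := by
      rw [norm_pow, fejer_norm hT, one_pow]
    rw [fejer_normsq hn]
    refine Finset.sum_congr rfl fun y _ => ?_
    unfold fejn
    rw [← zpow_natCast, ← zpow_natCast, ← zpow_mul, ← zpow_mul]
    congr 1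
    push_cast
    ring
  obtain ⟨hm1, hm2⟩ := fejer_moments hT (fejX K H) fejn w hw
  have hX1 : ((P ^ 3 * H : ℕ) : ℝ) ≤
      (((fejX K H).filter fun x => (T : ℤ) ∣ fejn x).card : ℝ) := by
    rw [hPdef, ← fej_card_diag K H]
    norm_cast
    refine Finset.card_le_card fun x hx => ?_
    rw [mem_filter] at hx ⊢
    refine ⟨hx.1, ?_⟩
    rw [(fejn_zero hx.1).2 hx.2]
    exact dvd_zero _
  have hX2 : (((fejX K H ×ˢ fejX K H).filter fun x => (T : ℤ) ∣ fejn x.1 + fejn x.2).card : ℝ) ≤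
      ((P ^ 3 * H) ^ 2 + P ^ 3 * H ^ 2 * (L ^ 3 * H) : ℕ) := by
    exact_mod_cast fej_second (K := K) (H := H) (T := T) (L := L) hHT hL
  have hT' : (0 : ℝ) < T := by exact_mod_cast Nat.pos_of_ne_zero hT
  have hP' : (0 : ℝ) < P := by exact_mod_cast hP
  have hH' : (0 : ℝ) < H := by
    have : 0 < H := by positivity
    exact_mod_cast this
  push_cast at hX1 hX2
  -- variance
  have hvar : ∑ d ∈ range T, (w d - H * (P : ℝ) ^ 3) ^ 2 ≤
      T * ((P : ℝ) ^ 3 * H ^ 2 * (L ^ 3 * H)) := by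
    have e : ∑ d ∈ range T, (w d - H * (P : ℝ) ^ 3) ^ 2 =
        ∑ d ∈ range T, (w d) ^ 2 - 2 * (H * (P : ℝ) ^ 3) * ∑ d ∈ range T, w d +
          T * (H * (P : ℝ) ^ 3) ^ 2 := by
      rw [Finset.mul_sum, ← Finset.sum_sub_distrib]
      have : (T : ℝ) * (H * (P : ℝ) ^ 3) ^ 2 = ∑ _d ∈ range T, (H * (P : ℝ) ^ 3) ^ 2 := by
        rw [Finset.sum_const, card_range, nsmul_eq_mul]
      rw [this, ← Finset.sum_add_distrib]
      refine Finset.sum_congr rfl fun d _ => ?_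
      ring
    rw [e, hm1, hm2]
    have a1 := mul_le_mul_of_nonneg_left hX2 hT'.le
    have a2 := mul_le_mul_of_nonneg_left hX1
      (show (0 : ℝ) ≤ 2 * (H * (P : ℝ) ^ 3) * T by positivity)
    nlinarith [a1, a2]
  -- lower bound on B
  have hlow : ∀ d ∈ B, (H * (P : ℝ) ^ 3) ^ 2 / 4 ≤ (w d - H * (P : ℝ) ^ 3) ^ 2 := by
    intro d hd
    rw [hB, mem_filter] at hd
    have hwd : w d ≤ H * (P : ℝ) ^ 3 / 2 := by
      have h1 : w d ≤ ∑ t ∈ fejTr K, (2 * (k : ℝ)) ^ 2 := by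
        refine Finset.sum_le_sum fun t ht => ?_
        unfold fejTr at ht
        rw [mem_product, mem_product] at ht
        have h2 := hd.2 t.1 ht.1 t.2.1 ht.2.1 t.2.2 ht.2.2
        have h3 := fejer_geom (H := H) hT hk (c := fejc t * d) (by
          unfold fejc
          exact h2.1) (by
          unfold fejc
          exact h2.2)
        exact pow_le_pow_left₀ (norm_nonneg _) h3 2
      refine h1.trans (le_of_eq ?_)
      unfold fejTr
      rw [Finset.sum_const, card_product, card_product, nsmul_eq_mul, ← hPdef, hH]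
      push_cast
      ring
    have h0 : 0 ≤ H * (P : ℝ) ^ 3 / 2 := by positivity
    nlinarith [hwd, h0]
  have hsum : (B.card : ℝ) * ((H * (P : ℝ) ^ 3) ^ 2 / 4) ≤
      T * ((P : ℝ) ^ 3 * H ^ 2 * (L ^ 3 * H)) := by
    refine le_trans ?_ hvar
    rw [← nsmul_eq_mul, ← Finset.sum_const]
    refine le_trans (Finset.sum_le_sum hlow) ?_
    refine Finset.sum_le_sum_of_subset_of_nonneg (Finset.filter_subset _ _) ?_
    intro d _ _
    positivity
  have hfac : (0 : ℝ) < H ^ 2 * (P : ℝ) ^ 3 / 4 := by positivity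
  have e1 : (B.card : ℝ) * ((H * (P : ℝ) ^ 3) ^ 2 / 4) =
      ((B.card : ℝ) * (P : ℝ) ^ 3) * (H ^ 2 * (P : ℝ) ^ 3 / 4) := by ring
  have e2 : T * ((P : ℝ) ^ 3 * H ^ 2 * ((L : ℝ) ^ 3 * H)) =
      (T * (4 * (L : ℝ) ^ 3 * H)) * (H ^ 2 * (P : ℝ) ^ 3 / 4) := by ring
  rw [e1, e2] at hsum
  have h4 := le_of_mul_le_mul_right hsum hfac
  refine h4.trans (le_of_eq ?_)
  rw [hH]
  push_cast
  ring

/-! ## numerics -/

private lemma fej_pi : ∀ x : ℕ, 100 ≤ x → x / (2 * Real.log x) ≤ ((prs x).card : ℝ) := by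
  intro x hx
  have hx1 : (100 : ℝ) ≤ x := by exact_mod_cast hx
  have hlog : 0 < Real.log x := Real.log_pos (by linarith)
  have hcard : (prs x).card = Nat.primeCounting x := by
    unfold prs Nat.primeCounting Nat.primeCounting'
    rw [Nat.count_eq_card_filter_range]
  rw [hcard]
  refine le_trans ?_ (Chebyshev.pi_ge x)
  have h1 : Real.log ((x : ℝ) + 1) ≤ ((x : ℝ) + 1) / 16 - 1 + 4 * Real.log 2 := by
    have h2 : Real.log (((x : ℝ) + 1) / 16) ≤ ((x : ℝ) + 1) / 16 - 1 :=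
      Real.log_le_sub_one_of_pos (by positivity)
    rw [Real.log_div (by positivity) (by norm_num)] at h2
    have h3 : Real.log (16 : ℝ) = 4 * Real.log 2 := by
      rw [show (16 : ℝ) = 2 ^ 4 by norm_num, Real.log_pow]
      norm_num
    linarith
  have h2 := Real.log_two_gt_d9
  have h3 := Real.log_two_lt_d9
  have h4 : (x : ℝ) / 2 ≤ x * Real.log 2 - Real.log ((x : ℝ) + 1) := by nlinarith
  have h5 : (x : ℝ) / (2 * Real.log x) = ((x : ℝ) / 2) / Real.log x := by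
    field_simp
  rw [h5]
  exact div_le_div_of_nonneg_right h4 hlog.le

private lemma fej_log : ∃ K0 : ℕ, ∀ K : ℕ, K0 ≤ K →
    200000 * (Real.log K) ^ 6 ≤ (K : ℝ) ^ (1 / 4 : ℝ) := by
  have h := (isLittleO_log_rpow_rpow_atTop (6 : ℝ) (show (0 : ℝ) < 1 / 4 by norm_num)).bound
    (show (0 : ℝ) < 1 / 200000 by norm_num)
  have h2 := tendsto_natCast_atTop_atTop (R := ℝ) |>.eventually h
  rw [Filter.eventually_atTop] at h2
  obtain ⟨a, ha⟩ := h2
  refine ⟨max a 1, fun K hK => ?_⟩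
  have h3 := ha K (le_trans (le_max_left _ _) hK)
  have hK1 : (1 : ℝ) ≤ K := by exact_mod_cast le_trans (le_max_right _ _) hK
  have hl : 0 ≤ Real.log K := Real.log_nonneg hK1
  rw [Real.norm_of_nonneg (Real.rpow_nonneg hl _), Real.norm_of_nonneg (by positivity)] at h3
  have e : Real.log K ^ (6 : ℝ) = Real.log K ^ 6 := by
    rw [← Real.rpow_natCast]
    norm_num
  rw [e] at h3
  linarith

theorem fejer : ∃ K0 : ℕ, ∀ K ≥ K0, ∀ k T : ℕ, 0 < k → k ^ 4 ≤ K ^ 5 → K ^ 6 ≤ T →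
    (((range T).filter fun d => ∀ p ∈ prs K, ∀ q ∈ prs K, ∀ r ∈ prs K,
      T ≤ 4 * k * ((p * q * r * d) % T) ∧ T ≤ 4 * k * (T - (p * q * r * d) % T)).card : ℝ) ≤
    T * (K : ℝ) ^ (-(1 / 4) : ℝ) := by
  obtain ⟨K1, hK1⟩ := fej_log
  refine ⟨max K1 1000, fun K hK k T hk hkK hKT => ?_⟩
  have hKa : K1 ≤ K := le_trans (le_max_left _ _) hK
  have hKb : 1000 ≤ K := le_trans (le_max_right _ _) hK
  have hKr : (1000 : ℝ) ≤ K := by exact_mod_cast hKb
  have hlog : 0 < Real.log K := Real.log_pos (by linarith)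
  -- 16 k ^ 2 < K ^ 3
  have h16 : 16 * k ^ 2 < K ^ 3 := by
    refine lt_of_pow_lt_pow_left₀ 2 (by positivity) ?_
    calc (16 * k ^ 2) ^ 2 = 256 * k ^ 4 := by ring
      _ ≤ 256 * K ^ 5 := by gcongr
      _ < K * K ^ 5 := by
          apply Nat.mul_lt_mul_of_pos_right (by omega)
          positivity
      _ = (K ^ 3) ^ 2 := by ring
  have hHT : 2 * (8 * k ^ 2 * K ^ 3) < T := by
    calc 2 * (8 * k ^ 2 * K ^ 3) = (16 * k ^ 2) * K ^ 3 := by ring
      _ < K ^ 3 * K ^ 3 := by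
          apply Nat.mul_lt_mul_of_pos_right h16
          positivity
      _ = K ^ 6 := by ring
      _ ≤ T := hKT
  have hHK : 8 * k ^ 2 * K ^ 3 ≤ K ^ 6 := by
    have : 2 * (8 * k ^ 2 * K ^ 3) ≤ K ^ 6 := by
      calc 2 * (8 * k ^ 2 * K ^ 3) = (16 * k ^ 2) * K ^ 3 := by ring
        _ ≤ K ^ 3 * K ^ 3 := Nat.mul_le_mul_right _ h16.le
        _ = K ^ 6 := by ring
    omega
  set L : ℕ := Nat.log 2 (K ^ 6) with hLdef
  have hL : ∀ m : ℕ, m ≠ 0 → m ≤ 8 * k ^ 2 * K ^ 3 → m.primeFactors.card ≤ L := by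
    intro m hm hmK
    exact Nat.le_log_of_pow_le (by norm_num) ((fej_omega hm).trans (hmK.trans hHK))
  have hLr : (L : ℝ) ≤ 9 * Real.log K := by
    have h1 : 2 ^ L ≤ K ^ 6 := Nat.pow_log_le_self 2 (by positivity)
    have h2 : ((2 : ℝ)) ^ L ≤ (K : ℝ) ^ 6 := by exact_mod_cast h1
    have h3 := Real.log_le_log (by positivity) h2
    rw [Real.log_pow, Real.log_pow] at h3
    have h4 := Real.log_two_gt_d9
    have h5 : (L : ℝ) * 0.69 ≤ (L : ℝ) * Real.log 2 :=
      mul_le_mul_of_nonneg_left (by linarith) (Nat.cast_nonneg _)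
    push_cast at h3
    nlinarith
  have hPi := fej_pi K (by omega)
  have hP0 : (0 : ℝ) < (prs K).card := lt_of_lt_of_le (by positivity) hPi
  have hP : 0 < (prs K).card := by exact_mod_cast hP0
  have hmain := fej_main hk hHT hL hP
  have hPi3 : (K : ℝ) ^ 3 / (8 * (Real.log K) ^ 3) ≤ ((prs K).card : ℝ) ^ 3 := by
    have := pow_le_pow_left₀ (by positivity) hPi 3
    refine le_trans (le_of_eq ?_) this
    field_simp
    norm_num
  have hk2 : (k : ℝ) ^ 2 ≤ (K : ℝ) ^ (5 / 2 : ℝ) := by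
    have h1 : ((k : ℝ) ^ 2) ^ 2 ≤ ((K : ℝ) ^ (5 / 2 : ℝ)) ^ 2 := by
      rw [← Real.rpow_natCast ((K : ℝ) ^ (5 / 2 : ℝ)) 2, ← Real.rpow_mul (by positivity)]
      have e : (5 / 2 : ℝ) * ((2 : ℕ) : ℝ) = ((5 : ℕ) : ℝ) := by norm_num
      rw [e, Real.rpow_natCast]
      have : ((k : ℝ)) ^ 4 ≤ (K : ℝ) ^ 5 := by exact_mod_cast hkK
      calc ((k : ℝ) ^ 2) ^ 2 = (k : ℝ) ^ 4 := by ring
        _ ≤ _ := this
    exact le_of_sq_le_sq h1 (by positivity)
  have hL3 : (L : ℝ) ^ 3 ≤ 729 * (Real.log K) ^ 3 := by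
    calc (L : ℝ) ^ 3 ≤ (9 * Real.log K) ^ 3 := pow_le_pow_left₀ (Nat.cast_nonneg _) hLr 3
      _ = 729 * (Real.log K) ^ 3 := by ring
  have hlg := hK1 K hKa
  set b : ℝ := (((range T).filter fun d => ∀ p ∈ prs K, ∀ q ∈ prs K, ∀ r ∈ prs K,
      T ≤ 4 * k * ((p * q * r * d) % T) ∧ T ≤ 4 * k * (T - (p * q * r * d) % T)).card : ℝ) with hb
  have hb0 : 0 ≤ b := Nat.cast_nonneg _
  have hT' : (0 : ℝ) ≤ T := Nat.cast_nonneg _
  have hKp : (0 : ℝ) < K := by linarith
  -- b * K^3/(8 log^3) <= T * 32 * K^(5/2) * 729 log^3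
  have h5 : b * ((K : ℝ) ^ 3 / (8 * (Real.log K) ^ 3)) ≤
      T * (32 * (K : ℝ) ^ (5 / 2 : ℝ) * (729 * (Real.log K) ^ 3)) := by
    calc b * ((K : ℝ) ^ 3 / (8 * (Real.log K) ^ 3)) ≤ b * ((prs K).card : ℝ) ^ 3 :=
          mul_le_mul_of_nonneg_left hPi3 hb0
      _ ≤ T * (32 * (k : ℝ) ^ 2 * (L : ℝ) ^ 3) := hmain
      _ ≤ T * (32 * (K : ℝ) ^ (5 / 2 : ℝ) * (729 * (Real.log K) ^ 3)) := by gcongr
  have h6 : b ≤ T * (186624 * (Real.log K) ^ 6 * (K : ℝ) ^ (-(1 / 2) : ℝ)) := by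
    have hpos : 0 < (K : ℝ) ^ 3 / (8 * (Real.log K) ^ 3) := by positivity
    refine le_of_mul_le_mul_right (h5.trans (le_of_eq ?_)) hpos
    have e : (K : ℝ) ^ (5 / 2 : ℝ) = (K : ℝ) ^ (-(1 / 2) : ℝ) * (K : ℝ) ^ 3 := by
      rw [← Real.rpow_natCast (K : ℝ) 3, ← Real.rpow_add hKp]
      norm_num
    rw [e]
    field_simp
    ring
  refine h6.trans ?_
  refine mul_le_mul_of_nonneg_left ?_ hT'
  have e2 : (K : ℝ) ^ (-(1 / 4) : ℝ) = (K : ℝ) ^ (1 / 4 : ℝ) * (K : ℝ) ^ (-(1 / 2) : ℝ) := by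
    rw [← Real.rpow_add hKp]
    norm_num
  rw [e2]
  refine mul_le_mul_of_nonneg_right ?_ (by positivity)
  have : 0 ≤ (Real.log K) ^ 6 := by positivity
  linarith

end Pool.Agent.H11.LQ
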