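import Mathlib
import Pool.Agent.H92.EH3.DivBound

/-!
# LQ module Sift: removing `a` with large `gcd (a, N)` or a large square divisor

`#{0 < a < N : gcd a N = g} ≤ N / g`, so at most `d(N) N ^ (1 - ε)` of the `a` have
`gcd a N > N ^ ε` (`Pool.Agent.H92.EH.div_bound`).  `#{0 < a < N : v² ∣ a} ≤ N / v²`, so at most
`∑_(v > N ^ ε) N / v² ≤ 2 N ^ (1 - ε)` of the `a` are divisible by the square of some `v > N ^ ε`, and the
same for `N - a`.
-/

set_option autoImplicit false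

namespace Pool.Agent.H11.LQ

open Finset

theorem sift_gcd (N : ℕ) (G : ℝ) (hG : 0 < G) :
    (((Finset.Ioo 0 N).filter (fun a => G < ((Nat.gcd a N : ℕ) : ℝ))).card : ℝ) ≤
      (N.divisors.card : ℝ) * (N / G) := by
  classical
  have hsub : (Finset.Ioo 0 N).filter (fun a => G < ((Nat.gcd a N : ℕ) : ℝ)) ⊆
      (N.divisors.filter (fun g : ℕ => G < (g : ℝ))).biUnion
        (fun g : ℕ => (Finset.Ioc 0 N).filter (fun a => g ∣ a)) := by
    intro a ha
    rw [Finset.mem_filter, Finset.mem_Ioo] at ha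
    obtain ⟨⟨h1, h2⟩, h3⟩ := ha
    rw [Finset.mem_biUnion]
    refine ⟨Nat.gcd a N, ?_, ?_⟩
    · rw [Finset.mem_filter, Nat.mem_divisors]
      exact ⟨⟨Nat.gcd_dvd_right a N, by omega⟩, h3⟩
    · rw [Finset.mem_filter, Finset.mem_Ioc]
      exact ⟨⟨h1, h2.le⟩, Nat.gcd_dvd_left a N⟩
  have h1 : (((Finset.Ioo 0 N).filter (fun a => G < ((Nat.gcd a N : ℕ) : ℝ))).card : ℝ) ≤
      ∑ g ∈ N.divisors.filter (fun g : ℕ => G < (g : ℝ)), ((N / g : ℕ) : ℝ) := by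
    have h := (Finset.card_le_card hsub).trans Finset.card_biUnion_le
    have h' : ∀ g ∈ N.divisors.filter (fun g : ℕ => G < (g : ℝ)),
        ((Finset.Ioc 0 N).filter (fun a => g ∣ a)).card = N / g := by
      intro g _
      exact Nat.Ioc_filter_dvd_card_eq_div N g
    rw [Finset.sum_congr rfl h'] at h
    exact_mod_cast h
  refine h1.trans ?_
  calc ∑ g ∈ N.divisors.filter (fun g : ℕ => G < (g : ℝ)), ((N / g : ℕ) : ℝ)
      ≤ ∑ g ∈ N.divisors.filter (fun g : ℕ => G < (g : ℝ)), ((N : ℝ) / G) := by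
        refine Finset.sum_le_sum fun g hg => ?_
        rw [Finset.mem_filter] at hg
        refine Nat.cast_div_le.trans ?_
        exact div_le_div_of_nonneg_left (Nat.cast_nonneg N) hG hg.2.le
    _ = ((N.divisors.filter (fun g : ℕ => G < (g : ℝ))).card : ℝ) * (N / G) := by
        rw [Finset.sum_const, nsmul_eq_mul]
    _ ≤ (N.divisors.card : ℝ) * (N / G) := by
        refine mul_le_mul_of_nonneg_right ?_ (by positivity)
        exact_mod_cast Finset.card_filter_le _ _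

theorem sift_sq (N : ℕ) (G : ℝ) (hG : 1 ≤ G) (T : Finset ℕ)
    (hT : ∀ a ∈ T, (0 < a ∧ a < N) ∧ ∃ v : ℕ, G < (v : ℝ) ∧ v ^ 2 ∣ a) :
    (T.card : ℝ) ≤ 2 * (N / G) := by
  classical
  set m : ℕ := ⌊G⌋₊ with hm
  have hG0 : 0 < G := by linarith
  have hm1 : 1 ≤ m := Nat.le_floor (by simpa using hG)
  have hmG : G / 2 ≤ (m : ℝ) := by
    have h1 : G < (m : ℝ) + 1 := Nat.lt_floor_add_one G
    have h2 : (1 : ℝ) ≤ m := by exact_mod_cast hm1
    linarith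
  have hsub : T ⊆ (Finset.Ioc m N).biUnion
      (fun v => (Finset.Ioc 0 N).filter (fun a => v ^ 2 ∣ a)) := by
    intro a ha
    obtain ⟨⟨h1, h2⟩, v, hv, hd⟩ := hT a ha
    rw [Finset.mem_biUnion]
    refine ⟨v, ?_, ?_⟩
    · rw [Finset.mem_Ioc]
      refine ⟨(Nat.floor_lt hG0.le).2 hv, ?_⟩
      have h3 : v ^ 2 ≤ a := Nat.le_of_dvd h1 hd
      have h4 : v ≤ v ^ 2 := Nat.le_self_pow (by norm_num) v
      omega
    · rw [Finset.mem_filter, Finset.mem_Ioc]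
      exact ⟨⟨h1, h2.le⟩, hd⟩
  have h1 : (T.card : ℝ) ≤ ∑ v ∈ Finset.Ioc m N, ((N / v ^ 2 : ℕ) : ℝ) := by
    have h := (Finset.card_le_card hsub).trans Finset.card_biUnion_le
    have h' : ∀ v ∈ Finset.Ioc m N,
        ((Finset.Ioc 0 N).filter (fun a => v ^ 2 ∣ a)).card = N / v ^ 2 := by
      intro v _
      exact Nat.Ioc_filter_dvd_card_eq_div N (v ^ 2)
    rw [Finset.sum_congr rfl h'] at h
    exact_mod_cast h
  have h2 : ∑ v ∈ Finset.Ioc m N, ((N / v ^ 2 : ℕ) : ℝ) ≤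
      (N : ℝ) * ∑ v ∈ Finset.Ioc m N, (((v : ℝ)) ^ 2)⁻¹ := by
    rw [Finset.mul_sum]
    refine Finset.sum_le_sum fun v _ => ?_
    refine Nat.cast_div_le.trans ?_
    rw [div_eq_mul_inv]
    push_cast
    exact le_rfl
  have h3 : ∑ v ∈ Finset.Ioc m N, (((v : ℝ)) ^ 2)⁻¹ ≤ 2 / G := by
    rcases le_or_gt m N with h | h
    · have h4 := sum_Ioc_inv_sq_le_sub (α := ℝ) (k := m) (n := N) (by omega) h
      refine h4.trans ?_
      have h5 : (0 : ℝ) ≤ (N : ℝ)⁻¹ := by positivity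
      have h6 : ((m : ℝ))⁻¹ ≤ (G / 2)⁻¹ := inv_anti₀ (by linarith) hmG
      have h7 : (G / 2)⁻¹ = 2 / G := by rw [inv_div]
      linarith
    · rw [Finset.Ioc_eq_empty_of_le h.le, Finset.sum_empty]
      positivity
  calc (T.card : ℝ) ≤ _ := h1
    _ ≤ _ := h2
    _ ≤ (N : ℝ) * (2 / G) := mul_le_mul_of_nonneg_left h3 (Nat.cast_nonneg N)
    _ = 2 * (N / G) := by ring

theorem sift (ε : ℝ) (hε : 0 < ε) : ∃ N0 : ℕ, ∀ N ≥ N0, ∀ T : Finset ℕ,
    (∀ a ∈ T, 0 < a ∧ a < N) → 2 * (N : ℝ) ^ (1 - ε / 4) ≤ T.card → ∃ T' ⊆ T,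
    (N : ℝ) ^ (1 - ε / 4) ≤ T'.card ∧ ∀ a ∈ T', ((Nat.gcd a N : ℕ) : ℝ) ≤ (N : ℝ) ^ ε ∧
      ∀ v : ℕ, (v ^ 2 ∣ a ∨ v ^ 2 ∣ N - a) → (v : ℝ) ≤ (N : ℝ) ^ ε := by
  classical
  obtain ⟨C, hC1, hC⟩ := Pool.Agent.H92.EH.div_bound (ε / 4) (by linarith)
  have hlim : Filter.Tendsto (fun N : ℕ => (N : ℝ) ^ (ε / 2)) Filter.atTop Filter.atTop :=
    (tendsto_rpow_atTop (by linarith)).comp tendsto_natCast_atTop_atTop
  obtain ⟨N1, hN1⟩ := Filter.eventually_atTop.1 (hlim.eventually_ge_atTop (C + 4))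
  refine ⟨max N1 1, fun N hN T hT hcard => ?_⟩
  have hNN1 : N1 ≤ N := (le_max_left _ _).trans hN
  have hN1' : 1 ≤ N := (le_max_right _ _).trans hN
  have hNpos : (0 : ℝ) < N := by exact_mod_cast hN1'
  have hN1r : (1 : ℝ) ≤ N := by exact_mod_cast hN1'
  set G : ℝ := (N : ℝ) ^ ε with hG
  have hG1 : 1 ≤ G := Real.one_le_rpow hN1r hε.le
  have hG0 : 0 < G := by linarith
  set B1 := T.filter (fun a => G < ((Nat.gcd a N : ℕ) : ℝ)) with hB1
  set B2 := T.filter (fun a => ∃ v : ℕ, G < (v : ℝ) ∧ v ^ 2 ∣ a) with hB2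
  set B3 := T.filter (fun a => ∃ v : ℕ, G < (v : ℝ) ∧ v ^ 2 ∣ N - a) with hB3
  have c1 : (B1.card : ℝ) ≤ (N.divisors.card : ℝ) * (N / G) := by
    refine le_trans ?_ (sift_gcd N G hG0)
    have : B1 ⊆ (Finset.Ioo 0 N).filter (fun a => G < ((Nat.gcd a N : ℕ) : ℝ)) := by
      intro a ha
      rw [hB1, Finset.mem_filter] at ha
      rw [Finset.mem_filter, Finset.mem_Ioo]
      exact ⟨hT a ha.1, ha.2⟩
    exact_mod_cast Finset.card_le_card this
  have c2 : (B2.card : ℝ) ≤ 2 * (N / G) := by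
    refine sift_sq N G hG1 B2 fun a ha => ?_
    rw [hB2, Finset.mem_filter] at ha
    exact ⟨hT a ha.1, ha.2⟩
  have c3 : (B3.card : ℝ) ≤ 2 * (N / G) := by
    have hinj : Set.InjOn (fun a => N - a) (B3 : Set ℕ) := by
      intro a ha b hb hab
      rw [Finset.mem_coe, hB3, Finset.mem_filter] at ha hb
      have h1 := hT a ha.1
      have h2 := hT b hb.1
      simp only at hab
      omega
    rw [← Finset.card_image_of_injOn hinj]
    refine sift_sq N G hG1 _ fun x hx => ?_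
    rw [Finset.mem_image] at hx
    obtain ⟨a, ha, rfl⟩ := hx
    rw [hB3, Finset.mem_filter] at ha
    have h1 := hT a ha.1
    exact ⟨⟨by omega, by omega⟩, ha.2⟩
  refine ⟨T \ (B1 ∪ B2 ∪ B3), Finset.sdiff_subset, ?_, ?_⟩
  · have hsub : B1 ∪ B2 ∪ B3 ⊆ T := by
      intro a ha
      rw [Finset.mem_union, Finset.mem_union] at ha
      rcases ha with (ha | ha) | ha
      · exact (Finset.mem_filter.1 ha).1
      · exact (Finset.mem_filter.1 ha).1
      · exact (Finset.mem_filter.1 ha).1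
    have e1 : ((T \ (B1 ∪ B2 ∪ B3)).card : ℝ) = (T.card : ℝ) - ((B1 ∪ B2 ∪ B3).card : ℝ) := by
      rw [Finset.card_sdiff_of_subset hsub, Nat.cast_sub (Finset.card_le_card hsub)]
    have e2 : ((B1 ∪ B2 ∪ B3).card : ℝ) ≤ B1.card + B2.card + B3.card := by
      have h1 := Finset.card_union_le (B1 ∪ B2) B3
      have h2 := Finset.card_union_le B1 B2
      have h3 : (B1 ∪ B2 ∪ B3).card ≤ B1.card + B2.card + B3.card := by omega
      exact_mod_cast h3
    have e3 : (B1.card : ℝ) + B2.card + B3.card ≤ (N : ℝ) ^ (1 - ε / 4) := by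
      have d1 := hC N hN1'
      have d2 : (1 : ℝ) ≤ (N : ℝ) ^ (ε / 4) := Real.one_le_rpow hN1r (by linarith)
      have d3 : (N : ℝ) / G = (N : ℝ) ^ (1 - ε) := by
        rw [hG, Real.rpow_sub hNpos, Real.rpow_one]
      have d4 : (0 : ℝ) < (N : ℝ) ^ (1 - ε) := Real.rpow_pos_of_pos hNpos _
      have d5 : (N : ℝ) ^ (ε / 2) * ((N : ℝ) ^ (ε / 4) * (N : ℝ) ^ (1 - ε)) =
          (N : ℝ) ^ (1 - ε / 4) := by
        rw [← Real.rpow_add hNpos, ← Real.rpow_add hNpos]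
        congr 1
        ring
      have d6 := hN1 N hNN1
      have d7 : (N.divisors.card : ℝ) * (N / G) ≤
          C * ((N : ℝ) ^ (ε / 4) * (N : ℝ) ^ (1 - ε)) := by
        rw [d3, ← mul_assoc]
        exact mul_le_mul_of_nonneg_right d1 d4.le
      have d8 : (N : ℝ) / G ≤ (N : ℝ) ^ (ε / 4) * (N : ℝ) ^ (1 - ε) := by
        rw [d3]
        exact le_mul_of_one_le_left d4.le d2
      have d9 : (0 : ℝ) < (N : ℝ) ^ (ε / 4) * (N : ℝ) ^ (1 - ε) := by positivity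
      calc (B1.card : ℝ) + B2.card + B3.card
          ≤ C * ((N : ℝ) ^ (ε / 4) * (N : ℝ) ^ (1 - ε)) +
            4 * ((N : ℝ) ^ (ε / 4) * (N : ℝ) ^ (1 - ε)) := by linarith
        _ = (C + 4) * ((N : ℝ) ^ (ε / 4) * (N : ℝ) ^ (1 - ε)) := by ring
        _ ≤ (N : ℝ) ^ (ε / 2) * ((N : ℝ) ^ (ε / 4) * (N : ℝ) ^ (1 - ε)) :=
            mul_le_mul_of_nonneg_right d6 d9.le
        _ = _ := d5
    rw [e1]
    linarith
  · intro a ha
    rw [Finset.mem_sdiff, Finset.mem_union, Finset.mem_union] at ha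
    obtain ⟨haT, hnot⟩ := ha
    push Not at hnot
    obtain ⟨⟨n1, n2⟩, n3⟩ := hnot
    refine ⟨?_, ?_⟩
    · by_contra h
      push Not at h
      exact n1 (Finset.mem_filter.2 ⟨haT, h⟩)
    · intro v hv
      by_contra h
      push Not at h
      rcases hv with hv | hv
      · exact n2 (Finset.mem_filter.2 ⟨haT, v, h, hv⟩)
      · exact n3 (Finset.mem_filter.2 ⟨haT, v, h, hv⟩)

end Pool.Agent.H11.LQ
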