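import Pool.Agent.H11.LQ.Combi
import Pool.Agent.H11.LQ.Chain
import Pool.Agent.H11.LQ.Sift

/-!
# LQ module Fin: the final assembly, from `combi` and the analytic part
-/

set_option autoImplicit false

namespace Pool.Agent.H11.LQ

open Finset
open Pool.Agent.H34PG (lam lam_val lam_mul lam_prime)

/-- the statement of the analytic part -/
def Analytic : Prop := ∀ δ : ℝ, 0 < δ → ∃ m0 : ℕ, ∀ m ≥ m0, ∀ η : ℤ, (η = 1 ∨ η = -1) →
  ¬ (∀ q : ℕ, q.Prime → (q : ℝ) ≤ (m : ℝ) ^ δ → ((Ex m η q).card : ℝ) ≤ (m : ℝ) ^ (1 - δ))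

/-- the integers `a` in `(0, N)` with signs `s, t` at `a`, `N - a` -/
def pat (N : ℕ) (s t : ℤ) : Finset ℕ :=
  (range N).filter fun a => 0 < a ∧ lam a = s ∧ lam (N - a) = t

theorem core (hA : Analytic) (ε : ℝ) (hε : 0 < ε) : ∃ m0 : ℕ, ∀ m ≥ m0, ∀ η : ℤ,
    (η = 1 ∨ η = -1) → (m : ℝ) ^ (1 - ε) < ((Ex m η 2).card : ℝ) := by
  obtain ⟨δ, hδ, _, m0, h0⟩ := combi ε hε
  obtain ⟨m1, h1⟩ := hA δ hδ
  refine ⟨m0 + m1 ^ 2, fun m hm η hη => ?_⟩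
  by_contra hcon
  obtain ⟨m', hm', h2⟩ := h0 m (by omega) η hη (not_lt.mp hcon)
  refine h1 m' ?_ η hη h2
  have h3 : (m1 : ℝ) ≤ (m : ℝ) ^ (1 / 2 : ℝ) := by
    rw [← Real.sqrt_eq_rpow]
    refine Real.le_sqrt_of_sq_le ?_
    exact_mod_cast (by omega : m1 ^ 2 ≤ m)
  exact_mod_cast h3.trans hm'

theorem pat_swap (N : ℕ) (s t : ℤ) : (pat N s t).card ≤ (pat N t s).card := by
  refine Finset.card_le_card_of_injOn (fun a => N - a) ?_ ?_
  · intro a ha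
    unfold pat at ha ⊢
    simp only [coe_filter, mem_range, Set.mem_setOf_eq] at ha ⊢
    obtain ⟨h1, h2, h3, h4⟩ := ha
    refine ⟨by omega, by omega, h4, ?_⟩
    rw [Nat.sub_sub_self h1.le]
    exact h3
  · intro a ha b hb hab
    unfold pat at ha hb
    simp only [coe_filter, mem_range, Set.mem_setOf_eq] at ha hb
    have : N - a = N - b := hab
    omega

private theorem fin_big (ε : ℝ) (hε : 0 < ε) (hε1 : ε ≤ 1) : ∃ N0 : ℕ, ∀ N ≥ N0,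
    100 * (N : ℝ) ^ (1 - ε) ≤ ((N / 2 : ℕ) : ℝ) ^ (1 - ε / 2) ∧ (1 : ℝ) ≤ (N : ℝ) ^ (1 - ε) := by
  obtain ⟨K, hK⟩ := exists_nat_gt ((400 : ℝ) ^ (2 / ε))
  refine ⟨K + 2, fun N hN => ?_⟩
  have hN2 : 2 ≤ N := by omega
  have hN0 : (0 : ℝ) < N := by exact_mod_cast (by omega : 0 < N)
  have hN1 : (1 : ℝ) ≤ N := by exact_mod_cast (by omega : 1 ≤ N)
  have h1 : (N : ℝ) / 4 ≤ ((N / 2 : ℕ) : ℝ) := by
    have h2 : N ≤ 4 * (N / 2) := by omega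
    have h3 : (N : ℝ) ≤ 4 * ((N / 2 : ℕ) : ℝ) := by exact_mod_cast h2
    linarith
  refine ⟨?_, Real.one_le_rpow hN1 (by linarith)⟩
  have h4 : ((N : ℝ) / 4) ^ (1 - ε / 2) ≤ ((N / 2 : ℕ) : ℝ) ^ (1 - ε / 2) :=
    Real.rpow_le_rpow (by positivity) h1 (by linarith)
  refine le_trans ?_ h4
  have h5 : (400 : ℝ) ≤ (N : ℝ) ^ (ε / 2) := by
    have h6 : ((400 : ℝ) ^ (2 / ε)) ^ (ε / 2) = 400 := by
      rw [← Real.rpow_mul (by norm_num), div_mul_div_comm, mul_comm 2 ε, div_self (by positivity),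
        Real.rpow_one]
    rw [← h6]
    refine Real.rpow_le_rpow (by positivity) ?_ (by positivity)
    have : (K : ℝ) ≤ N := by exact_mod_cast (by omega : K ≤ N)
    linarith
  have h7 : ((N : ℝ) / 4) ^ (1 - ε / 2) = (N : ℝ) ^ (1 - ε / 2) / 4 ^ (1 - ε / 2) :=
    Real.div_rpow hN0.le (by norm_num) _
  have h8 : (N : ℝ) ^ (1 - ε / 2) = (N : ℝ) ^ (1 - ε) * (N : ℝ) ^ (ε / 2) := by
    rw [← Real.rpow_add hN0]
    congr 1
    ring
  have h9 : (4 : ℝ) ^ (1 - ε / 2) ≤ 4 := by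
    calc (4 : ℝ) ^ (1 - ε / 2) ≤ (4 : ℝ) ^ (1 : ℝ) :=
          Real.rpow_le_rpow_of_exponent_le (by norm_num) (by linarith)
      _ = 4 := Real.rpow_one _
  have h10 : (0 : ℝ) < 4 ^ (1 - ε / 2) := by positivity
  rw [h7, le_div_iff₀ h10, h8]
  have h11 : (0 : ℝ) < (N : ℝ) ^ (1 - ε) := by positivity
  calc 100 * (N : ℝ) ^ (1 - ε) * 4 ^ (1 - ε / 2) ≤ 100 * (N : ℝ) ^ (1 - ε) * 4 :=
        mul_le_mul_of_nonneg_left h9 (by positivity)
    _ = (N : ℝ) ^ (1 - ε) * 400 := by ring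
    _ ≤ (N : ℝ) ^ (1 - ε) * (N : ℝ) ^ (ε / 2) := mul_le_mul_of_nonneg_left h5 h11.le

private theorem fin_aux (hA : Analytic) (ε : ℝ) (hε : 0 < ε) (hε1 : ε ≤ 1) : ∃ N0 : ℕ,
    ∀ N ≥ N0, (∀ s t : ℤ, (s = 1 ∨ s = -1) → (t = 1 ∨ t = -1) → (Even N ∨ s ≠ t) →
      (N : ℝ) ^ (1 - ε) ≤ ((pat N s t).card : ℝ)) := by
  obtain ⟨N1, h1⟩ := fin_big ε hε hε1
  obtain ⟨m0, h0⟩ := core hA (ε / 2) (by positivity)
  refine ⟨N1 + 2 * m0 + 2, fun N hN s t hs ht hst => ?_⟩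
  obtain ⟨h2, h3⟩ := h1 N (by omega)
  by_cases he : s = t
  · subst he
    have hev : Even N := hst.resolve_right (not_not.mpr rfl)
    obtain ⟨m, hm⟩ := hev
    have hm2 : N = 2 * m := by omega
    have h4 := h0 m (by omega) (-1) (Or.inr rfl)
    have h5 := red_same m hs
    rw [← hm2] at h5
    have h6 : ((Ex m (-1) 2).card : ℝ) ≤ 24 * ((pat N s s).card : ℝ) + 4 := by
      exact_mod_cast h5
    have h7 : N / 2 = m := by omega
    rw [h7] at h2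
    linarith
  · have h4 := h0 N (by omega) 1 (Or.inl rfl)
    have h5 := red_mixed N
    have h6 : ((range N).filter fun a => 0 < a ∧ lam a ≠ lam (N - a)) ⊆ pat N s t ∪ pat N t s := by
      intro a ha
      rw [mem_filter, mem_range] at ha
      obtain ⟨ha1, ha2, ha3⟩ := ha
      unfold pat
      rw [mem_union, mem_filter, mem_filter, mem_range]
      rcases lam_val a with e1 | e1 <;> rcases lam_val (N - a) with e2 | e2 <;>
        rcases hs with rfl | rfl <;> rcases ht with rfl | rfl <;>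
        simp_all
    have h7 := (Finset.card_le_card h6).trans (Finset.card_union_le _ _)
    have h8 := pat_swap N t s
    have h9 : (Ex N 1 2).card ≤ 4 * (pat N s t).card + 1 := by omega
    have h10 : ((Ex N 1 2).card : ℝ) ≤ 4 * ((pat N s t).card : ℝ) + 1 := by exact_mod_cast h9
    have h11 : ((N / 2 : ℕ) : ℝ) ^ (1 - ε / 2) ≤ (N : ℝ) ^ (1 - ε / 2) := by
      refine Real.rpow_le_rpow (by positivity) ?_ (by linarith)
      exact_mod_cast (by omega : N / 2 ≤ N)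
    linarith

theorem large (hA : Analytic) (ε : ℝ) (hε : 0 < ε) : ∃ N0 : ℕ,
    ∀ N ≥ N0, (∀ s t : ℤ, (s = 1 ∨ s = -1) → (t = 1 ∨ t = -1) → (Even N ∨ s ≠ t) →
      (N : ℝ) ^ (1 - ε) ≤ ((pat N s t).card : ℝ)) := by
  obtain ⟨N0, h0⟩ := fin_aux hA (min ε 1) (lt_min hε one_pos) (min_le_right _ _)
  refine ⟨N0 + 1, fun N hN s t hs ht hst => le_trans ?_ (h0 N (by omega) s t hs ht hst)⟩
  refine Real.rpow_le_rpow_of_exponent_le (by exact_mod_cast (by omega : 1 ≤ N)) ?_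
  have := min_le_left ε 1
  linarith

/-- with bounds for `gcd (a, N)` and for the square divisors of `a` and `N - a` -/
theorem large_sift (hA : Analytic) (ε : ℝ) (hε : 0 < ε) : ∃ N0 : ℕ,
    ∀ N ≥ N0, (∀ s t : ℤ, (s = 1 ∨ s = -1) → (t = 1 ∨ t = -1) → (Even N ∨ s ≠ t) →
      ∃ T ⊆ pat N s t, (N : ℝ) ^ (1 - ε) ≤ (T.card : ℝ) ∧
        ∀ a ∈ T, ((Nat.gcd a N : ℕ) : ℝ) ≤ (N : ℝ) ^ ε ∧
          ∀ v : ℕ, (v ^ 2 ∣ a ∨ v ^ 2 ∣ N - a) → (v : ℝ) ≤ (N : ℝ) ^ ε) := by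
  obtain ⟨N1, h1⟩ := large hA (ε / 8) (by positivity)
  obtain ⟨N2, h2⟩ := sift ε hε
  obtain ⟨K, hK⟩ := exists_nat_gt ((2 : ℝ) ^ (8 / ε))
  refine ⟨N1 + N2 + K + 1, fun N hN s t hs ht hst => ?_⟩
  have hN0 : (0 : ℝ) < N := by exact_mod_cast (by omega : 0 < N)
  have hN1 : (1 : ℝ) ≤ N := by exact_mod_cast (by omega : 1 ≤ N)
  have h3 := h1 N (by omega) s t hs ht hst
  have h4 : 2 * (N : ℝ) ^ (1 - ε / 4) ≤ ((pat N s t).card : ℝ) := by
    refine le_trans ?_ h3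
    have h5 : (2 : ℝ) ≤ (N : ℝ) ^ (ε / 8) := by
      have h6 : ((2 : ℝ) ^ (8 / ε)) ^ (ε / 8) = 2 := by
        rw [← Real.rpow_mul (by norm_num), div_mul_div_comm, mul_comm 8 ε, div_self (by positivity),
          Real.rpow_one]
      rw [← h6]
      refine Real.rpow_le_rpow (by positivity) ?_ (by positivity)
      have : (K : ℝ) ≤ N := by exact_mod_cast (by omega : K ≤ N)
      linarith
    have h7 : (N : ℝ) ^ (1 - ε / 8) = (N : ℝ) ^ (ε / 8) * (N : ℝ) ^ (1 - ε / 4) := by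
      rw [← Real.rpow_add hN0]
      congr 1
      ring
    rw [h7]
    exact mul_le_mul_of_nonneg_right h5 (by positivity)
  obtain ⟨T, hT, h5, h6⟩ := h2 N (by omega) (pat N s t) (fun a ha => by
    unfold pat at ha
    rw [mem_filter, mem_range] at ha
    exact ⟨ha.2.1, ha.1⟩) h4
  refine ⟨T, hT, le_trans ?_ h5, h6⟩
  exact Real.rpow_le_rpow_of_exponent_le hN1 (by linarith)

/-- from existence for all `N` and large `N` to a uniform constant -/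
theorem uniform {Q : ℕ → Prop} {f : ℕ → ℕ} {ε : ℝ} (hε : 0 < ε) {N0 : ℕ}
    (h1 : ∀ N, Q N → 1 ≤ f N) (h2 : ∀ N ≥ N0, Q N → (N : ℝ) ^ (1 - ε) ≤ (f N : ℝ)) :
    ∃ c : ℝ, 0 < c ∧ ∀ N, 1 ≤ N → Q N → c * (N : ℝ) ^ (1 - ε) ≤ (f N : ℝ) := by
  refine ⟨1 / ((N0 : ℝ) + 1), by positivity, fun N hN hQ => ?_⟩
  have hN1 : (1 : ℝ) ≤ N := by exact_mod_cast hN
  have h5 : (0 : ℝ) ≤ (N : ℝ) ^ (1 - ε) := by positivity
  have h6 : 1 / ((N0 : ℝ) + 1) ≤ 1 := by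
    rw [div_le_one (by positivity)]
    have : (0 : ℝ) ≤ N0 := by positivity
    linarith
  rcases Nat.lt_or_ge N N0 with h | h
  · have h3 : (1 : ℝ) ≤ (f N : ℝ) := by exact_mod_cast h1 N hQ
    have h4 : (N : ℝ) ^ (1 - ε) ≤ (N0 : ℝ) + 1 := by
      calc (N : ℝ) ^ (1 - ε) ≤ (N : ℝ) ^ (1 : ℝ) :=
            Real.rpow_le_rpow_of_exponent_le hN1 (by linarith)
        _ = N := Real.rpow_one _
        _ ≤ (N0 : ℝ) + 1 := by
            have : (N : ℝ) ≤ N0 := by exact_mod_cast h.le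
            linarith
    refine le_trans ?_ h3
    rw [div_mul_eq_mul_div, one_mul, div_le_one (by positivity)]
    exact h4
  · calc 1 / ((N0 : ℝ) + 1) * (N : ℝ) ^ (1 - ε) ≤ 1 * (N : ℝ) ^ (1 - ε) :=
          mul_le_mul_of_nonneg_right h6 h5
      _ ≤ (f N : ℝ) := by rw [one_mul]; exact h2 N h hQ

end Pool.Agent.H11.LQ
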