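import Pool.Agent.H11.LQ.Combi2
import Pool.Agent.H11.LQ.Fin

/-!
# LQ stage 2, module Fin2: the final assembly with polylogarithmic loss

The hypotheses `Analytic2`, `Lift` are proved in `Pool.Agent.H78.PH.Analytic2` (helper78).
-/

set_option autoImplicit false

namespace Pool.Agent.H11.LQ

open Finset
open Pool.Agent.H34PG (lam lam_val lam_mul lam_prime)

/-- the statement of the analytic part of stage 2 -/
def Analytic2 : Prop := ∃ C1 m0 : ℕ, ∀ (m : ℕ) [NeZero m], m0 ≤ m → ∀ ρ : ℝ,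
    (m : ℝ) ^ (-(1 / 100) : ℝ) ≤ ρ → ρ * Real.log m ^ C1 ≤ 1 → ∀ η : ℤ, (η = 1 ∨ η = -1) →
    (∀ q : ℕ, q.Prime → (q : ℝ) ≤ Real.log m ^ 800 → ((Ex m η q).card : ℝ) ≤ ρ * m) →
    ∃ χ : DirichletCharacter ℂ m, χ ^ 2 = 1 ∧ χ ≠ 1 ∧
      ‖DirichletCharacter.LFunction χ 1‖ ≤ ρ ^ (1 / 16 : ℝ)

/-- induced real characters -/
def Lift : Prop := ∀ (m N : ℕ) [NeZero m] [NeZero N], m ∣ N → ∀ χ : DirichletCharacter ℂ m,
    χ ^ 2 = 1 → χ ≠ 1 → ∃ χ' : DirichletCharacter ℂ N, χ' ^ 2 = 1 ∧ χ' ≠ 1 ∧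
      ‖DirichletCharacter.LFunction χ' 1‖
        ≤ (2 + 2 * Real.log N) * ‖DirichletCharacter.LFunction χ 1‖

theorem core2 (hA : Analytic2) (hL : Lift) : ∃ c0 : ℝ, 0 < c0 ∧ c0 ≤ 1 / 100 ∧ ∃ C0 m0 : ℕ,
    ∀ (m N : ℕ) [NeZero N], m0 ≤ m → m ∣ N → ∀ ρ : ℝ, (m : ℝ) ^ (-c0) ≤ ρ →
      ρ * Real.log m ^ C0 ≤ 1 → ∀ η : ℤ, (η = 1 ∨ η = -1) → ((Ex m η 2).card : ℝ) ≤ ρ * m →
      ∀ r : ℝ, (∀ χ : DirichletCharacter ℂ N, χ ^ 2 = 1 → χ ≠ 1 →
        r ≤ ‖DirichletCharacter.LFunction χ 1‖) → r ≤ (2 + 2 * Real.log N) * ρ ^ (1 / 32 : ℝ) := by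
  obtain ⟨c, hc, C, m1, h1⟩ := combi2
  obtain ⟨C1, m2, h2⟩ := hA
  refine ⟨min c (1 / 100), lt_min hc (by norm_num), min_le_right _ _, C + 2 * C1,
    m1 + m2 ^ 2 + 3, fun m N _ hm hmN ρ hρ1 hρ2 η hη he r hr => ?_⟩
  have hm1 : (1 : ℝ) ≤ m := by exact_mod_cast (by omega : 1 ≤ m)
  have hm0 : (0 : ℝ) < m := by linarith
  have hρ0 : 0 < ρ := lt_of_lt_of_le (by positivity) hρ1
  have hlog : 1 ≤ Real.log m := by
    rw [Real.le_log_iff_exp_le hm0]
    have h3 : (3 : ℝ) ≤ m := by exact_mod_cast (by omega : 3 ≤ m)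
    have := Real.exp_one_lt_d9
    linarith
  have hc1 : (m : ℝ) ^ (-c) ≤ ρ := le_trans (Real.rpow_le_rpow_of_exponent_le hm1
    (by have := min_le_left c (1 / 100); linarith)) hρ1
  have hC1 : ρ * Real.log m ^ C ≤ 1 := by
    refine le_trans (mul_le_mul_of_nonneg_left ?_ hρ0.le) hρ2
    exact pow_le_pow_right₀ hlog (by omega)
  obtain ⟨m', hm'd, hm'1, hm'2⟩ := h1 m (by omega) ρ hc1 hC1 η hη he
  have hm'0 : 0 < m' := Nat.pos_of_dvd_of_pos hm'd (by omega)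
  have : NeZero m' := ⟨hm'0.ne'⟩
  have hm'r : (0 : ℝ) < m' := by exact_mod_cast hm'0
  have hm'le : (m' : ℝ) ≤ m := by exact_mod_cast Nat.le_of_dvd (by omega) hm'd
  have h3 : m2 ≤ m' := by
    have h4 : (m2 : ℝ) ≤ (m : ℝ) ^ (1 / 2 : ℝ) := by
      rw [← Real.sqrt_eq_rpow]
      refine Real.le_sqrt_of_sq_le ?_
      exact_mod_cast (by omega : m2 ^ 2 ≤ m)
    exact_mod_cast h4.trans hm'1
  have h5 : (m' : ℝ) ^ (-(1 / 100) : ℝ) ≤ Real.sqrt ρ := by
    have h6 : (m' : ℝ) ^ (-(1 / 100) : ℝ) ≤ ((m : ℝ) ^ (1 / 2 : ℝ)) ^ (-(1 / 100) : ℝ) :=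
      Real.rpow_le_rpow_of_nonpos (by positivity) hm'1 (by norm_num)
    have h7 : (m : ℝ) ^ (-(1 / 100) : ℝ) ≤ ρ := le_trans (Real.rpow_le_rpow_of_exponent_le hm1
      (by have := min_le_right c (1 / 100); linarith)) hρ1
    refine h6.trans ?_
    rw [← Real.rpow_mul hm0.le, Real.sqrt_eq_rpow]
    have h8 : (m : ℝ) ^ (1 / 2 * -(1 / 100) : ℝ) = ((m : ℝ) ^ (-(1 / 100) : ℝ)) ^ (1 / 2 : ℝ) := by
      rw [← Real.rpow_mul hm0.le]
      congr 1
      norm_num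
    rw [h8]
    exact Real.rpow_le_rpow (by positivity) h7 (by norm_num)
  have h6 : Real.sqrt ρ * Real.log m' ^ C1 ≤ 1 := by
    have h7 : 0 ≤ Real.log m' := Real.log_nonneg (by exact_mod_cast hm'0)
    have h8 : Real.log m' ≤ Real.log m := Real.log_le_log hm'r hm'le
    have h9 : Real.sqrt ρ * Real.log m' ^ C1 ≤ Real.sqrt ρ * Real.log m ^ C1 :=
      mul_le_mul_of_nonneg_left (pow_le_pow_left₀ h7 h8 _) (Real.sqrt_nonneg _)
    refine h9.trans ?_
    have h10 : (Real.sqrt ρ * Real.log m ^ C1) ^ 2 ≤ 1 := by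
      rw [mul_pow, Real.sq_sqrt hρ0.le, ← pow_mul]
      refine le_trans (mul_le_mul_of_nonneg_left ?_ hρ0.le) hρ2
      exact pow_le_pow_right₀ hlog (by omega)
    have h11 : 0 ≤ Real.sqrt ρ * Real.log m ^ C1 := by positivity
    nlinarith
  obtain ⟨χ, hχ2, hχ1, hχ⟩ := h2 m' h3 (Real.sqrt ρ) h5 h6 η hη hm'2
  obtain ⟨χ', h7, h8, h9⟩ := hL m' N (hm'd.trans hmN) χ hχ2 hχ1
  refine (hr χ' h7 h8).trans (h9.trans ?_)
  have hN1 : (1 : ℝ) ≤ N := by exact_mod_cast Nat.pos_of_ne_zero (NeZero.ne N)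
  have h10 : 0 ≤ Real.log N := Real.log_nonneg hN1
  refine mul_le_mul_of_nonneg_left (hχ.trans (le_of_eq ?_)) (by positivity)
  rw [Real.sqrt_eq_rpow, ← Real.rpow_mul hρ0.le]
  congr 1
  norm_num

private theorem fin2_step (hA : Analytic2) (hL : Lift) : ∃ c0 : ℝ, 0 < c0 ∧ ∃ C N0 : ℕ,
    ∀ (N : ℕ) [NeZero N], N0 ≤ N → ∀ r : ℝ, 0 < r → r ≤ 1 →
      (∀ χ : DirichletCharacter ℂ N, χ ^ 2 = 1 → χ ≠ 1 →
        r ≤ ‖DirichletCharacter.LFunction χ 1‖) → ∀ m : ℕ, m ∣ N → N ≤ 2 * m → ∀ η : ℤ,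
      (η = 1 ∨ η = -1) → ∀ R : ℕ, (Ex m η 2).card ≤ 24 * R + 4 → (N : ℝ) ^ (1 - c0) ≤ (R : ℝ) →
      (r / Real.log N) ^ C * N ≤ 100 * (R : ℝ) := by
  obtain ⟨c, hc, hc1, C0, m0, h0⟩ := core2 hA hL
  obtain ⟨K, hK⟩ := exists_nat_gt ((2 : ℝ) ^ (2 / c))
  refine ⟨c / 2, by positivity, C0 + 64, 2 * m0 + K + 200, fun N _ hN r hr0 hr1 hr m hmN hNm η hη R
    hR hR1 => ?_⟩
  have hm100 : 100 ≤ m := by omega
  have hmle : m ≤ N := Nat.le_of_dvd (by omega) hmN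
  have hN1 : (1 : ℝ) ≤ N := by exact_mod_cast (by omega : 1 ≤ N)
  have hN0 : (0 : ℝ) < N := by linarith
  have hm1 : (1 : ℝ) ≤ m := by exact_mod_cast (by omega : 1 ≤ m)
  have hm0 : (0 : ℝ) < m := by linarith
  have hlogN : 4 < Real.log N := by
    rw [Real.lt_log_iff_exp_lt hN0]
    have h1 : Real.exp 4 = Real.exp 1 ^ 4 := by
      rw [← Real.exp_nat_mul]
      norm_num
    have h2 := Real.exp_one_lt_d9
    have h3 : (200 : ℝ) ≤ N := by exact_mod_cast (by omega : 200 ≤ N)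
    have h4 : Real.exp 1 ^ 4 < 2.7182818286 ^ 4 :=
      pow_lt_pow_left₀ h2 (Real.exp_pos 1).le (by norm_num)
    rw [h1]
    norm_num at h4
    linarith
  have hlogm : 1 ≤ Real.log m := by
    rw [Real.le_log_iff_exp_le hm0]
    have h3 : (3 : ℝ) ≤ m := by exact_mod_cast (by omega : 3 ≤ m)
    have := Real.exp_one_lt_d9
    linarith
  have hlogmN : Real.log m ≤ Real.log N := Real.log_le_log hm0 (by exact_mod_cast hmle)
  obtain ⟨ρ, hρ⟩ : ∃ ρ : ℝ, ρ = (r / Real.log N) ^ (C0 + 64) := ⟨_, rfl⟩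
  rw [← hρ]
  have hρ0 : 0 < ρ := by
    rw [hρ]
    positivity
  have hx1 : r / Real.log N ≤ 1 := by
    rw [div_le_one (by positivity)]
    linarith
  have hx0 : 0 < r / Real.log N := by positivity
  by_contra hcon
  rw [not_le] at hcon
  by_cases hρm : (m : ℝ) ^ (-c) ≤ ρ
  · -- the main case
    have h1 : ρ * Real.log m ^ C0 ≤ 1 := by
      have h2 : ρ ≤ (1 / Real.log N) ^ C0 := by
        calc ρ ≤ (r / Real.log N) ^ C0 := by
              rw [hρ]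
              exact pow_le_pow_of_le_one hx0.le hx1 (by omega)
          _ ≤ (1 / Real.log N) ^ C0 := by
              refine pow_le_pow_left₀ hx0.le ?_ _
              exact div_le_div_of_nonneg_right hr1 (by linarith)
      calc ρ * Real.log m ^ C0 ≤ (1 / Real.log N) ^ C0 * Real.log N ^ C0 := by
            refine mul_le_mul h2 (pow_le_pow_left₀ (by linarith) hlogmN _) (by positivity)
              (by positivity)
        _ = 1 := by
            rw [← mul_pow, one_div_mul_cancel (by positivity), one_pow]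
    have h3 : ((Ex m η 2).card : ℝ) ≤ ρ * m := by
      have h4 : ((Ex m η 2).card : ℝ) ≤ 24 * (R : ℝ) + 4 := by exact_mod_cast hR
      have h5 : (N : ℝ) ≤ 2 * m := by exact_mod_cast hNm
      have h6 : (10 : ℝ) ≤ ρ * m := by
        have h7 : (m : ℝ) ^ (1 / 2 : ℝ) ≤ ρ * m := by
          calc (m : ℝ) ^ (1 / 2 : ℝ) ≤ (m : ℝ) ^ (-c + 1) :=
                Real.rpow_le_rpow_of_exponent_le hm1 (by linarith)
            _ = (m : ℝ) ^ (-c) * m := by rw [Real.rpow_add hm0, Real.rpow_one]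
            _ ≤ ρ * m := mul_le_mul_of_nonneg_right hρm hm0.le
        refine le_trans ?_ h7
        rw [← Real.sqrt_eq_rpow]
        refine Real.le_sqrt_of_sq_le ?_
        have h8 : (100 : ℝ) ≤ m := by exact_mod_cast hm100
        linarith
      have h7 : ρ * N ≤ ρ * (2 * m) := mul_le_mul_of_nonneg_left h5 hρ0.le
      linarith
    have h4 := h0 m N (by omega) hmN ρ hρm h1 η hη h3 r hr
    have h5 : ρ ^ (1 / 32 : ℝ) ≤ (r / Real.log N) ^ 2 := by
      have h6 : ρ ≤ (r / Real.log N) ^ 64 := by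
        rw [hρ]
        exact pow_le_pow_of_le_one hx0.le hx1 (by omega)
      calc ρ ^ (1 / 32 : ℝ) ≤ ((r / Real.log N) ^ 64) ^ (1 / 32 : ℝ) :=
            Real.rpow_le_rpow hρ0.le h6 (by norm_num)
        _ = (r / Real.log N) ^ 2 := by
            rw [← Real.rpow_natCast _ 64, ← Real.rpow_mul hx0.le, ← Real.rpow_natCast _ 2]
            congr 1
            norm_num
    have h6 : (2 + 2 * Real.log N) * ρ ^ (1 / 32 : ℝ) < r := by
      calc (2 + 2 * Real.log N) * ρ ^ (1 / 32 : ℝ)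
          ≤ (4 * Real.log N) * (r / Real.log N) ^ 2 := by
            refine mul_le_mul (by linarith) h5 (by positivity) (by positivity)
        _ = (4 / Real.log N) * r * r := by
            field_simp
        _ < 1 * r * 1 := by
            have h7 : 4 / Real.log N < 1 := by
              rw [div_lt_one (by positivity)]
              exact hlogN
            have h8 : 4 / Real.log N * r < 1 * r := mul_lt_mul_of_pos_right h7 hr0
            have h9 : 0 < 4 / Real.log N * r := by positivity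
            nlinarith
        _ = r := by ring
    linarith
  · -- the case of a tiny `ρ`
    rw [not_le] at hρm
    have h1 : (m : ℝ) ^ (-c) ≤ 2 * (N : ℝ) ^ (-c) := by
      have h2 : (N : ℝ) / 2 ≤ m := by
        have h3 : (N : ℝ) ≤ 2 * m := by exact_mod_cast hNm
        linarith
      calc (m : ℝ) ^ (-c) ≤ ((N : ℝ) / 2) ^ (-c) :=
            Real.rpow_le_rpow_of_nonpos (by positivity) h2 (by linarith)
        _ = 2 ^ c * (N : ℝ) ^ (-c) := by
            rw [Real.div_rpow hN0.le (by norm_num), Real.rpow_neg (by norm_num : (0 : ℝ) ≤ 2) c,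
              div_inv_eq_mul, mul_comm]
        _ ≤ 2 * (N : ℝ) ^ (-c) := by
            refine mul_le_mul_of_nonneg_right ?_ (by positivity)
            calc (2 : ℝ) ^ c ≤ 2 ^ (1 : ℝ) :=
                  Real.rpow_le_rpow_of_exponent_le (by norm_num) (by linarith)
              _ = 2 := Real.rpow_one _
    have h2 : (2 : ℝ) ≤ (N : ℝ) ^ (c / 2) := by
      have h3 : ((2 : ℝ) ^ (2 / c)) ^ (c / 2) = 2 := by
        rw [← Real.rpow_mul (by norm_num), div_mul_div_comm, mul_comm 2 c, div_self (by positivity),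
          Real.rpow_one]
      have h4 : (K : ℝ) ≤ N := by exact_mod_cast (by omega : K ≤ N)
      calc (2 : ℝ) = ((2 : ℝ) ^ (2 / c)) ^ (c / 2) := h3.symm
        _ ≤ (N : ℝ) ^ (c / 2) := Real.rpow_le_rpow (by positivity) (by linarith) (by positivity)
    have h3 : (N : ℝ) ^ (1 - c / 2) = (N : ℝ) ^ (c / 2) * ((N : ℝ) ^ (-c) * N) := by
      rw [← Real.rpow_add_one hN0.ne', ← Real.rpow_add hN0]
      congr 1
      ring
    have h4 : 2 * ((N : ℝ) ^ (-c) * N) ≤ (R : ℝ) := by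
      refine le_trans ?_ hR1
      rw [h3]
      exact mul_le_mul_of_nonneg_right h2 (by positivity)
    have h5 : ρ * N < 2 * (N : ℝ) ^ (-c) * N := mul_lt_mul_of_pos_right (hρm.trans_le h1) hN0
    have h6 : (0 : ℝ) ≤ R := Nat.cast_nonneg _
    linarith

/-- the dichotomy: sparse patterns only if `|L(1, χ)|` is small for a real character mod `N` -/
theorem large2 (hA1 : Analytic) (hA : Analytic2) (hL : Lift) : ∃ C N0 : ℕ,
    ∀ (N : ℕ) [NeZero N], N0 ≤ N → ∀ r : ℝ, 0 < r → r ≤ 1 →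
      (∀ χ : DirichletCharacter ℂ N, χ ^ 2 = 1 → χ ≠ 1 →
        r ≤ ‖DirichletCharacter.LFunction χ 1‖) →
      ∀ s t : ℤ, (s = 1 ∨ s = -1) → (t = 1 ∨ t = -1) → (Even N ∨ s ≠ t) →
        (r / Real.log N) ^ C * N ≤ 100 * ((pat N s t).card : ℝ) := by
  obtain ⟨c0, hc0, C, N1, h1⟩ := fin2_step hA hL
  obtain ⟨N2, h2⟩ := large hA1 c0 hc0
  refine ⟨C, N1 + N2 + 2, fun N _ hN r hr0 hr1 hr s t hs ht hst => ?_⟩
  have h3 := h2 N (by omega) s t hs ht hst
  by_cases he : s = t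
  · subst he
    have hev : Even N := hst.resolve_right (not_not.mpr rfl)
    obtain ⟨m, hm⟩ := hev
    have hm2 : N = 2 * m := by omega
    have h5 := red_same m hs
    rw [← hm2] at h5
    exact h1 N (by omega) r hr0 hr1 hr m ⟨2, by omega⟩ (by omega) (-1) (Or.inr rfl) _ h5 h3
  · have h5 := red_mixed N
    have h6 : ((range N).filter fun a => 0 < a ∧ lam a ≠ lam (N - a)) ⊆ pat N s t ∪ pat N t s := by
      intro a ha
      rw [mem_filter, mem_range] at ha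
      obtain ⟨ha1, ha2, ha3⟩ := ha
      unfold pat
      rw [mem_union, mem_filter, mem_filter, mem_range]
      rcases lam_val a with e1 | e1 <;> rcases lam_val (N - a) with e2 | e2 <;>
        rcases hs with rfl | rfl <;> rcases ht with rfl | rfl <;>
        simp_all
    have h7 := (Finset.card_le_card h6).trans (Finset.card_union_le _ _)
    have h8 := pat_swap N t s
    exact h1 N (by omega) r hr0 hr1 hr N dvd_rfl (by omega) 1 (Or.inl rfl) (pat N s t).card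
      (by omega) h3

/-- removing the `a` with `gcd (a, N) > G` or with a square divisor `v²`, `v > V`, of `a` or `N - a` -/
theorem sift_gen (N : ℕ) (T : Finset ℕ) (hT : ∀ a ∈ T, 0 < a ∧ a < N) (G V : ℝ) (hG : 0 < G)
    (hV : 1 ≤ V) : ∃ T' ⊆ T,
    (T.card : ℝ) ≤ T'.card + (N.divisors.card : ℝ) * (N / G) + 4 * (N / V) ∧
    ∀ a ∈ T', ((Nat.gcd a N : ℕ) : ℝ) ≤ G ∧
      ∀ v : ℕ, (v ^ 2 ∣ a ∨ v ^ 2 ∣ N - a) → (v : ℝ) ≤ V := by
  classical
  set B1 := T.filter (fun a => G < ((Nat.gcd a N : ℕ) : ℝ)) with hB1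
  set B2 := T.filter (fun a => ∃ v : ℕ, V < (v : ℝ) ∧ v ^ 2 ∣ a) with hB2
  set B3 := T.filter (fun a => ∃ v : ℕ, V < (v : ℝ) ∧ v ^ 2 ∣ N - a) with hB3
  have c1 : (B1.card : ℝ) ≤ (N.divisors.card : ℝ) * (N / G) := by
    refine le_trans ?_ (sift_gcd N G hG)
    have : B1 ⊆ (Finset.Ioo 0 N).filter (fun a => G < ((Nat.gcd a N : ℕ) : ℝ)) := by
      intro a ha
      rw [hB1, Finset.mem_filter] at ha
      rw [Finset.mem_filter, Finset.mem_Ioo]
      exact ⟨hT a ha.1, ha.2⟩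
    exact_mod_cast Finset.card_le_card this
  have c2 : (B2.card : ℝ) ≤ 2 * (N / V) := by
    refine sift_sq N V hV B2 fun a ha => ?_
    rw [hB2, Finset.mem_filter] at ha
    exact ⟨hT a ha.1, ha.2⟩
  have c3 : (B3.card : ℝ) ≤ 2 * (N / V) := by
    have hinj : Set.InjOn (fun a => N - a) (B3 : Set ℕ) := by
      intro a ha b hb hab
      rw [Finset.mem_coe, hB3, Finset.mem_filter] at ha hb
      have h1 := hT a ha.1
      have h2 := hT b hb.1
      simp only at hab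
      omega
    rw [← Finset.card_image_of_injOn hinj]
    refine sift_sq N V hV _ fun x hx => ?_
    rw [Finset.mem_image] at hx
    obtain ⟨a, ha, rfl⟩ := hx
    rw [hB3, Finset.mem_filter] at ha
    have h1 := hT a ha.1
    exact ⟨⟨by omega, by omega⟩, ha.2⟩
  refine ⟨T \ (B1 ∪ B2 ∪ B3), Finset.sdiff_subset, ?_, ?_⟩
  · have hsub : B1 ∪ B2 ∪ B3 ⊆ T := by
      intro a ha
      rw [Finset.mem_union, Finset.mem_union] at ha
      rcases ha with (ha | ha) | ha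
      · exact (Finset.mem_filter.1 ha).1
      · exact (Finset.mem_filter.1 ha).1
      · exact (Finset.mem_filter.1 ha).1
    have e1 : ((T \ (B1 ∪ B2 ∪ B3)).card : ℝ) = (T.card : ℝ) - ((B1 ∪ B2 ∪ B3).card : ℝ) := by
      rw [Finset.card_sdiff_of_subset hsub, Nat.cast_sub (Finset.card_le_card hsub)]
    have e2 : ((B1 ∪ B2 ∪ B3).card : ℝ) ≤ B1.card + B2.card + B3.card := by
      have h1 := Finset.card_union_le (B1 ∪ B2) B3
      have h2 := Finset.card_union_le B1 B2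
      have h3 : (B1 ∪ B2 ∪ B3).card ≤ B1.card + B2.card + B3.card := by omega
      exact_mod_cast h3
    rw [e1]
    linarith
  · intro a ha
    rw [Finset.mem_sdiff, Finset.mem_union, Finset.mem_union] at ha
    obtain ⟨haT, hnot⟩ := ha
    push Not at hnot
    obtain ⟨⟨n1, n2⟩, n3⟩ := hnot
    refine ⟨?_, ?_⟩
    · by_contra h
      push Not at h
      exact n1 (Finset.mem_filter.2 ⟨haT, h⟩)
    · intro v hv
      by_contra h
      push Not at h
      rcases hv with hv | hv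
      · exact n2 (Finset.mem_filter.2 ⟨haT, v, h, hv⟩)
      · exact n3 (Finset.mem_filter.2 ⟨haT, v, h, hv⟩)

theorem large2_sift (hA1 : Analytic) (hA : Analytic2) (hL : Lift) : ∃ C : ℕ, ∀ ε : ℝ, 0 < ε →
    ∃ N0 : ℕ, ∀ (N : ℕ) [NeZero N], N0 ≤ N → ∀ r : ℝ, 0 < r → r ≤ 1 →
      (∀ χ : DirichletCharacter ℂ N, χ ^ 2 = 1 → χ ≠ 1 →
        r ≤ ‖DirichletCharacter.LFunction χ 1‖) →
      ∀ s t : ℤ, (s = 1 ∨ s = -1) → (t = 1 ∨ t = -1) → (Even N ∨ s ≠ t) →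
        ∃ T ⊆ pat N s t, (r / Real.log N) ^ C * N ≤ 400 * (T.card : ℝ) ∧
          (N : ℝ) ^ (1 - ε) ≤ (T.card : ℝ) ∧
          ∀ a ∈ T, ((Nat.gcd a N : ℕ) : ℝ) ≤ (N : ℝ) ^ ε ∧
            ∀ v : ℕ, (v ^ 2 ∣ a ∨ v ^ 2 ∣ N - a) → (v : ℝ) ≤ 800 * (Real.log N / r) ^ C := by
  obtain ⟨C, N1, h1⟩ := large2 hA1 hA hL
  refine ⟨C, fun ε hε => ?_⟩
  obtain ⟨N2, h2⟩ := large hA1 (ε / 4) (by positivity)
  obtain ⟨D, hD1, hD⟩ := Pool.Agent.H92.EH.div_bound (ε / 4) (by linarith)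
  have hlim : Filter.Tendsto (fun N : ℕ => (N : ℝ) ^ (ε / 2)) Filter.atTop Filter.atTop :=
    (tendsto_rpow_atTop (by linarith)).comp tendsto_natCast_atTop_atTop
  obtain ⟨N3, h3⟩ := Filter.eventually_atTop.1 (hlim.eventually_ge_atTop (4 * D))
  refine ⟨N1 + N2 + N3 + 3, fun N _ hN r hr0 hr1 hr s t hs ht hst => ?_⟩
  have hN1 : (1 : ℝ) ≤ N := by exact_mod_cast (by omega : 1 ≤ N)
  have hN0 : (0 : ℝ) < N := by linarith
  have hlog : 1 ≤ Real.log N := by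
    rw [Real.le_log_iff_exp_le hN0]
    have h3 : (3 : ℝ) ≤ N := by exact_mod_cast (by omega : 3 ≤ N)
    have := Real.exp_one_lt_d9
    linarith
  have e1 := h1 N (by omega) r hr0 hr1 hr s t hs ht hst
  have e2 := h2 N (by omega) s t hs ht hst
  have e3 := h3 N (by omega)
  have hx : 1 ≤ Real.log N / r := by
    rw [le_div_iff₀ hr0]
    linarith
  have hV : 1 ≤ 800 * (Real.log N / r) ^ C := by
    have := one_le_pow₀ hx (n := C)
    linarith
  obtain ⟨T, hT, e4, e5⟩ := sift_gen N (pat N s t) (fun a ha => by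
    unfold pat at ha
    rw [mem_filter, mem_range] at ha
    exact ⟨ha.2.1, ha.1⟩) ((N : ℝ) ^ ε) (800 * (Real.log N / r) ^ C) (by positivity) hV
  have e6 : 4 * ((N : ℝ) / (800 * (Real.log N / r) ^ C)) ≤ ((pat N s t).card : ℝ) / 2 := by
    have : 4 * ((N : ℝ) / (800 * (Real.log N / r) ^ C)) = (r / Real.log N) ^ C * N / 200 := by
      rw [← inv_div r (Real.log N), inv_pow]
      have : (r / Real.log N) ^ C ≠ 0 := by positivity
      field_simp
      norm_num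
    rw [this]
    linarith
  have e7 : (N.divisors.card : ℝ) * (N / (N : ℝ) ^ ε) ≤ (N : ℝ) ^ (1 - ε / 4) / 4 := by
    have d1 := hD N (by omega)
    have d3 : (N : ℝ) / (N : ℝ) ^ ε = (N : ℝ) ^ (1 - ε) := by
      rw [Real.rpow_sub hN0, Real.rpow_one]
    have d4 : (0 : ℝ) < (N : ℝ) ^ (1 - ε) := Real.rpow_pos_of_pos hN0 _
    have d5 : (N : ℝ) ^ (ε / 2) * ((N : ℝ) ^ (ε / 4) * (N : ℝ) ^ (1 - ε)) =
        (N : ℝ) ^ (1 - ε / 4) := by
      rw [← Real.rpow_add hN0, ← Real.rpow_add hN0]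
      congr 1
      ring
    have d9 : (0 : ℝ) < (N : ℝ) ^ (ε / 4) * (N : ℝ) ^ (1 - ε) := by positivity
    calc (N.divisors.card : ℝ) * (N / (N : ℝ) ^ ε)
        ≤ (D * (N : ℝ) ^ (ε / 4)) * (N : ℝ) ^ (1 - ε) := by
          rw [d3]
          exact mul_le_mul_of_nonneg_right d1 d4.le
      _ = (4 * D) * ((N : ℝ) ^ (ε / 4) * (N : ℝ) ^ (1 - ε)) / 4 := by ring
      _ ≤ (N : ℝ) ^ (ε / 2) * ((N : ℝ) ^ (ε / 4) * (N : ℝ) ^ (1 - ε)) / 4 := by
          have := mul_le_mul_of_nonneg_right e3 d9.le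
          linarith
      _ = _ := by rw [d5]
  have e8 : (N : ℝ) ^ (1 - ε) ≤ (N : ℝ) ^ (1 - ε / 4) / 4 := by
    have d5 : (N : ℝ) ^ (ε / 2) * ((N : ℝ) ^ (ε / 4) * (N : ℝ) ^ (1 - ε)) =
        (N : ℝ) ^ (1 - ε / 4) := by
      rw [← Real.rpow_add hN0, ← Real.rpow_add hN0]
      congr 1
      ring
    have d2 : (1 : ℝ) ≤ (N : ℝ) ^ (ε / 4) := Real.one_le_rpow hN1 (by linarith)
    have d4 : (0 : ℝ) < (N : ℝ) ^ (1 - ε) := Real.rpow_pos_of_pos hN0 _
    have d6 : (4 : ℝ) ≤ (N : ℝ) ^ (ε / 2) := by linarith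
    rw [← d5]
    have d7 : (N : ℝ) ^ (1 - ε) ≤ (N : ℝ) ^ (ε / 4) * (N : ℝ) ^ (1 - ε) :=
      le_mul_of_one_le_left d4.le d2
    have d8 : 4 * ((N : ℝ) ^ (ε / 4) * (N : ℝ) ^ (1 - ε)) ≤
        (N : ℝ) ^ (ε / 2) * ((N : ℝ) ^ (ε / 4) * (N : ℝ) ^ (1 - ε)) :=
      mul_le_mul_of_nonneg_right d6 (by positivity)
    linarith
  refine ⟨T, hT, by linarith, by linarith, e5⟩

end Pool.Agent.H11.LQ
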