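import Pool.Agent.H11.LQ.Defs
import Pool.Agent.H91.EHA.SwD3

/-!
# LQ stage 2, module Rad: real characters of moduli with small radical

`rad N = ∏ p ∈ N.primeFactors, p`.

`conductor_dvd`: let `f` be the conductor of `χ` and `ψ` mod `f` the primitive character, `ψ² = 1` (see `siegel_all` in
Pool/Agent/H78/PG/TSie.lean).  If `p` is an odd prime and `p² | f`: the elements `u` of the kernel of
`(ZMod f)ˣ → (ZMod (f/p))ˣ` are `1 + (f/p) t`, so `u ^ p = 1` (binomial theorem, `f | (f/p)²`, `p (f/p) = f`), so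
`ψ u ^ p = 1 = ψ u ^ 2` and `ψ u = 1`; so `ψ` factors through `f/p`
(`DirichletCharacter.factorsThrough_iff_ker_unitsMap`), against primitivity.  If `16 | f`: the kernel of
`(ZMod f)ˣ → (ZMod (f/2))ˣ` is `{1, 1 + f/2}` and `1 + f/2 = (1 + f/4)²` mod `f`, so `ψ (1 + f/2) = 1`: the same
contradiction.  So `f` divides `8 * rad f`, and `rad f | rad N`.

`lower_rad`: `LFunction_changeLevel` and `tsie_prod` as in `siegel_all` (copy the proof from
/team-store/h78_PG_TSie.lean), `Pool.Agent.H91.EHA.siegel 1`: `|L(1, ψ)| ≥ c / f ≥ c / (8 rad N)`, and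
`φ(N)/N = ∏ (1 - 1/p) ≥ ∏ 1/p = 1 / rad N`.
-/

set_option autoImplicit false

namespace Pool.Agent.H11.LQ

open Finset

/-- a unit which is a square has value `1` under a real character -/
private theorem Rad_sq {f : ℕ} (ψ : DirichletCharacter ℂ f) (h : ψ ^ 2 = 1) {u v : ZMod f} (hu : IsUnit u) (hv : v * v = u) :
    ψ u = 1 := by
  have hvu : IsUnit v := by
    rw [← hv] at hu
    exact isUnit_of_mul_isUnit_left hu
  have h1 : (ψ ^ 2) v = 1 := by
    rw [h]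
    exact MulChar.one_apply hvu
  rw [← hv, map_mul]
  rw [MulChar.pow_apply' ψ two_ne_zero] at h1
  rw [← h1]
  ring

/-- if the integers `1 + d t` are squares modulo `f`, then `ψ` factors through `d` -/
private theorem Rad_factors {f d : ℕ} [NeZero f] (hd : d ∣ f) (ψ : DirichletCharacter ℂ f) (h : ψ ^ 2 = 1)
    (hs : ∀ t : ℤ, ∃ v : ℤ, (f : ℤ) ∣ v * v - (1 + d * t)) : ψ.FactorsThrough d := by
  rw [DirichletCharacter.factorsThrough_iff_ker_unitsMap hd]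
  intro u hu
  rw [MonoidHom.mem_ker] at hu ⊢
  have h1 : ZMod.castHom hd (ZMod d) (u : ZMod f) = 1 := by
    have h2 := congrArg Units.val hu
    rw [Units.val_one] at h2
    rw [← h2]
    rfl
  obtain ⟨n, hn⟩ : ∃ n : ℤ, (n : ZMod f) = (u : ZMod f) := ⟨((u : ZMod f).val : ℤ), by
    rw [Int.cast_natCast]
    exact ZMod.natCast_zmod_val _⟩
  rw [← hn, map_intCast] at h1
  have h3 : ((n - 1 : ℤ) : ZMod d) = 0 := by
    push_cast
    rw [h1, sub_self]
  rw [ZMod.intCast_zmod_eq_zero_iff_dvd] at h3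
  obtain ⟨t, ht⟩ := h3
  obtain ⟨v, hv⟩ := hs t
  have h4 : ((v : ℤ) : ZMod f) * ((v : ℤ) : ZMod f) = (u : ZMod f) := by
    rw [← hn]
    have h5 : (((v * v - (1 + d * t)) : ℤ) : ZMod f) = 0 := by
      rw [ZMod.intCast_zmod_eq_zero_iff_dvd]
      exact hv
    have h6 : v * v - (1 + d * t) = v * v - n := by linarith
    rw [h6] at h5
    push_cast at h5
    exact sub_eq_zero.mp h5
  have h7 := Rad_sq ψ h u.isUnit h4
  ext
  rw [MulChar.coe_toUnitHom, h7]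
  rfl

private theorem Rad_odd {f : ℕ} [NeZero f] (ψ : DirichletCharacter ℂ f) (hp : ψ.IsPrimitive) (h : ψ ^ 2 = 1) {p : ℕ}
    (hpp : p.Prime) (h2 : p ≠ 2) : ¬ p ^ 2 ∣ f := by
  rintro ⟨k, hk⟩
  have hp0 : 0 < p := hpp.pos
  have hf0 : 0 < f := Nat.pos_of_ne_zero (NeZero.ne f)
  have hk0 : 0 < k := by
    rcases Nat.eq_zero_or_pos k with h0 | h0
    · rw [h0, mul_zero] at hk
      omega
    · exact h0
  have hfd : f = p * k * p := by rw [hk]; ring
  have hdf : p * k ∣ f := ⟨p, hfd⟩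
  obtain ⟨q, hq⟩ : ∃ q, p = 2 * q + 1 := hpp.odd_of_ne_two h2
  have h1 : ψ.FactorsThrough (p * k) := by
    refine Rad_factors hdf ψ h fun t => ⟨1 + (p * k : ℕ) * t * (q + 1), ?_⟩
    refine ⟨t + (k : ℤ) * (t * (q + 1)) ^ 2, ?_⟩
    have hpq : (p : ℤ) = 2 * q + 1 := by exact_mod_cast hq
    rw [hfd]
    push_cast
    linear_combination (- (p : ℤ) * k * t) * hpq
  have h3 : ψ.conductor ≤ p * k := Nat.sInf_le h1
  rw [(DirichletCharacter.isPrimitive_def ψ).mp hp] at h3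
  have h4 : p * k * 2 ≤ p * k * p := Nat.mul_le_mul_left _ hpp.two_le
  have h5 : 0 < p * k := Nat.mul_pos hp0 hk0
  omega

private theorem Rad_two {f : ℕ} [NeZero f] (ψ : DirichletCharacter ℂ f) (hp : ψ.IsPrimitive) (h : ψ ^ 2 = 1) : ¬ 2 ^ 4 ∣ f := by
  rintro ⟨k, hk⟩
  have hf0 : 0 < f := Nat.pos_of_ne_zero (NeZero.ne f)
  have hfd : f = 8 * k * 2 := by rw [hk]; ring
  have hdf : 8 * k ∣ f := ⟨2, hfd⟩
  have h1 : ψ.FactorsThrough (8 * k) := by
    refine Rad_factors hdf ψ h fun t => ⟨1 + 4 * k * t, ?_⟩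
    refine ⟨(k : ℤ) * t ^ 2, ?_⟩
    rw [hfd]
    push_cast
    ring
  have h3 : ψ.conductor ≤ 8 * k := Nat.sInf_le h1
  rw [(DirichletCharacter.isPrimitive_def ψ).mp hp] at h3
  omega

private theorem Rad_cond {f N : ℕ} [NeZero f] [NeZero N] (hfN : f ∣ N) (ψ : DirichletCharacter ℂ f) (hp : ψ.IsPrimitive)
    (h : ψ ^ 2 = 1) : f ∣ 8 * ∏ p ∈ N.primeFactors, p := by
  rw [Nat.dvd_iff_prime_pow_dvd_dvd]
  intro p k hpp hpk
  by_cases h2 : p = 2
  · subst h2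
    have hk : k ≤ 3 := by
      by_contra hk
      exact Rad_two ψ hp h ((pow_dvd_pow 2 (by omega)).trans hpk)
    refine Dvd.dvd.mul_right ?_ _
    exact (pow_dvd_pow 2 hk).trans (by norm_num)
  · have hk : k ≤ 1 := by
      by_contra hk
      exact Rad_odd ψ hp h hpp h2 ((pow_dvd_pow p (by omega)).trans hpk)
    rcases Nat.eq_zero_or_pos k with h0 | h0
    · rw [h0, pow_zero]
      exact one_dvd _
    · have hk1 : k = 1 := by omega
      rw [hk1, pow_one] at hpk ⊢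
      refine Dvd.dvd.mul_left ?_ _
      exact Finset.dvd_prod_of_mem (fun p : ℕ => p) (Nat.mem_primeFactors.mpr ⟨hpp, hpk.trans hfN, NeZero.ne N⟩)

private theorem Rad_setup {N : ℕ} [NeZero N] (χ : DirichletCharacter ℂ N) (h : χ ^ 2 = 1) :
    NeZero χ.conductor ∧ DirichletCharacter.changeLevel χ.conductor_dvd_level χ.primitiveCharacter = χ ∧
      χ.primitiveCharacter.IsPrimitive ∧ χ.primitiveCharacter ^ 2 = 1 := by
  have hch : DirichletCharacter.changeLevel χ.conductor_dvd_level χ.primitiveCharacter = χ := χ.changeLevel_primitiveCharacter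
  refine ⟨⟨?_⟩, hch, χ.primitiveCharacter_isPrimitive, ?_⟩
  · intro h0
    have h1 := χ.conductor_dvd_level
    rw [h0] at h1
    exact NeZero.ne N (Nat.eq_zero_of_zero_dvd h1)
  · apply DirichletCharacter.changeLevel_injective χ.conductor_dvd_level
    rw [map_pow, hch, h, map_one]

theorem conductor_dvd (N : ℕ) [NeZero N] (χ : DirichletCharacter ℂ N) (h : χ ^ 2 = 1) :
    χ.conductor ∣ 8 * ∏ p ∈ N.primeFactors, p := by
  obtain ⟨h0, h1, h2, h3⟩ := Rad_setup χ h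
  exact Rad_cond χ.conductor_dvd_level χ.primitiveCharacter h2 h3

private theorem Rad_prod {m : ℕ} [NeZero m] {q : ℕ} (ψ : DirichletCharacter ℂ q) :
    (((∏ p ∈ m.primeFactors, p : ℕ) : ℝ))⁻¹ ≤ ‖∏ p ∈ m.primeFactors, (1 - ψ p * (p : ℂ) ^ (-(1 : ℂ)))‖ := by
  rw [Nat.cast_prod, ← Finset.prod_inv_distrib, norm_prod]
  refine Finset.prod_le_prod (fun p hp => by positivity) fun p hp => ?_
  have hp2 : (2 : ℝ) ≤ p := by exact_mod_cast (Nat.prime_of_mem_primeFactors hp).two_le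
  have h2 : ‖ψ p * (p : ℂ) ^ (-(1 : ℂ))‖ ≤ (p : ℝ)⁻¹ := by
    rw [Complex.cpow_neg, Complex.cpow_one, norm_mul, norm_inv, Complex.norm_natCast]
    have h3 := DirichletCharacter.norm_le_one ψ (p : ZMod q)
    have h4 : (0 : ℝ) ≤ (p : ℝ)⁻¹ := by positivity
    exact mul_le_of_le_one_left h4 h3
  have h5 := norm_sub_norm_le (1 : ℂ) (ψ p * (p : ℂ) ^ (-(1 : ℂ)))
  rw [norm_one] at h5
  have h6 : (p : ℝ)⁻¹ ≤ 2⁻¹ := inv_anti₀ (by norm_num) hp2
  have h7 : (2 : ℝ)⁻¹ = 1 / 2 := by norm_num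
  linarith

theorem lower_rad : ∃ c : ℝ, 0 < c ∧ ∀ (N : ℕ) [NeZero N], ∀ χ : DirichletCharacter ℂ N,
    χ ^ 2 = 1 → χ ≠ 1 →
      c / ((∏ p ∈ N.primeFactors, p : ℕ) : ℝ) ^ 2 ≤ ‖DirichletCharacter.LFunction χ 1‖ := by
  obtain ⟨c, hc, hs⟩ := Pool.Agent.H91.EHA.siegel 1 one_pos
  refine ⟨c / 8, by positivity, ?_⟩
  intro N _ χ hχ2 hχ1
  obtain ⟨hcond, hch, hψp, hψ2⟩ := Rad_setup χ hχ2
  have hdvd := conductor_dvd N χ hχ2
  obtain ⟨ψ, hψ⟩ : ∃ ψ, ψ = χ.primitiveCharacter := ⟨_, rfl⟩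
  rw [← hψ] at hch hψp hψ2
  have hψ1 : ψ ≠ 1 := by
    intro h
    apply hχ1
    rw [← hch, h, map_one]
  have h1 := hs χ.conductor ψ hψp hψ2 hψ1
  have h2 : DirichletCharacter.LFunction χ 1 = DirichletCharacter.LFunction ψ 1 *
      ∏ p ∈ N.primeFactors, (1 - ψ p * (p : ℂ) ^ (-(1 : ℂ))) := by
    have h3 := DirichletCharacter.LFunction_changeLevel χ.conductor_dvd_level ψ (s := 1)
      (Or.inl hψ1)
    rw [hch] at h3
    exact h3
  rw [h2, norm_mul]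
  have h3 := Rad_prod (m := N) ψ
  have hr0 : 0 < ∏ p ∈ N.primeFactors, p := Finset.prod_pos fun p hp => (Nat.prime_of_mem_primeFactors hp).pos
  have hr : (0 : ℝ) < ((∏ p ∈ N.primeFactors, p : ℕ) : ℝ) := by exact_mod_cast hr0
  have hle : χ.conductor ≤ 8 * ∏ p ∈ N.primeFactors, p := Nat.le_of_dvd (by positivity) hdvd
  have hle' : (χ.conductor : ℝ) ≤ 8 * ((∏ p ∈ N.primeFactors, p : ℕ) : ℝ) := by exact_mod_cast hle
  have hq : (0 : ℝ) < χ.conductor := by exact_mod_cast Nat.pos_of_ne_zero hcond.out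
  obtain ⟨R, hR⟩ : ∃ R : ℝ, R = ((∏ p ∈ N.primeFactors, p : ℕ) : ℝ) := ⟨_, rfl⟩
  rw [← hR] at h3 hr hle' ⊢
  have h4 : c / 8 * R⁻¹ ≤ ‖DirichletCharacter.LFunction ψ 1‖ := by
    refine le_trans ?_ h1
    rw [Real.rpow_neg_one, div_mul_eq_mul_div, mul_div_assoc]
    refine mul_le_mul_of_nonneg_left ?_ hc.le
    rw [div_eq_mul_inv, ← mul_inv]
    refine inv_anti₀ hq ?_
    linarith
  have h5 : c / 8 / R ^ 2 = c / 8 * R⁻¹ * R⁻¹ := by
    rw [pow_two, div_eq_mul_inv (c / 8) (R * R), mul_inv]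
    ring
  rw [h5]
  exact mul_le_mul h4 h3 (by positivity) (norm_nonneg _)

end Pool.Agent.H11.LQ
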