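import Pool.Agent.H11.LQ.Fin2
import Pool.Agent.H11.LQ.Rad

/-!
# LQ stage 2, module Fin3: summands with few prime factors, the final form

`OmB` (helper78, `Pool.Agent.H78.PH.omB`): few integers up to `N` have many prime factors.
-/

set_option autoImplicit false

namespace Pool.Agent.H11.LQ

open Finset ArithmeticFunction
open Pool.Agent.H34PG (lam lam_val lam_mul lam_prime)

/-- few integers have many prime factors -/
def OmB : Prop := ∃ A : ℝ, ∀ N : ℕ, 2 ≤ N → ∀ K : ℝ, 0 < K →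
  ((((Finset.Icc 1 N).filter fun a => K < (2 : ℝ) ^ cardFactors a).card : ℕ) : ℝ) ≤
    A * N * (1 + Real.log N) ^ 2 / Real.sqrt K

/-- the conditions on `a` and `N - a` -/
structure Fine (N : ℕ) (K : ℝ) (a : ℕ) : Prop where
  com : ∀ p : ℕ, p.Prime → p ∣ a → p ∣ N → (p : ℝ) ≤ K
  sq : ∀ v : ℕ, (v ^ 2 ∣ a ∨ v ^ 2 ∣ N - a) → (v : ℝ) ≤ K
  few : (2 : ℝ) ^ cardFactors a ≤ K
  few' : (2 : ℝ) ^ cardFactors (N - a) ≤ K

theorem two_pow_card_le {n : ℕ} (hn : n ≠ 0) : 2 ^ n.primeFactors.card ≤ n := by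
  calc 2 ^ n.primeFactors.card = ∏ _p ∈ n.primeFactors, 2 := by rw [Finset.prod_const]
    _ ≤ ∏ p ∈ n.primeFactors, p :=
        Finset.prod_le_prod' fun p hp => (Nat.prime_of_mem_primeFactors hp).two_le
    _ ≤ n := Nat.le_of_dvd (Nat.pos_of_ne_zero hn) (Nat.prod_primeFactors_dvd n)

theorem two_pow_cardFactors_le {n : ℕ} (hn : n ≠ 0) : 2 ^ cardFactors n ≤ n := by
  rw [cardFactors_apply]
  calc 2 ^ n.primeFactorsList.length ≤ n.primeFactorsList.prod := by
        refine List.pow_card_le_prod _ _ fun p hp => (Nat.prime_of_mem_primeFactorsList hp).two_le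
    _ = n := Nat.prod_primeFactorsList hn

/-- `gcd (a, N)` is small for `a` as in `Fine` -/
theorem Fine.gcd_le {N : ℕ} {K : ℝ} {a : ℕ} (h : Fine N K a) (ha : 0 < a) (hK : 1 ≤ K) :
    ((Nat.gcd a N : ℕ) : ℝ) ≤ Real.exp (2 * Real.log K ^ 2) := by
  have hg0 : Nat.gcd a N ≠ 0 := (Nat.gcd_pos_of_pos_left N ha).ne'
  obtain ⟨b, hb⟩ := Nat.gcd_dvd_left a N
  have hb0 : b ≠ 0 := by
    rintro rfl
    omega
  have h1 : cardFactors (Nat.gcd a N) ≤ cardFactors a := by
    have h2 := cardFactors_mul hg0 hb0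
    rw [← hb] at h2
    omega
  have h2 : Nat.gcd a N ≤ ⌊K⌋₊ ^ cardFactors (Nat.gcd a N) := by
    rw [cardFactors_apply]
    calc Nat.gcd a N = (Nat.gcd a N).primeFactorsList.prod := (Nat.prod_primeFactorsList hg0).symm
      _ ≤ _ := by
          refine List.prod_le_pow_card _ _ fun p hp => Nat.le_floor ?_
          have hp1 := Nat.prime_of_mem_primeFactorsList hp
          have hp2 := Nat.dvd_of_mem_primeFactorsList hp
          exact h.com p hp1 (hp2.trans (Nat.gcd_dvd_left _ _)) (hp2.trans (Nat.gcd_dvd_right _ _))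
  have hK0 : 0 < K := by linarith
  have h3 : ((Nat.gcd a N : ℕ) : ℝ) ≤ K ^ cardFactors (Nat.gcd a N) := by
    calc ((Nat.gcd a N : ℕ) : ℝ) ≤ ((⌊K⌋₊ ^ cardFactors (Nat.gcd a N) : ℕ) : ℝ) := by
          exact_mod_cast h2
      _ = (⌊K⌋₊ : ℝ) ^ cardFactors (Nat.gcd a N) := by push_cast; rfl
      _ ≤ _ := pow_le_pow_left₀ (by positivity) (Nat.floor_le hK0.le) _
  have h4 : K ^ cardFactors (Nat.gcd a N) ≤ K ^ cardFactors a := pow_le_pow_right₀ hK h1
  have h5 : (cardFactors a : ℝ) * Real.log 2 ≤ Real.log K := by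
    rw [← Real.log_pow]
    exact Real.log_le_log (by positivity) h.few
  have h6 : 0 ≤ Real.log K := Real.log_nonneg hK
  have h7 : (1 : ℝ) / 2 ≤ Real.log 2 := by
    have := Real.log_two_gt_d9
    linarith
  have h8 : (cardFactors a : ℝ) ≤ 2 * Real.log K := by
    have h9 : (0 : ℝ) ≤ cardFactors a := Nat.cast_nonneg _
    nlinarith
  refine (h3.trans h4).trans ?_
  have h9 : K ^ cardFactors a = Real.exp ((cardFactors a : ℝ) * Real.log K) := by
    rw [← Real.log_pow, Real.exp_log (by positivity)]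
  rw [h9]
  refine Real.exp_le_exp.mpr ?_
  nlinarith

/-- everything is allowed for `K ≥ N` -/
theorem Fine.of_le {N : ℕ} {K : ℝ} {a : ℕ} (ha : 0 < a) (haN : a < N) (hK : (N : ℝ) ≤ K) :
    Fine N K a where
  com := fun p _ _ hN => by
    have : p ≤ N := Nat.le_of_dvd (by omega) hN
    have : (p : ℝ) ≤ N := by exact_mod_cast this
    linarith
  sq := fun v hv => by
    have h2 : v ≤ N := by
      have h3 : v ^ 2 ≤ N := by
        rcases hv with hv | hv
        · exact (Nat.le_of_dvd ha hv).trans haN.le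
        · exact (Nat.le_of_dvd (by omega) hv).trans (Nat.sub_le _ _)
      have h4 : v ≤ v ^ 2 := Nat.le_self_pow (by norm_num) v
      omega
    have : (v : ℝ) ≤ N := by exact_mod_cast h2
    linarith
  few := by
    have h1 := two_pow_cardFactors_le (n := a) (by omega)
    have h2 : 2 ^ cardFactors a ≤ N := by omega
    have : (2 : ℝ) ^ cardFactors a ≤ N := by exact_mod_cast h2
    linarith
  few' := by
    have h1 := two_pow_cardFactors_le (n := N - a) (by omega)
    have h2 : 2 ^ cardFactors (N - a) ≤ N := by omega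
    have : (2 : ℝ) ^ cardFactors (N - a) ≤ N := by exact_mod_cast h2
    linarith

theorem Fine.mono {N : ℕ} {K K' : ℝ} {a : ℕ} (h : Fine N K a) (hK : K ≤ K') : Fine N K' a where
  com := fun p h1 h2 h3 => (h.com p h1 h2 h3).trans hK
  sq := fun v hv => (h.sq v hv).trans hK
  few := h.few.trans hK
  few' := h.few'.trans hK

/-- removing the `a` which are not fine -/
theorem sift3 (hO : OmB) : ∃ A : ℝ, 1 ≤ A ∧ ∀ N : ℕ, 3 ≤ N → ∀ T : Finset ℕ,
    (∀ a ∈ T, 0 < a ∧ a < N) → ∀ K : ℝ, 1 ≤ K → ∃ T' ⊆ T,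
      (T.card : ℝ) ≤ T'.card + A * (N * Real.log N ^ 2 / Real.sqrt K) ∧ ∀ a ∈ T', Fine N K a := by
  classical
  obtain ⟨A, hA⟩ := hO
  refine ⟨8 * |A| + 6, by have := abs_nonneg A; linarith, fun N hN T hT K hK => ?_⟩
  have hN1 : (1 : ℝ) ≤ N := by exact_mod_cast (by omega : 1 ≤ N)
  have hN0 : (0 : ℝ) < N := by linarith
  have hK0 : 0 < K := by linarith
  have hlog : 1 ≤ Real.log N := by
    rw [Real.le_log_iff_exp_le hN0]
    have h3 : (3 : ℝ) ≤ N := by exact_mod_cast (by omega : 3 ≤ N)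
    have := Real.exp_one_lt_d9
    linarith
  have hsK : 1 ≤ Real.sqrt K := by
    rw [Real.one_le_sqrt]
    exact hK
  have hsK2 : Real.sqrt K ≤ K := by
    have h1 := Real.mul_self_sqrt hK0.le
    nlinarith
  obtain ⟨Q, hQ⟩ : ∃ Q : ℝ, Q = N * Real.log N ^ 2 / Real.sqrt K := ⟨_, rfl⟩
  have hQ0 : 0 ≤ Q := by
    rw [hQ]
    positivity
  have hNK : (N : ℝ) * Real.log N / K ≤ Q := by
    rw [hQ]
    have h1 : (N : ℝ) * Real.log N ≤ N * Real.log N ^ 2 := by
      refine mul_le_mul_of_nonneg_left ?_ hN0.le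
      nlinarith
    exact div_le_div₀ (by positivity) h1 (by positivity) hsK2
  have hNK' : (N : ℝ) / K ≤ Q := by
    refine le_trans ?_ hNK
    refine div_le_div_of_nonneg_right ?_ hK0.le
    nlinarith
  set B1 := T.filter (fun a => ∃ p : ℕ, p.Prime ∧ p ∣ a ∧ p ∣ N ∧ K < (p : ℝ)) with hB1
  set B2 := T.filter (fun a => ∃ v : ℕ, K < (v : ℝ) ∧ v ^ 2 ∣ a) with hB2
  set B3 := T.filter (fun a => ∃ v : ℕ, K < (v : ℝ) ∧ v ^ 2 ∣ N - a) with hB3
  set B4 := T.filter (fun a => K < (2 : ℝ) ^ cardFactors a) with hB4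
  set B5 := T.filter (fun a => K < (2 : ℝ) ^ cardFactors (N - a)) with hB5
  have c1 : (B1.card : ℝ) ≤ 2 * Q := by
    have hsub : B1 ⊆ (N.primeFactors.filter (fun p : ℕ => K < (p : ℝ))).biUnion
        (fun p : ℕ => (Finset.Ioc 0 N).filter (fun a => p ∣ a)) := by
      intro a ha
      rw [hB1, Finset.mem_filter] at ha
      obtain ⟨h1, p, hp, hpa, hpN, hpK⟩ := ha
      have h2 := hT a h1
      rw [Finset.mem_biUnion]
      refine ⟨p, ?_, ?_⟩
      · rw [Finset.mem_filter, Nat.mem_primeFactors]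
        exact ⟨⟨hp, hpN, by omega⟩, hpK⟩
      · rw [Finset.mem_filter, Finset.mem_Ioc]
        exact ⟨⟨h2.1, h2.2.le⟩, hpa⟩
    have h1 : (B1.card : ℝ) ≤
        ∑ p ∈ N.primeFactors.filter (fun p : ℕ => K < (p : ℝ)), ((N / p : ℕ) : ℝ) := by
      have h := (Finset.card_le_card hsub).trans Finset.card_biUnion_le
      have h' : ∀ g ∈ N.primeFactors.filter (fun p : ℕ => K < (p : ℝ)),
          ((Finset.Ioc 0 N).filter (fun a => g ∣ a)).card = N / g := by
        intro g _
        exact Nat.Ioc_filter_dvd_card_eq_div N g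
      rw [Finset.sum_congr rfl h'] at h
      exact_mod_cast h
    have h2 : ∑ p ∈ N.primeFactors.filter (fun p : ℕ => K < (p : ℝ)), ((N / p : ℕ) : ℝ)
        ≤ (N.primeFactors.card : ℝ) * (N / K) := by
      calc _ ≤ ∑ p ∈ N.primeFactors.filter (fun p : ℕ => K < (p : ℝ)), ((N : ℝ) / K) := by
            refine Finset.sum_le_sum fun g hg => ?_
            rw [Finset.mem_filter] at hg
            refine Nat.cast_div_le.trans ?_
            exact div_le_div_of_nonneg_left (Nat.cast_nonneg N) hK0 hg.2.le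
        _ = ((N.primeFactors.filter (fun p : ℕ => K < (p : ℝ))).card : ℝ) * (N / K) := by
            rw [Finset.sum_const, nsmul_eq_mul]
        _ ≤ _ := by
            refine mul_le_mul_of_nonneg_right ?_ (by positivity)
            exact_mod_cast Finset.card_filter_le _ _
    have h3 : (N.primeFactors.card : ℝ) ≤ 2 * Real.log N := by
      have h4 := two_pow_card_le (n := N) (by omega)
      have h5 : (2 : ℝ) ^ N.primeFactors.card ≤ N := by exact_mod_cast h4
      have h6 : (N.primeFactors.card : ℝ) * Real.log 2 ≤ Real.log N := by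
        rw [← Real.log_pow]
        exact Real.log_le_log (by positivity) h5
      have h7 : (1 : ℝ) / 2 ≤ Real.log 2 := by
        have := Real.log_two_gt_d9
        linarith
      have h9 : (0 : ℝ) ≤ N.primeFactors.card := Nat.cast_nonneg _
      nlinarith
    calc (B1.card : ℝ) ≤ (N.primeFactors.card : ℝ) * (N / K) := h1.trans h2
      _ ≤ (2 * Real.log N) * (N / K) := mul_le_mul_of_nonneg_right h3 (by positivity)
      _ = 2 * (N * Real.log N / K) := by ring
      _ ≤ 2 * Q := by linarith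
  have c2 : (B2.card : ℝ) ≤ 2 * Q := by
    have : (B2.card : ℝ) ≤ 2 * (N / K) := by
      refine sift_sq N K hK B2 fun a ha => ?_
      rw [hB2, Finset.mem_filter] at ha
      exact ⟨hT a ha.1, ha.2⟩
    linarith
  have hinj : Set.InjOn (fun a => N - a) (T : Set ℕ) := by
    intro a ha b hb hab
    have h1 := hT a ha
    have h2 := hT b hb
    simp only at hab
    omega
  have c3 : (B3.card : ℝ) ≤ 2 * Q := by
    have : (B3.card : ℝ) ≤ 2 * (N / K) := by
      rw [← Finset.card_image_of_injOn (hinj.mono (Finset.coe_subset.mpr (Finset.filter_subset _ _)))]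
      refine sift_sq N K hK _ fun x hx => ?_
      rw [Finset.mem_image] at hx
      obtain ⟨a, ha, rfl⟩ := hx
      rw [Finset.mem_filter] at ha
      have h1 := hT a ha.1
      exact ⟨⟨by omega, by omega⟩, ha.2⟩
    linarith
  have hom : ((((Finset.Icc 1 N).filter fun a => K < (2 : ℝ) ^ cardFactors a).card : ℕ) : ℝ) ≤
      4 * |A| * Q := by
    refine (hA N (by omega) K hK0).trans ?_
    have h1 : (1 + Real.log N) ^ 2 ≤ 4 * Real.log N ^ 2 := by nlinarith
    calc A * N * (1 + Real.log N) ^ 2 / Real.sqrt K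
        ≤ |A| * N * (4 * Real.log N ^ 2) / Real.sqrt K := by
          refine div_le_div_of_nonneg_right ?_ (by positivity)
          refine mul_le_mul ?_ h1 (by positivity) (by positivity)
          exact mul_le_mul_of_nonneg_right (le_abs_self A) hN0.le
      _ = 4 * |A| * Q := by
          rw [hQ]
          ring
  have c4 : (B4.card : ℝ) ≤ 4 * |A| * Q := by
    refine le_trans ?_ hom
    have : B4 ⊆ (Finset.Icc 1 N).filter fun a => K < (2 : ℝ) ^ cardFactors a := by
      intro a ha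
      rw [hB4, Finset.mem_filter] at ha
      have h1 := hT a ha.1
      rw [Finset.mem_filter, Finset.mem_Icc]
      exact ⟨⟨h1.1, h1.2.le⟩, ha.2⟩
    exact_mod_cast Finset.card_le_card this
  have c5 : (B5.card : ℝ) ≤ 4 * |A| * Q := by
    refine le_trans ?_ hom
    rw [← Finset.card_image_of_injOn (hinj.mono (Finset.coe_subset.mpr (Finset.filter_subset _ _)))]
    have : (T.filter (fun a => K < (2 : ℝ) ^ cardFactors (N - a))).image (fun a => N - a) ⊆
        (Finset.Icc 1 N).filter fun a => K < (2 : ℝ) ^ cardFactors a := by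
      intro x hx
      rw [Finset.mem_image] at hx
      obtain ⟨a, ha, rfl⟩ := hx
      rw [Finset.mem_filter] at ha
      have h1 := hT a ha.1
      rw [Finset.mem_filter, Finset.mem_Icc]
      exact ⟨⟨by omega, by omega⟩, ha.2⟩
    exact_mod_cast Finset.card_le_card this
  refine ⟨T \ (B1 ∪ B2 ∪ B3 ∪ B4 ∪ B5), Finset.sdiff_subset, ?_, ?_⟩
  · have e1 := Finset.le_card_sdiff (B1 ∪ B2 ∪ B3 ∪ B4 ∪ B5) T
    have e2 : (B1 ∪ B2 ∪ B3 ∪ B4 ∪ B5).card ≤
        B1.card + B2.card + B3.card + B4.card + B5.card := by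
      have h1 := Finset.card_union_le (B1 ∪ B2 ∪ B3 ∪ B4) B5
      have h2 := Finset.card_union_le (B1 ∪ B2 ∪ B3) B4
      have h3 := Finset.card_union_le (B1 ∪ B2) B3
      have h4 := Finset.card_union_le B1 B2
      omega
    have e3 : T.card ≤ (T \ (B1 ∪ B2 ∪ B3 ∪ B4 ∪ B5)).card +
        (B1.card + B2.card + B3.card + B4.card + B5.card) := by omega
    have e4 : (T.card : ℝ) ≤ ((T \ (B1 ∪ B2 ∪ B3 ∪ B4 ∪ B5)).card : ℝ) +
        (B1.card + B2.card + B3.card + B4.card + B5.card) := by exact_mod_cast e3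
    rw [← hQ]
    nlinarith
  · intro a ha
    rw [Finset.mem_sdiff] at ha
    obtain ⟨haT, hnot⟩ := ha
    simp only [Finset.mem_union, not_or] at hnot
    obtain ⟨⟨⟨⟨n1, n2⟩, n3⟩, n4⟩, n5⟩ := hnot
    refine ⟨fun p hp hpa hpN => ?_, fun v hv => ?_, ?_, ?_⟩
    · by_contra h
      exact n1 (Finset.mem_filter.2 ⟨haT, p, hp, hpa, hpN, not_le.mp h⟩)
    · by_contra h
      rcases hv with hv | hv
      · exact n2 (Finset.mem_filter.2 ⟨haT, v, not_le.mp h, hv⟩)
      · exact n3 (Finset.mem_filter.2 ⟨haT, v, not_le.mp h, hv⟩)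
    · by_contra h
      exact n4 (Finset.mem_filter.2 ⟨haT, not_le.mp h⟩)
    · by_contra h
      exact n5 (Finset.mem_filter.2 ⟨haT, not_le.mp h⟩)

end Pool.Agent.H11.LQ
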