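import Pool.Agent.H11.LQ.Fin3

/-!
# LQ stage 2, module Fin4: large `N`, fine summands
-/

set_option autoImplicit false

namespace Pool.Agent.H11.LQ

open Finset ArithmeticFunction
open Pool.Agent.H34PG (lam lam_val lam_mul lam_prime)

theorem pat_bd {N : ℕ} {s t : ℤ} : ∀ a ∈ pat N s t, 0 < a ∧ a < N := fun a ha => by
  unfold pat at ha
  rw [mem_filter, mem_range] at ha
  exact ⟨ha.2.1, ha.1⟩

theorem large3 (hA1 : Analytic) (hA : Analytic2) (hL : Lift) (hO : OmB) : ∃ C : ℝ, 1 ≤ C ∧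
    ∃ k N0 : ℕ, ∀ (N : ℕ) [NeZero N], N0 ≤ N → ∀ r : ℝ, 0 < r → r ≤ 1 →
      (∀ χ : DirichletCharacter ℂ N, χ ^ 2 = 1 → χ ≠ 1 →
        r ≤ ‖DirichletCharacter.LFunction χ 1‖) →
      ∀ K : ℝ, C * (Real.log N / r) ^ k ≤ K →
      ∀ s t : ℤ, (s = 1 ∨ s = -1) → (t = 1 ∨ t = -1) → (Even N ∨ s ≠ t) →
        ∃ T ⊆ pat N s t, (N : ℝ) ≤ K * (T.card : ℝ) ∧ ∀ a ∈ T, Fine N K a := by
  obtain ⟨C0, N1, h1⟩ := large2 hA1 hA hL
  obtain ⟨A, hA1, h2⟩ := sift3 hO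
  refine ⟨(200 * A) ^ 2, by nlinarith, 2 * C0 + 4, N1 + 3,
    fun N _ hN r hr0 hr1 hr K hK s t hs ht hst => ?_⟩
  have hN1 : (1 : ℝ) ≤ N := by exact_mod_cast (by omega : 1 ≤ N)
  have hN0 : (0 : ℝ) < N := by linarith
  have hlog : 1 ≤ Real.log N := by
    rw [Real.le_log_iff_exp_le hN0]
    have h3 : (3 : ℝ) ≤ N := by exact_mod_cast (by omega : 3 ≤ N)
    have := Real.exp_one_lt_d9
    linarith
  have e1 := h1 N (by omega) r hr0 hr1 hr s t hs ht hst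
  obtain ⟨x, hx⟩ : ∃ x : ℝ, x = Real.log N / r := ⟨_, rfl⟩
  have hxl : Real.log N ≤ x := by
    rw [hx, le_div_iff₀ hr0]
    nlinarith
  have hx1 : 1 ≤ x := hlog.trans hxl
  have hx0 : 0 < x := by linarith
  obtain ⟨Y, hY⟩ : ∃ Y : ℝ, Y = x ^ C0 := ⟨_, rfl⟩
  have hY1 : 1 ≤ Y := by
    rw [hY]
    exact one_le_pow₀ hx1
  have hrY : (r / Real.log N) ^ C0 = Y⁻¹ := by
    rw [hY, hx, ← inv_div r (Real.log N), inv_pow, inv_inv]
  rw [hrY] at e1
  have e2 : (N : ℝ) ≤ 100 * Y * ((pat N s t).card : ℝ) := by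
    have h3 : Y⁻¹ * N * Y ≤ 100 * ((pat N s t).card : ℝ) * Y :=
      mul_le_mul_of_nonneg_right e1 (by linarith)
    have h4 : Y⁻¹ * N * Y = N := by
      field_simp
    rw [h4] at h3
    linarith
  rw [← hx] at hK
  have hK2 : (200 * A * Y * x ^ 2) ^ 2 ≤ K := by
    refine le_trans (le_of_eq ?_) hK
    rw [hY]
    ring
  have hS : 200 * A * Y * x ^ 2 ≤ Real.sqrt K := by
    refine Real.le_sqrt_of_sq_le hK2
  have hx2 : 1 ≤ x ^ 2 := one_le_pow₀ hx1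
  have hS1 : 200 * Y ≤ 200 * A * Y * x ^ 2 := by
    have h3 : 200 * Y * 1 ≤ 200 * Y * (A * x ^ 2) :=
      mul_le_mul_of_nonneg_left (by nlinarith) (by linarith)
    linarith
  have hK1 : 1 ≤ K := by
    have h3 : 1 ≤ 200 * A * Y * x ^ 2 := by linarith
    nlinarith
  have hKY : 200 * Y ≤ K := by
    have h3 : 1 ≤ 200 * A * Y * x ^ 2 := by linarith
    nlinarith
  obtain ⟨T, hT, e3, e4⟩ := h2 N (by omega) (pat N s t) pat_bd K hK1
  refine ⟨T, hT, ?_, e4⟩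
  have e5 : A * (N * Real.log N ^ 2 / Real.sqrt K) ≤ N / (200 * Y) := by
    have h3 : 0 < Real.sqrt K := by positivity
    rw [← mul_div_assoc, div_le_div_iff₀ h3 (by positivity)]
    have h4 : Real.log N ^ 2 ≤ x ^ 2 := pow_le_pow_left₀ (by linarith) hxl 2
    calc A * (N * Real.log N ^ 2) * (200 * Y) = N * (200 * A * Y * Real.log N ^ 2) := by ring
      _ ≤ N * (200 * A * Y * x ^ 2) := by
          refine mul_le_mul_of_nonneg_left ?_ hN0.le
          exact mul_le_mul_of_nonneg_left h4 (by positivity)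
      _ ≤ N * Real.sqrt K := mul_le_mul_of_nonneg_left hS hN0.le
  have e6 : (N : ℝ) / (200 * Y) ≤ ((pat N s t).card : ℝ) / 2 := by
    rw [div_le_iff₀ (by positivity)]
    linarith
  have e7 : (N : ℝ) ≤ 200 * Y * (T.card : ℝ) := by
    have h3 : ((pat N s t).card : ℝ) ≤ 2 * (T.card : ℝ) := by linarith
    calc (N : ℝ) ≤ 100 * Y * ((pat N s t).card : ℝ) := e2
      _ ≤ 100 * Y * (2 * (T.card : ℝ)) := mul_le_mul_of_nonneg_left h3 (by positivity)
      _ = _ := by ring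
  exact e7.trans (mul_le_mul_of_nonneg_right hKY (Nat.cast_nonneg _))

theorem large3e (hA1 : Analytic) (hO : OmB) (ε : ℝ) (hε : 0 < ε) : ∃ N0 : ℕ, ∀ N : ℕ, N0 ≤ N →
    ∀ K : ℝ, (N : ℝ) ^ ε ≤ K →
      ∀ s t : ℤ, (s = 1 ∨ s = -1) → (t = 1 ∨ t = -1) → (Even N ∨ s ≠ t) →
        ∃ T ⊆ pat N s t, (N : ℝ) ≤ K * (T.card : ℝ) ∧
          ∀ a ∈ T, Fine N K a ∧ ((Nat.gcd a N : ℕ) : ℝ) ≤ K := by
  obtain ⟨N1, h1⟩ := large hA1 (ε / 8) (by positivity)
  obtain ⟨A, hA, h2⟩ := sift3 hO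
  obtain ⟨D, hD1, hD⟩ := Pool.Agent.H92.EH.div_bound (ε / 8) (by linarith)
  have hlim : Filter.Tendsto (fun N : ℕ => (N : ℝ) ^ (ε / 4)) Filter.atTop Filter.atTop :=
    (tendsto_rpow_atTop (by linarith)).comp tendsto_natCast_atTop_atTop
  obtain ⟨N3, h3⟩ := Filter.eventually_atTop.1 (hlim.eventually_ge_atTop (2 * (D + 4 + A)))
  have hlim2 : ∀ᶠ N : ℕ in Filter.atTop, Real.log N ^ 2 ≤ (N : ℝ) ^ (ε / 8) := by
    have h4 := ((isLittleO_log_rpow_atTop (r := ε / 16) (by positivity)).bound one_pos).and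
      (Filter.eventually_ge_atTop (1 : ℝ))
    have h5 := tendsto_natCast_atTop_atTop (R := ℝ) h4
    filter_upwards [h5] with N hN
    obtain ⟨h6, h7⟩ := hN
    have h8 : 0 ≤ Real.log N := Real.log_nonneg h7
    have h9 : (0 : ℝ) ≤ (N : ℝ) ^ (ε / 16) := by positivity
    rw [one_mul, Real.norm_of_nonneg h8, Real.norm_of_nonneg h9] at h6
    calc Real.log N ^ 2 ≤ ((N : ℝ) ^ (ε / 16)) ^ 2 := pow_le_pow_left₀ h8 h6 2
      _ = (N : ℝ) ^ (ε / 8) := by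
          rw [← Real.rpow_natCast, ← Real.rpow_mul (by positivity)]
          congr 1
          push_cast
          ring
  obtain ⟨N4, h4⟩ := Filter.eventually_atTop.1 hlim2
  refine ⟨N1 + N3 + N4 + 3, fun N hN K hK s t hs ht hst => ?_⟩
  have hN1 : (1 : ℝ) ≤ N := by exact_mod_cast (by omega : 1 ≤ N)
  have hN0 : (0 : ℝ) < N := by linarith
  have e1 := h1 N (by omega) s t hs ht hst
  have e2 := h3 N (by omega)
  have e3 := h4 N (by omega)
  have hNε : 1 ≤ (N : ℝ) ^ ε := Real.one_le_rpow hN1 hε.le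
  have hK1 : 1 ≤ K := hNε.trans hK
  have hK0 : 0 < K := by linarith
  obtain ⟨T, hT, e4, e5⟩ := sift_gen N (pat N s t) pat_bd K K hK0 hK1
  obtain ⟨T', hT', e6, e7⟩ := h2 N (by omega) T (fun a ha => pat_bd a (hT ha)) K hK1
  refine ⟨T', hT'.trans hT, ?_, fun a ha => ⟨e7 a ha, (e5 a (hT' ha)).1⟩⟩
  -- the powers of `N`
  obtain ⟨R, hR⟩ : ∃ R : ℝ, R = (N : ℝ) ^ (1 - 3 * ε / 8) := ⟨_, rfl⟩
  have hR0 : 0 < R := by
    rw [hR]
    positivity
  have f1 : (N : ℝ) / K ≤ (N : ℝ) ^ (1 - ε) := by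
    rw [Real.rpow_sub hN0, Real.rpow_one]
    exact div_le_div_of_nonneg_left hN0.le (by positivity) hK
  have f2 : (N : ℝ) ^ (1 - ε) ≤ R := by
    rw [hR]
    exact Real.rpow_le_rpow_of_exponent_le hN1 (by linarith)
  have f3 : (N.divisors.card : ℝ) * (N / K) ≤ D * R := by
    calc (N.divisors.card : ℝ) * (N / K) ≤ (D * (N : ℝ) ^ (ε / 8)) * (N : ℝ) ^ (1 - ε) :=
          mul_le_mul (hD N (by omega)) f1 (by positivity) (by positivity)
      _ = D * ((N : ℝ) ^ (ε / 8 + (1 - ε))) := by rw [Real.rpow_add hN0]; ring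
      _ ≤ D * R := by
          refine mul_le_mul_of_nonneg_left ?_ (by linarith)
          rw [hR]
          exact Real.rpow_le_rpow_of_exponent_le hN1 (by linarith)
  have f4 : A * (N * Real.log N ^ 2 / Real.sqrt K) ≤ A * R := by
    refine mul_le_mul_of_nonneg_left ?_ (by linarith)
    have h5 : (N : ℝ) ^ (ε / 2) ≤ Real.sqrt K := by
      refine Real.le_sqrt_of_sq_le ?_
      refine le_trans (le_of_eq ?_) hK
      rw [← Real.rpow_natCast, ← Real.rpow_mul hN0.le]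
      congr 1
      push_cast
      ring
    calc (N : ℝ) * Real.log N ^ 2 / Real.sqrt K ≤ N * (N : ℝ) ^ (ε / 8) / (N : ℝ) ^ (ε / 2) :=
          div_le_div₀ (by positivity) (mul_le_mul_of_nonneg_left e3 hN0.le) (by positivity) h5
      _ = (N : ℝ) ^ (1 + ε / 8 - ε / 2) := by
          rw [Real.rpow_sub hN0, Real.rpow_add hN0, Real.rpow_one]
      _ = R := by
          rw [hR]
          congr 1
          ring
  have f5 : 2 * (D + 4 + A) * R ≤ (N : ℝ) ^ (1 - ε / 8) := by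
    have h5 : (N : ℝ) ^ (1 - ε / 8) = (N : ℝ) ^ (ε / 4) * R := by
      rw [hR, ← Real.rpow_add hN0]
      congr 1
      ring
    rw [h5]
    exact mul_le_mul_of_nonneg_right e2 hR0.le
  have f6 : R ≤ (T'.card : ℝ) := by
    nlinarith
  have f7 : (N : ℝ) ≤ (N : ℝ) ^ ε * R := by
    rw [hR, ← Real.rpow_add hN0]
    calc (N : ℝ) = (N : ℝ) ^ (1 : ℝ) := (Real.rpow_one _).symm
      _ ≤ _ := Real.rpow_le_rpow_of_exponent_le hN1 (by linarith)
  calc (N : ℝ) ≤ (N : ℝ) ^ ε * R := f7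
    _ ≤ K * (T'.card : ℝ) := mul_le_mul hK f6 hR0.le hK0.le

theorem large3r (hA1 : Analytic) (hA : Analytic2) (hL : Lift) (hO : OmB) : ∃ C : ℝ, 1 ≤ C ∧
    ∃ k N0 : ℕ, ∀ N : ℕ, N0 ≤ N →
      ∀ K : ℝ, C * (((∏ p ∈ N.primeFactors, p : ℕ) : ℝ) * Real.log N) ^ k ≤ K →
      ∀ s t : ℤ, (s = 1 ∨ s = -1) → (t = 1 ∨ t = -1) → (Even N ∨ s ≠ t) →
        ∃ T ⊆ pat N s t, (N : ℝ) ≤ K * (T.card : ℝ) ∧ ∀ a ∈ T, Fine N K a := by
  obtain ⟨C, hC, k, N0, h⟩ := large3 hA1 hA hL hO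
  obtain ⟨c, hc, hr⟩ := lower_rad
  obtain ⟨d, hd⟩ : ∃ d : ℝ, d = min c 1 := ⟨_, rfl⟩
  have hd0 : 0 < d := by
    rw [hd]
    exact lt_min hc one_pos
  have hd1 : d ≤ 1 := by
    rw [hd]
    exact min_le_right _ _
  have hdc : d ≤ c := by
    rw [hd]
    exact min_le_left _ _
  have hdk : 1 ≤ (1 / d) ^ k := one_le_pow₀ (by rw [le_div_iff₀ hd0]; linarith)
  refine ⟨C * (1 / d) ^ k, by nlinarith, 2 * k, N0 + 3, fun N hN K hK s t hs ht hst => ?_⟩
  have : NeZero N := ⟨by omega⟩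
  have hN1 : (1 : ℝ) ≤ N := by exact_mod_cast (by omega : 1 ≤ N)
  have hN0 : (0 : ℝ) < N := by linarith
  have hlog : 1 ≤ Real.log N := by
    rw [Real.le_log_iff_exp_le hN0]
    have h3 : (3 : ℝ) ≤ N := by exact_mod_cast (by omega : 3 ≤ N)
    have := Real.exp_one_lt_d9
    linarith
  obtain ⟨q, hq⟩ : ∃ q : ℝ, q = ((∏ p ∈ N.primeFactors, p : ℕ) : ℝ) := ⟨_, rfl⟩
  have hq1 : 1 ≤ q := by
    rw [hq]
    have : 0 < ∏ p ∈ N.primeFactors, p := Finset.prod_pos fun p hp => Nat.pos_of_mem_primeFactors hp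
    exact_mod_cast this
  have hq0 : 0 < q := by linarith
  refine h N (by omega) (d / q ^ 2) (by positivity) ?_ (fun χ h2 h1 => ?_) K ?_ s t hs ht hst
  · rw [div_le_one (by positivity)]
    nlinarith
  · refine le_trans ?_ (hr N χ h2 h1)
    rw [← hq]
    exact div_le_div_of_nonneg_right hdc (by positivity)
  · rw [← hq] at hK
    refine le_trans ?_ hK
    have h4 : (Real.log N / (d / q ^ 2)) ^ k ≤ (1 / d) ^ k * (q * Real.log N) ^ (2 * k) := by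
      rw [pow_mul, ← mul_pow]
      refine pow_le_pow_left₀ (by positivity) ?_ _
      have h5 : Real.log N / (d / q ^ 2) = 1 / d * (q ^ 2 * Real.log N) := by
        field_simp
      rw [h5, mul_pow]
      refine mul_le_mul_of_nonneg_left ?_ (by positivity)
      refine mul_le_mul_of_nonneg_left ?_ (by positivity)
      nlinarith
    calc C * (Real.log N / (d / q ^ 2)) ^ k ≤ C * ((1 / d) ^ k * (q * Real.log N) ^ (2 * k)) :=
          mul_le_mul_of_nonneg_left h4 (by linarith)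
      _ = _ := by ring

end Pool.Agent.H11.LQ
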