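import Pool.Agent.H11.LQ.Fin4

/-!
# LQ stage 2, module Fin5: representations with prescribed parities, for all `N`
-/

set_option autoImplicit false

namespace Pool.Agent.H11.LQ

open Finset ArithmeticFunction
open Pool.Agent.H34PG (lam lam_val lam_mul lam_prime)

theorem lam_iff (n i : ℕ) : lam n = (-1) ^ i ↔ cardFactors n % 2 = i % 2 := by
  unfold lam
  rcases Nat.even_or_odd (cardFactors n) with h | h <;> rcases Nat.even_or_odd i with h' | h' <;>
    rw [h.neg_one_pow, h'.neg_one_pow] <;>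
    simp only [Nat.even_iff, Nat.odd_iff] at h h' <;> rw [h, h'] <;> norm_num

theorem sign (i : ℕ) : ((-1 : ℤ)) ^ i = 1 ∨ ((-1 : ℤ)) ^ i = -1 := neg_one_pow_eq_or ℤ i

theorem sign_ne {i j : ℕ} (h : i % 2 ≠ j % 2) : ((-1 : ℤ)) ^ i ≠ (-1) ^ j := by
  rcases Nat.even_or_odd i with h1 | h1 <;> rcases Nat.even_or_odd j with h2 | h2
  · rw [Nat.even_iff] at h1 h2
    omega
  · rw [h1.neg_one_pow, h2.neg_one_pow]
    norm_num
  · rw [h1.neg_one_pow, h2.neg_one_pow]
    norm_num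
  · rw [Nat.odd_iff] at h1 h2
    omega

/-- the pattern without further conditions -/
def Rep (N i j a : ℕ) : Prop :=
  0 < a ∧ a < N ∧ cardFactors a % 2 = i % 2 ∧ cardFactors (N - a) % 2 = j % 2

/-- both odd, all even `N ≥ 4` -/
theorem one_odd {N : ℕ} (h4 : 4 ≤ N) (he : Even N) : ∃ a, Rep N 1 1 a := by
  obtain ⟨n, hn⟩ := he
  obtain ⟨x, h1, h2, h3⟩ := Pool.Agent.H34PG.main_one (n := n) (by omega)
  refine ⟨n - x, by omega, by omega, ?_, ?_⟩
  · rw [Nat.odd_iff] at h2
    omega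
  · rw [show N - (n - x) = n + x by omega]
    rw [Nat.odd_iff] at h3
    omega

/-- mixed, all `N ≥ 3`, `N ≠ 5, 10` -/
theorem one_mixed {N i j : ℕ} (h3 : 3 ≤ N) (h5 : N ≠ 5) (h10 : N ≠ 10)
    (hij : i % 2 ≠ j % 2) : ∃ a, Rep N i j a := by
  obtain ⟨a, b, ha, hb, hab, ho, he⟩ := Pool.Agent.H34PG.main_three h3 h5 h10
  rw [Nat.odd_iff] at ho
  rw [Nat.even_iff] at he
  rcases (show i % 2 = 1 ∨ i % 2 = 0 by omega) with h | h
  · refine ⟨a, ha, by omega, by omega, ?_⟩
    rw [show N - a = b by omega]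
    omega
  · refine ⟨b, hb, by omega, by omega, ?_⟩
    rw [show N - b = a by omega]
    omega

/-- all patterns, all even `N ≥ 8`, `N ≠ 10` -/
theorem one_all {N i j : ℕ} (h8 : 8 ≤ N) (he : Even N) (h10 : N ≠ 10) :
    ∃ a, Rep N i j a := by
  by_cases hij : i % 2 = j % 2
  · obtain ⟨n, hn⟩ := he
    by_cases hn2 : cardFactors n % 2 = i % 2
    · refine ⟨n, by omega, by omega, hn2, ?_⟩
      rw [show N - n = n by omega]
      omega
    · obtain ⟨x, h0, hx, h1, h2⟩ := Pool.Agent.H34PG.main_two (n := n) (by omega)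
      have e1 := Pool.Agent.H34PG.odd_iff_of_lam h1
      have e2 := Pool.Agent.H34PG.odd_iff_of_lam h2
      rw [Nat.odd_iff, Nat.even_iff] at e1 e2
      refine ⟨n - x, by omega, by omega, by omega, ?_⟩
      rw [show N - (n - x) = n + x by omega]
      omega
  · exact one_mixed (by omega) (by omega) h10 hij

end Pool.Agent.H11.LQ
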