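import Pool.Agent.H11.LQ.Fin4

/-!
# LQ stage 2, module Fin6: only the real characters of one parity matter

Copies of `core2`, `large2`, `large3` (Fin2, Fin4) with the value of the character at `-1`.
-/

set_option autoImplicit false

namespace Pool.Agent.H11.LQ

open Finset
open Pool.Agent.H34PG (lam lam_val lam_mul lam_prime)

/-- the statement of the analytic part of stage 2, with the parity of the character -/
def Analytic2p : Prop := ∃ C1 m0 : ℕ, ∀ (m : ℕ) [NeZero m], m0 ≤ m → ∀ ρ : ℝ,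
    (m : ℝ) ^ (-(1 / 100) : ℝ) ≤ ρ → ρ * Real.log m ^ C1 ≤ 1 → ∀ η : ℤ, (η = 1 ∨ η = -1) →
    (∀ q : ℕ, q.Prime → (q : ℝ) ≤ Real.log m ^ 800 → ((Ex m η q).card : ℝ) ≤ ρ * m) →
    ∃ χ : DirichletCharacter ℂ m, χ ^ 2 = 1 ∧ χ ≠ 1 ∧ χ (-1) = (η : ℂ) ∧
      ‖DirichletCharacter.LFunction χ 1‖ ≤ ρ ^ (1 / 16 : ℝ)

/-- induced real characters -/
def Liftp : Prop := ∀ (m N : ℕ) [NeZero m] [NeZero N], m ∣ N → ∀ χ : DirichletCharacter ℂ m,
    χ ^ 2 = 1 → χ ≠ 1 → ∃ χ' : DirichletCharacter ℂ N, χ' ^ 2 = 1 ∧ χ' ≠ 1 ∧ χ' (-1) = χ (-1) ∧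
      ‖DirichletCharacter.LFunction χ' 1‖
        ≤ (2 + 2 * Real.log N) * ‖DirichletCharacter.LFunction χ 1‖

theorem core2p (hA : Analytic2p) (hL : Liftp) : ∃ c0 : ℝ, 0 < c0 ∧ c0 ≤ 1 / 100 ∧ ∃ C0 m0 : ℕ,
    ∀ (m : ℕ) [NeZero m], m0 ≤ m → ∀ ρ : ℝ, (m : ℝ) ^ (-c0) ≤ ρ →
      ρ * Real.log m ^ C0 ≤ 1 → ∀ η : ℤ, (η = 1 ∨ η = -1) → ((Ex m η 2).card : ℝ) ≤ ρ * m →
      ∀ r : ℝ, (∀ χ : DirichletCharacter ℂ m, χ ^ 2 = 1 → χ ≠ 1 → χ (-1) = (η : ℂ) →
        r ≤ ‖DirichletCharacter.LFunction χ 1‖) → r ≤ (2 + 2 * Real.log m) * ρ ^ (1 / 32 : ℝ) := by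
  obtain ⟨c, hc, C, m1, h1⟩ := combi2
  obtain ⟨C1, m2, h2⟩ := hA
  refine ⟨min c (1 / 100), lt_min hc (by norm_num), min_le_right _ _, C + 2 * C1,
    m1 + m2 ^ 2 + 3, fun m _ hm ρ hρ1 hρ2 η hη he r hr => ?_⟩
  have hm1 : (1 : ℝ) ≤ m := by exact_mod_cast (by omega : 1 ≤ m)
  have hm0 : (0 : ℝ) < m := by linarith
  have hρ0 : 0 < ρ := lt_of_lt_of_le (by positivity) hρ1
  have hlog : 1 ≤ Real.log m := by
    rw [Real.le_log_iff_exp_le hm0]
    have h3 : (3 : ℝ) ≤ m := by exact_mod_cast (by omega : 3 ≤ m)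
    have := Real.exp_one_lt_d9
    linarith
  have hc1 : (m : ℝ) ^ (-c) ≤ ρ := le_trans (Real.rpow_le_rpow_of_exponent_le hm1
    (by have := min_le_left c (1 / 100); linarith)) hρ1
  have hC1 : ρ * Real.log m ^ C ≤ 1 := by
    refine le_trans (mul_le_mul_of_nonneg_left ?_ hρ0.le) hρ2
    exact pow_le_pow_right₀ hlog (by omega)
  obtain ⟨m', hm'd, hm'1, hm'2⟩ := h1 m (by omega) ρ hc1 hC1 η hη he
  have hm'0 : 0 < m' := Nat.pos_of_dvd_of_pos hm'd (by omega)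
  have : NeZero m' := ⟨hm'0.ne'⟩
  have hm'r : (0 : ℝ) < m' := by exact_mod_cast hm'0
  have hm'le : (m' : ℝ) ≤ m := by exact_mod_cast Nat.le_of_dvd (by omega) hm'd
  have h3 : m2 ≤ m' := by
    have h4 : (m2 : ℝ) ≤ (m : ℝ) ^ (1 / 2 : ℝ) := by
      rw [← Real.sqrt_eq_rpow]
      refine Real.le_sqrt_of_sq_le ?_
      exact_mod_cast (by omega : m2 ^ 2 ≤ m)
    exact_mod_cast h4.trans hm'1
  have h5 : (m' : ℝ) ^ (-(1 / 100) : ℝ) ≤ Real.sqrt ρ := by
    have h6 : (m' : ℝ) ^ (-(1 / 100) : ℝ) ≤ ((m : ℝ) ^ (1 / 2 : ℝ)) ^ (-(1 / 100) : ℝ) :=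
      Real.rpow_le_rpow_of_nonpos (by positivity) hm'1 (by norm_num)
    have h7 : (m : ℝ) ^ (-(1 / 100) : ℝ) ≤ ρ := le_trans (Real.rpow_le_rpow_of_exponent_le hm1
      (by have := min_le_right c (1 / 100); linarith)) hρ1
    refine h6.trans ?_
    rw [← Real.rpow_mul hm0.le, Real.sqrt_eq_rpow]
    have h8 : (m : ℝ) ^ (1 / 2 * -(1 / 100) : ℝ) = ((m : ℝ) ^ (-(1 / 100) : ℝ)) ^ (1 / 2 : ℝ) := by
      rw [← Real.rpow_mul hm0.le]
      congr 1
      norm_num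
    rw [h8]
    exact Real.rpow_le_rpow (by positivity) h7 (by norm_num)
  have h6 : Real.sqrt ρ * Real.log m' ^ C1 ≤ 1 := by
    have h7 : 0 ≤ Real.log m' := Real.log_nonneg (by exact_mod_cast hm'0)
    have h8 : Real.log m' ≤ Real.log m := Real.log_le_log hm'r hm'le
    have h9 : Real.sqrt ρ * Real.log m' ^ C1 ≤ Real.sqrt ρ * Real.log m ^ C1 :=
      mul_le_mul_of_nonneg_left (pow_le_pow_left₀ h7 h8 _) (Real.sqrt_nonneg _)
    refine h9.trans ?_
    have h10 : (Real.sqrt ρ * Real.log m ^ C1) ^ 2 ≤ 1 := by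
      rw [mul_pow, Real.sq_sqrt hρ0.le, ← pow_mul]
      refine le_trans (mul_le_mul_of_nonneg_left ?_ hρ0.le) hρ2
      exact pow_le_pow_right₀ hlog (by omega)
    have h11 : 0 ≤ Real.sqrt ρ * Real.log m ^ C1 := by positivity
    nlinarith
  obtain ⟨χ, hχ2, hχ1, hχp, hχ⟩ := h2 m' h3 (Real.sqrt ρ) h5 h6 η hη hm'2
  obtain ⟨χ', h7, h8, hp, h9⟩ := hL m' m hm'd χ hχ2 hχ1
  refine (hr χ' h7 h8 (hp.trans hχp)).trans (h9.trans ?_)
  have h10 : 0 ≤ Real.log m := Real.log_nonneg hm1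
  refine mul_le_mul_of_nonneg_left (hχ.trans (le_of_eq ?_)) (by positivity)
  rw [Real.sqrt_eq_rpow, ← Real.rpow_mul hρ0.le]
  congr 1
  norm_num

private theorem fin2p_step (hA : Analytic2p) (hL : Liftp) : ∃ c0 : ℝ, 0 < c0 ∧ ∃ C N0 : ℕ,
    ∀ N : ℕ, N0 ≤ N → ∀ r : ℝ, 0 < r → r ≤ 1 → ∀ (m : ℕ) [NeZero m], m ≤ N → N ≤ 2 * m → ∀ η : ℤ,
      (η = 1 ∨ η = -1) → (∀ χ : DirichletCharacter ℂ m, χ ^ 2 = 1 → χ ≠ 1 → χ (-1) = (η : ℂ) →
        r ≤ ‖DirichletCharacter.LFunction χ 1‖) → ∀ R : ℕ, (Ex m η 2).card ≤ 24 * R + 4 → (N : ℝ) ^ (1 - c0) ≤ (R : ℝ) →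
      (r / Real.log N) ^ C * N ≤ 100 * (R : ℝ) := by
  obtain ⟨c, hc, hc1, C0, m0, h0⟩ := core2p hA hL
  obtain ⟨K, hK⟩ := exists_nat_gt ((2 : ℝ) ^ (2 / c))
  refine ⟨c / 2, by positivity, C0 + 64, 2 * m0 + K + 200, fun N hN r hr0 hr1 m _ hmle hNm η hη hr R
    hR hR1 => ?_⟩
  have hm100 : 100 ≤ m := by omega
  have hN1 : (1 : ℝ) ≤ N := by exact_mod_cast (by omega : 1 ≤ N)
  have hN0 : (0 : ℝ) < N := by linarith
  have hm1 : (1 : ℝ) ≤ m := by exact_mod_cast (by omega : 1 ≤ m)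
  have hm0 : (0 : ℝ) < m := by linarith
  have hlogN : 4 < Real.log N := by
    rw [Real.lt_log_iff_exp_lt hN0]
    have h1 : Real.exp 4 = Real.exp 1 ^ 4 := by
      rw [← Real.exp_nat_mul]
      norm_num
    have h2 := Real.exp_one_lt_d9
    have h3 : (200 : ℝ) ≤ N := by exact_mod_cast (by omega : 200 ≤ N)
    have h4 : Real.exp 1 ^ 4 < 2.7182818286 ^ 4 :=
      pow_lt_pow_left₀ h2 (Real.exp_pos 1).le (by norm_num)
    rw [h1]
    norm_num at h4
    linarith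
  have hlogm : 1 ≤ Real.log m := by
    rw [Real.le_log_iff_exp_le hm0]
    have h3 : (3 : ℝ) ≤ m := by exact_mod_cast (by omega : 3 ≤ m)
    have := Real.exp_one_lt_d9
    linarith
  have hlogmN : Real.log m ≤ Real.log N := Real.log_le_log hm0 (by exact_mod_cast hmle)
  obtain ⟨ρ, hρ⟩ : ∃ ρ : ℝ, ρ = (r / Real.log N) ^ (C0 + 64) := ⟨_, rfl⟩
  rw [← hρ]
  have hρ0 : 0 < ρ := by
    rw [hρ]
    positivity
  have hx1 : r / Real.log N ≤ 1 := by
    rw [div_le_one (by positivity)]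
    linarith
  have hx0 : 0 < r / Real.log N := by positivity
  by_contra hcon
  rw [not_le] at hcon
  by_cases hρm : (m : ℝ) ^ (-c) ≤ ρ
  · -- the main case
    have h1 : ρ * Real.log m ^ C0 ≤ 1 := by
      have h2 : ρ ≤ (1 / Real.log N) ^ C0 := by
        calc ρ ≤ (r / Real.log N) ^ C0 := by
              rw [hρ]
              exact pow_le_pow_of_le_one hx0.le hx1 (by omega)
          _ ≤ (1 / Real.log N) ^ C0 := by
              refine pow_le_pow_left₀ hx0.le ?_ _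
              exact div_le_div_of_nonneg_right hr1 (by linarith)
      calc ρ * Real.log m ^ C0 ≤ (1 / Real.log N) ^ C0 * Real.log N ^ C0 := by
            refine mul_le_mul h2 (pow_le_pow_left₀ (by linarith) hlogmN _) (by positivity)
              (by positivity)
        _ = 1 := by
            rw [← mul_pow, one_div_mul_cancel (by positivity), one_pow]
    have h3 : ((Ex m η 2).card : ℝ) ≤ ρ * m := by
      have h4 : ((Ex m η 2).card : ℝ) ≤ 24 * (R : ℝ) + 4 := by exact_mod_cast hR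
      have h5 : (N : ℝ) ≤ 2 * m := by exact_mod_cast hNm
      have h6 : (10 : ℝ) ≤ ρ * m := by
        have h7 : (m : ℝ) ^ (1 / 2 : ℝ) ≤ ρ * m := by
          calc (m : ℝ) ^ (1 / 2 : ℝ) ≤ (m : ℝ) ^ (-c + 1) :=
                Real.rpow_le_rpow_of_exponent_le hm1 (by linarith)
            _ = (m : ℝ) ^ (-c) * m := by rw [Real.rpow_add hm0, Real.rpow_one]
            _ ≤ ρ * m := mul_le_mul_of_nonneg_right hρm hm0.le
        refine le_trans ?_ h7
        rw [← Real.sqrt_eq_rpow]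
        refine Real.le_sqrt_of_sq_le ?_
        have h8 : (100 : ℝ) ≤ m := by exact_mod_cast hm100
        linarith
      have h7 : ρ * N ≤ ρ * (2 * m) := mul_le_mul_of_nonneg_left h5 hρ0.le
      linarith
    have h4 := h0 m (by omega) ρ hρm h1 η hη h3 r hr
    have h5 : ρ ^ (1 / 32 : ℝ) ≤ (r / Real.log N) ^ 2 := by
      have h6 : ρ ≤ (r / Real.log N) ^ 64 := by
        rw [hρ]
        exact pow_le_pow_of_le_one hx0.le hx1 (by omega)
      calc ρ ^ (1 / 32 : ℝ) ≤ ((r / Real.log N) ^ 64) ^ (1 / 32 : ℝ) :=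
            Real.rpow_le_rpow hρ0.le h6 (by norm_num)
        _ = (r / Real.log N) ^ 2 := by
            rw [← Real.rpow_natCast _ 64, ← Real.rpow_mul hx0.le, ← Real.rpow_natCast _ 2]
            congr 1
            norm_num
    have h4' : (2 + 2 * Real.log m) * ρ ^ (1 / 32 : ℝ) ≤ (2 + 2 * Real.log N) * ρ ^ (1 / 32 : ℝ) :=
      mul_le_mul_of_nonneg_right (by linarith) (by positivity)
    have h6 : (2 + 2 * Real.log N) * ρ ^ (1 / 32 : ℝ) < r := by
      calc (2 + 2 * Real.log N) * ρ ^ (1 / 32 : ℝ)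
          ≤ (4 * Real.log N) * (r / Real.log N) ^ 2 := by
            refine mul_le_mul (by linarith) h5 (by positivity) (by positivity)
        _ = (4 / Real.log N) * r * r := by
            field_simp
        _ < 1 * r * 1 := by
            have h7 : 4 / Real.log N < 1 := by
              rw [div_lt_one (by positivity)]
              exact hlogN
            have h8 : 4 / Real.log N * r < 1 * r := mul_lt_mul_of_pos_right h7 hr0
            have h9 : 0 < 4 / Real.log N * r := by positivity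
            nlinarith
        _ = r := by ring
    linarith
  · -- the case of a tiny `ρ`
    rw [not_le] at hρm
    have h1 : (m : ℝ) ^ (-c) ≤ 2 * (N : ℝ) ^ (-c) := by
      have h2 : (N : ℝ) / 2 ≤ m := by
        have h3 : (N : ℝ) ≤ 2 * m := by exact_mod_cast hNm
        linarith
      calc (m : ℝ) ^ (-c) ≤ ((N : ℝ) / 2) ^ (-c) :=
            Real.rpow_le_rpow_of_nonpos (by positivity) h2 (by linarith)
        _ = 2 ^ c * (N : ℝ) ^ (-c) := by
            rw [Real.div_rpow hN0.le (by norm_num), Real.rpow_neg (by norm_num : (0 : ℝ) ≤ 2) c,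
              div_inv_eq_mul, mul_comm]
        _ ≤ 2 * (N : ℝ) ^ (-c) := by
            refine mul_le_mul_of_nonneg_right ?_ (by positivity)
            calc (2 : ℝ) ^ c ≤ 2 ^ (1 : ℝ) :=
                  Real.rpow_le_rpow_of_exponent_le (by norm_num) (by linarith)
              _ = 2 := Real.rpow_one _
    have h2 : (2 : ℝ) ≤ (N : ℝ) ^ (c / 2) := by
      have h3 : ((2 : ℝ) ^ (2 / c)) ^ (c / 2) = 2 := by
        rw [← Real.rpow_mul (by norm_num), div_mul_div_comm, mul_comm 2 c, div_self (by positivity),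
          Real.rpow_one]
      have h4 : (K : ℝ) ≤ N := by exact_mod_cast (by omega : K ≤ N)
      calc (2 : ℝ) = ((2 : ℝ) ^ (2 / c)) ^ (c / 2) := h3.symm
        _ ≤ (N : ℝ) ^ (c / 2) := Real.rpow_le_rpow (by positivity) (by linarith) (by positivity)
    have h3 : (N : ℝ) ^ (1 - c / 2) = (N : ℝ) ^ (c / 2) * ((N : ℝ) ^ (-c) * N) := by
      rw [← Real.rpow_add_one hN0.ne', ← Real.rpow_add hN0]
      congr 1
      ring
    have h4 : 2 * ((N : ℝ) ^ (-c) * N) ≤ (R : ℝ) := by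
      refine le_trans ?_ hR1
      rw [h3]
      exact mul_le_mul_of_nonneg_right h2 (by positivity)
    have h5 : ρ * N < 2 * (N : ℝ) ^ (-c) * N := mul_lt_mul_of_pos_right (hρm.trans_le h1) hN0
    have h6 : (0 : ℝ) ≤ R := Nat.cast_nonneg _
    linarith

theorem large2p (hA1 : Analytic) (hA : Analytic2p) (hL : Liftp) : ∃ C N0 : ℕ,
    ∀ (N M : ℕ) [NeZero M], N0 ≤ N → ∀ r : ℝ, 0 < r → r ≤ 1 →
      ∀ s t : ℤ, (s = 1 ∨ s = -1) → (t = 1 ∨ t = -1) → (s = t → N = 2 * M) → (s ≠ t → N = M) →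
      (∀ χ : DirichletCharacter ℂ M, χ ^ 2 = 1 → χ ≠ 1 → χ (-1) = ((-(s * t) : ℤ) : ℂ) →
        r ≤ ‖DirichletCharacter.LFunction χ 1‖) →
        (r / Real.log N) ^ C * N ≤ 100 * ((pat N s t).card : ℝ) := by
  obtain ⟨c0, hc0, C, N1, h1⟩ := fin2p_step hA hL
  obtain ⟨N2, h2⟩ := large hA1 c0 hc0
  refine ⟨C, N1 + N2 + 2, fun N M _ hN r hr0 hr1 s t hs ht hs1 hs2 hr => ?_⟩
  by_cases he : s = t
  · have hm2 : N = 2 * M := hs1 he
    have h3 := h2 N (by omega) s t hs ht (Or.inl ⟨M, by omega⟩)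
    subst he
    have h5 := red_same M hs
    rw [← hm2] at h5
    have hη : (-(s * s) : ℤ) = -1 := by rcases hs with rfl | rfl <;> norm_num
    rw [hη] at hr
    exact h1 N (by omega) r hr0 hr1 M (by omega) (by omega) (-1) (Or.inr rfl) hr _ h5 h3
  · have hm2 : N = M := hs2 he
    subst hm2
    have h3 := h2 N (by omega) s t hs ht (Or.inr he)
    have h5 := red_mixed N
    have h6 : ((range N).filter fun a => 0 < a ∧ lam a ≠ lam (N - a)) ⊆ pat N s t ∪ pat N t s := by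
      intro a ha
      rw [mem_filter, mem_range] at ha
      obtain ⟨ha1, ha2, ha3⟩ := ha
      unfold pat
      rw [mem_union, mem_filter, mem_filter, mem_range]
      clear hr hs1 hs2 h1 h2 h3 h5 hN
      rcases lam_val a with e1 | e1 <;> rcases lam_val (N - a) with e2 | e2 <;>
        rcases hs with rfl | rfl <;> rcases ht with rfl | rfl <;>
        simp_all
    have h7 := (Finset.card_le_card h6).trans (Finset.card_union_le _ _)
    have h8 := pat_swap N t s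
    have hη : (-(s * t) : ℤ) = 1 := by
      clear hr hs1 hs2 h1 h2 h3 h5 h6 h7 h8
      rcases hs with rfl | rfl <;> rcases ht with rfl | rfl <;>
        first | exact absurd rfl he | norm_num
    rw [hη] at hr
    exact h1 N (by omega) r hr0 hr1 N le_rfl (by omega) 1 (Or.inl rfl) hr (pat N s t).card
      (by omega) h3

theorem large3p (hA1 : Analytic) (hA : Analytic2p) (hL : Liftp) (hO : OmB) : ∃ C : ℝ, 1 ≤ C ∧
    ∃ k N0 : ℕ, ∀ (N M : ℕ) [NeZero M], N0 ≤ N → ∀ r : ℝ, 0 < r → r ≤ 1 →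
      ∀ K : ℝ, C * (Real.log N / r) ^ k ≤ K →
      ∀ s t : ℤ, (s = 1 ∨ s = -1) → (t = 1 ∨ t = -1) → (s = t → N = 2 * M) → (s ≠ t → N = M) →
      (∀ χ : DirichletCharacter ℂ M, χ ^ 2 = 1 → χ ≠ 1 → χ (-1) = ((-(s * t) : ℤ) : ℂ) →
        r ≤ ‖DirichletCharacter.LFunction χ 1‖) →
        ∃ T ⊆ pat N s t, (N : ℝ) ≤ K * (T.card : ℝ) ∧ ∀ a ∈ T, Fine N K a := by
  obtain ⟨C0, N1, h1⟩ := large2p hA1 hA hL
  obtain ⟨A, hA1, h2⟩ := sift3 hO
  refine ⟨(200 * A) ^ 2, by nlinarith, 2 * C0 + 4, N1 + 3,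
    fun N M _ hN r hr0 hr1 K hK s t hs ht hs1 hs2 hr => ?_⟩
  have hN1 : (1 : ℝ) ≤ N := by exact_mod_cast (by omega : 1 ≤ N)
  have hN0 : (0 : ℝ) < N := by linarith
  have hlog : 1 ≤ Real.log N := by
    rw [Real.le_log_iff_exp_le hN0]
    have h3 : (3 : ℝ) ≤ N := by exact_mod_cast (by omega : 3 ≤ N)
    have := Real.exp_one_lt_d9
    linarith
  have e1 := h1 N M (by omega) r hr0 hr1 s t hs ht hs1 hs2 hr
  obtain ⟨x, hx⟩ : ∃ x : ℝ, x = Real.log N / r := ⟨_, rfl⟩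
  have hxl : Real.log N ≤ x := by
    rw [hx, le_div_iff₀ hr0]
    nlinarith
  have hx1 : 1 ≤ x := hlog.trans hxl
  have hx0 : 0 < x := by linarith
  obtain ⟨Y, hY⟩ : ∃ Y : ℝ, Y = x ^ C0 := ⟨_, rfl⟩
  have hY1 : 1 ≤ Y := by
    rw [hY]
    exact one_le_pow₀ hx1
  have hrY : (r / Real.log N) ^ C0 = Y⁻¹ := by
    rw [hY, hx, ← inv_div r (Real.log N), inv_pow, inv_inv]
  rw [hrY] at e1
  have e2 : (N : ℝ) ≤ 100 * Y * ((pat N s t).card : ℝ) := by
    have h3 : Y⁻¹ * N * Y ≤ 100 * ((pat N s t).card : ℝ) * Y :=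
      mul_le_mul_of_nonneg_right e1 (by linarith)
    have h4 : Y⁻¹ * N * Y = N := by
      field_simp
    rw [h4] at h3
    linarith
  rw [← hx] at hK
  have hK2 : (200 * A * Y * x ^ 2) ^ 2 ≤ K := by
    refine le_trans (le_of_eq ?_) hK
    rw [hY]
    ring
  have hS : 200 * A * Y * x ^ 2 ≤ Real.sqrt K := by
    refine Real.le_sqrt_of_sq_le hK2
  have hx2 : 1 ≤ x ^ 2 := one_le_pow₀ hx1
  have hS1 : 200 * Y ≤ 200 * A * Y * x ^ 2 := by
    have h3 : 200 * Y * 1 ≤ 200 * Y * (A * x ^ 2) :=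
      mul_le_mul_of_nonneg_left (by nlinarith) (by linarith)
    linarith
  have hK1 : 1 ≤ K := by
    have h3 : 1 ≤ 200 * A * Y * x ^ 2 := by linarith
    nlinarith
  have hKY : 200 * Y ≤ K := by
    have h3 : 1 ≤ 200 * A * Y * x ^ 2 := by linarith
    nlinarith
  obtain ⟨T, hT, e3, e4⟩ := h2 N (by omega) (pat N s t) pat_bd K hK1
  refine ⟨T, hT, ?_, e4⟩
  have e5 : A * (N * Real.log N ^ 2 / Real.sqrt K) ≤ N / (200 * Y) := by
    have h3 : 0 < Real.sqrt K := by positivity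
    rw [← mul_div_assoc, div_le_div_iff₀ h3 (by positivity)]
    have h4 : Real.log N ^ 2 ≤ x ^ 2 := pow_le_pow_left₀ (by linarith) hxl 2
    calc A * (N * Real.log N ^ 2) * (200 * Y) = N * (200 * A * Y * Real.log N ^ 2) := by ring
      _ ≤ N * (200 * A * Y * x ^ 2) := by
          refine mul_le_mul_of_nonneg_left ?_ hN0.le
          exact mul_le_mul_of_nonneg_left h4 (by positivity)
      _ ≤ N * Real.sqrt K := mul_le_mul_of_nonneg_left hS hN0.le
  have e6 : (N : ℝ) / (200 * Y) ≤ ((pat N s t).card : ℝ) / 2 := by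
    rw [div_le_iff₀ (by positivity)]
    linarith
  have e7 : (N : ℝ) ≤ 200 * Y * (T.card : ℝ) := by
    have h3 : ((pat N s t).card : ℝ) ≤ 2 * (T.card : ℝ) := by linarith
    calc (N : ℝ) ≤ 100 * Y * ((pat N s t).card : ℝ) := e2
      _ ≤ 100 * Y * (2 * (T.card : ℝ)) := mul_le_mul_of_nonneg_left h3 (by positivity)
      _ = _ := by ring
  exact e7.trans (mul_le_mul_of_nonneg_right hKY (Nat.cast_nonneg _))

end Pool.Agent.H11.LQ
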