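import Pool.Agent.H11.LQ.Fin7

/-!
# LQ stage 3, module Fin8: lower bounds for large `N`

`stage3a`: if `L(1,χ)` is not small for the real characters mod `M` of the relevant parity.
`stage3b`: for `N ≤ X ≤ N ^ (1+κ)` unless `q X ∣ M` and the sign is `σ X`; `q X` grows faster than any power
of `log X` (Siegel).
-/

set_option autoImplicit false

namespace Pool.Agent.H11.LQ

open Finset
open Pool.Agent.H34PG (lam lam_val lam_mul lam_prime)
open Pool.Agent.H78.PD (Fail analytic3 lift3 tot_logw)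

/-- the reduction to the exceptional set of `2` -/
theorem ex_pat {N M : ℕ} {s t : ℤ} (hs : s = 1 ∨ s = -1) (ht : t = 1 ∨ t = -1)
    (hs1 : s = t → N = 2 * M) (hs2 : s ≠ t → N = M) :
    (Ex M (-(s * t)) 2).card ≤ 24 * (pat N s t).card + 4 := by
  by_cases he : s = t
  · have hm2 : N = 2 * M := hs1 he
    subst he
    have h5 := red_same M hs
    rw [← hm2] at h5
    have hη : (-(s * s) : ℤ) = -1 := by rcases hs with rfl | rfl <;> norm_num
    rw [hη]
    exact h5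
  · have hm2 : N = M := hs2 he
    subst hm2
    have h5 := red_mixed N
    have h6 : ((range N).filter fun a => 0 < a ∧ lam a ≠ lam (N - a)) ⊆ pat N s t ∪ pat N t s := by
      intro a ha
      rw [mem_filter, mem_range] at ha
      obtain ⟨ha1, ha2, ha3⟩ := ha
      unfold pat
      rw [mem_union, mem_filter, mem_filter, mem_range]
      clear hs1 hs2 h5
      rcases lam_val a with e1 | e1 <;> rcases lam_val (N - a) with e2 | e2 <;>
        rcases hs with rfl | rfl <;> rcases ht with rfl | rfl <;>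
        simp_all
    have h7 := (Finset.card_le_card h6).trans (Finset.card_union_le _ _)
    have h8 := pat_swap N t s
    have hη : (-(s * t) : ℤ) = 1 := by
      clear hs1 hs2 h5 h6 h7 h8
      rcases hs with rfl | rfl <;> rcases ht with rfl | rfl <;>
        first | exact absurd rfl he | norm_num
    rw [hη]
    omega

/-- the sign and the modulus -/
private theorem fin8_mod {N M : ℕ} {s t : ℤ} (hs : s = 1 ∨ s = -1) (ht : t = 1 ∨ t = -1)
    (hs1 : s = t → N = 2 * M) (hs2 : s ≠ t → N = M) :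
    M ∣ N ∧ N ≤ 2 * M ∧ (-(s * t) = 1 ∨ -(s * t) = -1) := by
  refine ⟨?_, ?_, ?_⟩
  · by_cases he : s = t
    · rw [hs1 he]
      exact Dvd.intro_left 2 rfl
    · rw [hs2 he]
  · by_cases he : s = t
    · rw [hs1 he]
    · have := hs2 he
      omega
  · rcases hs with rfl | rfl <;> rcases ht with rfl | rfl <;> norm_num

theorem stage3a : ∃ C : ℝ, 1 ≤ C ∧ ∃ k N0 : ℕ, ∀ (N M : ℕ) [NeZero M], N0 ≤ N →
    ∀ s t : ℤ, (s = 1 ∨ s = -1) → (t = 1 ∨ t = -1) → (s = t → N = 2 * M) → (s ≠ t → N = M) →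
      (∀ χ : DirichletCharacter ℂ M, χ ^ 2 = 1 → χ ≠ 1 → χ (-1) = ((-(s * t) : ℤ) : ℂ) →
        C * (M / M.totient) / Real.log M ≤ ‖DirichletCharacter.LFunction χ 1‖) →
      (N : ℝ) ≤ C * rt N ^ k * ((pat N s t).card : ℝ) := by
  obtain ⟨θ, ε1, C1, k1, hθ, hε1, hC1, hk0, hk1, Q0, m0, X0, H1, _⟩ := analytic3
  obtain ⟨C2, hC2, k2, N2, H2⟩ := step7 θ ε1 hθ hε1 Q0 m0
  refine ⟨C2 + 2 * C1 + 1, by linarith, k2, N2 + 100, fun N M _ hN s t hs ht hs1 hs2 hr => ?_⟩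
  obtain ⟨hMN, hNM, hη⟩ := fin8_mod hs ht hs1 hs2
  have hw := rt_ge (N := N) (by omega)
  rcases H2 N (by omega) M hMN hNM (-(s * t)) hη (pat N s t).card (ex_pat hs ht hs1 hs2) with
    h | ⟨m, _, Q, h1, h2, h3, h4, h5, h6⟩
  · refine h.trans (mul_le_mul_of_nonneg_right ?_ (Nat.cast_nonneg _))
    exact mul_le_mul_of_nonneg_right (by linarith) (by positivity)
  · exfalso
    obtain ⟨χ, e1, e2, e3, e4⟩ := H1 m h2 Q h5 _ h6
    obtain ⟨χ', f1, f2, f3, f4⟩ := lift3 m M h1 χ e1 e2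
    have h7 := hr χ' f1 f2 (f3.trans e3)
    have hM0 : 0 < M := by omega
    have hMr : (0 : ℝ) < M := by exact_mod_cast hM0
    have hm0 : 0 < m := Nat.pos_of_dvd_of_pos h1 hM0
    have hmr : (0 : ℝ) < m := by exact_mod_cast hm0
    have hφM : (0 : ℝ) < M.totient := by exact_mod_cast Nat.totient_pos.mpr hM0
    have hφm : (0 : ℝ) < m.totient := by exact_mod_cast Nat.totient_pos.mpr hm0
    have hlM : 0 < Real.log M := Real.log_pos (by exact_mod_cast (by omega : 1 < M))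
    have hlm : Real.log M / 2 ≤ Real.log m := by
      have h8 := Real.log_le_log (by positivity) h3
      rw [Real.log_rpow hMr] at h8
      linarith
    have hlm0 : 0 < Real.log m := by linarith
    have g1 : (m.totient : ℝ) / m * ‖DirichletCharacter.LFunction χ 1‖ ≤ C1 / Real.log m := by
      calc (m.totient : ℝ) / m * ‖DirichletCharacter.LFunction χ 1‖
          ≤ (m.totient : ℝ) / m * (C1 * (m / m.totient) / Real.log m) :=
            mul_le_mul_of_nonneg_left e4 (by positivity)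
        _ = C1 / Real.log m := by field_simp
    have g2 : C1 / Real.log m ≤ 2 * C1 / Real.log M := by
      rw [div_le_div_iff₀ hlm0 hlM]
      nlinarith
    have g3 : (M.totient : ℝ) / M * ((C2 + 2 * C1 + 1) * (M / M.totient) / Real.log M)
        ≤ 2 * C1 / Real.log M :=
      (mul_le_mul_of_nonneg_left h7 (by positivity)).trans (f4.trans (g1.trans g2))
    have g4 : (M.totient : ℝ) / M * ((C2 + 2 * C1 + 1) * (M / M.totient) / Real.log M)
        = (C2 + 2 * C1 + 1) / Real.log M := by field_simp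
    rw [g4, div_le_div_iff_of_pos_right hlM] at g3
    linarith

/-- `log (ω(N) + 2)` -/
noncomputable def lw (N : ℕ) : ℝ := Real.log (N.primeFactors.card + 2)

theorem lw_pos (N : ℕ) : 0 < lw N := by
  unfold lw
  refine Real.log_pos ?_
  have : (0 : ℝ) ≤ N.primeFactors.card := Nat.cast_nonneg _
  linarith

/-- `log (ω(m) + 2) ^ 2` is small compared with `log m` -/
private theorem fin8_lw {m : ℕ} (hm : m ≠ 0) (h : 1 / 2 ≤ Real.log m) :
    lw m ^ 2 ≤ 384 * Real.log m ^ (1 / 4 : ℝ) := by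
  have h3 : (m.primeFactors.card : ℝ) ≤ 2 * Real.log m := by
    have h4 := two_pow_card_le (n := m) hm
    have h5 : (2 : ℝ) ^ m.primeFactors.card ≤ m := by exact_mod_cast h4
    have h6 : (m.primeFactors.card : ℝ) * Real.log 2 ≤ Real.log m := by
      rw [← Real.log_pow]
      exact Real.log_le_log (by positivity) h5
    have h7 : (1 : ℝ) / 2 ≤ Real.log 2 := by
      have := Real.log_two_gt_d9
      linarith
    have h9 : (0 : ℝ) ≤ m.primeFactors.card := Nat.cast_nonneg _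
    nlinarith
  obtain ⟨L, hL⟩ : ∃ L, L = Real.log m := ⟨_, rfl⟩
  rw [← hL] at h h3 ⊢
  have hL0 : 0 < L := by linarith
  have h4 : lw m ≤ Real.log (6 * L) := by
    unfold lw
    refine Real.log_le_log (by positivity) ?_
    linarith
  have h5 : Real.log (6 * L) ≤ (6 * L) ^ (1 / 8 : ℝ) / (1 / 8) :=
    Real.log_le_rpow_div (by positivity) (by norm_num)
  have h6 : lw m ≤ 8 * (6 * L) ^ (1 / 8 : ℝ) := by
    refine (h4.trans h5).trans (le_of_eq ?_)
    ring
  have h7 := lw_pos m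
  calc lw m ^ 2 ≤ (8 * (6 * L) ^ (1 / 8 : ℝ)) ^ 2 := pow_le_pow_left₀ h7.le h6 2
    _ = 64 * (6 * L) ^ (1 / 4 : ℝ) := by
        rw [mul_pow, ← Real.rpow_natCast ((6 * L) ^ (1 / 8 : ℝ)), ← Real.rpow_mul (by positivity)]
        norm_num
    _ = 64 * (6 ^ (1 / 4 : ℝ) * L ^ (1 / 4 : ℝ)) := by rw [Real.mul_rpow (by norm_num) hL0.le]
    _ ≤ 64 * (6 * L ^ (1 / 4 : ℝ)) := by
        refine mul_le_mul_of_nonneg_left (mul_le_mul_of_nonneg_right ?_ (by positivity))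
          (by norm_num)
        calc (6 : ℝ) ^ (1 / 4 : ℝ) ≤ 6 ^ (1 : ℝ) :=
              Real.rpow_le_rpow_of_exponent_le (by norm_num) (by norm_num)
          _ = 6 := Real.rpow_one _
    _ = 384 * L ^ (1 / 4 : ℝ) := by ring

private theorem fin8_tot {m : ℕ} [NeZero m] {q : ℕ} (ψ : DirichletCharacter ℂ q) :
    (m.totient : ℝ) / m ≤ ‖∏ p ∈ m.primeFactors, (1 - ψ p * (p : ℂ) ^ (-(1 : ℂ)))‖ := by
  have hm0 : (m : ℝ) ≠ 0 := by exact_mod_cast NeZero.ne m
  have h1 : ((m.totient : ℚ) : ℝ) = ((m * ∏ p ∈ m.primeFactors, (1 - (p : ℚ)⁻¹) : ℚ) : ℝ) := by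
    rw [Nat.totient_eq_mul_prod_factors]
  push_cast at h1
  rw [h1, mul_div_assoc, mul_comm, div_mul_cancel₀ _ hm0, norm_prod]
  refine Finset.prod_le_prod (fun p hp => ?_) fun p hp => ?_
  · have hp1 : (1 : ℝ) ≤ p := by exact_mod_cast (Nat.prime_of_mem_primeFactors hp).one_le
    have := inv_le_one_of_one_le₀ hp1
    linarith
  · have h2 : ‖ψ p * (p : ℂ) ^ (-(1 : ℂ))‖ ≤ (p : ℝ)⁻¹ := by
      rw [Complex.cpow_neg, Complex.cpow_one, norm_mul, norm_inv, Complex.norm_natCast]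
      have h3 := DirichletCharacter.norm_le_one ψ (p : ZMod q)
      have h4 : (0 : ℝ) ≤ (p : ℝ)⁻¹ := by positivity
      exact mul_le_of_le_one_left h4 h3
    have h5 := norm_sub_norm_le (1 : ℂ) (ψ p * (p : ℂ) ^ (-(1 : ℂ)))
    rw [norm_one] at h5
    linarith

/-- the primitive character -/
private theorem fin8_prim {m : ℕ} [NeZero m] (χ : DirichletCharacter ℂ m) (h2 : χ ^ 2 = 1)
    (h1 : χ ≠ 1) : ∃ (_ : NeZero χ.conductor) (ψ : DirichletCharacter ℂ χ.conductor),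
      ψ.IsPrimitive ∧ ψ ^ 2 = 1 ∧ ψ ≠ 1 ∧
      ‖DirichletCharacter.LFunction ψ 1‖ * ((m.totient : ℝ) / m)
        ≤ ‖DirichletCharacter.LFunction χ 1‖ := by
  have hcond : NeZero χ.conductor := ⟨by
    intro h
    have h1 := χ.conductor_dvd_level
    rw [h] at h1
    exact NeZero.ne m (Nat.eq_zero_of_zero_dvd h1)⟩
  obtain ⟨ψ, hψ⟩ : ∃ ψ, ψ = χ.primitiveCharacter := ⟨_, rfl⟩
  have hch : DirichletCharacter.changeLevel χ.conductor_dvd_level ψ = χ := by
    rw [hψ]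
    exact χ.changeLevel_primitiveCharacter
  have hψp : ψ.IsPrimitive := by
    rw [hψ]
    exact χ.primitiveCharacter_isPrimitive
  have hψ2 : ψ ^ 2 = 1 := by
    apply DirichletCharacter.changeLevel_injective χ.conductor_dvd_level
    rw [map_pow, hch, h2, map_one]
  have hψ1 : ψ ≠ 1 := by
    intro h
    apply h1
    rw [← hch, h, map_one]
  have h3 := DirichletCharacter.LFunction_changeLevel χ.conductor_dvd_level ψ (s := 1) (Or.inl hψ1)
  rw [hch] at h3
  refine ⟨hcond, ψ, hψp, hψ2, hψ1, ?_⟩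
  rw [h3, norm_mul]
  exact mul_le_mul_of_nonneg_left (fin8_tot (m := m) ψ) (norm_nonneg _)

/-- the conductor of a character with small `L(1,χ)` is large -/
private theorem fin8_grow (D : ℝ) (hD : 0 < D) (A : ℕ) : ∃ c : ℝ, 0 < c ∧
    ∀ (X f : ℕ) [NeZero f] (ψ : DirichletCharacter ℂ f), 1 ≤ Real.log X → ψ.IsPrimitive →
      ψ ^ 2 = 1 → ψ ≠ 1 →
      ‖DirichletCharacter.LFunction ψ 1‖ ≤ D * Real.log X ^ (-(1 / 2) : ℝ) →
      c * Real.log X ^ A ≤ f := by
  obtain ⟨c, hc, hs⟩ := Pool.Agent.H91.EHA.siegel (1 / (2 * ((A : ℝ) + 1))) (by positivity)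
  refine ⟨(c / D) ^ (2 * (A + 1)), by positivity, fun X f _ ψ hX b1 b2 b3 b4 => ?_⟩
  have h3 := (hs f ψ b1 b2 b3).trans b4
  have hL0 : 0 < Real.log X := by linarith
  have hq0 : (0 : ℝ) < f := by
    have := NeZero.pos f
    exact_mod_cast this
  obtain ⟨z, hz⟩ : ∃ z : ℝ, z = (f : ℝ) ^ (1 / (2 * ((A : ℝ) + 1))) := ⟨_, rfl⟩
  obtain ⟨y, hy⟩ : ∃ y : ℝ, y = Real.log X ^ (1 / 2 : ℝ) := ⟨_, rfl⟩
  have hz0 : 0 < z := by rw [hz]; positivity
  have hy0 : 0 < y := by rw [hy]; positivity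
  rw [Real.rpow_neg hq0.le, Real.rpow_neg hL0.le, ← hz, ← hy, ← div_eq_mul_inv, ← div_eq_mul_inv,
    div_le_div_iff₀ hz0 hy0] at h3
  have h5 : c / D * y ≤ z := by
    rw [div_mul_eq_mul_div, div_le_iff₀ hD]
    linarith
  have h6 := pow_le_pow_left₀ (by positivity) h5 (2 * (A + 1))
  have h7 : z ^ (2 * (A + 1)) = f := by
    rw [hz, ← Real.rpow_natCast, ← Real.rpow_mul hq0.le]
    have h8 : 1 / (2 * ((A : ℝ) + 1)) * ((2 * (A + 1) : ℕ) : ℝ) = 1 := by
      push_cast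
      field_simp
    rw [h8, Real.rpow_one]
  have h8 : y ^ (2 * (A + 1)) = Real.log X ^ (A + 1) := by
    rw [hy, pow_mul, ← Real.rpow_natCast (Real.log X ^ (1 / 2 : ℝ)) 2, ← Real.rpow_mul hL0.le]
    norm_num
  rw [h7, mul_pow, h8] at h6
  refine le_trans (mul_le_mul_of_nonneg_left ?_ (by positivity)) h6
  exact pow_le_pow_right₀ hX (by omega)

/-- the exceptional data of `X` -/
private theorem fin8_choice {θ ε1 C1 k1 : ℝ} {Q0 m0 X0 : ℕ} (H : ∀ X : ℕ, X0 ≤ X → ∃ c : ℕ, ∃ e : ℤ,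
      ∀ (m : ℕ) [NeZero m], m0 ≤ m → (X : ℝ) ^ (1 - k1) ≤ m → m ≤ X →
      ∀ Q : ℕ, Q0 ≤ Q → ∀ η : ℤ, Fail θ ε1 m η Q →
      η = e ∧ ∃ χ : DirichletCharacter ℂ m, χ ^ 2 = 1 ∧ χ ≠ 1 ∧ χ (-1) = (η : ℂ) ∧
        ‖DirichletCharacter.LFunction χ 1‖ ≤ C1 * (m / m.totient) / Real.log m ∧
        χ.conductor = c) :
    ∃ (q : ℕ → ℕ) (σ : ℕ → ℤ), (∀ X, σ X = 1 ∨ σ X = -1) ∧
      (∀ X, q X = X + 1 ∨ ∃ (m : ℕ) (_ : NeZero m), (X : ℝ) ^ (1 - k1) ≤ m ∧ m ≤ X ∧
        ∃ χ : DirichletCharacter ℂ m, χ ^ 2 = 1 ∧ χ ≠ 1 ∧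
        ‖DirichletCharacter.LFunction χ 1‖ ≤ C1 * (m / m.totient) / Real.log m ∧
        χ.conductor = q X) ∧
      ∀ X, X0 ≤ X → ∀ (m : ℕ) [NeZero m], m0 ≤ m → (X : ℝ) ^ (1 - k1) ≤ m → m ≤ X →
        ∀ Q : ℕ, Q0 ≤ Q → ∀ η : ℤ, Fail θ ε1 m η Q → η = σ X ∧ q X ∣ m := by
  have hex : ∀ X : ℕ, ∃ q : ℕ, ∃ σ : ℤ, (σ = 1 ∨ σ = -1) ∧
      (q = X + 1 ∨ ∃ (m : ℕ) (_ : NeZero m), (X : ℝ) ^ (1 - k1) ≤ m ∧ m ≤ X ∧
        ∃ χ : DirichletCharacter ℂ m, χ ^ 2 = 1 ∧ χ ≠ 1 ∧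
        ‖DirichletCharacter.LFunction χ 1‖ ≤ C1 * (m / m.totient) / Real.log m ∧
        χ.conductor = q) ∧
      (X0 ≤ X → ∀ (m : ℕ) [NeZero m], m0 ≤ m → (X : ℝ) ^ (1 - k1) ≤ m → m ≤ X →
        ∀ Q : ℕ, Q0 ≤ Q → ∀ η : ℤ, Fail θ ε1 m η Q → η = σ ∧ q ∣ m) := by
    intro X
    by_cases hX : X0 ≤ X
    · by_cases h : ∃ (m : ℕ) (_ : NeZero m), m0 ≤ m ∧ (X : ℝ) ^ (1 - k1) ≤ m ∧ m ≤ X ∧
          ∃ Q : ℕ, Q0 ≤ Q ∧ ∃ η : ℤ, Fail θ ε1 m η Q
      · obtain ⟨c, e, H1⟩ := H X hX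
        obtain ⟨m, _, g1, g2, g3, Q, g4, η, g5⟩ := h
        obtain ⟨f1, χ, f2, f3, f4, f5, f6⟩ := H1 m g1 g2 g3 Q g4 η g5
        refine ⟨c, e, ?_, Or.inr ⟨m, inferInstance, g2, g3, χ, f2, f3, f5, f6⟩, fun _ m' _ a1 a2 a3 Q' a4 η' a5 => ?_⟩
        · rw [← f1]
          exact g5.2.1
        · obtain ⟨b1, χ', b2, b3, b4, b5, b6⟩ := H1 m' a1 a2 a3 Q' a4 η' a5
          refine ⟨b1, ?_⟩
          rw [← b6]
          exact χ'.conductor_dvd_level
      · refine ⟨X + 1, 1, Or.inl rfl, Or.inl rfl, fun _ m inst a1 a2 a3 Q a4 η a5 => ?_⟩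
        exact absurd ⟨m, inst, a1, a2, a3, Q, a4, η, a5⟩ h
    · exact ⟨X + 1, 1, Or.inl rfl, Or.inl rfl, fun h => absurd h hX⟩
  choose q σ h1 h2 h3 using hex
  exact ⟨q, σ, h1, h2, fun X hX m _ => h3 X hX m⟩

theorem stage3b : ∃ C : ℝ, 1 ≤ C ∧ ∃ k N0 : ℕ, ∃ κ : ℝ, 0 < κ ∧ ∃ (q : ℕ → ℕ) (σ : ℕ → ℤ),
    (∀ X, σ X = 1 ∨ σ X = -1) ∧
    (∀ A : ℕ, ∃ c : ℝ, 0 < c ∧ ∀ X : ℕ, 3 ≤ X → c * Real.log X ^ A ≤ q X) ∧
    ∀ X N M : ℕ, N0 ≤ N → N ≤ X → (X : ℝ) ≤ (N : ℝ) ^ (1 + κ) →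
    ∀ s t : ℤ, (s = 1 ∨ s = -1) → (t = 1 ∨ t = -1) → (s = t → N = 2 * M) → (s ≠ t → N = M) →
      (q X ∣ M → -(s * t) ≠ σ X) →
      (N : ℝ) ≤ C * rt N ^ k * ((pat N s t).card : ℝ) := by
  obtain ⟨θ, ε1, C1, k1, hθ, hε1, hC1, hk0, hk1, Q0, m0, X0, _, H1⟩ := analytic3
  obtain ⟨C2, hC2, k2, N2, H2⟩ := step7 θ ε1 hθ hε1 Q0 m0
  obtain ⟨Ct, hCt, Ht⟩ := tot_logw
  obtain ⟨q, σ, hσ, hq1, hq2⟩ := fin8_choice H1
  obtain ⟨κ, hκ⟩ : ∃ κ : ℝ, κ = k1 / 2 := ⟨_, rfl⟩
  have hκ0 : 0 < κ := by rw [hκ]; linarith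
  have hκ1 : κ ≤ 1 / 200 := by rw [hκ]; linarith
  obtain ⟨N3, H3⟩ := Pool.Agent.H78.PG.grow (C2 * 2 ^ k2) k2 κ hκ0
  refine ⟨C2, hC2, k2, N2 + N3 + X0 + 100, κ, hκ0, q, σ, hσ, fun A => ?_,
    fun X N M hN hNX hXN s t hs ht hs1 hs2 hqM => ?_⟩
  · -- the growth of `q`
    obtain ⟨c, hc, hg⟩ := fin8_grow (C1 * Ct ^ 2 * 384 * 2) (by positivity) A
    refine ⟨min c (1 / (A.factorial : ℝ)), lt_min hc (by positivity), fun X hX => ?_⟩
    have hXr : (0 : ℝ) < X := by exact_mod_cast (by omega : 0 < X)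
    have hL1 : 1 ≤ Real.log X := by
      rw [Real.le_log_iff_exp_le hXr]
      have h3 : (3 : ℝ) ≤ X := by exact_mod_cast hX
      have := Real.exp_one_lt_d9
      linarith
    have hL0 : 0 < Real.log X := by linarith
    rcases hq1 X with h | ⟨m, _, h1, h2, χ, e1, e2, e3, e4⟩
    · rw [h]
      have h3 := Real.pow_div_factorial_le_exp (Real.log X) hL0.le A
      rw [Real.exp_log hXr] at h3
      push_cast
      calc min c (1 / (A.factorial : ℝ)) * Real.log X ^ A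
          ≤ 1 / (A.factorial : ℝ) * Real.log X ^ A :=
            mul_le_mul_of_nonneg_right (min_le_right _ _) (by positivity)
        _ = Real.log X ^ A / (A.factorial : ℝ) := by ring
        _ ≤ X + 1 := by linarith
    · obtain ⟨_, ψ, b1, b2, b3, b4⟩ := fin8_prim χ e1 e2
      have hm0 : 0 < m := NeZero.pos m
      have hmr : (0 : ℝ) < m := by exact_mod_cast hm0
      have hφ : (0 : ℝ) < m.totient := by exact_mod_cast Nat.totient_pos.mpr hm0
      have hlm : Real.log X / 2 ≤ Real.log m := by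
        have h8 := Real.log_le_log (by positivity) h1
        rw [Real.log_rpow hXr] at h8
        have h9 : (1 / 2) * Real.log X ≤ (1 - k1) * Real.log X :=
          mul_le_mul_of_nonneg_right (by linarith) hL0.le
        linarith
      have hlm2 : 1 / 2 ≤ Real.log m := by linarith
      have hlm0 : 0 < Real.log m := by linarith
      have h3 := Ht m hm0
      have h4 : (m : ℝ) / m.totient ≤ Ct * lw m := by
        rw [div_le_iff₀ hφ]
        exact h3
      have h5 : ‖DirichletCharacter.LFunction ψ 1‖ ≤ C1 * (Ct * lw m) ^ 2 / Real.log m := by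
        have h6 : ‖DirichletCharacter.LFunction ψ 1‖ * ((m.totient : ℝ) / m)
            ≤ C1 * (m / m.totient) / Real.log m := b4.trans e3
        have h7 : ‖DirichletCharacter.LFunction ψ 1‖ ≤ C1 * (m / m.totient) ^ 2 / Real.log m := by
          have h8 : ‖DirichletCharacter.LFunction ψ 1‖
              = ‖DirichletCharacter.LFunction ψ 1‖ * ((m.totient : ℝ) / m) * (m / m.totient) := by
            field_simp
          rw [h8]
          calc _ ≤ C1 * (m / m.totient) / Real.log m * (m / m.totient) :=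
                mul_le_mul_of_nonneg_right h6 (by positivity)
            _ = _ := by ring
        refine h7.trans (div_le_div_of_nonneg_right ?_ hlm0.le)
        exact mul_le_mul_of_nonneg_left (pow_le_pow_left₀ (by positivity) h4 2) hC1.le
      have h6 := fin8_lw hm0.ne' hlm2
      have h7 : C1 * (Ct * lw m) ^ 2 / Real.log m
          ≤ C1 * Ct ^ 2 * 384 * Real.log m ^ (-(3 / 4) : ℝ) := by
        have h8 : Real.log m ^ (-(3 / 4) : ℝ) = Real.log m ^ (1 / 4 : ℝ) / Real.log m := by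
          rw [← Real.rpow_sub_one hlm0.ne']
          norm_num
        rw [h8, mul_pow]
        calc C1 * (Ct ^ 2 * lw m ^ 2) / Real.log m
            ≤ C1 * (Ct ^ 2 * (384 * Real.log m ^ (1 / 4 : ℝ))) / Real.log m := by
              refine div_le_div_of_nonneg_right ?_ hlm0.le
              refine mul_le_mul_of_nonneg_left ?_ hC1.le
              exact mul_le_mul_of_nonneg_left h6 (by positivity)
          _ = _ := by ring
      have h8 : Real.log m ^ (-(3 / 4) : ℝ) ≤ 2 * Real.log X ^ (-(1 / 2) : ℝ) := by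
        calc Real.log m ^ (-(3 / 4) : ℝ) ≤ (Real.log X / 2) ^ (-(3 / 4) : ℝ) :=
              Real.rpow_le_rpow_of_nonpos (by positivity) hlm (by norm_num)
          _ = 2 ^ (3 / 4 : ℝ) * Real.log X ^ (-(3 / 4) : ℝ) := by
              rw [Real.div_rpow hL0.le (by norm_num), Real.rpow_neg (by norm_num : (0 : ℝ) ≤ 2),
                div_inv_eq_mul, mul_comm]
          _ ≤ 2 * Real.log X ^ (-(1 / 2) : ℝ) := by
              refine mul_le_mul ?_ ?_ (by positivity) (by norm_num)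
              · calc (2 : ℝ) ^ (3 / 4 : ℝ) ≤ 2 ^ (1 : ℝ) :=
                      Real.rpow_le_rpow_of_exponent_le (by norm_num) (by norm_num)
                  _ = 2 := Real.rpow_one _
              · exact Real.rpow_le_rpow_of_exponent_le hL1 (by norm_num)
      have h9 : ‖DirichletCharacter.LFunction ψ 1‖
          ≤ C1 * Ct ^ 2 * 384 * 2 * Real.log X ^ (-(1 / 2) : ℝ) := by
        refine (h5.trans h7).trans ?_
        calc C1 * Ct ^ 2 * 384 * Real.log m ^ (-(3 / 4) : ℝ)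
            ≤ C1 * Ct ^ 2 * 384 * (2 * Real.log X ^ (-(1 / 2) : ℝ)) :=
              mul_le_mul_of_nonneg_left h8 (by positivity)
          _ = _ := by ring
      have h10 := hg X χ.conductor ψ hL1 b1 b2 b3 h9
      rw [← e4]
      exact (mul_le_mul_of_nonneg_right (min_le_left _ _) (by positivity)).trans h10
  · -- the main part
    obtain ⟨hMN, hNM, hη⟩ := fin8_mod hs ht hs1 hs2
    rcases H2 N (by omega) M hMN hNM (-(s * t)) hη (pat N s t).card (ex_pat hs ht hs1 hs2) with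
      h | ⟨m, _, Q, h1, h2, h3, h4, h5, h6⟩
    · exact h
    · exfalso
      have hN0 : (0 : ℝ) < N := by exact_mod_cast (by omega : 0 < N)
      have hN1 : (1 : ℝ) ≤ N := by exact_mod_cast (by omega : 1 ≤ N)
      have hX1 : (1 : ℝ) ≤ X := by exact_mod_cast (by omega : 1 ≤ X)
      have hmM : m ≤ M := Nat.le_of_dvd (by omega) h1
      have hMle : M ≤ N := Nat.le_of_dvd (by omega) hMN
      have g1 : C2 * rt N ^ k2 ≤ (N : ℝ) ^ κ := by
        refine le_trans ?_ (H3 N (by omega))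
        have g2 := rt_le (N := N) (by omega)
        have g3 := rt_ge (N := N) (by omega)
        calc C2 * rt N ^ k2 ≤ C2 * (2 * (1 + Real.log N)) ^ k2 := by
              refine mul_le_mul_of_nonneg_left (pow_le_pow_left₀ (by linarith) ?_ _) (by linarith)
              linarith
          _ = _ := by rw [mul_pow]; ring
      have g2 : (N : ℝ) ^ (1 - κ) ≤ m := by
        have g3 : (N : ℝ) ≤ (N : ℝ) ^ κ * m :=
          h4.trans (mul_le_mul_of_nonneg_right g1 (Nat.cast_nonneg _))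
        rw [Real.rpow_sub hN0, Real.rpow_one, div_le_iff₀ (by positivity)]
        linarith
      have g3 : (X : ℝ) ^ (1 - k1) ≤ m := by
        refine le_trans ?_ g2
        calc (X : ℝ) ^ (1 - k1) ≤ ((N : ℝ) ^ (1 + κ)) ^ (1 - k1) :=
              Real.rpow_le_rpow (by linarith) hXN (by linarith)
          _ = (N : ℝ) ^ ((1 + κ) * (1 - k1)) := by rw [← Real.rpow_mul hN0.le]
          _ ≤ (N : ℝ) ^ (1 - κ) := by
              refine Real.rpow_le_rpow_of_exponent_le hN1 ?_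
              have : k1 = 2 * κ := by rw [hκ]; ring
              rw [this]
              nlinarith
      obtain ⟨f1, f2⟩ := hq2 X (by omega) m h2 g3 (by omega) Q h5 _ h6
      exact hqM (f2.trans h1) f1

end Pool.Agent.H11.LQ
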