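import Pool.Agent.H11.LQ.Fin8
import Pool.Agent.H11.LQ.Fin4

/-!
# LQ stage 3, module Fin9: large `N`, fine summands

`stage3a`, `stage3b` of Fin8 with the restriction to the `a` which are fine.
-/

set_option autoImplicit false

namespace Pool.Agent.H11.LQ

open Finset ArithmeticFunction
open Pool.Agent.H34PG (lam lam_val lam_mul lam_prime)

/-- removing the `a` for which `a` or `N - a` has a large square factor -/
theorem sift_sq2 (N : ℕ) (V : ℝ) (hV : 1 ≤ V) (T : Finset ℕ) (hT : ∀ a ∈ T, 0 < a ∧ a < N) :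
    ∃ T' ⊆ T, (T.card : ℝ) ≤ T'.card + 4 * (N / V) ∧
      ∀ a ∈ T', ∀ v : ℕ, (v ^ 2 ∣ a ∨ v ^ 2 ∣ N - a) → (v : ℝ) ≤ V := by
  classical
  set B2 := T.filter (fun a => ∃ v : ℕ, V < (v : ℝ) ∧ v ^ 2 ∣ a) with hB2
  set B3 := T.filter (fun a => ∃ v : ℕ, V < (v : ℝ) ∧ v ^ 2 ∣ N - a) with hB3
  have c2 : (B2.card : ℝ) ≤ 2 * (N / V) := by
    refine sift_sq N V hV B2 fun a ha => ?_
    rw [hB2, Finset.mem_filter] at ha
    exact ⟨hT a ha.1, ha.2⟩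
  have hinj : Set.InjOn (fun a => N - a) (T : Set ℕ) := by
    intro a ha b hb hab
    have h1 := hT a ha
    have h2 := hT b hb
    simp only at hab
    omega
  have c3 : (B3.card : ℝ) ≤ 2 * (N / V) := by
    rw [← Finset.card_image_of_injOn (hinj.mono (Finset.coe_subset.mpr (Finset.filter_subset _ _)))]
    refine sift_sq N V hV _ fun x hx => ?_
    rw [Finset.mem_image] at hx
    obtain ⟨a, ha, rfl⟩ := hx
    rw [Finset.mem_filter] at ha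
    have h1 := hT a ha.1
    exact ⟨⟨by omega, by omega⟩, ha.2⟩
  refine ⟨T \ (B2 ∪ B3), Finset.sdiff_subset, ?_, ?_⟩
  · have e1 := Finset.le_card_sdiff (B2 ∪ B3) T
    have e2 := Finset.card_union_le B2 B3
    have e3 : T.card ≤ (T \ (B2 ∪ B3)).card + (B2.card + B3.card) := by omega
    have e4 : (T.card : ℝ) ≤ ((T \ (B2 ∪ B3)).card : ℝ) + (B2.card + B3.card) := by exact_mod_cast e3
    linarith
  · intro a ha v hv
    rw [Finset.mem_sdiff, Finset.mem_union, not_or] at ha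
    obtain ⟨haT, n2, n3⟩ := ha
    by_contra h
    rcases hv with hv | hv
    · exact n2 (Finset.mem_filter.2 ⟨haT, v, not_le.mp h, hv⟩)
    · exact n3 (Finset.mem_filter.2 ⟨haT, v, not_le.mp h, hv⟩)

/-- from many `a` to many fine `a` -/
theorem fine_of_pat0 (hO : OmB) (k0 : ℕ) : ∃ k : ℕ, k0 ≤ k ∧ ∀ C0 : ℝ, 1 ≤ C0 →
    ∃ C : ℝ, C0 ≤ C ∧
    ∀ N : ℕ, 4 ≤ N → ∀ s t : ℤ, (N : ℝ) ≤ C0 * rt N ^ k0 * ((pat N s t).card : ℝ) →
      ∀ J K : ℝ, C * rt N ^ k ≤ J → C * Real.log N ^ k ≤ K →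
        ∃ T ⊆ pat N s t, (N : ℝ) ≤ J * (T.card : ℝ) ∧
          ∀ a ∈ T, Fine N K a ∧ ∀ v : ℕ, (v ^ 2 ∣ a ∨ v ^ 2 ∣ N - a) → (v : ℝ) ≤ J := by
  obtain ⟨A, hA1, h2⟩ := sift3 hO
  refine ⟨2 * k0 + 4, by omega, fun C0 hC0 => ?_⟩
  obtain ⟨C1, hC1⟩ : ∃ C1 : ℝ, C1 = (2 * A * (C0 * 4 ^ k0)) ^ 2 := ⟨_, rfl⟩
  have hC10 : 0 ≤ C1 := by rw [hC1]; positivity
  obtain ⟨C, hC⟩ : ∃ C : ℝ, C = C1 + 16 * C0 := ⟨_, rfl⟩
  refine ⟨C, by linarith, fun N hN s t hp J K hJ hK => ?_⟩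
  have hN1 : (1 : ℝ) ≤ N := by exact_mod_cast (by omega : 1 ≤ N)
  have hN0 : (0 : ℝ) < N := by linarith
  have hlog : 1 ≤ Real.log N := by
    rw [Real.le_log_iff_exp_le hN0]
    have h3 : (3 : ℝ) ≤ N := by exact_mod_cast (by omega : 3 ≤ N)
    have := Real.exp_one_lt_d9
    linarith
  have hlw := rt_ge (N := N) (by omega)
  obtain ⟨Y, hY⟩ : ∃ Y : ℝ, Y = C0 * rt N ^ k0 := ⟨_, rfl⟩
  rw [← hY] at hp
  have hY1 : 1 ≤ Y := by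
    rw [hY]
    have h3 : 1 ≤ rt N ^ k0 := one_le_pow₀ hlw
    nlinarith
  -- the bound for `J`
  have hYJ : 16 * Y ≤ J := by
    refine le_trans ?_ hJ
    calc 16 * Y = 16 * C0 * rt N ^ k0 := by rw [hY]; ring
      _ ≤ C * rt N ^ (2 * k0 + 4) := by
          refine mul_le_mul (by linarith) (pow_le_pow_right₀ hlw (by omega)) (by positivity)
            (by linarith)
  -- the bound for `K`
  have hYN : Y ≤ C0 * 4 ^ k0 * Real.log N ^ k0 := by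
    rw [hY, mul_assoc, ← mul_pow]
    refine mul_le_mul_of_nonneg_left (pow_le_pow_left₀ (by linarith) ?_ _) (by linarith)
    have := rt_le (N := N) (by omega)
    linarith
  have hK2 : (2 * A * Y * Real.log N ^ 2) ^ 2 ≤ K := by
    refine le_trans ?_ hK
    calc (2 * A * Y * Real.log N ^ 2) ^ 2
        ≤ (2 * A * (C0 * 4 ^ k0 * Real.log N ^ k0) * Real.log N ^ 2) ^ 2 := by
          refine pow_le_pow_left₀ (by positivity) ?_ 2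
          refine mul_le_mul_of_nonneg_right ?_ (by positivity)
          exact mul_le_mul_of_nonneg_left hYN (by linarith)
      _ = C1 * Real.log N ^ (2 * k0 + 4) := by
          rw [hC1]
          ring
      _ ≤ C * Real.log N ^ (2 * k0 + 4) := mul_le_mul_of_nonneg_right (by linarith) (by positivity)
  have hS : 2 * A * Y * Real.log N ^ 2 ≤ Real.sqrt K := Real.le_sqrt_of_sq_le hK2
  have hS0 : 1 ≤ 2 * A * Y * Real.log N ^ 2 := by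
    have h3 : 1 ≤ Real.log N ^ 2 := one_le_pow₀ hlog
    have h4 : 1 ≤ A * Y := by nlinarith
    nlinarith
  have hK1 : 1 ≤ K := by nlinarith
  obtain ⟨T, hT, e3, e4⟩ := h2 N (by omega) (pat N s t) pat_bd K hK1
  have e5 : A * (N * Real.log N ^ 2 / Real.sqrt K) ≤ N / (2 * Y) := by
    have h3 : 0 < Real.sqrt K := by positivity
    rw [← mul_div_assoc, div_le_div_iff₀ h3 (by positivity)]
    calc A * (N * Real.log N ^ 2) * (2 * Y) = N * (2 * A * Y * Real.log N ^ 2) := by ring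
      _ ≤ N * Real.sqrt K := mul_le_mul_of_nonneg_left hS hN0.le
  have e6 : (N : ℝ) / (2 * Y) ≤ ((pat N s t).card : ℝ) / 2 := by
    rw [div_le_iff₀ (by positivity)]
    linarith
  have e7 : (N : ℝ) ≤ 2 * Y * (T.card : ℝ) := by
    have h3 : ((pat N s t).card : ℝ) ≤ 2 * (T.card : ℝ) := by linarith
    calc (N : ℝ) ≤ Y * ((pat N s t).card : ℝ) := hp
      _ ≤ Y * (2 * (T.card : ℝ)) := mul_le_mul_of_nonneg_left h3 (by positivity)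
      _ = _ := by ring
  obtain ⟨T', hT', e8, e9⟩ := sift_sq2 N J (by linarith) T fun a ha => pat_bd a (hT ha)
  refine ⟨T', hT'.trans hT, ?_, fun a ha => ⟨e4 a (hT' ha), e9 a ha⟩⟩
  have e10 : 4 * (N / J) ≤ (T.card : ℝ) / 2 := by
    rw [← mul_div_assoc, div_le_iff₀ (by linarith)]
    have h3 : (0 : ℝ) ≤ T.card := Nat.cast_nonneg _
    nlinarith
  have e11 : (T.card : ℝ) ≤ 2 * T'.card := by linarith
  calc (N : ℝ) ≤ 2 * Y * (T.card : ℝ) := e7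
    _ ≤ 2 * Y * (2 * T'.card) := mul_le_mul_of_nonneg_left e11 (by linarith)
    _ = 4 * Y * T'.card := by ring
    _ ≤ J * T'.card := mul_le_mul_of_nonneg_right (by linarith) (Nat.cast_nonneg _)

theorem fine_of_pat (hO : OmB) (C0 : ℝ) (hC0 : 1 ≤ C0) (k0 : ℕ) : ∃ C : ℝ, C0 ≤ C ∧ ∃ k : ℕ, k0 ≤ k ∧
    ∀ N : ℕ, 4 ≤ N → ∀ s t : ℤ, (N : ℝ) ≤ C0 * rt N ^ k0 * ((pat N s t).card : ℝ) →
      ∀ J K : ℝ, C * rt N ^ k ≤ J → C * Real.log N ^ k ≤ K →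
        ∃ T ⊆ pat N s t, (N : ℝ) ≤ J * (T.card : ℝ) ∧
          ∀ a ∈ T, Fine N K a ∧ ∀ v : ℕ, (v ^ 2 ∣ a ∨ v ^ 2 ∣ N - a) → (v : ℝ) ≤ J := by
  obtain ⟨k, hk, H⟩ := fine_of_pat0 hO k0
  obtain ⟨C, hC, H1⟩ := H C0 hC0
  exact ⟨C, hC, k, hk, H1⟩

theorem stage4a (hO : OmB) : ∃ C : ℝ, 1 ≤ C ∧ ∃ k N0 : ℕ, ∀ (N M : ℕ) [NeZero M], N0 ≤ N →
    ∀ s t : ℤ, (s = 1 ∨ s = -1) → (t = 1 ∨ t = -1) → (s = t → N = 2 * M) → (s ≠ t → N = M) →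
      (∀ χ : DirichletCharacter ℂ M, χ ^ 2 = 1 → χ ≠ 1 → χ (-1) = ((-(s * t) : ℤ) : ℂ) →
        C * (M / M.totient) / Real.log M ≤ ‖DirichletCharacter.LFunction χ 1‖) →
      ∀ J K : ℝ, C * rt N ^ k ≤ J → C * Real.log N ^ k ≤ K →
        ∃ T ⊆ pat N s t, (N : ℝ) ≤ J * (T.card : ℝ) ∧
          ∀ a ∈ T, Fine N K a ∧ ∀ v : ℕ, (v ^ 2 ∣ a ∨ v ^ 2 ∣ N - a) → (v : ℝ) ≤ J := by
  obtain ⟨C0, hC0, k0, N0, h0⟩ := stage3a
  obtain ⟨C, hC, k, hk, h1⟩ := fine_of_pat hO C0 hC0 k0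
  refine ⟨C, by linarith, k, N0 + 4, fun N M _ hN s t hs ht hs1 hs2 hr J K hJ hK => ?_⟩
  refine h1 N (by omega) s t (h0 N M (by omega) s t hs ht hs1 hs2 fun χ e1 e2 e3 => ?_) J K hJ hK
  refine le_trans ?_ (hr χ e1 e2 e3)
  have hl : 0 ≤ Real.log M := Real.log_natCast_nonneg M
  refine div_le_div_of_nonneg_right ?_ hl
  exact mul_le_mul_of_nonneg_right hC (by positivity)

theorem stage4b (hO : OmB) : ∃ C : ℝ, 1 ≤ C ∧ ∃ k N0 : ℕ, ∃ κ : ℝ, 0 < κ ∧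
    ∃ (q : ℕ → ℕ) (σ : ℕ → ℤ), (∀ X, σ X = 1 ∨ σ X = -1) ∧
    (∀ A : ℕ, ∃ c : ℝ, 0 < c ∧ ∀ X : ℕ, 3 ≤ X → c * Real.log X ^ A ≤ q X) ∧
    ∀ X N M : ℕ, N0 ≤ N → N ≤ X → (X : ℝ) ≤ (N : ℝ) ^ (1 + κ) →
    ∀ s t : ℤ, (s = 1 ∨ s = -1) → (t = 1 ∨ t = -1) → (s = t → N = 2 * M) → (s ≠ t → N = M) →
      (q X ∣ M → -(s * t) ≠ σ X) →
      ∀ J K : ℝ, C * rt N ^ k ≤ J → C * Real.log N ^ k ≤ K →
        ∃ T ⊆ pat N s t, (N : ℝ) ≤ J * (T.card : ℝ) ∧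
          ∀ a ∈ T, Fine N K a ∧ ∀ v : ℕ, (v ^ 2 ∣ a ∨ v ^ 2 ∣ N - a) → (v : ℝ) ≤ J := by
  obtain ⟨C0, hC0, k0, N0, κ, hκ, q, σ, hσ, hq, h0⟩ := stage3b
  obtain ⟨C, hC, k, hk, h1⟩ := fine_of_pat hO C0 hC0 k0
  refine ⟨C, by linarith, k, N0 + 4, κ, hκ, q, σ, hσ, hq,
    fun X N M hN hNX hXN s t hs ht hs1 hs2 hqM J K hJ hK => ?_⟩
  exact h1 N (by omega) s t (h0 X N M (by omega) hNX hXN s t hs ht hs1 hs2 hqM) J K hJ hK

end Pool.Agent.H11.LQ
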