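import Mathlib

/-!
# LQ module Hit: residues whose base `T` digits are all in a given set

`hit`: the digits of `a / m`: `d_j = (T * ((T ^ j * a) % m)) / m < T`.  By
`(T ^ (j + 1) * a) / m = T * ((T ^ j * a) / m) + d_j` the digits `d_0, …, d_(b-1)` determine
`(T ^ b * a) / m`, and at most `m / T ^ b + 1 ≤ 2 m / T ^ b` residues `a < m` have a given value of
`(T ^ b * a) / m`.  There are at most `G.card ^ b` strings of digits.

`digit`: put `e = T s - m d`, `0 ≤ e < m`, and `l s = q m + t`, `t = (l s) % m`.  Then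
`m (l d) = T q m + (T t - l e)`, and `T / 4k ≤ (T t - l e) / m ≤ T - T / 2k` because
`T t / m ≥ T / 2k`, `T t / m ≤ T - T / 2k`, `0 ≤ l e / m < l ≤ T / 4k`.  So `(l d) % T = l d - T q`.
-/

set_option autoImplicit false

namespace Pool.Agent.H11.LQ

open Finset

private theorem hit_fib {m t v : ℕ} (ht : t ≤ m) (A : Finset ℕ)
    (hA : ∀ a ∈ A, (t * a) / m = v) (hm : 0 < m) : A.card * t ≤ 2 * m := by
  rcases A.eq_empty_or_nonempty with rfl | hne
  · simp
  have h1 : A ⊆ Icc (A.min' hne) (A.max' hne) := fun a ha =>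
    mem_Icc.2 ⟨A.min'_le a ha, A.le_max' a ha⟩
  have h2 : A.card ≤ A.max' hne + 1 - A.min' hne := by
    simpa using card_le_card h1
  have h3 := hA _ (A.min'_mem hne)
  have h4 := hA _ (A.max'_mem hne)
  have h5 : A.min' hne ≤ A.max' hne := A.min'_le_max' hne
  generalize A.min' hne = x at *
  generalize A.max' hne = y at *
  have h6 : m * v ≤ t * x := by rw [← h3]; exact Nat.mul_div_le _ _
  have h7 : t * y < m * v + m := by
    rw [← h4]
    have := Nat.lt_mul_div_succ (t * y) hm
    rwa [Nat.mul_succ] at this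
  obtain ⟨d, rfl⟩ := Nat.exists_eq_add_of_le h5
  have h8 : A.card ≤ d + 1 := by omega
  have h9 : t * (x + d) = t * x + t * d := by ring
  calc A.card * t ≤ (d + 1) * t := Nat.mul_le_mul_right _ h8
    _ = t * d + t := by ring
    _ ≤ 2 * m := by omega

private theorem hit_img {m T : ℕ} (hm : 0 < m) (G S : Finset ℕ) (hS : S ⊆ range m) (b : ℕ)
    (h : ∀ a ∈ S, ∀ j < b, (T * ((T ^ j * a) % m)) / m ∈ G) :
    (S.image (fun a => (T ^ b * a) / m)).card ≤ G.card ^ b := by
  induction b with
  | zero =>
    have : S.image (fun a => (T ^ 0 * a) / m) ⊆ {0} := by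
      intro v hv
      rw [mem_image] at hv
      obtain ⟨a, ha, rfl⟩ := hv
      rw [mem_singleton, pow_zero, one_mul]
      exact Nat.div_eq_of_lt (mem_range.1 (hS ha))
    simpa using card_le_card this
  | succ b ih =>
    have ih' := ih fun a ha j hj => h a ha j (by omega)
    have hsub : S.image (fun a => (T ^ (b + 1) * a) / m) ⊆
        ((S.image (fun a => (T ^ b * a) / m)) ×ˢ G).image (fun x => T * x.1 + x.2) := by
      intro v hv
      rw [mem_image] at hv
      obtain ⟨a, ha, rfl⟩ := hv
      rw [mem_image]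
      refine ⟨((T ^ b * a) / m, (T * ((T ^ b * a) % m)) / m), ?_, ?_⟩
      · rw [mem_product]
        exact ⟨mem_image.2 ⟨a, ha, rfl⟩, h a ha b (by omega)⟩
      · have e1 : T ^ (b + 1) * a = T * ((T ^ b * a) % m) + m * (T * ((T ^ b * a) / m)) := by
          calc T ^ (b + 1) * a = T * (T ^ b * a) := by ring
            _ = T * ((T ^ b * a) % m + m * ((T ^ b * a) / m)) := by rw [Nat.mod_add_div]
            _ = _ := by ring
        simp only
        rw [e1, Nat.add_mul_div_left _ _ hm, add_comm]
    calc (S.image (fun a => (T ^ (b + 1) * a) / m)).card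
        ≤ (((S.image (fun a => (T ^ b * a) / m)) ×ˢ G).image (fun x => T * x.1 + x.2)).card :=
          card_le_card hsub
      _ ≤ ((S.image (fun a => (T ^ b * a) / m)) ×ˢ G).card := card_image_le
      _ = (S.image (fun a => (T ^ b * a) / m)).card * G.card := card_product _ _
      _ ≤ G.card ^ b * G.card := Nat.mul_le_mul_right _ ih'
      _ = G.card ^ (b + 1) := (pow_succ _ _).symm

theorem hit {m T b : ℕ} (hT : 2 ≤ T) (hm : T ^ b ≤ m) (G S : Finset ℕ) (hS : S ⊆ range m)
    (h : ∀ a ∈ S, ∀ j < b, (T * ((T ^ j * a) % m)) / m ∈ G) :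
    S.card * T ^ b ≤ 2 * m * G.card ^ b := by
  have hT0 : 0 < T := by omega
  have hm0 : 0 < m := lt_of_lt_of_le (pow_pos hT0 b) hm
  have h1 := card_eq_sum_card_image (fun a => (T ^ b * a) / m) S
  calc S.card * T ^ b
      = ∑ v ∈ S.image (fun a => (T ^ b * a) / m),
          (S.filter (fun a => (T ^ b * a) / m = v)).card * T ^ b := by
        rw [← sum_mul, ← h1]
    _ ≤ ∑ _v ∈ S.image (fun a => (T ^ b * a) / m), 2 * m := by
        apply sum_le_sum
        intro v _
        exact hit_fib hm _ (fun a ha => (mem_filter.1 ha).2) hm0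
    _ = (S.image (fun a => (T ^ b * a) / m)).card * (2 * m) := by
        rw [sum_const, smul_eq_mul]
    _ ≤ G.card ^ b * (2 * m) := Nat.mul_le_mul_right _ (hit_img hm0 G S hS b h)
    _ = 2 * m * G.card ^ b := mul_comm _ _

theorem digit {m T k l s : ℕ} (hm : 0 < m) (hk : 0 < k) (hl : 0 < l) (hT : 4 * k * l ≤ T)
    (hs : s < m) (h1 : m ≤ 2 * k * ((l * s) % m)) (h2 : m ≤ 2 * k * (m - (l * s) % m)) :
    T * s / m < T ∧ T ≤ 4 * k * ((l * (T * s / m)) % T) ∧
      T ≤ 4 * k * (T - (l * (T * s / m)) % T) := by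
  have hkl : 0 < k * l := Nat.mul_pos hk hl
  have hT0 : 0 < T := by
    have : 4 * k * l = 4 * (k * l) := by ring
    omega
  have hD : T * s / m < T := by
    rw [Nat.div_lt_iff_lt_mul hm]
    exact Nat.mul_lt_mul_of_pos_left hs hT0
  refine ⟨hD, ?_⟩
  have hr : (l * s) % m < m := Nat.mod_lt _ hm
  have he : (T * s) % m < m := Nat.mod_lt _ hm
  have e1 := Nat.mod_add_div (l * s) m
  have e2 := Nat.mod_add_div (T * s) m
  generalize (l * s) % m = r at *
  generalize (l * s) / m = q at *
  generalize (T * s) % m = e at *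
  generalize (T * s) / m = D at *
  -- the identity
  have E : m * (l * D) + l * e = m * (T * q) + T * r := by
    calc m * (l * D) + l * e = l * (e + m * D) := by ring
      _ = T * (l * s) := by rw [e2]; ring
      _ = T * (r + m * q) := by rw [e1]
      _ = _ := by ring
  have hle : 4 * k * (l * e) ≤ T * m := by
    calc 4 * k * (l * e) = (4 * k * l) * e := by ring
      _ ≤ T * m := Nat.mul_le_mul hT he.le
  have hTr : 2 * (T * m) ≤ 4 * k * (T * r) := by
    calc 2 * (T * m) = 2 * T * m := by ring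
      _ ≤ 2 * T * (2 * k * r) := Nat.mul_le_mul_left _ h1
      _ = _ := by ring
  have hle2 : l * e ≤ T * r := by
    have : 4 * k * (l * e) ≤ 4 * k * (T * r) := by omega
    exact Nat.le_of_mul_le_mul_left this (by omega)
  have hq : T * q ≤ l * D := by
    have : m * (T * q) ≤ m * (l * D) := by omega
    exact Nat.le_of_mul_le_mul_left this hm
  obtain ⟨w, hw⟩ := Nat.exists_eq_add_of_le hq
  have Ew : m * w + l * e = T * r := by
    rw [hw, Nat.mul_add] at E
    omega
  have hw1 : T ≤ 4 * k * w := by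
    have h3 : m * T ≤ m * (4 * k * w) := by
      have h4 : 4 * k * (m * w) + 4 * k * (l * e) = 4 * k * (T * r) := by
        rw [← Ew]; ring
      have h5 : m * (4 * k * w) = 4 * k * (m * w) := by ring
      have h6 : m * T = T * m := mul_comm _ _
      omega
    exact Nat.le_of_mul_le_mul_left h3 hm
  have hrm : T * r ≤ T * m := Nat.mul_le_mul_left _ hr.le
  have hwT : w ≤ T := by
    have h3 : m * w ≤ m * T := by
      rw [mul_comm m T]; omega
    exact Nat.le_of_mul_le_mul_left h3 hm
  obtain ⟨u, hu⟩ := Nat.exists_eq_add_of_le hwT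
  obtain ⟨z, hz⟩ := Nat.exists_eq_add_of_le hr.le
  have hz' : m - r = z := by omega
  rw [hz'] at h2
  have hw2 : T ≤ 2 * k * u := by
    have h3 : m * T ≤ m * (2 * k * u) := by
      have h4 : m * u = T * z + l * e := by
        have h5 : m * T = m * w + m * u := by rw [← Nat.mul_add, ← hu]
        have h6 : T * m = T * r + T * z := by rw [← Nat.mul_add, ← hz]
        rw [mul_comm T m] at h6
        omega
      calc m * T = T * m := mul_comm _ _
        _ ≤ T * (2 * k * z) := Nat.mul_le_mul_left _ h2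
        _ = 2 * k * (T * z) := by ring
        _ ≤ 2 * k * (m * u) := Nat.mul_le_mul_left _ (by omega)
        _ = m * (2 * k * u) := by ring
    exact Nat.le_of_mul_le_mul_left h3 hm
  have hu0 : 0 < u := by
    rcases Nat.eq_zero_or_pos u with h0 | h0
    · rw [h0, mul_zero] at hw2; omega
    · exact h0
  have hmod : (l * D) % T = w := by
    rw [hw, Nat.mul_add_mod]
    exact Nat.mod_eq_of_lt (by omega)
  rw [hmod]
  refine ⟨hw1, ?_⟩
  have hTw : T - w = u := by omega
  rw [hTw]
  calc T ≤ 2 * k * u := hw2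
    _ ≤ 4 * k * u := Nat.mul_le_mul_right _ (by omega)

end Pool.Agent.H11.LQ
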