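import Pool.Agent.H11.LQ.Round

/-!
# LQ module Induct: the recursion

Let `K0` be the constant of `round_step` (enlarged so that `K0 ^ (1/8) ≥ 2`, say `K0 ≥ 2 ^ 8`),
`v = ⌊m ^ (ε/2)⌋`, so `v e_2 ≤ m ^ (1 - ε/2)`.

Base: `2 ^ ρ0 ≥ 2 K0` fixed, `b = ⌊log m / (ρ0 log 2)⌋`: `(1 - 1/2^ρ0) ^ b ≤ exp (-b / 2^ρ0)`, so
for all primes `k ≤ K0`: `e_k ≤ m ^ (1 - c0)` with a constant `c0 ≤ 1/100` (`m ≥ m0`).

Rounds: `K_0 = K0`, `K_(i+1)` = the largest natural number with `K_(i+1) ^ 4 ≤ K_i ^ 5`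
(for instance `Nat.findGreatest`, or `⌊K_i ^ (5/4)⌋₊`), so `K_(i+1) ≥ K_i ^ (9/8)`, `K_i ≥ K0 ^ ((9/8)^i)`.
CLAIM: as long as `K_i ≤ m ^ (1/100)`, for all primes `q ≤ K_i`:
`e_q ≤ m ^ (1 - c0) * (log m) ^ (4 i) * K_i ^ 64`.  Step: `K = K_i`, `K ^ 6 ≤ 2 ^ ρ < 2 K ^ 6`,
`b = ` largest with `(2 ^ ρ) ^ b ≤ m` (so `K ^ (7 (b + 1)) ≥ (2 ^ ρ) ^ (b + 1) > m`, hence
`(K ^ (-1/4)) ^ b ≤ m ^ (-1/28) K ^ (1/4)`); `round_step` gives
`e_k ≤ 2 m ^ (1 - 1/28) K + 8 ρ b² K ^ 8 m ^ (1 - c0) (log m) ^ (4 i) K ^ 64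
≤ m ^ (1 - c0) (log m) ^ (4 i + 4) K_(i+1) ^ 64`, as `K ^ 72 ≤ K_(i+1) ^ 64` and
`10 ρ b² ≤ (log m) ^ 4`.
End: with `c' = c0 / 1000` take the last `i` with `K_i ≤ m ^ c'`; then `K_i ≥ m ^ (4 c' / 5)`,
`i ≤ C log log m` and `(log m) ^ (4 i) = exp (4 i log log m) ≤ m ^ (c0 / 4)` for `m ≥ m0`, so
`e_q ≤ m ^ (1 - c0 / 2)` for all primes `q ≤ m ^ (4 c' / 5)`.
-/

set_option autoImplicit false

namespace Pool.Agent.H11.LQ

open Finset
open Pool.Agent.H34PG (lam lam_val lam_mul lam_prime)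


/-! ### The sequence -/

/-- `K_0 = K0`, `K_(n+1) = ⌊K_n ^ (5/4)⌋`. -/
private noncomputable def indU (K0 : ℕ) : ℕ → ℕ
  | 0 => K0
  | n + 1 => ⌊((indU K0 n : ℕ) : ℝ) ^ (5 / 4 : ℝ)⌋₊

private theorem induct_pow4 (K : ℕ) : ⌊(K : ℝ) ^ (5 / 4 : ℝ)⌋₊ ^ 4 ≤ K ^ 5 := by
  have h0 : (0 : ℝ) ≤ (K : ℝ) := Nat.cast_nonneg K
  have h1 : (0 : ℝ) ≤ (K : ℝ) ^ (5 / 4 : ℝ) := Real.rpow_nonneg h0 _
  have h2 : ((⌊(K : ℝ) ^ (5 / 4 : ℝ)⌋₊ : ℕ) : ℝ) ≤ (K : ℝ) ^ (5 / 4 : ℝ) := Nat.floor_le h1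
  have h3 : ((K : ℝ) ^ (5 / 4 : ℝ)) ^ 4 = (K : ℝ) ^ 5 := by
    rw [← Real.rpow_natCast ((K : ℝ) ^ (5 / 4 : ℝ)) 4, ← Real.rpow_mul h0,
      ← Real.rpow_natCast (K : ℝ) 5]
    norm_num
  have h4 : (((⌊(K : ℝ) ^ (5 / 4 : ℝ)⌋₊ : ℕ) : ℝ)) ^ 4 ≤ (K : ℝ) ^ 5 := by
    rw [← h3]
    exact pow_le_pow_left₀ (Nat.cast_nonneg _) h2 4
  exact_mod_cast h4

private theorem induct_grow {K : ℕ} (hK : 256 ≤ K) :
    (K : ℝ) ^ (9 / 8 : ℝ) ≤ ((⌊(K : ℝ) ^ (5 / 4 : ℝ)⌋₊ : ℕ) : ℝ) := by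
  have hK' : (256 : ℝ) ≤ (K : ℝ) := by exact_mod_cast hK
  have h0 : (0 : ℝ) < (K : ℝ) := by linarith
  have h1 : (2 : ℝ) ≤ (K : ℝ) ^ (1 / 8 : ℝ) := by
    have h2 : (256 : ℝ) ^ (1 / 8 : ℝ) ≤ (K : ℝ) ^ (1 / 8 : ℝ) :=
      Real.rpow_le_rpow (by norm_num) hK' (by norm_num)
    have h3 : (256 : ℝ) ^ (1 / 8 : ℝ) = 2 := by
      have h4 : (256 : ℝ) = (2 : ℝ) ^ (8 : ℝ) := by norm_num
      rw [h4, ← Real.rpow_mul (by norm_num)]
      norm_num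
    rwa [h3] at h2
  have h5 : (K : ℝ) ^ (5 / 4 : ℝ) = (K : ℝ) ^ (9 / 8 : ℝ) * (K : ℝ) ^ (1 / 8 : ℝ) := by
    rw [← Real.rpow_add h0]
    norm_num
  have h6 : (1 : ℝ) ≤ (K : ℝ) ^ (9 / 8 : ℝ) := Real.one_le_rpow (by linarith) (by norm_num)
  have h7 : (K : ℝ) ^ (5 / 4 : ℝ) < ((⌊(K : ℝ) ^ (5 / 4 : ℝ)⌋₊ : ℕ) : ℝ) + 1 :=
    Nat.lt_floor_add_one _
  have h8 : (K : ℝ) ^ (9 / 8 : ℝ) * 2 ≤ (K : ℝ) ^ (9 / 8 : ℝ) * (K : ℝ) ^ (1 / 8 : ℝ) :=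
    mul_le_mul_of_nonneg_left h1 (by linarith)
  rw [h5] at h7
  rw [h5]
  linarith

private theorem induct_ge {K0 : ℕ} (hK0 : 256 ≤ K0) (i : ℕ) : K0 ≤ indU K0 i := by
  induction i with
  | zero => exact le_rfl
  | succ i ih =>
    have h1 : 256 ≤ indU K0 i := hK0.trans ih
    have h2 := induct_grow h1
    have h3 : ((indU K0 i : ℕ) : ℝ) ≤ ((indU K0 i : ℕ) : ℝ) ^ (9 / 8 : ℝ) := by
      have h4 : (1 : ℝ) ≤ ((indU K0 i : ℕ) : ℝ) := by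
        have : (256 : ℝ) ≤ ((indU K0 i : ℕ) : ℝ) := by exact_mod_cast h1
        linarith
      calc ((indU K0 i : ℕ) : ℝ) = ((indU K0 i : ℕ) : ℝ) ^ (1 : ℝ) := (Real.rpow_one _).symm
        _ ≤ _ := Real.rpow_le_rpow_of_exponent_le h4 (by norm_num)
    have h5 : ((indU K0 i : ℕ) : ℝ) ≤ ((indU K0 (i + 1) : ℕ) : ℝ) := h3.trans h2
    exact ih.trans (by exact_mod_cast h5)

private theorem induct_log {K0 : ℕ} (hK0 : 256 ≤ K0) (i : ℕ) :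
    (9 / 8 : ℝ) ^ i ≤ Real.log (indU K0 i : ℕ) := by
  induction i with
  | zero =>
    have h1 : (256 : ℝ) ≤ (K0 : ℝ) := by exact_mod_cast hK0
    have h2 : Real.exp 1 ≤ (K0 : ℝ) := by
      have := Real.exp_one_lt_d9
      linarith
    have h3 : ((indU K0 0 : ℕ) : ℝ) = (K0 : ℝ) := rfl
    rw [pow_zero, h3]
    exact (Real.le_log_iff_exp_le (by linarith)).mpr h2
  | succ i ih =>
    have h1 : 256 ≤ indU K0 i := hK0.trans (induct_ge hK0 i)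
    have h2 := induct_grow h1
    have h0 : (0 : ℝ) < ((indU K0 i : ℕ) : ℝ) := by
      have : (256 : ℝ) ≤ ((indU K0 i : ℕ) : ℝ) := by exact_mod_cast h1
      linarith
    have h3 : Real.log (((indU K0 i : ℕ) : ℝ) ^ (9 / 8 : ℝ)) ≤
        Real.log ((indU K0 (i + 1) : ℕ) : ℝ) := Real.log_le_log (Real.rpow_pos_of_pos h0 _) h2
    rw [Real.log_rpow h0] at h3
    rw [pow_succ]
    linarith

/-! ### One round -/

private theorem induct_round {K m k v : ℕ} {η : ℤ} {B L : ℝ} (hK : 256 ≤ K)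
    (hround : ∀ (ρ b e : ℕ), K ^ 6 ≤ 2 ^ ρ → (2 ^ ρ) ^ b ≤ m → 1 ≤ b →
      v * (Ex m η 2).card ≤ e → (∀ q, q.Prime → q ≤ K → (Ex m η q).card ≤ e) →
      ((Ex m η k).card : ℝ) ≤
        2 * m * ((K : ℝ) ^ (-(1 / 4) : ℝ)) ^ b + 8 * ρ * b ^ 2 * K ^ 8 * e)
    (hL : L = Real.log m) (hL6 : 6 ≤ L) (hKm : (K : ℝ) ≤ (m : ℝ) ^ (1 / 100 : ℝ))
    (hB : 0 ≤ B) (hv : ((v * (Ex m η 2).card : ℕ) : ℝ) ≤ B)
    (hq : ∀ q : ℕ, q.Prime → q ≤ K → ((Ex m η q).card : ℝ) ≤ B) :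
    ((Ex m η k).card : ℝ) ≤
      2 * (m : ℝ) ^ (1 - 1 / 28 : ℝ) * K + 32 * L ^ 2 * (K : ℝ) ^ 8 * B := by
  have hm0 : 0 < m := by
    rcases Nat.eq_zero_or_pos m with h | h
    · rw [h, Nat.cast_zero, Real.log_zero] at hL
      linarith
    · exact h
  have hmR : (0 : ℝ) < m := by exact_mod_cast hm0
  have hKR : (256 : ℝ) ≤ (K : ℝ) := by exact_mod_cast hK
  have hexpL : Real.exp L = m := by rw [hL, Real.exp_log hmR]
  have hlog2 : (1 / 2 : ℝ) ≤ Real.log 2 := by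
    have := Real.log_two_gt_d9
    linarith
  have hlog2' : Real.log 2 ≤ 1 := by
    have := Real.log_two_lt_d9
    linarith
  have hK1 : 1 < K ^ 6 := Nat.one_lt_pow (by norm_num) (by omega)
  obtain ⟨ρ, hρ⟩ : ∃ ρ, ρ = Nat.clog 2 (K ^ 6) := ⟨_, rfl⟩
  have h1 : K ^ 6 ≤ 2 ^ ρ := by rw [hρ]; exact Nat.le_pow_clog (by norm_num) _
  have hρ1 : 1 ≤ ρ := by
    rcases Nat.eq_zero_or_pos ρ with h | h
    · rw [h, pow_zero] at h1
      omega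
    · exact h
  have h2 : 2 ^ ρ ≤ 2 * K ^ 6 := by
    have h3 := Nat.pow_pred_clog_lt_self (b := 2) (by norm_num) hK1
    rw [← hρ] at h3
    have h4 : 2 ^ ρ = 2 * 2 ^ ρ.pred := by
      rw [← pow_succ', Nat.pred_eq_sub_one, Nat.sub_add_cancel hρ1]
    rw [h4]
    exact Nat.mul_le_mul_left _ h3.le
  have h3 : 2 * K ^ 6 ≤ m := by
    have h4 : (2 : ℝ) * (K : ℝ) ^ 6 ≤ m := by
      have h5 : (K : ℝ) ^ 6 ≤ ((m : ℝ) ^ (1 / 100 : ℝ)) ^ 6 :=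
        pow_le_pow_left₀ (by linarith) hKm 6
      have h6 : ((m : ℝ) ^ (1 / 100 : ℝ)) ^ 6 = Real.exp (6 / 100 * L) := by
        rw [← Real.rpow_natCast ((m : ℝ) ^ (1 / 100 : ℝ)) 6, ← Real.rpow_mul hmR.le,
          Real.rpow_def_of_pos hmR, ← hL]
        congr 1
        push_cast
        ring
      have h7 : (2 : ℝ) ≤ Real.exp (94 / 100 * L) := by
        have := Real.add_one_le_exp (94 / 100 * L)
        linarith
      have h8 : (2 : ℝ) * Real.exp (6 / 100 * L) ≤ m := by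
        calc (2 : ℝ) * Real.exp (6 / 100 * L)
            ≤ Real.exp (94 / 100 * L) * Real.exp (6 / 100 * L) :=
              mul_le_mul_of_nonneg_right h7 (Real.exp_pos _).le
          _ = m := by
            rw [← Real.exp_add, ← hexpL]
            congr 1
            ring
      rw [h6] at h5
      linarith
    exact_mod_cast h4
  have hT1 : 1 < 2 ^ ρ := lt_of_lt_of_le hK1 h1
  obtain ⟨b, hb⟩ : ∃ b, b = Nat.log (2 ^ ρ) m := ⟨_, rfl⟩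
  have hb1 : 1 ≤ b := by
    rw [hb]
    exact Nat.log_pos hT1 (h2.trans h3)
  have hbm : (2 ^ ρ) ^ b ≤ m := by
    rw [hb]
    exact Nat.pow_log_le_self _ hm0.ne'
  have hbm' : m < (2 ^ ρ) ^ (b + 1) := by
    rw [hb]
    exact Nat.lt_pow_succ_log_self hT1 m
  have hmain := hround ρ b ⌊B⌋₊ h1 hbm hb1 (Nat.le_floor hv)
    (fun q hq1 hq2 => Nat.le_floor (hq q hq1 hq2))
  have hlogK : 0 ≤ Real.log K := Real.log_nonneg (by linarith)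
  -- first term
  have hf : ((K : ℝ) ^ (-(1 / 4) : ℝ)) ^ b ≤ (m : ℝ) ^ (-(1 / 28) : ℝ) * K := by
    have e1 : ((K : ℝ) ^ (-(1 / 4) : ℝ)) ^ b = Real.exp (-(1 / 4) * b * Real.log K) := by
      rw [← Real.rpow_natCast ((K : ℝ) ^ (-(1 / 4) : ℝ)) b, ← Real.rpow_mul (by linarith),
        Real.rpow_def_of_pos (by linarith)]
      congr 1
      ring
    have e2 : (m : ℝ) ^ (-(1 / 28) : ℝ) * K = Real.exp (-(1 / 28) * L + Real.log K) := by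
      rw [Real.exp_add, Real.exp_log (by linarith), Real.rpow_def_of_pos hmR, ← hL]
      congr 2
      ring
    rw [e1, e2]
    apply Real.exp_le_exp.mpr
    have h8 : L ≤ 7 * (b + 1) * Real.log K := by
      have h9 : (m : ℝ) ≤ ((K : ℝ) ^ 7) ^ (b + 1) := by
        have h10 : m ≤ (K ^ 7) ^ (b + 1) := by
          refine hbm'.le.trans (Nat.pow_le_pow_left ?_ _)
          refine h2.trans ?_
          rw [pow_succ K 6, mul_comm]
          exact Nat.mul_le_mul_left _ (by omega)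
        exact_mod_cast h10
      have h11 := Real.log_le_log hmR h9
      rw [← hL, Real.log_pow, Real.log_pow] at h11
      push_cast at h11
      linarith
    nlinarith
  -- second term
  have hrb : (ρ : ℝ) * b ≤ 2 * L := by
    have h8 : ((2 : ℝ) ^ ρ) ^ b ≤ m := by exact_mod_cast hbm
    have h9 := Real.log_le_log (by positivity) h8
    rw [← hL, Real.log_pow, Real.log_pow] at h9
    have h10 : (0 : ℝ) ≤ (ρ : ℝ) * b := by positivity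
    nlinarith
  have hb' : (b : ℝ) ≤ ρ * b := by
    have h8 : (1 : ℝ) ≤ ρ := by exact_mod_cast hρ1
    have h9 : (0 : ℝ) ≤ b := Nat.cast_nonneg b
    nlinarith
  have hs : 8 * (ρ : ℝ) * b ^ 2 ≤ 32 * L ^ 2 := by
    have h8 : (0 : ℝ) ≤ (b : ℝ) := Nat.cast_nonneg b
    have h9 : (0 : ℝ) ≤ (ρ : ℝ) * b := by positivity
    have h10 : (ρ : ℝ) * b * b ≤ (2 * L) * (2 * L) :=
      mul_le_mul hrb (hb'.trans hrb) h8 (by linarith)
    nlinarith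
  have he : ((⌊B⌋₊ : ℕ) : ℝ) ≤ B := Nat.floor_le hB
  refine hmain.trans (add_le_add ?_ ?_)
  · calc 2 * (m : ℝ) * ((K : ℝ) ^ (-(1 / 4) : ℝ)) ^ b
        ≤ 2 * (m : ℝ) * ((m : ℝ) ^ (-(1 / 28) : ℝ) * K) :=
          mul_le_mul_of_nonneg_left hf (by linarith)
      _ = 2 * (m : ℝ) ^ (1 - 1 / 28 : ℝ) * K := by
          have h8 : (m : ℝ) ^ (1 - 1 / 28 : ℝ) = (m : ℝ) * (m : ℝ) ^ (-(1 / 28) : ℝ) := by
            rw [sub_eq_add_neg, Real.rpow_add hmR, Real.rpow_one]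
          rw [h8]
          ring
  · calc 8 * (ρ : ℝ) * (b : ℝ) ^ 2 * (K : ℝ) ^ 8 * ((⌊B⌋₊ : ℕ) : ℝ)
        ≤ 8 * (ρ : ℝ) * (b : ℝ) ^ 2 * (K : ℝ) ^ 8 * B :=
          mul_le_mul_of_nonneg_left he (by positivity)
      _ ≤ 32 * L ^ 2 * (K : ℝ) ^ 8 * B := by
          refine mul_le_mul_of_nonneg_right ?_ hB
          exact mul_le_mul_of_nonneg_right hs (by positivity)

/-! ### All rounds -/

private theorem induct_claim {K0 m v : ℕ} {η : ℤ} {c0 L : ℝ} (hK0 : 256 ≤ K0)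
    (hround : ∀ K ≥ K0, ∀ (k ρ b e : ℕ), 0 < k → k ^ 4 ≤ K ^ 5 → K ^ 6 ≤ 2 ^ ρ →
      (2 ^ ρ) ^ b ≤ m → 1 ≤ b →
      v * (Ex m η 2).card ≤ e → (∀ q, q.Prime → q ≤ K → (Ex m η q).card ≤ e) →
      ((Ex m η k).card : ℝ) ≤
        2 * m * ((K : ℝ) ^ (-(1 / 4) : ℝ)) ^ b + 8 * ρ * b ^ 2 * K ^ 8 * e)
    (hL : L = Real.log m) (hL6 : 6 ≤ L) (hc1 : c0 ≤ 1 / 100)
    (hv : ((v * (Ex m η 2).card : ℕ) : ℝ) ≤ (m : ℝ) ^ (1 - c0))
    (hbase : ∀ q : ℕ, q.Prime → q ≤ K0 → ((Ex m η q).card : ℝ) ≤ (m : ℝ) ^ (1 - c0)) (i : ℕ) :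
    (∀ j < i, ((indU K0 j : ℕ) : ℝ) ≤ (m : ℝ) ^ (1 / 100 : ℝ)) → ∀ q : ℕ, q.Prime →
      q ≤ indU K0 i →
      ((Ex m η q).card : ℝ) ≤ (m : ℝ) ^ (1 - c0) * L ^ (4 * i) * ((indU K0 i : ℕ) : ℝ) ^ 64 := by
  have hm0 : 0 < m := by
    rcases Nat.eq_zero_or_pos m with h | h
    · rw [h, Nat.cast_zero, Real.log_zero] at hL
      linarith
    · exact h
  have hmR : (0 : ℝ) < m := by exact_mod_cast hm0
  have hm1 : (1 : ℝ) ≤ m := by exact_mod_cast hm0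
  have hM : 0 ≤ (m : ℝ) ^ (1 - c0) := Real.rpow_nonneg hmR.le _
  induction i with
  | zero =>
    intro _ q hq hqK
    have h1 := hbase q hq hqK
    have h2 : (1 : ℝ) ≤ ((indU K0 0 : ℕ) : ℝ) ^ 64 := by
      apply one_le_pow₀
      have : (256 : ℝ) ≤ ((indU K0 0 : ℕ) : ℝ) := by exact_mod_cast hK0
      linarith
    rw [Nat.mul_zero, pow_zero, mul_one]
    calc ((Ex m η q).card : ℝ) ≤ (m : ℝ) ^ (1 - c0) * 1 := by rw [mul_one]; exact h1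
      _ ≤ _ := mul_le_mul_of_nonneg_left h2 hM
  | succ i ih =>
    intro hj q hq hqK
    have hi := ih fun j hj' => hj j (Nat.lt_succ_of_lt hj')
    have hKm := hj i (Nat.lt_succ_self i)
    have hKge : K0 ≤ indU K0 i := induct_ge hK0 i
    have hK256 : 256 ≤ indU K0 i := hK0.trans hKge
    obtain ⟨K, hKdef⟩ : ∃ K, K = indU K0 i := ⟨_, rfl⟩
    rw [← hKdef] at hi hKm hKge hK256
    have hKR : (256 : ℝ) ≤ (K : ℝ) := by exact_mod_cast hK256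
    have hL1 : (1 : ℝ) ≤ L := by linarith
    have hLi : (1 : ℝ) ≤ L ^ (4 * i) := one_le_pow₀ hL1
    have hK64 : (1 : ℝ) ≤ (K : ℝ) ^ 64 := one_le_pow₀ (by linarith)
    have hone : (1 : ℝ) ≤ L ^ (4 * i) * (K : ℝ) ^ 64 := by nlinarith
    have hB : (m : ℝ) ^ (1 - c0) ≤ (m : ℝ) ^ (1 - c0) * L ^ (4 * i) * (K : ℝ) ^ 64 := by
      rw [mul_assoc]
      exact le_mul_of_one_le_right hM hone
    have hsucc : indU K0 (i + 1) = ⌊(K : ℝ) ^ (5 / 4 : ℝ)⌋₊ := by rw [hKdef]; rfl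
    have hq4 : q ^ 4 ≤ K ^ 5 := by
      refine (Nat.pow_le_pow_left hqK 4).trans ?_
      rw [hsucc]
      exact induct_pow4 K
    have h1 := induct_round (v := v) (k := q) hK256
      (fun ρ b e => hround K hKge q ρ b e hq.pos hq4) hL hL6 hKm (hM.trans hB) (hv.trans hB)
      (fun q' hq1 hq2 => hi q' hq1 hq2)
    refine h1.trans ?_
    have hgrow := induct_grow hK256
    rw [← hsucc] at hgrow
    have hK72 : (K : ℝ) ^ 72 ≤ ((indU K0 (i + 1) : ℕ) : ℝ) ^ 64 := by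
      have e1 : ((K : ℝ) ^ (9 / 8 : ℝ)) ^ 64 = (K : ℝ) ^ 72 := by
        rw [← Real.rpow_natCast ((K : ℝ) ^ (9 / 8 : ℝ)) 64, ← Real.rpow_mul (by linarith),
          ← Real.rpow_natCast (K : ℝ) 72]
        norm_num
      rw [← e1]
      exact pow_le_pow_left₀ (Real.rpow_nonneg (by linarith) _) hgrow 64
    have hmm : (m : ℝ) ^ (1 - 1 / 28 : ℝ) ≤ (m : ℝ) ^ (1 - c0) :=
      Real.rpow_le_rpow_of_exponent_le hm1 (by linarith)
    have hKK : (K : ℝ) ≤ (K : ℝ) ^ 72 := by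
      calc (K : ℝ) = (K : ℝ) ^ 1 := (pow_one _).symm
        _ ≤ (K : ℝ) ^ 72 := pow_le_pow_right₀ (by linarith) (by norm_num)
    have hpoly : 2 + 32 * L ^ 2 ≤ L ^ 4 := by
      have h36 : 36 ≤ L ^ 2 := by nlinarith
      have h37 : L ^ 4 = L ^ 2 * L ^ 2 := by ring
      nlinarith
    have t1 : 2 * (m : ℝ) ^ (1 - 1 / 28 : ℝ) * K ≤
        (m : ℝ) ^ (1 - c0) * L ^ (4 * i) * (K : ℝ) ^ 72 * 2 := by
      have e1 : (m : ℝ) ^ (1 - 1 / 28 : ℝ) * K ≤ (m : ℝ) ^ (1 - c0) * (K : ℝ) ^ 72 :=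
        mul_le_mul hmm hKK (by linarith) hM
      have e2 : (m : ℝ) ^ (1 - c0) * (K : ℝ) ^ 72 ≤
          (m : ℝ) ^ (1 - c0) * (K : ℝ) ^ 72 * L ^ (4 * i) :=
        le_mul_of_one_le_right (by positivity) hLi
      nlinarith
    have t2 : 32 * L ^ 2 * (K : ℝ) ^ 8 * ((m : ℝ) ^ (1 - c0) * L ^ (4 * i) * (K : ℝ) ^ 64) =
        (m : ℝ) ^ (1 - c0) * L ^ (4 * i) * (K : ℝ) ^ 72 * (32 * L ^ 2) := by ring
    rw [t2]
    calc 2 * (m : ℝ) ^ (1 - 1 / 28 : ℝ) * K +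
          (m : ℝ) ^ (1 - c0) * L ^ (4 * i) * (K : ℝ) ^ 72 * (32 * L ^ 2)
        ≤ (m : ℝ) ^ (1 - c0) * L ^ (4 * i) * (K : ℝ) ^ 72 * 2 +
          (m : ℝ) ^ (1 - c0) * L ^ (4 * i) * (K : ℝ) ^ 72 * (32 * L ^ 2) :=
          add_le_add_left t1 _
      _ = (m : ℝ) ^ (1 - c0) * L ^ (4 * i) * (K : ℝ) ^ 72 * (2 + 32 * L ^ 2) := by ring
      _ ≤ (m : ℝ) ^ (1 - c0) * L ^ (4 * i) * (K : ℝ) ^ 72 * L ^ 4 :=
          mul_le_mul_of_nonneg_left hpoly (by positivity)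
      _ = (m : ℝ) ^ (1 - c0) * L ^ (4 * (i + 1)) * (K : ℝ) ^ 72 := by ring
      _ ≤ (m : ℝ) ^ (1 - c0) * L ^ (4 * (i + 1)) * ((indU K0 (i + 1) : ℕ) : ℝ) ^ 64 :=
          mul_le_mul_of_nonneg_left hK72 (by positivity)

/-! ### The base -/

private theorem induct_base {K0 ρ0 m k v : ℕ} {η : ℤ} {ε c0 L : ℝ} (hη : η = 1 ∨ η = -1)
    (hk : 0 < k) (hkK : k ≤ K0) (hρ : 2 * K0 ≤ 2 ^ ρ0) (hρ1 : 1 ≤ ρ0)
    (hv : ∀ i, Nat.gcd (2 ^ i) m ≤ v)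
    (hv2 : ((v * (Ex m η 2).card : ℕ) : ℝ) ≤ (m : ℝ) ^ (1 - ε / 2))
    (hL : L = Real.log m) (hL6 : 6 ≤ L) (hc0 : 0 < c0)
    (hcB : 2 * c0 * (2 ^ ρ0 * (ρ0 * Real.log 2)) ≤ 1) (hcε : 4 * c0 ≤ ε)
    (h12 : 12 ≤ c0 * L) (hbig : 48 * (1 + K0) * ρ0 ≤ c0 ^ 3 * L) :
    ((Ex m η k).card : ℝ) ≤ (m : ℝ) ^ (1 - c0) := by
  have hm0 : 0 < m := by
    rcases Nat.eq_zero_or_pos m with h | h
    · rw [h, Nat.cast_zero, Real.log_zero] at hL
      linarith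
    · exact h
  have hmR : (0 : ℝ) < m := by exact_mod_cast hm0
  have hexp : ∀ a : ℝ, (m : ℝ) ^ a = Real.exp (a * L) := by
    intro a
    rw [Real.rpow_def_of_pos hmR, ← hL, mul_comm]
  have hlog2 : (1 / 2 : ℝ) ≤ Real.log 2 := by
    have := Real.log_two_gt_d9
    linarith
  obtain ⟨b, hb⟩ : ∃ b, b = Nat.log (2 ^ ρ0) m := ⟨_, rfl⟩
  have hT1 : 1 < 2 ^ ρ0 := Nat.one_lt_two_pow (by omega)
  have hbm : (2 ^ ρ0) ^ b ≤ m := by
    rw [hb]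
    exact Nat.pow_log_le_self _ hm0.ne'
  have hbm' : m < (2 ^ ρ0) ^ (b + 1) := by
    rw [hb]
    exact Nat.lt_pow_succ_log_self hT1 m
  have hmain := base_step hη hk hkK hρ hbm hv
  have hρR : (1 : ℝ) ≤ ρ0 := by exact_mod_cast hρ1
  have hTpos : (0 : ℝ) < 2 ^ ρ0 := by positivity
  have hTone : (1 : ℝ) ≤ 2 ^ ρ0 := one_le_pow₀ (by norm_num)
  -- the logarithms
  have hLb : L ≤ (b + 1) * (ρ0 * Real.log 2) := by
    have h1 : (m : ℝ) ≤ ((2 : ℝ) ^ ρ0) ^ (b + 1) := by exact_mod_cast hbm'.le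
    have h2 := Real.log_le_log hmR h1
    rw [← hL, Real.log_pow, Real.log_pow] at h2
    push_cast at h2
    exact h2
  have hrb : (ρ0 : ℝ) * b ≤ 2 * L := by
    have h8 : ((2 : ℝ) ^ ρ0) ^ b ≤ m := by exact_mod_cast hbm
    have h9 := Real.log_le_log (by positivity) h8
    rw [← hL, Real.log_pow, Real.log_pow] at h9
    have h10 : (0 : ℝ) ≤ (ρ0 : ℝ) * b := by positivity
    nlinarith
  have hb2 : (b : ℝ) ≤ 2 * L := by
    have h9 : (0 : ℝ) ≤ b := Nat.cast_nonneg b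
    nlinarith
  -- first term
  have hf : (1 - 1 / (2 : ℝ) ^ ρ0) ^ b ≤ 3 * Real.exp (-(2 * c0 * L)) := by
    have h1 : (1 - 1 / (2 : ℝ) ^ ρ0) ≤ Real.exp (-(1 / (2 : ℝ) ^ ρ0)) := by
      have := Real.add_one_le_exp (-(1 / (2 : ℝ) ^ ρ0))
      linarith
    have h0 : 0 ≤ 1 - 1 / (2 : ℝ) ^ ρ0 := by
      rw [sub_nonneg, div_le_one hTpos]
      exact hTone
    have h2 : (1 - 1 / (2 : ℝ) ^ ρ0) ^ b ≤ Real.exp (-(1 / (2 : ℝ) ^ ρ0)) ^ b :=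
      pow_le_pow_left₀ h0 h1 b
    have h3 : Real.exp (-(1 / (2 : ℝ) ^ ρ0)) ^ b = Real.exp (-(b / (2 : ℝ) ^ ρ0)) := by
      rw [← Real.exp_nat_mul]
      congr 1
      ring
    rw [h3] at h2
    have h4 : -(b / (2 : ℝ) ^ ρ0) ≤ 1 + -(2 * c0 * L) := by
      have h5 : 2 * c0 * L ≤ (b + 1) / (2 : ℝ) ^ ρ0 := by
        rw [le_div_iff₀ hTpos]
        have h6 : (0 : ℝ) ≤ (b : ℝ) + 1 := by positivity
        have h7 : 2 * c0 * L * 2 ^ ρ0 ≤ 2 * c0 * ((b + 1) * (ρ0 * Real.log 2)) * 2 ^ ρ0 := by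
          apply mul_le_mul_of_nonneg_right _ hTpos.le
          exact mul_le_mul_of_nonneg_left hLb (by linarith)
        have h8 : 2 * c0 * ((b + 1) * (ρ0 * Real.log 2)) * 2 ^ ρ0 =
            ((b : ℝ) + 1) * (2 * c0 * (2 ^ ρ0 * (ρ0 * Real.log 2))) := by ring
        have h9 : ((b : ℝ) + 1) * (2 * c0 * (2 ^ ρ0 * (ρ0 * Real.log 2))) ≤ ((b : ℝ) + 1) * 1 :=
          mul_le_mul_of_nonneg_left hcB h6
        linarith
      have h6 : ((b : ℝ) + 1) / (2 : ℝ) ^ ρ0 = b / (2 : ℝ) ^ ρ0 + 1 / (2 : ℝ) ^ ρ0 := add_div _ _ _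
      have h7 : 1 / (2 : ℝ) ^ ρ0 ≤ 1 := (div_le_one hTpos).mpr hTone
      linarith
    have h5 : Real.exp (-(b / (2 : ℝ) ^ ρ0)) ≤ Real.exp 1 * Real.exp (-(2 * c0 * L)) := by
      rw [← Real.exp_add]
      exact Real.exp_le_exp.mpr h4
    have h6 : Real.exp 1 * Real.exp (-(2 * c0 * L)) ≤ 3 * Real.exp (-(2 * c0 * L)) := by
      refine mul_le_mul_of_nonneg_right ?_ (Real.exp_pos _).le
      have := Real.exp_one_lt_d9
      linarith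
    exact h2.trans (h5.trans h6)
  have hM : (m : ℝ) = Real.exp L := by rw [hL, Real.exp_log hmR]
  have hX : Real.exp ((1 - c0) * L) = Real.exp L * Real.exp (-(c0 * L)) := by
    rw [← Real.exp_add]
    congr 1
    ring
  have hE12 : 12 ≤ Real.exp (c0 * L) := by
    have := Real.add_one_le_exp (c0 * L)
    linarith
  have hsplit : Real.exp (-(2 * c0 * L)) = Real.exp (-(c0 * L)) * Real.exp (-(c0 * L)) := by
    rw [← Real.exp_add]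
    congr 1
    ring
  have hinv : Real.exp (-(c0 * L)) * Real.exp (c0 * L) = 1 := by
    rw [← Real.exp_add, neg_add_cancel, Real.exp_zero]
  have hpos1 : 0 < Real.exp (-(c0 * L)) := Real.exp_pos _
  have hsmall : 12 * Real.exp (-(c0 * L)) ≤ 1 := by
    calc 12 * Real.exp (-(c0 * L)) ≤ Real.exp (c0 * L) * Real.exp (-(c0 * L)) :=
          mul_le_mul_of_nonneg_right hE12 hpos1.le
      _ = 1 := by rw [mul_comm, hinv]
  have t1 : 2 * (m : ℝ) * (1 - 1 / (2 : ℝ) ^ ρ0) ^ b ≤ Real.exp ((1 - c0) * L) / 2 := by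
    rw [hX, hM]
    calc 2 * Real.exp L * (1 - 1 / (2 : ℝ) ^ ρ0) ^ b
        ≤ 2 * Real.exp L * (3 * Real.exp (-(2 * c0 * L))) :=
          mul_le_mul_of_nonneg_left hf (by positivity)
      _ = (Real.exp L * Real.exp (-(c0 * L))) * (12 * Real.exp (-(c0 * L))) / 2 := by
          rw [hsplit]
          ring
      _ ≤ (Real.exp L * Real.exp (-(c0 * L))) * 1 / 2 := by
          have : 0 ≤ Real.exp L * Real.exp (-(c0 * L)) := by positivity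
          nlinarith
      _ = Real.exp L * Real.exp (-(c0 * L)) / 2 := by ring
  -- second term
  have hv3 : ((v : ℝ) * ((Ex m η 2).card : ℝ)) ≤ Real.exp ((1 - ε / 2) * L) := by
    rw [← hexp]
    push_cast at hv2
    exact hv2
  have hE : (c0 * L) ^ 3 / 6 ≤ Real.exp (c0 * L) := by
    have h1 : 0 ≤ c0 * L := by linarith
    have h2 := Real.pow_div_factorial_le_exp (c0 * L) h1 3
    have h3 : ((Nat.factorial 3 : ℕ) : ℝ) = 6 := by norm_num [Nat.factorial]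
    rwa [h3] at h2
  have hbig2 : 2 * ((1 + (K0 : ℝ)) * (ρ0 * (4 * L ^ 2))) ≤ Real.exp (c0 * L) := by
    refine le_trans ?_ hE
    have h1 : (c0 * L) ^ 3 / 6 = (c0 ^ 3 * L) * L ^ 2 / 6 := by ring
    rw [h1]
    have h2 : 48 * (1 + (K0 : ℝ)) * ρ0 * L ^ 2 ≤ c0 ^ 3 * L * L ^ 2 :=
      mul_le_mul_of_nonneg_right hbig (by positivity)
    linarith
  have t2 : (b : ℝ) * (1 + K0) * (ρ0 * b * (v * ((Ex m η 2).card : ℝ))) ≤
      Real.exp ((1 - c0) * L) / 2 := by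
    have h1 : (b : ℝ) * b ≤ 4 * L ^ 2 := by
      have h9 : (0 : ℝ) ≤ b := Nat.cast_nonneg b
      nlinarith
    have h2 : Real.exp ((1 - ε / 2) * L) ≤ Real.exp L * Real.exp (-(c0 * L)) * Real.exp (-(c0 * L)) := by
      rw [← Real.exp_add, ← Real.exp_add]
      apply Real.exp_le_exp.mpr
      nlinarith
    calc (b : ℝ) * (1 + K0) * (ρ0 * b * (v * ((Ex m η 2).card : ℝ)))
        = (1 + (K0 : ℝ)) * (ρ0 * (b * b)) * (v * ((Ex m η 2).card : ℝ)) := by ring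
      _ ≤ (1 + (K0 : ℝ)) * (ρ0 * (4 * L ^ 2)) * Real.exp ((1 - ε / 2) * L) := by
          apply mul_le_mul _ hv3 (mul_nonneg (Nat.cast_nonneg _) (Nat.cast_nonneg _)) (by positivity)
          apply mul_le_mul_of_nonneg_left _ (by positivity)
          exact mul_le_mul_of_nonneg_left h1 (by positivity)
      _ ≤ (1 + (K0 : ℝ)) * (ρ0 * (4 * L ^ 2)) *
          (Real.exp L * Real.exp (-(c0 * L)) * Real.exp (-(c0 * L))) :=
          mul_le_mul_of_nonneg_left h2 (by positivity)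
      _ = (2 * ((1 + (K0 : ℝ)) * (ρ0 * (4 * L ^ 2)))) *
          (Real.exp L * Real.exp (-(c0 * L)) * Real.exp (-(c0 * L))) / 2 := by ring
      _ ≤ Real.exp (c0 * L) *
          (Real.exp L * Real.exp (-(c0 * L)) * Real.exp (-(c0 * L))) / 2 := by
          have h3 : 0 ≤ Real.exp L * Real.exp (-(c0 * L)) * Real.exp (-(c0 * L)) := by positivity
          have h4 := mul_le_mul_of_nonneg_right hbig2 h3
          linarith
      _ = Real.exp L * Real.exp (-(c0 * L)) * (Real.exp (-(c0 * L)) * Real.exp (c0 * L)) / 2 := by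
          ring
      _ = Real.exp ((1 - c0) * L) / 2 := by rw [hinv, mul_one, hX]
  rw [hexp]
  linarith

theorem induct (ε : ℝ) (hε : 0 < ε) (hε1 : ε ≤ 1) : ∃ δ : ℝ, 0 < δ ∧ δ ≤ 1 ∧ ∃ m0 : ℕ,
    ∀ m ≥ m0, ∀ η : ℤ, (η = 1 ∨ η = -1) →
    (∀ i, ((Nat.gcd (2 ^ i) m : ℕ) : ℝ) ≤ (m : ℝ) ^ (ε / 2)) →
    ((Ex m η 2).card : ℝ) ≤ (m : ℝ) ^ (1 - ε) →
    ∀ q : ℕ, q.Prime → (q : ℝ) ≤ (m : ℝ) ^ δ → ((Ex m η q).card : ℝ) ≤ (m : ℝ) ^ (1 - δ) := by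
  obtain ⟨K1, hK1, hround⟩ := round_step
  obtain ⟨K0, hK0def⟩ : ∃ K0, K0 = max K1 256 := ⟨_, rfl⟩
  have hK01 : K1 ≤ K0 := by rw [hK0def]; exact le_max_left _ _
  have hK0 : 256 ≤ K0 := by rw [hK0def]; exact le_max_right _ _
  obtain ⟨ρ0, hρ0⟩ : ∃ ρ0, ρ0 = K0 + 1 := ⟨_, rfl⟩
  have hρ1 : 1 ≤ ρ0 := by omega
  have hρ : 2 * K0 ≤ 2 ^ ρ0 := by
    rw [hρ0, pow_succ, mul_comm]
    exact Nat.mul_le_mul_right _ Nat.lt_two_pow_self.le
  -- the constants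
  obtain ⟨D, hD⟩ : ∃ D : ℝ, D = 2 ^ ρ0 * (ρ0 * Real.log 2) := ⟨_, rfl⟩
  have hρR : (1 : ℝ) ≤ ρ0 := by exact_mod_cast hρ1
  have hlog2 : (0 : ℝ) < Real.log 2 := Real.log_pos (by norm_num)
  have hDpos : 0 < D := by
    rw [hD]
    have : (0 : ℝ) < ρ0 := by linarith
    positivity
  obtain ⟨c0, hc0def⟩ : ∃ c0 : ℝ, c0 = min (min (1 / (2 * D)) (ε / 4)) (1 / 100) := ⟨_, rfl⟩
  have hc0 : 0 < c0 := by
    rw [hc0def]
    exact lt_min (lt_min (by positivity) (by positivity)) (by norm_num)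
  have hc1 : c0 ≤ 1 / 100 := by rw [hc0def]; exact min_le_right _ _
  have hcε : 4 * c0 ≤ ε := by
    have : c0 ≤ ε / 4 := by rw [hc0def]; exact (min_le_left _ _).trans (min_le_right _ _)
    linarith
  have hcB : 2 * c0 * D ≤ 1 := by
    have : c0 ≤ 1 / (2 * D) := by rw [hc0def]; exact (min_le_left _ _).trans (min_le_left _ _)
    rw [le_div_iff₀ (by positivity)] at this
    linarith
  obtain ⟨L0, hL0⟩ : ∃ L0 : ℝ, L0 = max (max 6 (12 / c0)) (max (48 * (1 + K0) * ρ0 / c0 ^ 3)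
    (max (1000 * K0 / c0) ((2304 / c0) ^ 2))) := ⟨_, rfl⟩
  refine ⟨c0 / 1250, by positivity, by linarith, ⌈Real.exp L0⌉₊, fun m hm η hη hgcd he2 => ?_⟩
  have hmexp : Real.exp L0 ≤ m := Nat.ceil_le.mp hm
  have hmR : (0 : ℝ) < m := lt_of_lt_of_le (Real.exp_pos _) hmexp
  have hm1 : (1 : ℝ) ≤ m := by exact_mod_cast (by exact_mod_cast hmR : 0 < m)
  obtain ⟨L, hL⟩ : ∃ L, L = Real.log m := ⟨_, rfl⟩
  have hLL : L0 ≤ L := by rw [hL]; exact (Real.le_log_iff_exp_le hmR).mpr hmexp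
  have hL6 : 6 ≤ L := by
    refine le_trans ?_ hLL
    rw [hL0]
    exact (le_max_left _ _).trans (le_max_left _ _)
  have h12 : 12 ≤ c0 * L := by
    have h1 : 12 / c0 ≤ L := by
      refine le_trans ?_ hLL
      rw [hL0]
      exact (le_max_right _ _).trans (le_max_left _ _)
    rw [div_le_iff₀ hc0] at h1
    linarith
  have hbig : 48 * (1 + (K0 : ℝ)) * ρ0 ≤ c0 ^ 3 * L := by
    have h1 : 48 * (1 + (K0 : ℝ)) * ρ0 / c0 ^ 3 ≤ L := by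
      refine le_trans ?_ hLL
      rw [hL0]
      exact (le_max_left _ _).trans (le_max_right _ _)
    rw [div_le_iff₀ (by positivity)] at h1
    linarith
  have hK0L : 1000 * (K0 : ℝ) ≤ c0 * L := by
    have h1 : 1000 * (K0 : ℝ) / c0 ≤ L := by
      refine le_trans ?_ hLL
      rw [hL0]
      exact (le_max_left _ _).trans ((le_max_right _ _).trans (le_max_right _ _))
    rw [div_le_iff₀ hc0] at h1
    linarith
  have hsq : (2304 / c0) ^ 2 ≤ L := by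
    refine le_trans ?_ hLL
    rw [hL0]
    exact (le_max_right _ _).trans ((le_max_right _ _).trans (le_max_right _ _))
  have hexp : ∀ a : ℝ, (m : ℝ) ^ a = Real.exp (a * L) := by
    intro a
    rw [Real.rpow_def_of_pos hmR, ← hL, mul_comm]
  obtain ⟨v, hvdef⟩ : ∃ v : ℕ, v = ⌊(m : ℝ) ^ (ε / 2)⌋₊ := ⟨_, rfl⟩
  have hv : ∀ i, Nat.gcd (2 ^ i) m ≤ v := fun i => by
    rw [hvdef]
    exact Nat.le_floor (hgcd i)
  have hv2 : ((v * (Ex m η 2).card : ℕ) : ℝ) ≤ (m : ℝ) ^ (1 - ε / 2) := by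
    have h1 : (v : ℝ) ≤ (m : ℝ) ^ (ε / 2) := by
      rw [hvdef]
      exact Nat.floor_le (Real.rpow_nonneg hmR.le _)
    have h2 : (m : ℝ) ^ (1 - ε / 2) = (m : ℝ) ^ (ε / 2) * (m : ℝ) ^ (1 - ε) := by
      rw [← Real.rpow_add hmR]
      congr 1
      ring
    rw [h2]
    push_cast
    exact mul_le_mul h1 he2 (Nat.cast_nonneg _) (Real.rpow_nonneg hmR.le _)
  have hbase : ∀ q : ℕ, q.Prime → q ≤ K0 → ((Ex m η q).card : ℝ) ≤ (m : ℝ) ^ (1 - c0) := by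
    intro q hq hqK
    refine induct_base hη hq.pos hqK hρ hρ1 hv hv2 hL hL6 hc0 ?_ hcε h12 hbig
    rw [← hD]
    exact hcB
  have hv3 : ((v * (Ex m η 2).card : ℕ) : ℝ) ≤ (m : ℝ) ^ (1 - c0) :=
    hv2.trans (Real.rpow_le_rpow_of_exponent_le hm1 (by linarith))
  have hclaim := induct_claim (K0 := K0) (m := m) (v := v) (η := η) (c0 := c0) (L := L) hK0
    (fun K hK k ρ b e hk h4 h6 hb hb1 he hq =>
      hround K (hK01.trans hK) m k v ρ b e η hη hk h4 h6 hb hb1 hv he hq)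
    hL hL6 hc1 hv3 hbase
  -- the last index
  have hex : ∃ j, (m : ℝ) ^ (c0 / 1000) < ((indU K0 j : ℕ) : ℝ) := by
    obtain ⟨j, hj⟩ := pow_unbounded_of_one_lt (c0 / 1000 * L) (by norm_num : (1 : ℝ) < 9 / 8)
    refine ⟨j, ?_⟩
    have h1 := induct_log hK0 j
    have h2 : (0 : ℝ) < ((indU K0 j : ℕ) : ℝ) := by
      have : (256 : ℝ) ≤ ((indU K0 j : ℕ) : ℝ) := by exact_mod_cast hK0.trans (induct_ge hK0 j)
      linarith
    rw [hexp, ← Real.lt_log_iff_exp_lt h2]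
    exact hj.trans_le h1
  classical
  obtain ⟨j, hj, hjmin⟩ : ∃ j, (m : ℝ) ^ (c0 / 1000) < ((indU K0 j : ℕ) : ℝ) ∧
      ∀ i < j, ((indU K0 i : ℕ) : ℝ) ≤ (m : ℝ) ^ (c0 / 1000) :=
    ⟨Nat.find hex, Nat.find_spec hex, fun i hi => not_lt.mp (Nat.find_min hex hi)⟩
  have hj0 : j ≠ 0 := by
    rintro rfl
    have h1 : ((indU K0 0 : ℕ) : ℝ) = (K0 : ℝ) := rfl
    rw [h1, hexp] at hj
    have h2 := Real.add_one_le_exp (c0 / 1000 * L)
    linarith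
  obtain ⟨i, rfl⟩ : ∃ i, j = i + 1 := Nat.exists_eq_succ_of_ne_zero hj0
  have hi := hjmin i (Nat.lt_succ_self i)
  have hKge : 256 ≤ indU K0 i := hK0.trans (induct_ge hK0 i)
  have hKR : (256 : ℝ) ≤ ((indU K0 i : ℕ) : ℝ) := by exact_mod_cast hKge
  have hlow : (m : ℝ) ^ (c0 / 1250) ≤ ((indU K0 i : ℕ) : ℝ) := by
    have h1 : ((indU K0 (i + 1) : ℕ) : ℝ) ≤ ((indU K0 i : ℕ) : ℝ) ^ (5 / 4 : ℝ) :=
      Nat.floor_le (Real.rpow_nonneg (by linarith) _)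
    have h2 : (m : ℝ) ^ (c0 / 1000) ≤ ((indU K0 i : ℕ) : ℝ) ^ (5 / 4 : ℝ) := hj.le.trans h1
    have h3 := Real.rpow_le_rpow (Real.rpow_nonneg hmR.le _) h2 (by norm_num : (0 : ℝ) ≤ 4 / 5)
    rw [← Real.rpow_mul hmR.le, ← Real.rpow_mul (by linarith)] at h3
    have h4 : c0 / 1000 * (4 / 5) = c0 / 1250 := by ring
    have h5 : (5 / 4 * (4 / 5) : ℝ) = 1 := by norm_num
    rw [h4, h5, Real.rpow_one] at h3
    exact h3
  intro q hq hqm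
  have hqK : q ≤ indU K0 i := by exact_mod_cast hqm.trans hlow
  have hle100 : ∀ j' < i, ((indU K0 j' : ℕ) : ℝ) ≤ (m : ℝ) ^ (1 / 100 : ℝ) := fun j' hj' =>
    (hjmin j' (by omega)).trans (Real.rpow_le_rpow_of_exponent_le hm1 (by linarith))
  have h1 := hclaim i hle100 q hq hqK
  -- the number of steps
  have hlogL : 0 < Real.log L := Real.log_pos (by linarith)
  have hiL : (i : ℝ) ≤ 9 * Real.log L := by
    have h2 := induct_log hK0 i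
    have h3 : Real.log ((indU K0 i : ℕ) : ℝ) ≤ L := by
      have h4 := Real.log_le_log (by linarith) hi
      rw [hexp, Real.log_exp] at h4
      have : c0 / 1000 * L ≤ L := by nlinarith
      linarith
    have h4 : (9 / 8 : ℝ) ^ i ≤ L := h2.trans h3
    have h5 := Real.log_le_log (by positivity) h4
    rw [Real.log_pow] at h5
    have h6 : (1 / 9 : ℝ) ≤ Real.log (9 / 8) := by
      have h7 := Real.one_sub_inv_le_log_of_pos (by norm_num : (0 : ℝ) < 9 / 8)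
      norm_num at h7
      linarith
    have h7 : (0 : ℝ) ≤ i := Nat.cast_nonneg i
    nlinarith
  have hlog4 : Real.log L ≤ 4 * L ^ (1 / 4 : ℝ) := by
    have h2 := Real.log_le_rpow_div (by linarith : (0 : ℝ) ≤ L) (by norm_num : (0 : ℝ) < 1 / 4)
    linarith
  have hloglog : 36 * (Real.log L * Real.log L) ≤ c0 / 4 * L := by
    have h2 : Real.log L * Real.log L ≤ (4 * L ^ (1 / 4 : ℝ)) * (4 * L ^ (1 / 4 : ℝ)) :=
      mul_le_mul hlog4 hlog4 hlogL.le (by positivity)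
    have h3 : L ^ (1 / 4 : ℝ) * L ^ (1 / 4 : ℝ) = Real.sqrt L := by
      rw [← Real.rpow_add (by linarith), Real.sqrt_eq_rpow]
      norm_num
    have h4 : 2304 / c0 ≤ Real.sqrt L := Real.le_sqrt_of_sq_le hsq
    have h5 : Real.sqrt L * Real.sqrt L = L := Real.mul_self_sqrt (by linarith)
    rw [div_le_iff₀ hc0] at h4
    have h6 : 0 ≤ Real.sqrt L := Real.sqrt_nonneg _
    nlinarith
  have hLi : L ^ (4 * i) ≤ Real.exp (c0 / 4 * L) := by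
    have h2 : L ^ (4 * i) = Real.exp (4 * i * Real.log L) := by
      rw [← Real.exp_log (by linarith : (0 : ℝ) < L), ← Real.exp_nat_mul, Real.log_exp]
      push_cast
      ring_nf
    rw [h2]
    apply Real.exp_le_exp.mpr
    nlinarith
  have hU : ((indU K0 i : ℕ) : ℝ) ^ 64 ≤ Real.exp (64 * (c0 / 1000) * L) := by
    have h2 := pow_le_pow_left₀ (by linarith) hi 64
    rw [hexp, ← Real.exp_nat_mul] at h2
    refine h2.trans (le_of_eq ?_)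
    congr 1
    push_cast
    ring
  rw [hexp] at h1
  rw [hexp]
  calc ((Ex m η q).card : ℝ)
      ≤ Real.exp ((1 - c0) * L) * L ^ (4 * i) * ((indU K0 i : ℕ) : ℝ) ^ 64 := h1
    _ ≤ Real.exp ((1 - c0) * L) * Real.exp (c0 / 4 * L) *
        Real.exp (64 * (c0 / 1000) * L) := by
        apply mul_le_mul _ hU (by positivity) (by positivity)
        exact mul_le_mul_of_nonneg_left hLi (Real.exp_pos _).le
    _ = Real.exp ((1 - c0) * L + c0 / 4 * L + 64 * (c0 / 1000) * L) := by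
        rw [Real.exp_add, Real.exp_add]
    _ ≤ Real.exp ((1 - c0 / 1250) * L) := by
        apply Real.exp_le_exp.mpr
        have : 0 ≤ c0 * L := by positivity
        nlinarith

end Pool.Agent.H11.LQ
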