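import Pool.Agent.H11.LQ.Round

/-!
# LQ stage 3, module Induct3: the recursion for an arbitrary small density `ρ`

Copy of Pool/Agent/H11/LQ/Induct2.lean, with the threshold `ρ ^ (-1/640)` for the primes; `ρ` may be a
small constant.  `u = log (1/ρ)`, `K_0 = K0`, `K_(i+1) = ⌊K_i ^ (5/4)⌋`, `I` = the first `i` with
`K_i ≥ exp (u / 640)`, so `K_I ^ 64 ≤ exp (u / 8)`; `(C u²) ^ (I + 1) ≤ exp (u / 64)` for `u ≥ u0`.
-/

set_option autoImplicit false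

namespace Pool.Agent.H11.LQ

open Finset
open Pool.Agent.H34PG (lam lam_val lam_mul lam_prime)

/-! ### The sequence -/

/-- `K_0 = K0`, `K_(n+1) = ⌊K_n ^ (5/4)⌋`. -/
private noncomputable def ind3U (K0 : ℕ) : ℕ → ℕ
  | 0 => K0
  | n + 1 => ⌊((ind3U K0 n : ℕ) : ℝ) ^ (5 / 4 : ℝ)⌋₊

private theorem ind3_pow4 (K : ℕ) : ⌊(K : ℝ) ^ (5 / 4 : ℝ)⌋₊ ^ 4 ≤ K ^ 5 := by
  have h0 : (0 : ℝ) ≤ (K : ℝ) := Nat.cast_nonneg K
  have h1 : (0 : ℝ) ≤ (K : ℝ) ^ (5 / 4 : ℝ) := Real.rpow_nonneg h0 _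
  have h2 : ((⌊(K : ℝ) ^ (5 / 4 : ℝ)⌋₊ : ℕ) : ℝ) ≤ (K : ℝ) ^ (5 / 4 : ℝ) := Nat.floor_le h1
  have h3 : ((K : ℝ) ^ (5 / 4 : ℝ)) ^ 4 = (K : ℝ) ^ 5 := by
    rw [← Real.rpow_natCast ((K : ℝ) ^ (5 / 4 : ℝ)) 4, ← Real.rpow_mul h0,
      ← Real.rpow_natCast (K : ℝ) 5]
    norm_num
  have h4 : (((⌊(K : ℝ) ^ (5 / 4 : ℝ)⌋₊ : ℕ) : ℝ)) ^ 4 ≤ (K : ℝ) ^ 5 := by
    rw [← h3]
    exact pow_le_pow_left₀ (Nat.cast_nonneg _) h2 4
  exact_mod_cast h4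

private theorem ind3_grow {K : ℕ} (hK : 256 ≤ K) :
    (K : ℝ) ^ (9 / 8 : ℝ) ≤ ((⌊(K : ℝ) ^ (5 / 4 : ℝ)⌋₊ : ℕ) : ℝ) := by
  have hK' : (256 : ℝ) ≤ (K : ℝ) := by exact_mod_cast hK
  have h0 : (0 : ℝ) < (K : ℝ) := by linarith
  have h1 : (2 : ℝ) ≤ (K : ℝ) ^ (1 / 8 : ℝ) := by
    have h2 : (256 : ℝ) ^ (1 / 8 : ℝ) ≤ (K : ℝ) ^ (1 / 8 : ℝ) :=
      Real.rpow_le_rpow (by norm_num) hK' (by norm_num)
    have h3 : (256 : ℝ) ^ (1 / 8 : ℝ) = 2 := by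
      have h4 : (256 : ℝ) = (2 : ℝ) ^ (8 : ℝ) := by norm_num
      rw [h4, ← Real.rpow_mul (by norm_num)]
      norm_num
    rwa [h3] at h2
  have h5 : (K : ℝ) ^ (5 / 4 : ℝ) = (K : ℝ) ^ (9 / 8 : ℝ) * (K : ℝ) ^ (1 / 8 : ℝ) := by
    rw [← Real.rpow_add h0]
    norm_num
  have h6 : (1 : ℝ) ≤ (K : ℝ) ^ (9 / 8 : ℝ) := Real.one_le_rpow (by linarith) (by norm_num)
  have h7 : (K : ℝ) ^ (5 / 4 : ℝ) < ((⌊(K : ℝ) ^ (5 / 4 : ℝ)⌋₊ : ℕ) : ℝ) + 1 :=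
    Nat.lt_floor_add_one _
  have h8 : (K : ℝ) ^ (9 / 8 : ℝ) * 2 ≤ (K : ℝ) ^ (9 / 8 : ℝ) * (K : ℝ) ^ (1 / 8 : ℝ) :=
    mul_le_mul_of_nonneg_left h1 (by linarith)
  rw [h5] at h7
  rw [h5]
  linarith

private theorem ind3_ge {K0 : ℕ} (hK0 : 256 ≤ K0) (i : ℕ) : K0 ≤ ind3U K0 i := by
  induction i with
  | zero => exact le_rfl
  | succ i ih =>
    have h1 : 256 ≤ ind3U K0 i := hK0.trans ih
    have h2 := ind3_grow h1
    have h3 : ((ind3U K0 i : ℕ) : ℝ) ≤ ((ind3U K0 i : ℕ) : ℝ) ^ (9 / 8 : ℝ) := by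
      have h4 : (1 : ℝ) ≤ ((ind3U K0 i : ℕ) : ℝ) := by
        have : (256 : ℝ) ≤ ((ind3U K0 i : ℕ) : ℝ) := by exact_mod_cast h1
        linarith
      calc ((ind3U K0 i : ℕ) : ℝ) = ((ind3U K0 i : ℕ) : ℝ) ^ (1 : ℝ) := (Real.rpow_one _).symm
        _ ≤ _ := Real.rpow_le_rpow_of_exponent_le h4 (by norm_num)
    have h5 : ((ind3U K0 i : ℕ) : ℝ) ≤ ((ind3U K0 (i + 1) : ℕ) : ℝ) := h3.trans h2
    exact ih.trans (by exact_mod_cast h5)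

private theorem ind3_log {K0 : ℕ} (hK0 : 256 ≤ K0) (i : ℕ) :
    (9 / 8 : ℝ) ^ i ≤ Real.log (ind3U K0 i : ℕ) := by
  induction i with
  | zero =>
    have h1 : (256 : ℝ) ≤ (K0 : ℝ) := by exact_mod_cast hK0
    have h2 : Real.exp 1 ≤ (K0 : ℝ) := by
      have := Real.exp_one_lt_d9
      linarith
    have h3 : ((ind3U K0 0 : ℕ) : ℝ) = (K0 : ℝ) := rfl
    rw [pow_zero, h3]
    exact (Real.le_log_iff_exp_le (by linarith)).mpr h2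
  | succ i ih =>
    have h1 : 256 ≤ ind3U K0 i := hK0.trans (ind3_ge hK0 i)
    have h2 := ind3_grow h1
    have h0 : (0 : ℝ) < ((ind3U K0 i : ℕ) : ℝ) := by
      have : (256 : ℝ) ≤ ((ind3U K0 i : ℕ) : ℝ) := by exact_mod_cast h1
      linarith
    have h3 : Real.log (((ind3U K0 i : ℕ) : ℝ) ^ (9 / 8 : ℝ)) ≤
        Real.log ((ind3U K0 (i + 1) : ℕ) : ℝ) := Real.log_le_log (Real.rpow_pos_of_pos h0 _) h2
    rw [Real.log_rpow h0] at h3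
    rw [pow_succ]
    linarith

/-! ### One round -/

private theorem ind3_round {K m k v : ℕ} {η : ℤ} {B L u : ℝ} (hK : 256 ≤ K)
    (hround : ∀ (ρ b e : ℕ), K ^ 6 ≤ 2 ^ ρ → (2 ^ ρ) ^ b ≤ m → 1 ≤ b →
      v * (Ex m η 2).card ≤ e → (∀ q, q.Prime → q ≤ K → (Ex m η q).card ≤ e) →
      ((Ex m η k).card : ℝ) ≤
        2 * m * ((K : ℝ) ^ (-(1 / 4) : ℝ)) ^ b + 8 * ρ * b ^ 2 * K ^ 8 * e)
    (hm0 : 0 < m) (hL : L = Real.log m) (hu : Real.log K ≤ u) (huL : 35 * u ≤ L)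
    (hB : 0 ≤ B) (hv : ((v * (Ex m η 2).card : ℕ) : ℝ) ≤ B)
    (hq : ∀ q : ℕ, q.Prime → q ≤ K → ((Ex m η q).card : ℝ) ≤ B) :
    ((Ex m η k).card : ℝ) ≤ 2 * (m * Real.exp (-u)) + 2200 * u ^ 2 * (K : ℝ) ^ 8 * B := by
  have hmR : (0 : ℝ) < m := by exact_mod_cast hm0
  have hKR : (256 : ℝ) ≤ (K : ℝ) := by exact_mod_cast hK
  have hKpos : (0 : ℝ) < K := by linarith
  have hlogK1 : 1 ≤ Real.log K := by
    have h2 : Real.exp 1 ≤ (K : ℝ) := by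
      have := Real.exp_one_lt_d9
      linarith
    exact (Real.le_log_iff_exp_le hKpos).mpr h2
  have hu1 : 1 ≤ u := hlogK1.trans hu
  have hlog2 : (69 / 100 : ℝ) ≤ Real.log 2 := by
    have := Real.log_two_gt_d9
    linarith
  have hK1 : 1 < K ^ 6 := Nat.one_lt_pow (by norm_num) (by omega)
  obtain ⟨ρ, hρ⟩ : ∃ ρ, ρ = Nat.clog 2 (K ^ 6) := ⟨_, rfl⟩
  have h1 : K ^ 6 ≤ 2 ^ ρ := by rw [hρ]; exact Nat.le_pow_clog (by norm_num) _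
  have hρ1 : 1 ≤ ρ := by
    rcases Nat.eq_zero_or_pos ρ with h | h
    · rw [h, pow_zero] at h1
      omega
    · exact h
  have h2 : 2 ^ ρ ≤ K ^ 7 := by
    have h3 := Nat.pow_pred_clog_lt_self (b := 2) (by norm_num) hK1
    rw [← hρ] at h3
    have h4 : 2 ^ ρ = 2 * 2 ^ ρ.pred := by
      rw [← pow_succ', Nat.pred_eq_sub_one, Nat.sub_add_cancel hρ1]
    rw [h4, pow_succ K 6, mul_comm (K ^ 6) K]
    exact Nat.mul_le_mul (by omega) h3.le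
  obtain ⟨b, hb⟩ : ∃ b, b = ⌈4 * u / Real.log K⌉₊ := ⟨_, rfl⟩
  have hbge : 4 * u / Real.log K ≤ b := by rw [hb]; exact Nat.le_ceil _
  have hblt : (b : ℝ) < 4 * u / Real.log K + 1 := by
    rw [hb]
    exact Nat.ceil_lt_add_one (by positivity)
  have hb1 : 1 ≤ b := by
    rw [hb]
    exact Nat.ceil_pos.2 (by positivity)
  have hb0 : (0 : ℝ) ≤ b := Nat.cast_nonneg b
  have hblog : 4 * u ≤ b * Real.log K := by
    rw [div_le_iff₀ (by linarith)] at hbge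
    exact hbge
  have hblog' : b * Real.log K ≤ 5 * u := by
    have h3 : (b : ℝ) * Real.log K ≤ (4 * u / Real.log K + 1) * Real.log K :=
      mul_le_mul_of_nonneg_right hblt.le (by linarith)
    have h4 : (4 * u / Real.log K + 1) * Real.log K = 4 * u + Real.log K := by
      rw [add_mul, div_mul_cancel₀ _ (by linarith : Real.log (K : ℝ) ≠ 0), one_mul]
    linarith
  have hbm : (2 ^ ρ) ^ b ≤ m := by
    have h3 : (((2 ^ ρ) ^ b : ℕ) : ℝ) ≤ m := by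
      have h4 : (((2 ^ ρ) ^ b : ℕ) : ℝ) ≤ ((K : ℝ) ^ 7) ^ b := by
        have h5 : (2 ^ ρ) ^ b ≤ (K ^ 7) ^ b := Nat.pow_le_pow_left h2 b
        exact_mod_cast h5
      refine h4.trans ?_
      rw [← Real.log_le_log_iff (by positivity) hmR, Real.log_pow, Real.log_pow, ← hL]
      push_cast
      linarith
    exact_mod_cast h3
  have hmain := hround ρ b ⌊B⌋₊ h1 hbm hb1 (Nat.le_floor hv)
    (fun q hq1 hq2 => Nat.le_floor (hq q hq1 hq2))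
  -- first term
  have hf : ((K : ℝ) ^ (-(1 / 4) : ℝ)) ^ b ≤ Real.exp (-u) := by
    have e1 : ((K : ℝ) ^ (-(1 / 4) : ℝ)) ^ b = Real.exp (-(1 / 4) * (b * Real.log K)) := by
      rw [← Real.rpow_natCast ((K : ℝ) ^ (-(1 / 4) : ℝ)) b, ← Real.rpow_mul (by linarith),
        Real.rpow_def_of_pos (by linarith)]
      congr 1
      ring
    rw [e1]
    apply Real.exp_le_exp.mpr
    linarith
  -- second term
  have hρlog : (ρ : ℝ) ≤ 11 * Real.log K := by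
    have h8 : (2 : ℝ) ^ ρ ≤ (K : ℝ) ^ 7 := by exact_mod_cast h2
    have h9 := Real.log_le_log (by positivity) h8
    rw [Real.log_pow, Real.log_pow] at h9
    push_cast at h9
    have h10 : (0 : ℝ) ≤ (ρ : ℝ) := Nat.cast_nonneg ρ
    have h11 : (ρ : ℝ) * (69 / 100) ≤ ρ * Real.log 2 := mul_le_mul_of_nonneg_left hlog2 h10
    linarith
  have hs : 8 * (ρ : ℝ) * b ^ 2 ≤ 2200 * u ^ 2 := by
    have h8 : (b : ℝ) ≤ 5 * u := by
      have h9 : (b : ℝ) * 1 ≤ b * Real.log K := mul_le_mul_of_nonneg_left hlogK1 hb0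
      linarith
    have h9 : (ρ : ℝ) * b ≤ 11 * (5 * u) := by
      calc (ρ : ℝ) * b ≤ (11 * Real.log K) * b := mul_le_mul_of_nonneg_right hρlog hb0
        _ = 11 * (b * Real.log K) := by ring
        _ ≤ 11 * (5 * u) := by linarith
    have h10 : (ρ : ℝ) * b * b ≤ (11 * (5 * u)) * (5 * u) :=
      mul_le_mul h9 h8 hb0 (by linarith)
    nlinarith
  have he : ((⌊B⌋₊ : ℕ) : ℝ) ≤ B := Nat.floor_le hB
  refine hmain.trans (add_le_add ?_ ?_)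
  · calc 2 * (m : ℝ) * ((K : ℝ) ^ (-(1 / 4) : ℝ)) ^ b
        ≤ 2 * (m : ℝ) * Real.exp (-u) := mul_le_mul_of_nonneg_left hf (by linarith)
      _ = 2 * (m * Real.exp (-u)) := by ring
  · calc 8 * (ρ : ℝ) * (b : ℝ) ^ 2 * (K : ℝ) ^ 8 * ((⌊B⌋₊ : ℕ) : ℝ)
        ≤ 8 * (ρ : ℝ) * (b : ℝ) ^ 2 * (K : ℝ) ^ 8 * B :=
          mul_le_mul_of_nonneg_left he (by positivity)
      _ ≤ 2200 * u ^ 2 * (K : ℝ) ^ 8 * B := by
          refine mul_le_mul_of_nonneg_right ?_ hB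
          exact mul_le_mul_of_nonneg_right hs (by positivity)

/-! ### All rounds -/

private theorem ind3_claim {K0 m v : ℕ} {η : ℤ} {L u C : ℝ} (hK0 : 256 ≤ K0)
    (hround : ∀ K ≥ K0, ∀ (k ρ b e : ℕ), 0 < k → k ^ 4 ≤ K ^ 5 → K ^ 6 ≤ 2 ^ ρ →
      (2 ^ ρ) ^ b ≤ m → 1 ≤ b →
      v * (Ex m η 2).card ≤ e → (∀ q, q.Prime → q ≤ K → (Ex m η q).card ≤ e) →
      ((Ex m η k).card : ℝ) ≤
        2 * m * ((K : ℝ) ^ (-(1 / 4) : ℝ)) ^ b + 8 * ρ * b ^ 2 * K ^ 8 * e)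
    (hm0 : 0 < m) (hL : L = Real.log m) (hu1 : 1 ≤ u) (huL : 35 * u ≤ L) (hC : 2202 ≤ C)
    (hv : ((v * (Ex m η 2).card : ℕ) : ℝ) ≤ m * Real.exp (-(7 / 8 * u)))
    (hbase : ∀ q : ℕ, q.Prime → q ≤ K0 → ((Ex m η q).card : ℝ) ≤ m * Real.exp (-(7 / 8 * u)) * (C * u ^ 2))
    (i : ℕ) :
    (∀ j < i, Real.log ((ind3U K0 j : ℕ) : ℝ) ≤ u) → ∀ q : ℕ, q.Prime → q ≤ ind3U K0 i →
      ((Ex m η q).card : ℝ) ≤
        m * Real.exp (-(7 / 8 * u)) * (C * u ^ 2) ^ (i + 1) * ((ind3U K0 i : ℕ) : ℝ) ^ 64 := by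
  have hmR : (0 : ℝ) < m := by exact_mod_cast hm0
  obtain ⟨B0, hB0⟩ : ∃ B0, B0 = m * Real.exp (-(7 / 8 * u)) := ⟨_, rfl⟩
  have hB0pos : 0 < B0 := by rw [hB0]; positivity
  rw [← hB0] at hv hbase ⊢
  have hCu : 1 ≤ C * u ^ 2 := by nlinarith
  have hCu2 : 2202 * u ^ 2 ≤ C * u ^ 2 := mul_le_mul_of_nonneg_right hC (by positivity)
  induction i with
  | zero =>
    intro _ q hq hqK
    have h1 := hbase q hq hqK
    have h2 : (1 : ℝ) ≤ ((ind3U K0 0 : ℕ) : ℝ) ^ 64 := by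
      apply one_le_pow₀
      have : (256 : ℝ) ≤ ((ind3U K0 0 : ℕ) : ℝ) := by exact_mod_cast hK0
      linarith
    rw [zero_add, pow_one]
    calc ((Ex m η q).card : ℝ) ≤ B0 * (C * u ^ 2) * 1 := by rw [mul_one]; exact h1
      _ ≤ _ := mul_le_mul_of_nonneg_left h2 (by positivity)
  | succ i ih =>
    intro hj q hq hqK
    have hi := ih fun j hj' => hj j (Nat.lt_succ_of_lt hj')
    have hKm := hj i (Nat.lt_succ_self i)
    have hKge : K0 ≤ ind3U K0 i := ind3_ge hK0 i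
    have hK256 : 256 ≤ ind3U K0 i := hK0.trans hKge
    obtain ⟨K, hKdef⟩ : ∃ K, K = ind3U K0 i := ⟨_, rfl⟩
    rw [← hKdef] at hi hKm hKge hK256
    have hKR : (256 : ℝ) ≤ (K : ℝ) := by exact_mod_cast hK256
    have hLi : (1 : ℝ) ≤ (C * u ^ 2) ^ (i + 1) := one_le_pow₀ hCu
    have hK64 : (1 : ℝ) ≤ (K : ℝ) ^ 64 := one_le_pow₀ (by linarith)
    have hone : (1 : ℝ) ≤ (C * u ^ 2) ^ (i + 1) * (K : ℝ) ^ 64 := by nlinarith
    have hB : B0 ≤ B0 * (C * u ^ 2) ^ (i + 1) * (K : ℝ) ^ 64 := by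
      rw [mul_assoc]
      exact le_mul_of_one_le_right hB0pos.le hone
    have hsucc : ind3U K0 (i + 1) = ⌊(K : ℝ) ^ (5 / 4 : ℝ)⌋₊ := by rw [hKdef]; rfl
    have hq4 : q ^ 4 ≤ K ^ 5 := by
      refine (Nat.pow_le_pow_left hqK 4).trans ?_
      rw [hsucc]
      exact ind3_pow4 K
    have h1 := ind3_round (v := v) (k := q) (u := u) hK256
      (fun ρ b e => hround K hKge q ρ b e hq.pos hq4) hm0 hL hKm huL (hB0pos.le.trans hB) (hv.trans hB)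
      (fun q' hq1 hq2 => hi q' hq1 hq2)
    refine h1.trans ?_
    have hgrow := ind3_grow hK256
    rw [← hsucc] at hgrow
    have hK72 : (K : ℝ) ^ 72 ≤ ((ind3U K0 (i + 1) : ℕ) : ℝ) ^ 64 := by
      have e1 : ((K : ℝ) ^ (9 / 8 : ℝ)) ^ 64 = (K : ℝ) ^ 72 := by
        rw [← Real.rpow_natCast ((K : ℝ) ^ (9 / 8 : ℝ)) 64, ← Real.rpow_mul (by linarith),
          ← Real.rpow_natCast (K : ℝ) 72]
        norm_num
      rw [← e1]
      exact pow_le_pow_left₀ (Real.rpow_nonneg (by linarith) _) hgrow 64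
    have hexple : m * Real.exp (-u) ≤ B0 := by
      rw [hB0]
      refine mul_le_mul_of_nonneg_left (Real.exp_le_exp.mpr ?_) hmR.le
      linarith
    have hK72' : (1 : ℝ) ≤ (K : ℝ) ^ 72 := one_le_pow₀ (by linarith)
    have t1 : 2 * (m * Real.exp (-u)) ≤ B0 * (C * u ^ 2) ^ (i + 1) * (K : ℝ) ^ 72 * 2 := by
      have e1 : B0 * 1 ≤ B0 * ((C * u ^ 2) ^ (i + 1) * (K : ℝ) ^ 72) :=
        mul_le_mul_of_nonneg_left (by nlinarith) hB0pos.le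
      nlinarith
    have t2 : 2200 * u ^ 2 * (K : ℝ) ^ 8 * (B0 * (C * u ^ 2) ^ (i + 1) * (K : ℝ) ^ 64) =
        B0 * (C * u ^ 2) ^ (i + 1) * (K : ℝ) ^ 72 * (2200 * u ^ 2) := by ring
    have hpoly : 2 + 2200 * u ^ 2 ≤ C * u ^ 2 := by nlinarith
    rw [t2]
    calc 2 * (m * Real.exp (-u)) +
          B0 * (C * u ^ 2) ^ (i + 1) * (K : ℝ) ^ 72 * (2200 * u ^ 2)
        ≤ B0 * (C * u ^ 2) ^ (i + 1) * (K : ℝ) ^ 72 * 2 +
          B0 * (C * u ^ 2) ^ (i + 1) * (K : ℝ) ^ 72 * (2200 * u ^ 2) :=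
          add_le_add_left t1 _
      _ = B0 * (C * u ^ 2) ^ (i + 1) * (K : ℝ) ^ 72 * (2 + 2200 * u ^ 2) := by ring
      _ ≤ B0 * (C * u ^ 2) ^ (i + 1) * (K : ℝ) ^ 72 * (C * u ^ 2) :=
          mul_le_mul_of_nonneg_left hpoly (by positivity)
      _ = B0 * (C * u ^ 2) ^ (i + 1 + 1) * (K : ℝ) ^ 72 := by ring
      _ ≤ B0 * (C * u ^ 2) ^ (i + 1 + 1) * ((ind3U K0 (i + 1) : ℕ) : ℝ) ^ 64 :=
          mul_le_mul_of_nonneg_left hK72 (by positivity)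

/-! ### The base -/

private theorem ind3_base {K0 ρ0 m k v : ℕ} {η : ℤ} {L u : ℝ} (hη : η = 1 ∨ η = -1)
    (hk : 0 < k) (hkK : k ≤ K0) (hρ : 2 * K0 ≤ 2 ^ ρ0)
    (hv : ∀ i, Nat.gcd (2 ^ i) m ≤ v)
    (hm0 : 0 < m) (hL : L = Real.log m) (hu1 : 1 ≤ u)
    (hv2 : ((v * (Ex m η 2).card : ℕ) : ℝ) ≤ m * Real.exp (-(7 / 8 * u)))
    (huL : 2 * u * 2 ^ ρ0 * ρ0 ≤ L) :
    ((Ex m η k).card : ℝ) ≤
      m * Real.exp (-(7 / 8 * u)) * ((2 + 4 * (2 ^ ρ0) ^ 2 * (1 + K0) * ρ0) * u ^ 2) := by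
  have hmR : (0 : ℝ) < m := by exact_mod_cast hm0
  have hTpos : (0 : ℝ) < 2 ^ ρ0 := by positivity
  have hTone : (1 : ℝ) ≤ 2 ^ ρ0 := one_le_pow₀ (by norm_num)
  obtain ⟨b, hb⟩ : ∃ b, b = ⌈u * 2 ^ ρ0⌉₊ := ⟨_, rfl⟩
  have hbge : u * 2 ^ ρ0 ≤ b := by rw [hb]; exact Nat.le_ceil _
  have huT : 1 ≤ u * 2 ^ ρ0 := by nlinarith
  have hble : (b : ℝ) ≤ 2 * (u * 2 ^ ρ0) := by
    have h1 : (b : ℝ) < u * 2 ^ ρ0 + 1 := by
      rw [hb]
      exact Nat.ceil_lt_add_one (by positivity)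
    linarith
  have hb0 : (0 : ℝ) ≤ b := Nat.cast_nonneg b
  have hbm : (2 ^ ρ0) ^ b ≤ m := by
    have h3 : (((2 ^ ρ0) ^ b : ℕ) : ℝ) ≤ m := by
      push_cast
      rw [← Real.log_le_log_iff (by positivity) hmR, Real.log_pow, Real.log_pow, ← hL]
      have h4 : Real.log 2 ≤ 1 := by
        have := Real.log_two_lt_d9
        linarith
      have h5 : (0 : ℝ) ≤ ρ0 := Nat.cast_nonneg ρ0
      calc (b : ℝ) * (ρ0 * Real.log 2) ≤ b * (ρ0 * 1) :=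
            mul_le_mul_of_nonneg_left (mul_le_mul_of_nonneg_left h4 h5) hb0
        _ ≤ (2 * (u * 2 ^ ρ0)) * (ρ0 * 1) := mul_le_mul_of_nonneg_right hble (by linarith)
        _ = 2 * u * 2 ^ ρ0 * ρ0 := by ring
        _ ≤ L := huL
    exact_mod_cast h3
  have hmain := base_step hη hk hkK hρ hbm hv
  -- first term
  have hf : (1 - 1 / (2 : ℝ) ^ ρ0) ^ b ≤ Real.exp (-u) := by
    have h1 : (1 - 1 / (2 : ℝ) ^ ρ0) ≤ Real.exp (-(1 / (2 : ℝ) ^ ρ0)) := by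
      have := Real.add_one_le_exp (-(1 / (2 : ℝ) ^ ρ0))
      linarith
    have h0 : 0 ≤ 1 - 1 / (2 : ℝ) ^ ρ0 := by
      rw [sub_nonneg, div_le_one hTpos]
      exact hTone
    have h2 : (1 - 1 / (2 : ℝ) ^ ρ0) ^ b ≤ Real.exp (-(1 / (2 : ℝ) ^ ρ0)) ^ b :=
      pow_le_pow_left₀ h0 h1 b
    have h3 : Real.exp (-(1 / (2 : ℝ) ^ ρ0)) ^ b = Real.exp (-(b / (2 : ℝ) ^ ρ0)) := by
      rw [← Real.exp_nat_mul]
      congr 1
      ring
    rw [h3] at h2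
    refine h2.trans (Real.exp_le_exp.mpr ?_)
    have h4 : u ≤ b / (2 : ℝ) ^ ρ0 := by
      rw [le_div_iff₀ hTpos]
      exact hbge
    linarith
  have hexple : Real.exp (-u) ≤ Real.exp (-(7 / 8 * u)) := Real.exp_le_exp.mpr (by linarith)
  have t1 : 2 * (m : ℝ) * (1 - 1 / (2 : ℝ) ^ ρ0) ^ b ≤ m * Real.exp (-(7 / 8 * u)) * (2 * u ^ 2) := by
    have h1 : (1 : ℝ) ≤ u ^ 2 := one_le_pow₀ hu1
    calc 2 * (m : ℝ) * (1 - 1 / (2 : ℝ) ^ ρ0) ^ b ≤ 2 * m * Real.exp (-(7 / 8 * u)) :=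
          mul_le_mul_of_nonneg_left (hf.trans hexple) (by positivity)
      _ = m * Real.exp (-(7 / 8 * u)) * 2 * 1 := by ring
      _ ≤ m * Real.exp (-(7 / 8 * u)) * 2 * u ^ 2 := mul_le_mul_of_nonneg_left h1 (by positivity)
      _ = m * Real.exp (-(7 / 8 * u)) * (2 * u ^ 2) := by ring
  have t2 : (b : ℝ) * (1 + K0) * (ρ0 * b * (v * ((Ex m η 2).card : ℝ))) ≤
      m * Real.exp (-(7 / 8 * u)) * (4 * (2 ^ ρ0) ^ 2 * (1 + K0) * ρ0 * u ^ 2) := by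
    have hv3 : (v : ℝ) * ((Ex m η 2).card : ℝ) ≤ m * Real.exp (-(7 / 8 * u)) := by
      push_cast at hv2
      exact hv2
    have h1 : (b : ℝ) * b ≤ (2 * (u * 2 ^ ρ0)) * (2 * (u * 2 ^ ρ0)) :=
      mul_le_mul hble hble hb0 (by positivity)
    calc (b : ℝ) * (1 + K0) * (ρ0 * b * (v * ((Ex m η 2).card : ℝ)))
        = ((1 + (K0 : ℝ)) * ρ0) * (b * b) * (v * ((Ex m η 2).card : ℝ)) := by ring
      _ ≤ ((1 + (K0 : ℝ)) * ρ0) * ((2 * (u * 2 ^ ρ0)) * (2 * (u * 2 ^ ρ0))) * (m * Real.exp (-(7 / 8 * u))) := by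
          refine mul_le_mul (mul_le_mul_of_nonneg_left h1 (by positivity)) hv3 (by positivity) (by positivity)
      _ = m * Real.exp (-(7 / 8 * u)) * (4 * (2 ^ ρ0) ^ 2 * (1 + K0) * ρ0 * u ^ 2) := by ring
  calc ((Ex m η k).card : ℝ) ≤ _ := hmain
    _ ≤ m * Real.exp (-(7 / 8 * u)) * (2 * u ^ 2) +
        m * Real.exp (-(7 / 8 * u)) * (4 * (2 ^ ρ0) ^ 2 * (1 + K0) * ρ0 * u ^ 2) := add_le_add t1 t2
    _ = _ := by ring

theorem induct3 : ∃ c0 ρ1 : ℝ, 0 < c0 ∧ 0 < ρ1 ∧ ρ1 < 1 ∧ ∃ m0 : ℕ, ∀ m ≥ m0, ∀ ρ : ℝ,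
    (m : ℝ) ^ (-c0) ≤ ρ → ρ ≤ ρ1 → ∀ η : ℤ, (η = 1 ∨ η = -1) →
    (∀ i, ((Nat.gcd (2 ^ i) m : ℕ) : ℝ) ≤ ρ ^ (-(1 / 8) : ℝ)) →
    ((Ex m η 2).card : ℝ) ≤ ρ * m →
    ∀ q : ℕ, q.Prime → (q : ℝ) ≤ ρ ^ (-(1 / 640) : ℝ) → ((Ex m η q).card : ℝ) ≤ Real.sqrt ρ * m := by
  obtain ⟨K1, hK1, hround⟩ := round_step
  obtain ⟨K0, hK0def⟩ : ∃ K0, K0 = max K1 256 := ⟨_, rfl⟩
  have hK01 : K1 ≤ K0 := by rw [hK0def]; exact le_max_left _ _
  have hK0 : 256 ≤ K0 := by rw [hK0def]; exact le_max_right _ _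
  obtain ⟨ρ0, hρ0⟩ : ∃ ρ0, ρ0 = K0 + 1 := ⟨_, rfl⟩
  have hρ1 : 1 ≤ ρ0 := by omega
  have hρ : 2 * K0 ≤ 2 ^ ρ0 := by
    rw [hρ0, pow_succ, mul_comm]
    exact Nat.mul_le_mul_right _ Nat.lt_two_pow_self.le
  have hρR : (1 : ℝ) ≤ ρ0 := by exact_mod_cast hρ1
  have hρpos : (0 : ℝ) < ρ0 := by linarith
  -- the constants
  obtain ⟨C, hCdef⟩ : ∃ C : ℝ, C = 2202 + 4 * (2 ^ ρ0) ^ 2 * (1 + K0) * ρ0 := ⟨_, rfl⟩
  have hC : 2202 ≤ C := by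
    rw [hCdef]
    have : (0 : ℝ) ≤ 4 * (2 ^ ρ0) ^ 2 * (1 + K0) * ρ0 := by positivity
    linarith
  have hC1 : 2 + 4 * (2 ^ ρ0) ^ 2 * (1 + (K0 : ℝ)) * ρ0 ≤ C := by
    rw [hCdef]
    linarith
  obtain ⟨c0, hc0def⟩ : ∃ c0 : ℝ, c0 = min ((1 : ℝ) / (2 * 2 ^ ρ0 * (ρ0 : ℝ))) (1 / 35) := ⟨_, rfl⟩
  have hc0 : 0 < c0 := by
    rw [hc0def]
    exact lt_min (by positivity) (by norm_num)
  have hc35 : c0 ≤ 1 / 35 := by rw [hc0def]; exact min_le_right _ _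
  have hcT : c0 * (2 * 2 ^ ρ0 * ρ0) ≤ 1 := by
    have : c0 ≤ 1 / (2 * 2 ^ ρ0 * ρ0) := by rw [hc0def]; exact min_le_left _ _
    rwa [le_div_iff₀ (by positivity)] at this
  obtain ⟨C0, hC0⟩ : ∃ C0 : ℝ, C0 = C + 33792 ^ 2 + 640 * (K0 + 1) := ⟨_, rfl⟩
  have hK0R : (256 : ℝ) ≤ K0 := by exact_mod_cast hK0
  have hC0b : C ≤ C0 := by
    rw [hC0]
    linarith
  have hC0c : (33792 : ℝ) ^ 2 ≤ C0 := by
    rw [hC0]
    linarith
  have hC0d : 640 * ((K0 : ℝ) + 1) ≤ C0 := by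
    rw [hC0]
    linarith
  have hC0pos : 0 < C0 := by linarith
  refine ⟨c0, Real.exp (-C0), hc0, Real.exp_pos _, by
    rw [Real.exp_lt_one_iff]; linarith, ⌈Real.exp (K0 + 3)⌉₊,
    fun m hm ρ hρa hρb η hη hgcd he2 q hq hqL => ?_⟩
  have hmexp : Real.exp (K0 + 3) ≤ m := Nat.ceil_le.mp hm
  have hmR : (0 : ℝ) < m := lt_of_lt_of_le (Real.exp_pos _) hmexp
  have hm0 : 0 < m := by exact_mod_cast hmR
  obtain ⟨L, hL⟩ : ∃ L, L = Real.log m := ⟨_, rfl⟩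
  have hLK : (K0 : ℝ) + 3 ≤ L := by rw [hL]; exact (Real.le_log_iff_exp_le hmR).mpr hmexp
  have hLpos : 0 < L := by linarith
  have hρpos' : 0 < ρ := lt_of_lt_of_le (Real.rpow_pos_of_pos hmR _) hρa
  obtain ⟨u, hu⟩ : ∃ u, u = -Real.log ρ := ⟨_, rfl⟩
  have hρexp : ρ = Real.exp (-u) := by rw [hu, neg_neg, Real.exp_log hρpos']
  have huL : u ≤ c0 * L := by
    have h1 := Real.log_le_log (Real.rpow_pos_of_pos hmR _) hρa
    rw [Real.log_rpow hmR, ← hL] at h1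
    linarith
  have huC0 : C0 ≤ u := by
    have h1 := Real.log_le_log hρpos' hρb
    rw [Real.log_exp] at h1
    linarith
  have hu1 : 1 ≤ u := by linarith
  have hqL' : (q : ℝ) ≤ Real.exp (u / 640) := by
    rw [Real.rpow_def_of_pos hρpos'] at hqL
    have h1 : Real.log ρ * (-(1 / 640)) = u / 640 := by
      rw [hu]
      ring
    rwa [h1] at hqL
  have hu35 : 35 * u ≤ L := by
    have h1 : c0 * L ≤ 1 / 35 * L := mul_le_mul_of_nonneg_right hc35 hLpos.le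
    linarith
  have huT : 2 * u * 2 ^ ρ0 * ρ0 ≤ L := by
    have h1 : u * (2 * 2 ^ ρ0 * ρ0) ≤ (c0 * L) * (2 * 2 ^ ρ0 * ρ0) :=
      mul_le_mul_of_nonneg_right huL (by positivity)
    have h2 : (c0 * L) * (2 * 2 ^ ρ0 * ρ0) = (c0 * (2 * 2 ^ ρ0 * ρ0)) * L := by ring
    have h3 : (c0 * (2 * 2 ^ ρ0 * ρ0)) * L ≤ 1 * L := mul_le_mul_of_nonneg_right hcT hLpos.le
    have h4 : 2 * u * 2 ^ ρ0 * ρ0 = u * (2 * 2 ^ ρ0 * ρ0) := by ring
    rw [h4]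
    linarith
  obtain ⟨v, hvdef⟩ : ∃ v : ℕ, v = ⌊ρ ^ (-(1 / 8) : ℝ)⌋₊ := ⟨_, rfl⟩
  have hv : ∀ i, Nat.gcd (2 ^ i) m ≤ v := fun i => by
    rw [hvdef]
    exact Nat.le_floor (hgcd i)
  have hv2 : ((v * (Ex m η 2).card : ℕ) : ℝ) ≤ m * Real.exp (-(7 / 8 * u)) := by
    have h1 : (v : ℝ) ≤ ρ ^ (-(1 / 8) : ℝ) := by
      rw [hvdef]
      exact Nat.floor_le (Real.rpow_nonneg hρpos'.le _)
    have h2 : ρ ^ (-(1 / 8) : ℝ) = Real.exp (u / 8) := by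
      rw [Real.rpow_def_of_pos hρpos', hu]
      congr 1
      ring
    push_cast
    calc (v : ℝ) * ((Ex m η 2).card : ℝ) ≤ Real.exp (u / 8) * (Real.exp (-u) * m) := by
          rw [← h2, ← hρexp]
          exact mul_le_mul h1 he2 (Nat.cast_nonneg _) (Real.rpow_nonneg hρpos'.le _)
      _ = m * (Real.exp (u / 8) * Real.exp (-u)) := by ring
      _ = m * Real.exp (-(7 / 8 * u)) := by
          rw [← Real.exp_add]
          congr 2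
          ring
  have hbase : ∀ q : ℕ, q.Prime → q ≤ K0 →
      ((Ex m η q).card : ℝ) ≤ m * Real.exp (-(7 / 8 * u)) * (C * u ^ 2) := by
    intro q hq hqK
    refine (ind3_base hη hq.pos hqK hρ hv hm0 hL hu1 hv2 huT).trans ?_
    refine mul_le_mul_of_nonneg_left (mul_le_mul_of_nonneg_right hC1 (by positivity)) (by positivity)
  have hclaim := ind3_claim (K0 := K0) (m := m) (v := v) (η := η) (L := L) (u := u) (C := C) hK0
    (fun K hK k ρ b e hk h4 h6 hb hb1 he hq =>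
      hround K (hK01.trans hK) m k v ρ b e η hη hk h4 h6 hb hb1 hv he hq)
    hm0 hL hu1 hu35 hC hv2 hbase
  -- the last index
  have hupos : ∀ j, (0 : ℝ) < ((ind3U K0 j : ℕ) : ℝ) := fun j => by
    have : (256 : ℝ) ≤ ((ind3U K0 j : ℕ) : ℝ) := by exact_mod_cast hK0.trans (ind3_ge hK0 j)
    linarith
  have hex : ∃ j, Real.exp (u / 640) ≤ ((ind3U K0 j : ℕ) : ℝ) := by
    obtain ⟨j, hj⟩ := pow_unbounded_of_one_lt (u / 640) (by norm_num : (1 : ℝ) < 9 / 8)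
    refine ⟨j, ?_⟩
    have h1 := ind3_log hK0 j
    rw [← Real.le_log_iff_exp_le (hupos j)]
    exact hj.le.trans h1
  classical
  obtain ⟨j, hj, hjmin⟩ : ∃ j, Real.exp (u / 640) ≤ ((ind3U K0 j : ℕ) : ℝ) ∧
      ∀ i < j, ((ind3U K0 i : ℕ) : ℝ) < Real.exp (u / 640) :=
    ⟨Nat.find hex, Nat.find_spec hex, fun i hi => not_le.mp (Nat.find_min hex hi)⟩
  have hj0 : j ≠ 0 := by
    rintro rfl
    have h1 : ((ind3U K0 0 : ℕ) : ℝ) = (K0 : ℝ) := rfl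
    rw [h1] at hj
    have h2 := Real.add_one_le_exp (u / 640)
    linarith
  obtain ⟨i, rfl⟩ : ∃ i, j = i + 1 := Nat.exists_eq_succ_of_ne_zero hj0
  have hi := hjmin i (Nat.lt_succ_self i)
  have hlogK : ∀ j' < i + 1, Real.log ((ind3U K0 j' : ℕ) : ℝ) ≤ u / 640 := by
    intro j' hj'
    have h1 := Real.log_le_log (hupos j') (hjmin j' hj').le
    rw [Real.log_exp] at h1
    exact h1
  have hq' := hclaim (i + 1) (fun j' hj' => (hlogK j' hj').trans (by linarith)) q hq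
    (by exact_mod_cast hqL'.trans hj)
  -- the number of steps
  have hlogu1 : 1 ≤ Real.log u := by
    have h2 : Real.exp 1 ≤ u := by
      have := Real.exp_one_lt_d9
      linarith
    exact (Real.le_log_iff_exp_le (by linarith)).mpr h2
  have hiu : (i : ℝ) ≤ 9 * Real.log u := by
    have h2 := ind3_log hK0 i
    have h3 := hlogK i (Nat.lt_succ_self i)
    have h4 : (9 / 8 : ℝ) ^ i ≤ u := by linarith
    have h5 := Real.log_le_log (by positivity) h4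
    rw [Real.log_pow] at h5
    have h6 : (1 / 9 : ℝ) ≤ Real.log (9 / 8) := by
      have h7 := Real.one_sub_inv_le_log_of_pos (by norm_num : (0 : ℝ) < 9 / 8)
      norm_num at h7
      linarith
    have h7 : (0 : ℝ) ≤ i := Nat.cast_nonneg i
    nlinarith
  have hlogu4 : Real.log u ≤ 4 * u ^ (1 / 4 : ℝ) := by
    have h2 := Real.log_le_rpow_div (by linarith : (0 : ℝ) ≤ u) (by norm_num : (0 : ℝ) < 1 / 4)
    linarith
  have hloglog : 33 * (Real.log u * Real.log u) ≤ u / 64 := by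
    have h2 : Real.log u * Real.log u ≤ (4 * u ^ (1 / 4 : ℝ)) * (4 * u ^ (1 / 4 : ℝ)) :=
      mul_le_mul hlogu4 hlogu4 (by linarith) (by positivity)
    have h3 : u ^ (1 / 4 : ℝ) * u ^ (1 / 4 : ℝ) = Real.sqrt u := by
      rw [← Real.rpow_add (by linarith), Real.sqrt_eq_rpow]
      norm_num
    have h4 : (33792 : ℝ) ≤ Real.sqrt u := Real.le_sqrt_of_sq_le (hC0c.trans huC0)
    have h5 : Real.sqrt u * Real.sqrt u = u := Real.mul_self_sqrt (by linarith)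
    have h6 : 0 ≤ Real.sqrt u := Real.sqrt_nonneg _
    nlinarith
  have hCpow : (C * u ^ 2) ^ (i + 1 + 1) ≤ Real.exp (u / 64) := by
    have hCpos : 0 < C := by linarith
    have h2 : (C * u ^ 2) ^ (i + 1 + 1) = Real.exp (((i + 1 + 1 : ℕ) : ℝ) * (Real.log C + 2 * Real.log u)) := by
      have h3 : C * u ^ 2 = Real.exp (Real.log C + 2 * Real.log u) := by
        rw [Real.exp_add, Real.exp_log hCpos, two_mul, Real.exp_add, Real.exp_log (by linarith)]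
        ring
      rw [h3, ← Real.exp_nat_mul]
    rw [h2]
    apply Real.exp_le_exp.mpr
    have h4 : Real.log C ≤ Real.log u := Real.log_le_log hCpos (hC0b.trans huC0)
    have h5 : ((i + 1 + 1 : ℕ) : ℝ) ≤ 11 * Real.log u := by
      push_cast
      linarith
    have h6 : 0 ≤ Real.log C + 2 * Real.log u := by
      have : 0 ≤ Real.log C := Real.log_nonneg (by linarith)
      linarith
    calc ((i + 1 + 1 : ℕ) : ℝ) * (Real.log C + 2 * Real.log u)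
        ≤ (11 * Real.log u) * (3 * Real.log u) :=
          mul_le_mul h5 (by linarith) h6 (by linarith)
      _ = 33 * (Real.log u * Real.log u) := by ring
      _ ≤ u / 64 := hloglog
  have hU : ((ind3U K0 (i + 1) : ℕ) : ℝ) ^ 64 ≤ Real.exp (u / 8) := by
    have h1 : ((ind3U K0 (i + 1) : ℕ) : ℝ) ≤ ((ind3U K0 i : ℕ) : ℝ) ^ (5 / 4 : ℝ) :=
      Nat.floor_le (Real.rpow_nonneg (hupos i).le _)
    have h2 := Real.log_le_log (hupos (i + 1)) h1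
    rw [Real.log_rpow (hupos i)] at h2
    have h3 := hlogK i (Nat.lt_succ_self i)
    rw [← Real.exp_log (hupos (i + 1)), ← Real.exp_nat_mul]
    apply Real.exp_le_exp.mpr
    push_cast
    linarith
  have hsqrt : Real.sqrt ρ = Real.exp (-(u / 2)) := by
    rw [hρexp, Real.sqrt_eq_rpow, ← Real.exp_mul]
    congr 1
    ring
  rw [hsqrt]
  calc ((Ex m η q).card : ℝ)
      ≤ m * Real.exp (-(7 / 8 * u)) * (C * u ^ 2) ^ (i + 1 + 1) * ((ind3U K0 (i + 1) : ℕ) : ℝ) ^ 64 := hq'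
    _ ≤ m * Real.exp (-(7 / 8 * u)) * Real.exp (u / 64) * Real.exp (u / 8) := by
        have e1 : 0 ≤ (m : ℝ) * Real.exp (-(7 / 8 * u)) := mul_nonneg hmR.le (Real.exp_pos _).le
        have e2 : 0 ≤ ((ind3U K0 (i + 1) : ℕ) : ℝ) ^ 64 := pow_nonneg (Nat.cast_nonneg _) _
        have e3 : 0 ≤ (m : ℝ) * Real.exp (-(7 / 8 * u)) * Real.exp (u / 64) := mul_nonneg e1 (Real.exp_pos _).le
        exact mul_le_mul (mul_le_mul_of_nonneg_left hCpow e1) hU e2 e3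
    _ = m * Real.exp (-(7 / 8 * u) + u / 64 + u / 8) := by
        rw [Real.exp_add, Real.exp_add]
        ring
    _ ≤ m * Real.exp (-(u / 2)) := by
        refine mul_le_mul_of_nonneg_left (Real.exp_le_exp.mpr ?_) hmR.le
        linarith
    _ = Real.exp (-(u / 2)) * m := by ring

end Pool.Agent.H11.LQ
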