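import Pool.Agent.H91.EHA.SwD3

/-!
# LQ stage 2, module LNear: a Lipschitz bound for `L (s, ψ)` to the left of `s = 1`

Let `l = log (2 N)` (`N ≥ 2` as `ψ ≠ 1`, so `l > 1.38`).
* Line `Re s = 1`: `‖L(s)‖ ≤ C log (N (|Im s| + 2))`, the limit of `Pool.Agent.H91.EHA.Lk_le 0` and `Lk_zero_eq`
  (as in `swd3_upper` of H91/EHA/SwD3, which is the case `s = 1`); also for `1 < Re s ≤ 2`.
* Line `Re s = 1/2`: `‖L(s)‖ ≤ C N ‖s‖` (`Pool.Agent.H91.EHA.LF_le`, valid for `Re s ≥ 1/2`).
* Hadamard three lines (`Complex.HadamardThreeLines`, e.g. `norm_le_interpStrip_of_mem_verticalClosedStrip'`) for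
  `f s = L(s) / (s + 1) ^ 2` on `1/2 ≤ Re s ≤ 1`: `‖f‖ ≤ C N` on the left line, `‖f‖ ≤ C l` on the right line (`log (N (t + 2))
  ≤ log (2 N) (t + 2)`), so for `Re s ≥ 1 - 1/(4 l)`: `‖f s‖ ≤ (C N) ^ (1/(2 l)) (C l) ≤ C' l`, and `‖L(s)‖ ≤ C'' l` for
  `Re s ∈ [1 - 1/(4 l), 2]`, `|Im s| ≤ 1`.
* Cauchy's estimate on discs of radius `1/(8 l)` (`Complex.norm_deriv_le_of_forall_mem_sphere_norm_le`): `‖L'(x)‖ ≤ C l ^ 2` for
  real `x ∈ [1 - 1/(8 l), 1]`, and the mean value inequality on the segment.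
-/

set_option autoImplicit false

namespace Pool.Agent.H11.LQ

open Finset

private theorem lnear_two {N : ℕ} [NeZero N] (ψ : DirichletCharacter ℂ N) (hψ : ψ ≠ 1) : 2 ≤ N := by
  rcases Nat.lt_or_ge N 2 with h | h
  · exfalso
    have hN0 : N ≠ 0 := NeZero.ne N
    have hN1 : N = 1 := by omega
    exact hψ (DirichletCharacter.level_one' ψ hN1)
  · exact h

private theorem lnear_log {N : ℕ} (hN : 2 ≤ N) : 1 ≤ Real.log (2 * N) := by
  have h2 : (2 : ℝ) ≤ N := by exact_mod_cast hN
  rw [Real.le_log_iff_exp_le (by linarith)]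
  have := Real.exp_one_lt_d9
  linarith

/-- the bound for `1 ≤ Re s ≤ 2` -/
private theorem lnear_right : ∃ C : ℝ, 1 ≤ C ∧ ∀ (N : ℕ) [NeZero N] (ψ : DirichletCharacter ℂ N),
    ψ ≠ 1 → ∀ s : ℂ, 1 ≤ s.re → s.re ≤ 2 →
      ‖DirichletCharacter.LFunction ψ s‖ ≤ C * Real.log (2 * N) * (|s.im| + 2) := by
  obtain ⟨C, hC, hL⟩ := Pool.Agent.H91.EHA.Lk_le 0
  refine ⟨C + 1, by linarith, ?_⟩
  intro N _ ψ hψ
  have hN2 := lnear_two ψ hψ
  have hl := lnear_log hN2
  have hNR : (2 : ℝ) ≤ N := by exact_mod_cast hN2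
  have key : ∀ s : ℂ, 1 < s.re → s.re ≤ 2 →
      ‖DirichletCharacter.LFunction ψ s‖ ≤ C * Real.log (2 * N) * (|s.im| + 2) := by
    intro s hs1 hs2
    have h1 := hL N hN2 ψ hψ s hs1 hs2
    rw [Pool.Agent.H91.EHA.Lk_zero_eq N ψ _ hs1] at h1
    simp only [zero_add, pow_one] at h1
    have ht := abs_nonneg s.im
    have e1 : (N : ℝ) * (|s.im| + 2) = (2 * N) * (1 + |s.im| / 2) := by ring
    have h2 : Real.log ((N : ℝ) * (|s.im| + 2)) ≤ Real.log (2 * N) * (|s.im| + 2) := by
      rw [e1, Real.log_mul (by positivity) (by positivity)]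
      have h3 := Real.log_le_sub_one_of_pos (show 0 < 1 + |s.im| / 2 by positivity)
      nlinarith
    calc ‖DirichletCharacter.LFunction ψ s‖ ≤ C * Real.log ((N : ℝ) * (|s.im| + 2)) := h1
      _ ≤ C * (Real.log (2 * N) * (|s.im| + 2)) := mul_le_mul_of_nonneg_left h2 hC.le
      _ = C * Real.log (2 * N) * (|s.im| + 2) := by ring
  intro s hs1 hs2
  have hle : C * Real.log (2 * N) * (|s.im| + 2) ≤ (C + 1) * Real.log (2 * N) * (|s.im| + 2) := by
    have := abs_nonneg s.im
    have h3 : 0 ≤ Real.log (2 * N) * (|s.im| + 2) := by positivity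
    nlinarith
  refine le_trans ?_ hle
  rcases hs1.lt_or_eq with h | h
  · exact key s h hs2
  · -- the limit from the right
    have hcont : Continuous (fun x : ℝ => ‖DirichletCharacter.LFunction ψ (s + (x : ℂ))‖) :=
      ((DirichletCharacter.differentiable_LFunction hψ).continuous.comp
        (continuous_const.add Complex.continuous_ofReal)).norm
    have ht : Filter.Tendsto (fun x : ℝ => ‖DirichletCharacter.LFunction ψ (s + (x : ℂ))‖)
        (nhdsWithin 0 (Set.Ioi 0)) (nhds ‖DirichletCharacter.LFunction ψ (s + ((0 : ℝ) : ℂ))‖) :=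
      (hcont.tendsto 0).mono_left nhdsWithin_le_nhds
    rw [Complex.ofReal_zero, add_zero] at ht
    apply le_of_tendsto ht
    have hev : ∀ᶠ x : ℝ in nhdsWithin 0 (Set.Ioi 0), x < 1 := by
      apply Filter.Eventually.filter_mono nhdsWithin_le_nhds
      exact (isOpen_Iio (a := (1 : ℝ))).mem_nhds (by norm_num)
    filter_upwards [hev, self_mem_nhdsWithin] with x hx2 hx1
    have hx1' : (0 : ℝ) < x := hx1
    have hre : (s + (x : ℂ)).re = s.re + x := by simp
    have him : (s + (x : ℂ)).im = s.im := by simp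
    have h1 := key (s + (x : ℂ)) (by rw [hre]; linarith) (by rw [hre]; linarith)
    rw [him] at h1
    exact h1

/-- the bound near the point `1` -/
private theorem lnear_box : ∃ C : ℝ, 1 ≤ C ∧ ∀ (N : ℕ) [NeZero N] (ψ : DirichletCharacter ℂ N),
    ψ ≠ 1 → ∀ s : ℂ, 1 - 1 / (4 * Real.log (2 * N)) ≤ s.re → s.re ≤ 2 → |s.im| ≤ 1 →
      ‖DirichletCharacter.LFunction ψ s‖ ≤ C * Real.log (2 * N) := by
  obtain ⟨C1, hC1, hR⟩ := lnear_right
  obtain ⟨C2, hC2, hF⟩ := Pool.Agent.H91.EHA.LF_le
  have he := Real.exp_one_gt_d9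
  refine ⟨5 * (C2 * Real.exp 1) * (3 * C1), ?_, ?_⟩
  · have h1 : 1 ≤ C2 * Real.exp 1 := by nlinarith
    nlinarith
  intro N _ ψ hψ s hs1 hs2 hs3
  have hN2 := lnear_two ψ hψ
  have hl := lnear_log hN2
  have hNR : (2 : ℝ) ≤ N := by exact_mod_cast hN2
  set l := Real.log (2 * N) with hldef
  have h1 : 1 ≤ C2 * Real.exp 1 := by nlinarith
  rcases le_total 1 s.re with h | h
  · have h2 := hR N ψ hψ s h hs2
    have h3 : C1 * l * (|s.im| + 2) ≤ C1 * l * 3 := by
      apply mul_le_mul_of_nonneg_left _ (by positivity)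
      linarith
    have h4 : C1 * l * 3 ≤ 5 * (C2 * Real.exp 1) * (3 * C1) * l := by
      have h5 : 0 ≤ C1 * l := by positivity
      nlinarith [mul_le_mul_of_nonneg_left h1 h5]
    linarith
  · -- three lines
    have hl4 : 1 / (4 * l) ≤ 1 / 4 := by
      apply div_le_div_of_nonneg_left (by norm_num) (by norm_num)
      linarith
    have hs0 : 1 / 2 ≤ s.re := by linarith
    obtain ⟨f, hf⟩ : ∃ f : ℂ → ℂ, ∀ z, f z = DirichletCharacter.LFunction ψ z / (z + 1) ^ 2 := ⟨_, fun _ => rfl⟩
    have hne : ∀ z : ℂ, 0 ≤ z.re → 1 ≤ ‖z + 1‖ := by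
      intro z hz
      have h2 := Complex.abs_re_le_norm (z + 1)
      rw [Complex.add_re, Complex.one_re, abs_of_nonneg (by linarith)] at h2
      linarith
    have hzz : ∀ z : ℂ, 0 ≤ z.re → ‖z‖ ≤ ‖z + 1‖ := by
      intro z hz
      rw [← sq_le_sq₀ (norm_nonneg _) (norm_nonneg _), ← Complex.normSq_eq_norm_sq,
        ← Complex.normSq_eq_norm_sq, Complex.normSq_apply, Complex.normSq_apply, Complex.add_re,
        Complex.add_im, Complex.one_re, Complex.one_im]
      nlinarith
    have hfb : ∀ z : ℂ, 1 / 2 ≤ z.re → ‖f z‖ ≤ C2 * N := by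
      intro z hz
      have h2 := hF N ψ hψ z hz
      have h3 := hne z (by linarith)
      have h4 := hzz z (by linarith)
      rw [hf, norm_div, norm_pow, div_le_iff₀ (by positivity)]
      calc ‖DirichletCharacter.LFunction ψ z‖ ≤ C2 * N * ‖z‖ := h2
        _ ≤ C2 * N * ‖z + 1‖ ^ 2 := by
            apply mul_le_mul_of_nonneg_left _ (by positivity)
            nlinarith
    have hd : Differentiable ℂ (DirichletCharacter.LFunction ψ) :=
      DirichletCharacter.differentiable_LFunction hψ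
    have hdf : ∀ z : ℂ, 0 ≤ z.re → DifferentiableAt ℂ f z := by
      intro z hz
      have e : f = fun z => DirichletCharacter.LFunction ψ z / (z + 1) ^ 2 := funext hf
      rw [e]
      refine (hd z).div (by fun_prop) ?_
      apply pow_ne_zero
      intro h0
      have := hne z hz
      rw [h0, norm_zero] at this
      linarith
    have hdc : DiffContOnCl ℂ f (Complex.HadamardThreeLines.verticalStrip (1 / 2) 1) := by
      refine DifferentiableOn.diffContOnCl fun z hz => (hdf z ?_).differentiableWithinAt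
      have h2 : closure (Complex.HadamardThreeLines.verticalStrip (1 / 2) 1) ⊆
          {z : ℂ | 1 / 2 ≤ z.re} := by
        apply closure_minimal
        · intro w hw
          exact (Set.mem_preimage.mp hw).1.le
        · exact isClosed_le continuous_const Complex.continuous_re
      have h3 : 1 / 2 ≤ z.re := h2 hz
      linarith
    have hB : BddAbove ((norm ∘ f) '' Complex.HadamardThreeLines.verticalClosedStrip (1 / 2) 1) := by
      refine ⟨C2 * N, ?_⟩
      rintro _ ⟨z, hz, rfl⟩
      exact hfb z (Set.mem_preimage.mp hz).1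
    have hT := Complex.HadamardThreeLines.norm_le_interp_of_mem_verticalClosedStrip' (f := f) (z := s)
      (a := C2 * N) (b := C1 * l) (l := 1 / 2) (u := 1) (by norm_num)
      (Set.mem_preimage.mpr ⟨hs0, h⟩) hdc hB
      (fun z hz => hfb z (by
        have h2 : z.re = 1 / 2 := hz
        rw [h2]))
      (fun z hz => by
        have h2 : z.re = 1 := hz
        have h3 := hR N ψ hψ z h2.ge (by rw [h2]; norm_num)
        have h4 : ‖z + 1‖ ^ 2 = 4 + z.im ^ 2 := by
          rw [← Complex.normSq_eq_norm_sq, Complex.normSq_apply, Complex.add_re,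
            Complex.add_im, Complex.one_re, Complex.one_im, h2]
          ring
        rw [hf, norm_div, norm_pow, h4, div_le_iff₀ (by positivity)]
        refine le_trans h3 ?_
        apply mul_le_mul_of_nonneg_left _ (by positivity)
        rw [← sq_abs z.im]
        nlinarith [sq_nonneg (|z.im| - 1), abs_nonneg z.im])
    have e2 : (s.re - 1 / 2) / (1 - 1 / 2) = 2 * s.re - 1 := by ring
    rw [e2] at hT
    have hp1 : (C2 * N : ℝ) ^ (1 - (2 * s.re - 1)) ≤ C2 * Real.exp 1 := by
      have hb1 : 1 ≤ C2 * (N : ℝ) := by nlinarith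
      have h2 : 1 - (2 * s.re - 1) ≤ 1 / (2 * l) := by
        have h3 : 1 / (2 * l) = 2 * (1 / (4 * l)) := by
          field_simp
          norm_num
        rw [h3]
        linarith
      refine (Real.rpow_le_rpow_of_exponent_le hb1 h2).trans ?_
      rw [Real.mul_rpow (by positivity) (by positivity)]
      have h3 : C2 ^ (1 / (2 * l)) ≤ C2 := by
        calc C2 ^ (1 / (2 * l)) ≤ C2 ^ (1 : ℝ) := by
              apply Real.rpow_le_rpow_of_exponent_le hC2
              rw [div_le_one (by positivity)]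
              linarith
          _ = C2 := Real.rpow_one _
      have h4 : (N : ℝ) ^ (1 / (2 * l)) ≤ Real.exp 1 := by
        rw [Real.rpow_def_of_pos (by positivity)]
        apply Real.exp_le_exp.mpr
        rw [mul_one_div, div_le_one (by positivity)]
        have h5 : Real.log N ≤ l := by
          rw [hldef]
          apply Real.log_le_log (by positivity)
          linarith
        linarith
      exact mul_le_mul h3 h4 (by positivity) (by linarith)
    have hp2 : (C1 * l : ℝ) ^ (2 * s.re - 1) ≤ C1 * l := by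
      have hb1 : 1 ≤ C1 * l := by nlinarith
      calc (C1 * l : ℝ) ^ (2 * s.re - 1) ≤ (C1 * l) ^ (1 : ℝ) := by
            apply Real.rpow_le_rpow_of_exponent_le hb1
            linarith
        _ = C1 * l := Real.rpow_one _
    have h2 : ‖f s‖ ≤ C2 * Real.exp 1 * (C1 * l) :=
      hT.trans (mul_le_mul hp1 hp2 (by positivity) (by positivity))
    have h3 : ‖s + 1‖ ^ 2 ≤ 5 := by
      rw [← Complex.normSq_eq_norm_sq, Complex.normSq_apply, Complex.add_re,
        Complex.add_im, Complex.one_re, Complex.one_im]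
      have h4 : s.im * s.im ≤ 1 := by
        rw [← abs_mul_abs_self s.im]
        nlinarith [abs_nonneg s.im]
      nlinarith
    have h4 : ‖DirichletCharacter.LFunction ψ s‖ = ‖f s‖ * ‖s + 1‖ ^ 2 := by
      have h5 := hne s (by linarith)
      rw [hf, norm_div, norm_pow]
      field_simp
    rw [h4]
    have h5 : 0 ≤ C2 * Real.exp 1 * (C1 * l) := by positivity
    calc ‖f s‖ * ‖s + 1‖ ^ 2 ≤ C2 * Real.exp 1 * (C1 * l) * 5 :=
          mul_le_mul h2 h3 (by positivity) h5
      _ ≤ 5 * (C2 * Real.exp 1) * (3 * C1) * l := by nlinarith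

theorem L_near : ∃ C : ℝ, 1 ≤ C ∧ ∀ (N : ℕ) [NeZero N] (ψ : DirichletCharacter ℂ N), ψ ≠ 1 →
    ∀ x : ℝ, 1 - 1 / (8 * Real.log (2 * N)) ≤ x → x ≤ 1 →
      ‖DirichletCharacter.LFunction ψ 1 - DirichletCharacter.LFunction ψ (x : ℂ)‖ ≤
        C * (1 - x) * Real.log (2 * N) ^ 2 := by
  obtain ⟨C, hC, hbox⟩ := lnear_box
  refine ⟨8 * C, by linarith, ?_⟩
  intro N _ ψ hψ x hx hx1
  have hN2 := lnear_two ψ hψ
  have hl := lnear_log hN2
  set l := Real.log (2 * N) with hldef
  have hr : 0 < 1 / (8 * l) := by positivity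
  have hr1 : 1 / (8 * l) ≤ 1 / 8 := by
    apply div_le_div_of_nonneg_left (by norm_num) (by norm_num)
    linarith
  have e4 : 1 / (4 * l) = 2 * (1 / (8 * l)) := by
    field_simp
    norm_num
  have hd : Differentiable ℂ (DirichletCharacter.LFunction ψ) :=
    DirichletCharacter.differentiable_LFunction hψ
  have hder : ∀ y : ℝ, 1 - 1 / (8 * l) ≤ y → y ≤ 1 →
      ‖deriv (DirichletCharacter.LFunction ψ) (y : ℂ)‖ ≤ 8 * C * l ^ 2 := by
    intro y hy hy1
    have h1 := Complex.norm_deriv_le_of_forall_mem_sphere_norm_le (c := (y : ℂ)) (R := 1 / (8 * l))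
      (C := C * l) (f := DirichletCharacter.LFunction ψ) hr hd.diffContOnCl (fun z hz => by
        have h2 : ‖z - (y : ℂ)‖ = 1 / (8 * l) := by
          rw [← dist_eq_norm]
          exact Metric.mem_sphere.mp hz
        have h3 := Complex.abs_re_le_norm (z - (y : ℂ))
        have h4 := Complex.abs_im_le_norm (z - (y : ℂ))
        rw [h2] at h3 h4
        simp only [Complex.sub_re, Complex.sub_im, Complex.ofReal_re, Complex.ofReal_im, sub_zero] at h3 h4
        have h5 := abs_le.mp h3
        apply hbox N ψ hψ z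
        · rw [← hldef, e4]
          linarith [h5.1]
        · linarith [h5.2]
        · linarith)
    refine h1.trans (le_of_eq ?_)
    field_simp
  have hmv := Convex.norm_image_sub_le_of_norm_deriv_le (𝕜 := ℂ) (f := DirichletCharacter.LFunction ψ)
    (C := 8 * C * l ^ 2) (s := segment ℝ (x : ℂ) 1) (x := (x : ℂ)) (y := 1)
    (fun z _ => hd z) (fun z hz => by
      obtain ⟨a, b, ha, hb, hab, rfl⟩ := hz
      have e : a • (x : ℂ) + b • (1 : ℂ) = ((a * x + b : ℝ) : ℂ) := by
        rw [Complex.real_smul, Complex.real_smul]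
        push_cast
        ring
      rw [e]
      have hb' : b = 1 - a := by linarith
      apply hder
      · rw [hb']
        nlinarith
      · rw [hb']
        nlinarith) (convex_segment _ _) (left_mem_segment _ _ _) (right_mem_segment _ _ _)
  refine hmv.trans (le_of_eq ?_)
  have e : (1 : ℂ) - (x : ℂ) = ((1 - x : ℝ) : ℂ) := by push_cast; ring
  rw [e, Complex.norm_real, Real.norm_of_nonneg (by linarith)]
  ring

end Pool.Agent.H11.LQ
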