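import Pool.Agent.H11.LQ.LNear

/-!
# LQ stage 2, module Page: two real characters (Landau, Page)

Let `l = log (2 N)`, `F s = L(s,χ1) L(s,χ2) L(s,χ1 χ2)` (real for real `s`, `F 1 > 0`: private lemmas `swd3_im`, `swd3_pos`,
`swd3_triv`, `swd3_upper` of H91/EHA/SwD3 may be copied), `estermann`: for `7/8 < s < 1`
`1/2 - C N ^ (C (1 - s)) / (1 - s) * φ(N)/N * F 1 ≤ Re (L(s,1) F s)`, and `L(s, 1) < 0` for `s` close to `1` (`swd3_zeta`, `swd3_triv`).
Put `s0 = 1 - η / l`, `η > 0` small and fixed, so `N ^ (C (1 - s)) ≤ e ^ (C η)` for `s ≥ s0`.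
* If none of the three functions has a zero in `[s0, 1)`, all three are `> 0` at `s0` (`swd3_pos`), so the right side is `≤ 0` at `s0`
  and `F 1 ≥ c / l`; as `‖L(1,ψ)‖ ≤ C2 l` (`swd3_upper`) this gives `‖L(1,χ1)‖ ‖L(1,χ2)‖ ≥ c / l ^ 2`, so the maximum is
  `≥ c / l` (if `c ≤ 1`) and so `≥ c / l ^ 3`.
* If one of the three functions, `ψ`, has a zero `s ∈ [s0, 1)`: the right side is `0` at `s`, so `(1 - s) ≤ C' F 1`, and by `L_near`
  `‖L(1,ψ)‖ ≤ C (1 - s) l ^ 2 ≤ C'' l ^ 2 ‖L(1,ψ)‖ * (product of the other two)`; divide by `‖L(1,ψ)‖ > 0`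
  (`DirichletCharacter.LFunction_apply_one_ne_zero`): the product of the other two is `≥ c / l ^ 2`.  If `ψ = χ1 χ2` this is
  `‖L(1,χ1)‖ ‖L(1,χ2)‖ ≥ c / l ^ 2`; if `ψ = χ1` it is `‖L(1,χ2)‖ C2 l ≥ c / l ^ 2`; in the same way for `ψ = χ2`.
-/

set_option autoImplicit false

namespace Pool.Agent.H11.LQ

open Finset
open Pool.Agent.H91.EHA
open Pool.Agent.H91.PK

private theorem page_val {N : ℕ} (ψ : DirichletCharacter ℂ N) (h : ψ ^ 2 = 1) (a : ZMod N) :
    (starRingEnd ℂ) (ψ a) = ψ a := by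
  by_cases ha : IsUnit a
  · have h1 : (ψ a) ^ 2 = 1 := by
      have h2 := congrArg (fun f : DirichletCharacter ℂ N => f a) h
      rw [MulChar.pow_apply' _ two_ne_zero, MulChar.one_apply ha] at h2
      exact h2
    have h2 : (ψ a - 1) * (ψ a + 1) = 0 := by
      have : (ψ a - 1) * (ψ a + 1) = ψ a ^ 2 - 1 := by ring
      rw [this, h1, sub_self]
    rcases mul_eq_zero.mp h2 with h3 | h3
    · rw [sub_eq_zero.mp h3, map_one]
    · rw [eq_neg_of_add_eq_zero_left h3, map_neg, map_one]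
  · rw [MulChar.map_nonunit _ ha, map_zero]

private theorem page_conj_series {N : ℕ} (ψ : DirichletCharacter ℂ N) (h : ψ ^ 2 = 1) (s : ℂ) :
    (starRingEnd ℂ) (LSeries (fun n => ψ n) ((starRingEnd ℂ) s)) = LSeries (fun n => ψ n) s := by
  unfold LSeries
  rw [Complex.conj_tsum]
  apply tsum_congr
  intro n
  by_cases hn : n = 0
  · subst hn
    simp [LSeries.term_zero]
  · rw [LSeries.term_of_ne_zero hn, LSeries.term_of_ne_zero hn, map_div₀, page_val ψ h]
    congr 1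
    have h1 : ((n : ℂ)).arg ≠ Real.pi := by
      rw [Complex.natCast_arg]
      exact Real.pi_pos.ne
    rw [← Complex.conj_cpow _ _ h1, Complex.conj_natCast]

private theorem page_conj {N : ℕ} [NeZero N] (ψ : DirichletCharacter ℂ N) (h : ψ ^ 2 = 1)
    (h1 : ψ ≠ 1) (s : ℂ) :
    (starRingEnd ℂ) (DirichletCharacter.LFunction ψ ((starRingEnd ℂ) s)) =
      DirichletCharacter.LFunction ψ s := by
  have hd : Differentiable ℂ (DirichletCharacter.LFunction ψ) :=
    DirichletCharacter.differentiable_LFunction h1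
  have hd2 : Differentiable ℂ
      ((starRingEnd ℂ) ∘ DirichletCharacter.LFunction ψ ∘ (starRingEnd ℂ)) := by
    intro z
    rw [differentiableAt_conj_conj_iff]
    exact hd _
  have hA : AnalyticOnNhd ℂ (DirichletCharacter.LFunction ψ) Set.univ :=
    fun z _ => hd.analyticAt z
  have hB : AnalyticOnNhd ℂ
      ((starRingEnd ℂ) ∘ DirichletCharacter.LFunction ψ ∘ (starRingEnd ℂ)) Set.univ :=
    fun z _ => hd2.analyticAt z
  have hev : ((starRingEnd ℂ) ∘ DirichletCharacter.LFunction ψ ∘ (starRingEnd ℂ)) =ᶠ[nhds 2]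
      DirichletCharacter.LFunction ψ := by
    have hopen : {z : ℂ | 1 < z.re} ∈ nhds (2 : ℂ) := by
      apply (isOpen_lt continuous_const Complex.continuous_re).mem_nhds
      simp
    filter_upwards [hopen] with z hz
    have hz1 : 1 < z.re := hz
    have hz' : 1 < ((starRingEnd ℂ) z).re := by rw [Complex.conj_re]; exact hz1
    simp only [Function.comp_apply]
    rw [DirichletCharacter.LFunction_eq_LSeries ψ hz', DirichletCharacter.LFunction_eq_LSeries ψ hz1]
    exact page_conj_series ψ h z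
  have := hB.eq_of_eventuallyEq hA hev
  exact congrFun this s

private theorem page_im {N : ℕ} [NeZero N] (ψ : DirichletCharacter ℂ N) (h : ψ ^ 2 = 1)
    (h1 : ψ ≠ 1) (x : ℝ) : (DirichletCharacter.LFunction ψ (x : ℂ)).im = 0 := by
  have h2 := page_conj ψ h h1 (x : ℂ)
  rw [Complex.conj_ofReal] at h2
  have h3 := congrArg Complex.im h2
  rw [Complex.conj_im] at h3
  linarith

private theorem page_two {N : ℕ} [NeZero N] (ψ : DirichletCharacter ℂ N) :
    0 < (DirichletCharacter.LFunction ψ 2).re := by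
  have hre : 1 < (2 : ℂ).re := by simp
  rw [DirichletCharacter.LFunction_eq_LSeries ψ hre]
  have hsum : HasSum (LSeries.term (fun n => ψ n) 2) (LSeries (fun n => ψ n) 2) :=
    (DirichletCharacter.LSeriesSummable_of_one_lt_re ψ hre).hasSum
  have h1 : HasSum (fun k : ℕ => if k = 1 then (1 : ℂ) else 0) 1 := hasSum_ite_eq 1 1
  have h2 := hsum.sub h1
  have h3 : HasSum (fun k : ℕ => 1 / (k : ℝ) ^ 2 - if k = 1 then (1 : ℝ) else 0)
      (Real.pi ^ 2 / 6 - 1) := hasSum_zeta_two.sub (hasSum_ite_eq 1 1)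
  have h4 : ∀ k : ℕ, ‖LSeries.term (fun n => ψ n) 2 k - (if k = 1 then (1 : ℂ) else 0)‖ ≤
      1 / (k : ℝ) ^ 2 - if k = 1 then (1 : ℝ) else 0 := by
    intro k
    by_cases hk0 : k = 0
    · subst hk0
      simp [LSeries.term_zero]
    · by_cases hk1 : k = 1
      · subst hk1
        rw [LSeries.term_of_ne_zero one_ne_zero]
        simp
      · rw [if_neg hk1, if_neg hk1, sub_zero, sub_zero, LSeries.term_of_ne_zero hk0, norm_div,
          Complex.norm_natCast_cpow_of_pos (Nat.pos_of_ne_zero hk0)]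
        have hk : (0 : ℝ) < (k : ℝ) := by exact_mod_cast Nat.pos_of_ne_zero hk0
        have e : (k : ℝ) ^ ((2 : ℂ).re) = (k : ℝ) ^ 2 := by
          have : ((2 : ℂ).re) = ((2 : ℕ) : ℝ) := by simp
          rw [this, Real.rpow_natCast]
        rw [e]
        exact div_le_div_of_nonneg_right (ψ.norm_le_one _) (by positivity)
  have h5 := h2.norm_le_of_bounded h3 h4
  have h6 : |(LSeries (fun n => ψ n) 2 - 1).re| ≤ Real.pi ^ 2 / 6 - 1 :=
    (Complex.abs_re_le_norm _).trans h5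
  have h7 := (abs_le.mp h6).1
  rw [Complex.sub_re, Complex.one_re] at h7
  have h8 : Real.pi ^ 2 < 12 := by
    have := Real.pi_lt_d2
    have := Real.pi_pos
    nlinarith
  linarith

private theorem page_pos {N : ℕ} [NeZero N] (ψ : DirichletCharacter ℂ N) (h : ψ ^ 2 = 1)
    (h1 : ψ ≠ 1) (β : ℝ) (hβ : β < 1)
    (hz : ∀ x : ℝ, β ≤ x → x < 1 → DirichletCharacter.LFunction ψ (x : ℂ) ≠ 0) :
    0 < (DirichletCharacter.LFunction ψ (β : ℂ)).re := by
  by_contra hcon
  push Not at hcon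
  have hcont : Continuous (fun x : ℝ => (DirichletCharacter.LFunction ψ (x : ℂ)).re) :=
    Complex.continuous_re.comp
      ((DirichletCharacter.differentiable_LFunction h1).continuous.comp Complex.continuous_ofReal)
  have h2 : 0 < (DirichletCharacter.LFunction ψ ((2 : ℝ) : ℂ)).re := by
    have := page_two ψ
    simpa using this
  have hmem : (0 : ℝ) ∈ Set.Icc ((DirichletCharacter.LFunction ψ (β : ℂ)).re)
      ((DirichletCharacter.LFunction ψ ((2 : ℝ) : ℂ)).re) := ⟨hcon, h2.le⟩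
  obtain ⟨x, hx, hx0⟩ := intermediate_value_Icc (by linarith : β ≤ 2) hcont.continuousOn hmem
  have hx00 : DirichletCharacter.LFunction ψ (x : ℂ) = 0 := by
    apply Complex.ext
    · exact hx0
    · rw [page_im ψ h h1]
      simp
  by_cases hx1 : x < 1
  · exact hz x hx.1 hx1 hx00
  · push Not at hx1
    exact DirichletCharacter.LFunction_ne_zero_of_one_le_re ψ (Or.inl h1)
      (by simpa using hx1) hx00

private theorem page_upper : ∃ C : ℝ, 0 < C ∧ ∀ (N : ℕ) [NeZero N] (ψ : DirichletCharacter ℂ N),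
    ψ ≠ 1 → ‖DirichletCharacter.LFunction ψ 1‖ ≤ C * Real.log (2 * N) := by
  obtain ⟨C, hC, hL⟩ := Lk_le 0
  refine ⟨C, hC, ?_⟩
  intro N _ ψ hψ
  have hN2 : 2 ≤ N := by
    rcases Nat.lt_or_ge N 2 with h | h
    · exfalso
      have hN0 : N ≠ 0 := NeZero.ne N
      have hN1 : N = 1 := by omega
      exact hψ (DirichletCharacter.level_one' ψ hN1)
    · exact h
  have hcont : Continuous (fun x : ℝ => ‖DirichletCharacter.LFunction ψ (x : ℂ)‖) :=
    ((DirichletCharacter.differentiable_LFunction hψ).continuous.comp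
      Complex.continuous_ofReal).norm
  have ht : Filter.Tendsto (fun x : ℝ => ‖DirichletCharacter.LFunction ψ (x : ℂ)‖)
      (nhdsWithin 1 (Set.Ioi 1)) (nhds ‖DirichletCharacter.LFunction ψ ((1 : ℝ) : ℂ)‖) :=
    (hcont.tendsto 1).mono_left nhdsWithin_le_nhds
  rw [Complex.ofReal_one] at ht
  apply le_of_tendsto ht
  have hev : ∀ᶠ x : ℝ in nhdsWithin 1 (Set.Ioi 1), x < 2 := by
    apply Filter.Eventually.filter_mono nhdsWithin_le_nhds
    exact (isOpen_Iio (a := (2 : ℝ))).mem_nhds (by norm_num)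
  filter_upwards [hev, self_mem_nhdsWithin] with x hx2 hx1
  have hx1' : (1 : ℝ) < x := hx1
  have hre : 1 < ((x : ℝ) : ℂ).re := by simpa using hx1'
  have h1 := hL N hN2 ψ hψ (x : ℂ) hre (by simpa using hx2.le)
  rw [Lk_zero_eq N ψ _ hre] at h1
  simp only [Complex.ofReal_im, abs_zero, zero_add, pow_one] at h1
  rw [mul_comm (2 : ℝ)]
  exact h1

private theorem page_zeta : ∃ η : ℝ, 0 < η ∧ ∀ β : ℝ, 1 - η ≤ β → β < 1 →
    (riemannZeta (β : ℂ)).re < 0 := by
  have h := riemannZeta_residue_one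
  have hopen : {z : ℂ | 0 < z.re} ∈ nhds (1 : ℂ) := by
    apply (isOpen_lt continuous_const Complex.continuous_re).mem_nhds
    simp
  have hev := h.eventually hopen
  rw [eventually_nhdsWithin_iff, Metric.eventually_nhds_iff] at hev
  obtain ⟨δ, hδ, hb⟩ := hev
  refine ⟨δ / 2, by positivity, ?_⟩
  intro β hβ1 hβ2
  have hne : (β : ℂ) ≠ 1 := by
    intro h
    have h2 : ((β : ℝ) : ℂ) = ((1 : ℝ) : ℂ) := by rw [h, Complex.ofReal_one]
    have h3 := Complex.ofReal_injective h2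
    linarith
  have hdist : dist (β : ℂ) 1 < δ := by
    rw [Complex.dist_eq, ← Complex.ofReal_one, ← Complex.ofReal_sub, Complex.norm_real,
      Real.norm_eq_abs, abs_lt]
    constructor <;> linarith
  have h4 := hb hdist hne
  have h5 : (((β : ℂ) - 1) * riemannZeta (β : ℂ)).re = (β - 1) * (riemannZeta (β : ℂ)).re := by
    rw [← Complex.ofReal_one, ← Complex.ofReal_sub, Complex.re_ofReal_mul]
  have h6 : 0 < (β - 1) * (riemannZeta (β : ℂ)).re := by
    rw [← h5]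
    exact h4
  by_contra h7
  push Not at h7
  nlinarith

private theorem page_triv {N : ℕ} [NeZero N] (β : ℝ) (hβ : 0 < β) (hβ1 : β < 1)
    (hζ : (riemannZeta (β : ℂ)).re < 0) :
    (DirichletCharacter.LFunction (1 : DirichletCharacter ℂ N) (β : ℂ)).re ≤ 0 := by
  have hne : (β : ℂ) ≠ 1 := by
    intro h
    have h2 : ((β : ℝ) : ℂ) = ((1 : ℝ) : ℂ) := by rw [h, Complex.ofReal_one]
    have h3 := Complex.ofReal_injective h2
    linarith
  have h1 := DirichletCharacter.LFunctionTrivChar_eq_mul_riemannZeta (N := N) hne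
  have h2 : (∏ p ∈ N.primeFactors, (1 - (p : ℂ) ^ (-(β : ℂ)))) =
      ((∏ p ∈ N.primeFactors, (1 - (p : ℝ) ^ (-β)) : ℝ) : ℂ) := by
    rw [Complex.ofReal_prod]
    apply Finset.prod_congr rfl
    intro p _
    rw [Complex.ofReal_sub, Complex.ofReal_one, Complex.ofReal_cpow (Nat.cast_nonneg p),
      Complex.ofReal_neg, Complex.ofReal_natCast]
  have h3 : 0 ≤ ∏ p ∈ N.primeFactors, (1 - (p : ℝ) ^ (-β)) := by
    apply Finset.prod_nonneg
    intro p hp
    have hpp := Nat.prime_of_mem_primeFactors hp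
    have h3 : (p : ℝ) ^ (-β) < 1 :=
      Real.rpow_lt_one_of_one_lt_of_neg (by exact_mod_cast hpp.one_lt) (by linarith)
    linarith
  rw [h2] at h1
  have h4 : (DirichletCharacter.LFunction (1 : DirichletCharacter ℂ N) (β : ℂ)).re =
      (∏ p ∈ N.primeFactors, (1 - (p : ℝ) ^ (-β))) * (riemannZeta (β : ℂ)).re := by
    rw [← Complex.re_ofReal_mul, ← h1]
  rw [h4]
  exact mul_nonpos_of_nonneg_of_nonpos h3 hζ.le

private theorem page_rhs {N : ℕ} [NeZero N] (ψ1 ψ2 : DirichletCharacter ℂ N) (h1 : ψ1 ^ 2 = 1) (h2 : ψ2 ^ 2 = 1)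
    (n1 : ψ1 ≠ 1) (n2 : ψ2 ≠ 1) (n3 : ψ1 * ψ2 ≠ 1) (β : ℝ) (hβ : 0 < β) (hβ1 : β < 1)
    (hζ : (riemannZeta (β : ℂ)).re < 0)
    (z1 : ∀ x : ℝ, β ≤ x → x < 1 → DirichletCharacter.LFunction ψ1 (x : ℂ) ≠ 0)
    (z2 : ∀ x : ℝ, β ≤ x → x < 1 → DirichletCharacter.LFunction ψ2 (x : ℂ) ≠ 0)
    (z3 : ∀ x : ℝ, β ≤ x → x < 1 → DirichletCharacter.LFunction (ψ1 * ψ2) (x : ℂ) ≠ 0) :
    (DirichletCharacter.LFunction (1 : DirichletCharacter ℂ N) β *
          DirichletCharacter.LFunction ψ1 β * DirichletCharacter.LFunction ψ2 β *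
          DirichletCharacter.LFunction (ψ1 * ψ2) β).re ≤ 0 := by
  have h3 : (ψ1 * ψ2) ^ 2 = 1 := by rw [mul_pow, h1, h2, mul_one]
  have key : ∀ ψ : DirichletCharacter ℂ N, ψ ^ 2 = 1 → ψ ≠ 1 →
      (∀ x : ℝ, β ≤ x → x < 1 → DirichletCharacter.LFunction ψ (x : ℂ) ≠ 0) →
      ∃ r : ℝ, 0 ≤ r ∧ DirichletCharacter.LFunction ψ (β : ℂ) = (r : ℂ) := by
    intro ψ h n z
    refine ⟨(DirichletCharacter.LFunction ψ (β : ℂ)).re, (page_pos ψ h n β hβ1 z).le, ?_⟩
    apply Complex.ext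
    · simp
    · rw [page_im ψ h n]
      simp
  obtain ⟨r1, hr1, e1⟩ := key ψ1 h1 n1 z1
  obtain ⟨r2, hr2, e2⟩ := key ψ2 h2 n2 z2
  obtain ⟨r3, hr3, e3⟩ := key (ψ1 * ψ2) h3 n3 z3
  rw [e1, e2, e3]
  have h4 := page_triv (N := N) β hβ hβ1 hζ
  have h5 : (DirichletCharacter.LFunction (1 : DirichletCharacter ℂ N) (β : ℂ) * (r1 : ℂ) *
      (r2 : ℂ) * (r3 : ℂ)).re =
      (DirichletCharacter.LFunction (1 : DirichletCharacter ℂ N) (β : ℂ)).re * (r1 * r2 * r3) := by
    have : DirichletCharacter.LFunction (1 : DirichletCharacter ℂ N) (β : ℂ) * (r1 : ℂ) *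
      (r2 : ℂ) * (r3 : ℂ) = ((r1 * r2 * r3 : ℝ) : ℂ) *
      DirichletCharacter.LFunction (1 : DirichletCharacter ℂ N) (β : ℂ) := by
      push_cast
      ring
    rw [this, Complex.re_ofReal_mul]
    ring
  rw [h5]
  exact mul_nonpos_of_nonpos_of_nonneg h4 (by positivity)

/-- the consequence of a nonpositive value -/
private theorem page_base {N : ℕ} [NeZero N] {C : ℝ} (hC : 1 ≤ C) {x y z : ℂ} {s η l R : ℝ}
    (hl : 1 ≤ l) (hN : Real.log N ≤ l) (hη : 0 < η) (hη1 : η ≤ 1) (hs : 1 - η / l ≤ s) (hs1 : s < 1)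
    (hest : 1 / 2 - C * (N : ℝ) ^ (C * (1 - s)) / (1 - s) * (((N.totient : ℝ) / N) * (x * y * z).re) ≤ R)
    (hR : R ≤ 0) : 1 - s ≤ 2 * C * Real.exp C * (‖x‖ * ‖y‖ * ‖z‖) := by
  have hC0 : 0 < C := by linarith
  have ha : 0 < 1 - s := by linarith
  have hN1 : (1 : ℝ) ≤ N := by
    have : 1 ≤ N := Nat.one_le_iff_ne_zero.mpr (NeZero.ne N)
    exact_mod_cast this
  have hN0 : (0 : ℝ) < N := by linarith
  have hl0 : 0 < l := by linarith
  set lam : ℝ := ((N.totient : ℝ) / N) * (x * y * z).re with hlam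
  have hpow : (N : ℝ) ^ (C * (1 - s)) ≤ Real.exp C := by
    rw [Real.rpow_def_of_pos hN0]
    apply Real.exp_le_exp.2
    have h1 : 1 - s ≤ η / l := by linarith
    have h2 : Real.log N * (1 - s) ≤ 1 := by
      calc Real.log N * (1 - s) ≤ l * (η / l) :=
            mul_le_mul hN h1 ha.le hl0.le
        _ = η := by field_simp
        _ ≤ 1 := hη1
    calc Real.log N * (C * (1 - s)) = C * (Real.log N * (1 - s)) := by ring
      _ ≤ C * 1 := mul_le_mul_of_nonneg_left h2 hC0.le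
      _ = C := mul_one C
  have hmain : (1 - s) / 2 ≤ C * (N : ℝ) ^ (C * (1 - s)) * lam := by
    have e1 : 1 / 2 ≤ C * (N : ℝ) ^ (C * (1 - s)) / (1 - s) * lam := by linarith
    have e2 := mul_le_mul_of_nonneg_left e1 ha.le
    have e3 : (1 - s) * (C * (N : ℝ) ^ (C * (1 - s)) / (1 - s) * lam) =
        C * (N : ℝ) ^ (C * (1 - s)) * lam := by
      field_simp
    rw [e3] at e2
    linarith
  have hlam1 : lam ≤ ‖x‖ * ‖y‖ * ‖z‖ := by
    have hφ0 : 0 ≤ (N.totient : ℝ) / N := by positivity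
    have hφ1 : (N.totient : ℝ) / N ≤ 1 := by
      rw [div_le_one hN0]
      exact_mod_cast Nat.totient_le N
    have hn : (x * y * z).re ≤ ‖x‖ * ‖y‖ * ‖z‖ := by
      refine (Complex.re_le_norm _).trans (le_of_eq ?_)
      rw [norm_mul, norm_mul]
    calc lam ≤ ((N.totient : ℝ) / N) * (‖x‖ * ‖y‖ * ‖z‖) := mul_le_mul_of_nonneg_left hn hφ0
      _ ≤ 1 * (‖x‖ * ‖y‖ * ‖z‖) := mul_le_mul_of_nonneg_right hφ1 (by positivity)
      _ = _ := one_mul _
  have hlam0 : 0 ≤ lam := by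
    by_contra hneg
    push Not at hneg
    have : C * (N : ℝ) ^ (C * (1 - s)) * lam < 0 := mul_neg_of_pos_of_neg (by positivity) hneg
    linarith
  have h5 : C * (N : ℝ) ^ (C * (1 - s)) * lam ≤ C * Real.exp C * (‖x‖ * ‖y‖ * ‖z‖) :=
    mul_le_mul (mul_le_mul_of_nonneg_left hpow hC0.le) hlam1 hlam0 (by positivity)
  linarith

/-- from the product to the maximum -/
private theorem page_max {a b c l : ℝ} (ha : 0 ≤ a) (hb : 0 ≤ b) (hc : 0 < c) (hc1 : c ≤ 1) (hl : 1 ≤ l)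
    (h : c ≤ a * b * l ^ 2) : c / l ^ 3 ≤ max a b := by
  by_contra hcon
  push Not at hcon
  have hl0 : 0 < l := by linarith
  set M := max a b with hM
  have hM0 : 0 ≤ M := ha.trans (le_max_left _ _)
  have h1 : a * b ≤ M ^ 2 := by
    rw [sq]
    exact mul_le_mul (le_max_left _ _) (le_max_right _ _) hb hM0
  rw [lt_div_iff₀ (by positivity)] at hcon
  have h2 : M * l ≤ M * l ^ 3 := by
    apply mul_le_mul_of_nonneg_left _ hM0
    calc l = l ^ 1 := (pow_one l).symm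
      _ ≤ l ^ 3 := pow_le_pow_right₀ hl (by norm_num)
  have h3 : M * l < c := by linarith
  have h4 : a * b * l ^ 2 ≤ (M * l) ^ 2 := by
    rw [mul_pow]
    exact mul_le_mul_of_nonneg_right h1 (by positivity)
  have h5 : (M * l) ^ 2 < c ^ 2 := pow_lt_pow_left₀ h3 (by positivity) (by norm_num)
  have h6 : c ^ 2 ≤ c := by nlinarith
  linarith

theorem page : ∃ c : ℝ, 0 < c ∧ ∀ (N : ℕ) [NeZero N] (χ1 χ2 : DirichletCharacter ℂ N),
    χ1 ^ 2 = 1 → χ2 ^ 2 = 1 → χ1 ≠ 1 → χ2 ≠ 1 → χ1 ≠ χ2 →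
      c / Real.log (2 * N) ^ 3 ≤
        max ‖DirichletCharacter.LFunction χ1 1‖ ‖DirichletCharacter.LFunction χ2 1‖ := by
  obtain ⟨C, hC, hE⟩ := estermann
  obtain ⟨C2, hC2, hU⟩ := page_upper
  obtain ⟨C3, hC3, hL⟩ := L_near
  obtain ⟨η0, hη0, hζ⟩ := page_zeta
  have hC0 : 0 < C := by linarith
  have hC30 : 0 < C3 := by linarith
  set η : ℝ := min η0 (1 / 16) with hη
  have hηpos : 0 < η := lt_min hη0 (by norm_num)
  have hη1 : η ≤ η0 := min_le_left _ _
  have hη2 : η ≤ 1 / 16 := min_le_right _ _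
  set A : ℝ := 2 * C * Real.exp C with hA
  have hA0 : 0 < A := by positivity
  set c : ℝ := min 1 (min (η / (A * C2)) (min (1 / (A * C3)) (1 / (A * C3 * C2)))) with hc
  have hc0 : 0 < c := lt_min one_pos (lt_min (by positivity) (lt_min (by positivity) (by positivity)))
  have hc1 : c ≤ 1 := min_le_left _ _
  have hc2 : c ≤ η / (A * C2) := (min_le_right _ _).trans (min_le_left _ _)
  have hc3 : c ≤ 1 / (A * C3) := (min_le_right _ _).trans ((min_le_right _ _).trans (min_le_left _ _))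
  have hc4 : c ≤ 1 / (A * C3 * C2) := (min_le_right _ _).trans ((min_le_right _ _).trans (min_le_right _ _))
  refine ⟨c, hc0, ?_⟩
  intro N _ χ1 χ2 h1 h2 n1 n2 hne
  have h3 : (χ1 * χ2) ^ 2 = 1 := by rw [mul_pow, h1, h2, mul_one]
  have n3 : χ1 * χ2 ≠ 1 := by
    intro h
    apply hne
    have e : χ1 * χ2 * χ2 = χ2 := by rw [h, one_mul]
    rwa [mul_assoc, ← sq, h2, mul_one] at e
  have hN2 : 2 ≤ N := by
    rcases Nat.lt_or_ge N 2 with h | h
    · exfalso
      have hN0 : N ≠ 0 := NeZero.ne N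
      have hN1 : N = 1 := by omega
      exact n1 (DirichletCharacter.level_one' χ1 hN1)
    · exact h
  have hN2' : (2 : ℝ) ≤ N := by exact_mod_cast hN2
  set l : ℝ := Real.log (2 * N) with hl
  have hl1 : 1 ≤ l := by
    rw [hl, Real.le_log_iff_exp_le (by positivity)]
    have := Real.exp_one_lt_d9
    linarith
  have hl0 : 0 < l := by linarith
  have hlN : Real.log N ≤ l := Real.log_le_log (by linarith) (by linarith)
  set a := ‖DirichletCharacter.LFunction χ1 1‖ with ha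
  set b := ‖DirichletCharacter.LFunction χ2 1‖ with hb
  set p := ‖DirichletCharacter.LFunction (χ1 * χ2) 1‖ with hp
  have ha0 : 0 < a := norm_pos_iff.mpr (DirichletCharacter.LFunction_apply_one_ne_zero n1)
  have hb0 : 0 < b := norm_pos_iff.mpr (DirichletCharacter.LFunction_apply_one_ne_zero n2)
  have hp0 : 0 < p := norm_pos_iff.mpr (DirichletCharacter.LFunction_apply_one_ne_zero n3)
  have hpU : p ≤ C2 * l := hU N _ n3
  have hηl : η / l ≤ η := by
    rw [div_le_iff₀ hl0]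
    nlinarith
  have hs078 : ∀ s : ℝ, 1 - η / l ≤ s → 7 / 8 < s := fun s hs => by linarith
  -- the basic inequality
  have hbase : ∀ s : ℝ, 1 - η / l ≤ s → s < 1 →
      (DirichletCharacter.LFunction (1 : DirichletCharacter ℂ N) s *
          DirichletCharacter.LFunction χ1 s * DirichletCharacter.LFunction χ2 s *
          DirichletCharacter.LFunction (χ1 * χ2) s).re ≤ 0 → 1 - s ≤ A * (a * b * p) := by
    intro s hs hs1 hR
    exact page_base hC hl1 hlN hηpos (by linarith) hs hs1 (hE N χ1 χ2 h1 h2 n1 n2 n3 s (hs078 s hs) hs1) hR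
  -- the bound at a zero
  have hnear : ∀ (ψ : DirichletCharacter ℂ N), ψ ≠ 1 → ∀ s : ℝ, 1 - η / l ≤ s → s < 1 →
      DirichletCharacter.LFunction ψ (s : ℂ) = 0 → ‖DirichletCharacter.LFunction ψ 1‖ ≤ C3 * (1 - s) * l ^ 2 := by
    intro ψ n s hs hs1 h0
    have e := hL N ψ n s (by
      have : η / l ≤ 1 / (8 * l) := by
        rw [div_le_div_iff₀ hl0 (by positivity)]
        nlinarith
      linarith) hs1.le
    rwa [h0, sub_zero] at e
  -- a common step
  have hstep : ∀ q r : ℝ, 0 < q → a * b * p = q * r → ∀ s : ℝ, q ≤ C3 * (1 - s) * l ^ 2 → 1 - s ≤ A * (a * b * p) →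
      1 / (A * C3) ≤ r * l ^ 2 := by
    intro q r hq he s hq1 hs
    have e1 : q ≤ C3 * (A * (q * r)) * l ^ 2 := by
      rw [← he]
      refine hq1.trans ?_
      exact mul_le_mul_of_nonneg_right (mul_le_mul_of_nonneg_left hs hC30.le) (by positivity)
    have e2 : q * 1 ≤ q * (A * C3 * (r * l ^ 2)) := by
      calc q * 1 = q := mul_one q
        _ ≤ C3 * (A * (q * r)) * l ^ 2 := e1
        _ = q * (A * C3 * (r * l ^ 2)) := by ring
    have e3 := le_of_mul_le_mul_left e2 hq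
    rw [div_le_iff₀ (by positivity)]
    linarith
  by_cases z3 : ∃ s : ℝ, (1 - η / l ≤ s ∧ s < 1) ∧ DirichletCharacter.LFunction (χ1 * χ2) (s : ℂ) = 0
  · obtain ⟨s, ⟨hs, hs1⟩, h0⟩ := z3
    have e1 := hbase s hs hs1 (by rw [h0, mul_zero]; simp)
    have e2 := hnear _ n3 s hs hs1 h0
    have e3 := hstep p (a * b) hp0 (by ring) s e2 e1
    exact page_max ha0.le hb0.le hc0 hc1 hl1 (hc3.trans e3)
  by_cases z1 : ∃ s : ℝ, (1 - η / l ≤ s ∧ s < 1) ∧ DirichletCharacter.LFunction χ1 (s : ℂ) = 0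
  · obtain ⟨s, ⟨hs, hs1⟩, h0⟩ := z1
    have e1 := hbase s hs hs1 (by rw [h0]; simp)
    have e2 := hnear _ n1 s hs hs1 h0
    have e3 := hstep a (b * p) ha0 (by ring) s e2 e1
    refine le_trans ?_ (le_max_right _ _)
    rw [div_le_iff₀ (by positivity)]
    refine hc4.trans ?_
    have e4 : b * p * l ^ 2 ≤ b * (C2 * l) * l ^ 2 :=
      mul_le_mul_of_nonneg_right (mul_le_mul_of_nonneg_left hpU hb0.le) (by positivity)
    have e5 : 1 / (A * C3 * C2) = 1 / (A * C3) / C2 := by rw [div_div]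
    rw [e5, div_le_iff₀ hC2]
    calc 1 / (A * C3) ≤ b * p * l ^ 2 := e3
      _ ≤ b * (C2 * l) * l ^ 2 := e4
      _ = b * l ^ 3 * C2 := by ring
  by_cases z2 : ∃ s : ℝ, (1 - η / l ≤ s ∧ s < 1) ∧ DirichletCharacter.LFunction χ2 (s : ℂ) = 0
  · obtain ⟨s, ⟨hs, hs1⟩, h0⟩ := z2
    have e1 := hbase s hs hs1 (by rw [h0]; simp)
    have e2 := hnear _ n2 s hs hs1 h0
    have e3 := hstep b (a * p) hb0 (by ring) s e2 e1
    refine le_trans ?_ (le_max_left _ _)
    rw [div_le_iff₀ (by positivity)]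
    refine hc4.trans ?_
    have e4 : a * p * l ^ 2 ≤ a * (C2 * l) * l ^ 2 :=
      mul_le_mul_of_nonneg_right (mul_le_mul_of_nonneg_left hpU ha0.le) (by positivity)
    have e5 : 1 / (A * C3 * C2) = 1 / (A * C3) / C2 := by rw [div_div]
    rw [e5, div_le_iff₀ hC2]
    calc 1 / (A * C3) ≤ a * p * l ^ 2 := e3
      _ ≤ a * (C2 * l) * l ^ 2 := e4
      _ = a * l ^ 3 * C2 := by ring
  -- no zeros
  have hηl0 : 0 < η / l := by positivity
  have hs0 : 1 - η / l < 1 := by linarith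
  have hR := page_rhs χ1 χ2 h1 h2 n1 n2 n3 (1 - η / l) (by linarith) hs0 (hζ _ (by linarith) hs0)
    (fun x hx hx1 h => z1 ⟨x, ⟨hx, hx1⟩, h⟩) (fun x hx hx1 h => z2 ⟨x, ⟨hx, hx1⟩, h⟩)
    (fun x hx hx1 h => z3 ⟨x, ⟨hx, hx1⟩, h⟩)
  have e1 := hbase (1 - η / l) le_rfl hs0 hR
  apply page_max ha0.le hb0.le hc0 hc1 hl1
  refine hc2.trans ?_
  rw [div_le_iff₀ (by positivity)]
  have e2 : η / l ≤ A * (a * b * (C2 * l)) := by
    have e3 : A * (a * b * p) ≤ A * (a * b * (C2 * l)) :=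
      mul_le_mul_of_nonneg_left (mul_le_mul_of_nonneg_left hpU (by positivity)) hA0.le
    linarith
  rw [div_le_iff₀ hl0] at e2
  calc η ≤ A * (a * b * (C2 * l)) * l := e2
    _ = a * b * l ^ 2 * (A * C2) := by ring

end Pool.Agent.H11.LQ
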