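import Pool.Agent.H11.LQ.Scale
import Pool.Agent.H11.LQ.Hit
import Pool.Agent.H11.LQ.Fejer

/-!
# LQ module Round: one round of the recursion
-/

set_option autoImplicit false

namespace Pool.Agent.H11.LQ

open Finset
open Pool.Agent.H34PG (lam lam_val lam_mul lam_prime)

/-- the bad set of a family of multipliers -/
private def bad {ι : Type*} (m : ℕ) (η : ℤ) (k : ℕ) (LL : Finset ι) (l : ι → ℕ) : Finset ℕ :=
  LL.biUnion fun t => Ex m η (l t) ∪ (range m).filter fun x => (k * x) % m ∈ Ex m η (l t)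

private theorem bad_card {ι : Type*} {m : ℕ} {η : ℤ} {k : ℕ} (hm : 0 < m) (hk : 0 < k)
    {LL : Finset ι} {l : ι → ℕ} {E : ℕ} (hE : ∀ t ∈ LL, (Ex m η (l t)).card ≤ E) :
    (bad m η k LL l).card ≤ LL.card * ((1 + k) * E) := by
  unfold bad
  refine (Finset.card_biUnion_le).trans ?_
  refine (Finset.sum_le_card_nsmul _ _ ((1 + k) * E) fun t ht => ?_).trans (by rw [smul_eq_mul])
  refine (Finset.card_union_le _ _).trans ?_
  have h1 := hE t ht
  have h2 := scale_card (a := k) hm (Ex m η (l t))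
  have h3 : Nat.gcd k m ≤ k := Nat.gcd_le_left _ hk
  have h4 : Nat.gcd k m * (Ex m η (l t)).card ≤ k * E := Nat.mul_le_mul h3 h1
  calc _ ≤ E + k * E := Nat.add_le_add h1 (h2.trans h4)
    _ = (1 + k) * E := by ring

private theorem not_bad_near {ι : Type*} {m : ℕ} {η : ℤ} (hη : η = 1 ∨ η = -1) {k : ℕ}
    (hk : 0 < k) {LL : Finset ι} {l : ι → ℕ} {a : ℕ} (ha : a ∈ Ex m η k)
    (hb : a ∉ bad m η k LL l) {t : ι} (ht : t ∈ LL) :
    m ≤ 2 * k * ((l t * a) % m) ∧ m ≤ 2 * k * (m - (l t * a) % m) := by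
  have ham : a < m := (mem_Ex.mp ha).1
  have h1 : a ∉ Ex m η (l t) := fun h => hb (Finset.mem_biUnion.mpr
    ⟨t, ht, Finset.mem_union_left _ h⟩)
  have h2 : (k * a) % m ∉ Ex m η (l t) := fun h => hb (Finset.mem_biUnion.mpr
    ⟨t, ht, Finset.mem_union_right _ (Finset.mem_filter.mpr ⟨Finset.mem_range.mpr ham, h⟩)⟩)
  have h3 := ((Ex_inv (l := l t) ha).resolve_left h1).resolve_left h2
  by_contra hcon
  apply not_mem_Ex_of_near hη hk _ h3
  by_contra hcon2
  rw [not_or, not_lt, not_lt] at hcon2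
  exact hcon hcon2

private theorem prs_card (K : ℕ) : (prs K).card ≤ K := by
  have h : prs K ⊆ Finset.Icc 1 K := by
    intro p hp
    rw [mem_prs] at hp
    exact Finset.mem_Icc.mpr ⟨hp.1.one_lt.le, hp.2⟩
  have := Finset.card_le_card h
  rwa [Nat.card_Icc, Nat.add_sub_cancel] at this

private theorem hit_real {m T b s g : ℕ} {x : ℝ} (hT : 0 < T)
    (h : s * T ^ b ≤ 2 * m * g ^ b) (hg : (g : ℝ) ≤ T * x) : (s : ℝ) ≤ 2 * m * x ^ b := by
  have hT' : (0 : ℝ) < (T : ℝ) ^ b := by positivity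
  have h1 : (s : ℝ) * (T : ℝ) ^ b ≤ 2 * m * (g : ℝ) ^ b := by exact_mod_cast h
  have h2 : (g : ℝ) ^ b ≤ (T * x) ^ b := pow_le_pow_left₀ (by positivity) hg b
  have h3 : (s : ℝ) * (T : ℝ) ^ b ≤ (2 * m * x ^ b) * (T : ℝ) ^ b := by
    calc (s : ℝ) * (T : ℝ) ^ b ≤ 2 * m * (g : ℝ) ^ b := h1
      _ ≤ 2 * m * (T * x) ^ b := mul_le_mul_of_nonneg_left h2 (by positivity)
      _ = (2 * m * x ^ b) * (T : ℝ) ^ b := by rw [mul_pow]; ring
  exact le_of_mul_le_mul_right h3 hT'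

theorem round_step : ∃ K0 : ℕ, 2 ≤ K0 ∧ ∀ K ≥ K0, ∀ (m k v ρ b e : ℕ) (η : ℤ),
    (η = 1 ∨ η = -1) → 0 < k → k ^ 4 ≤ K ^ 5 → K ^ 6 ≤ 2 ^ ρ → (2 ^ ρ) ^ b ≤ m → 1 ≤ b →
    (∀ i, Nat.gcd (2 ^ i) m ≤ v) → v * (Ex m η 2).card ≤ e →
    (∀ q, q.Prime → q ≤ K → (Ex m η q).card ≤ e) →
    ((Ex m η k).card : ℝ) ≤
      2 * m * ((K : ℝ) ^ (-(1 / 4) : ℝ)) ^ b + 8 * ρ * b ^ 2 * K ^ 8 * e := by
  classical
  obtain ⟨K1, hK1⟩ := fejer
  refine ⟨max K1 16, le_max_of_le_right (by norm_num), ?_⟩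
  intro K hK m k v ρ b e η hη hk hkK hρ hb hb1 hv h2 hq
  have hKK1 : K1 ≤ K := (le_max_left _ _).trans hK
  have hK16 : 16 ≤ K := (le_max_right _ _).trans hK
  have hm : 0 < m := lt_of_lt_of_le (by positivity) hb
  set T : ℕ := 2 ^ ρ with hT
  have hT0 : 0 < T := by positivity
  have hKT : 1 < K ^ 6 := Nat.one_lt_pow (by norm_num) (by omega)
  have hT2 : 2 ≤ T := by omega
  have hρ1 : 1 ≤ ρ := by
    rcases Nat.eq_zero_or_pos ρ with h | h
    · rw [h, pow_zero] at hT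
      omega
    · exact h
  have hk2 : k ≤ K ^ 2 := by
    have h1 : k ^ 4 ≤ (K ^ 2) ^ 4 := hkK.trans (by
      rw [← pow_mul]
      exact Nat.pow_le_pow_right (by omega) (by norm_num))
    exact (Nat.pow_le_pow_iff_left (by norm_num)).mp h1
  have hk3 : 4 * k ≤ K ^ 3 := by
    have h1 : (4 * k) ^ 4 ≤ (K ^ 3) ^ 4 := by
      calc (4 * k) ^ 4 = 256 * k ^ 4 := by ring
        _ ≤ K ^ 7 * K ^ 5 := by
            refine Nat.mul_le_mul ?_ hkK
            calc 256 = 16 ^ 2 := by norm_num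
              _ ≤ K ^ 2 := Nat.pow_le_pow_left hK16 2
              _ ≤ K ^ 7 := Nat.pow_le_pow_right (by omega) (by norm_num)
        _ = (K ^ 3) ^ 4 := by ring
    exact (Nat.pow_le_pow_iff_left (by norm_num)).mp h1
  set LL : Finset (ℕ × ℕ × ℕ × ℕ) := (range b) ×ˢ (prs K) ×ˢ (prs K) ×ˢ (prs K) with hLL
  set l : ℕ × ℕ × ℕ × ℕ → ℕ := fun t => 2 ^ (ρ * t.1) * (t.2.1 * t.2.2.1 * t.2.2.2) with hl
  have hLLc : LL.card ≤ b * K ^ 3 := by
    rw [hLL, Finset.card_product, Finset.card_product, Finset.card_product, Finset.card_range]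
    have := prs_card K
    calc b * ((prs K).card * ((prs K).card * (prs K).card)) ≤ b * (K * (K * K)) :=
          Nat.mul_le_mul_left _ (Nat.mul_le_mul this (Nat.mul_le_mul this this))
      _ = b * K ^ 3 := by ring
  have hE : ∀ t ∈ LL, (Ex m η (l t)).card ≤ (3 * K ^ 2 + K ^ 3 * (ρ * b)) * e := by
    rintro ⟨j, p, q, r⟩ ht
    simp only [hLL, Finset.mem_product, Finset.mem_range, mem_prs] at ht
    obtain ⟨hj, ⟨hp, hpK⟩, ⟨hq', hqK⟩, hr, hrK⟩ := ht
    refine (Ex_four (v := v) (e := e) (K := K) hm hv h2 (by omega) hp.pos hq'.pos hr.pos hpK hqK hrK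
      (hq p hp hpK) (hq q hq' hqK) (hq r hr hrK)).trans ?_
    refine Nat.mul_le_mul_right _ (Nat.add_le_add_left (Nat.mul_le_mul_left _ ?_) _)
    exact Nat.mul_le_mul_left _ hj.le
  have hbad := bad_card (η := η) (l := l) hm hk hE
  set B := bad m η k LL l with hB
  set G : Finset ℕ := (range T).filter fun d => ∀ p ∈ prs K, ∀ q ∈ prs K, ∀ r ∈ prs K,
      T ≤ 4 * k * ((p * q * r * d) % T) ∧ T ≤ 4 * k * (T - (p * q * r * d) % T) with hG
  have hGc : (G.card : ℝ) ≤ T * (K : ℝ) ^ (-(1 / 4) : ℝ) := hK1 K hKK1 k T hk hkK hρ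
  have hS := hit hT2 hb G (Ex m η k \ B) (by
      intro a ha
      exact Finset.mem_range.mpr (mem_Ex.mp (Finset.mem_sdiff.mp ha).1).1) (by
      intro a ha j hj
      obtain ⟨ha1, ha2⟩ := Finset.mem_sdiff.mp ha
      have hs : (T ^ j * a) % m < m := Nat.mod_lt _ hm
      have key : ∀ p ∈ prs K, ∀ q ∈ prs K, ∀ r ∈ prs K,
          T * ((T ^ j * a) % m) / m < T ∧
          T ≤ 4 * k * ((p * q * r * (T * ((T ^ j * a) % m) / m)) % T) ∧
          T ≤ 4 * k * (T - (p * q * r * (T * ((T ^ j * a) % m) / m)) % T) := by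
        intro p hp q hq' r hr
        have ht : (j, p, q, r) ∈ LL := by
          simp only [hLL, Finset.mem_product, Finset.mem_range]
          exact ⟨hj, hp, hq', hr⟩
        have h3 := not_bad_near hη hk ha1 ha2 ht
        rw [mem_prs] at hp hq' hr
        have h4 : (l (j, p, q, r) * a) % m = (p * q * r * ((T ^ j * a) % m)) % m := by
          rw [hl]
          simp only
          rw [Nat.mul_mod (p * q * r) ((T ^ j * a) % m), Nat.mod_mod, ← Nat.mul_mod, hT, ← pow_mul]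
          congr 1
          ring
        rw [h4] at h3
        refine digit hm hk (Nat.mul_pos (Nat.mul_pos hp.1.pos hq'.1.pos) hr.1.pos) ?_ hs h3.1 h3.2
        have h5 : p * q * r ≤ K ^ 3 := by
          calc p * q * r ≤ K * K * K := Nat.mul_le_mul (Nat.mul_le_mul hp.2 hq'.2) hr.2
            _ = K ^ 3 := by ring
        calc 4 * k * (p * q * r) ≤ K ^ 3 * K ^ 3 := Nat.mul_le_mul hk3 h5
          _ = K ^ 6 := by ring
          _ ≤ T := hρ
      rw [hG, Finset.mem_filter]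
      refine ⟨?_, fun p hp q hq' r hr => (key p hp q hq' r hr).2⟩
      have h2p : 2 ∈ prs K := mem_prs.mpr ⟨Nat.prime_two, by omega⟩
      exact Finset.mem_range.mpr (key 2 h2p 2 h2p 2 h2p).1)
  have hSr := hit_real hT0 hS hGc
  have hcard : (Ex m η k).card ≤ (Ex m η k \ B).card + B.card := by
    have := Finset.card_le_card_sdiff_add_card (s := Ex m η k) (t := B)
    omega
  have hBc : B.card ≤ 8 * ρ * b ^ 2 * K ^ 8 * e := by
    refine hbad.trans ?_
    have h5 : 1 + k ≤ 2 * K ^ 2 := by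
      have : 1 ≤ K ^ 2 := Nat.one_le_pow _ _ (by omega)
      omega
    have h6 : 3 * K ^ 2 + K ^ 3 * (ρ * b) ≤ 4 * K ^ 3 * (ρ * b) := by
      have h7 : 1 ≤ ρ * b := Nat.mul_pos hρ1 hb1
      have h8 : K ^ 2 * 1 ≤ K ^ 3 * (ρ * b) :=
        Nat.mul_le_mul (Nat.pow_le_pow_right (by omega) (by norm_num)) h7
      have h9 : 4 * K ^ 3 * (ρ * b) = 4 * (K ^ 3 * (ρ * b)) := by ring
      rw [h9]
      omega
    calc LL.card * ((1 + k) * ((3 * K ^ 2 + K ^ 3 * (ρ * b)) * e))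
        ≤ (b * K ^ 3) * ((2 * K ^ 2) * ((4 * K ^ 3 * (ρ * b)) * e)) :=
          Nat.mul_le_mul hLLc (Nat.mul_le_mul h5 (Nat.mul_le_mul_right _ h6))
      _ = 8 * ρ * b ^ 2 * K ^ 8 * e := by ring
  have hBr : (B.card : ℝ) ≤ 8 * ρ * b ^ 2 * K ^ 8 * e := by exact_mod_cast hBc
  have hcr : ((Ex m η k).card : ℝ) ≤ ((Ex m η k \ B).card : ℝ) + (B.card : ℝ) := by
    exact_mod_cast hcard
  linarith

theorem base_step {K0 m k v ρ b : ℕ} {η : ℤ} (hη : η = 1 ∨ η = -1) (hk : 0 < k) (hkK : k ≤ K0)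
    (hρ : 2 * K0 ≤ 2 ^ ρ) (hb : (2 ^ ρ) ^ b ≤ m) (hv : ∀ i, Nat.gcd (2 ^ i) m ≤ v) :
    ((Ex m η k).card : ℝ) ≤
      2 * m * (1 - 1 / 2 ^ ρ) ^ b + b * (1 + K0) * (ρ * b * (v * (Ex m η 2).card)) := by
  classical
  have hm : 0 < m := lt_of_lt_of_le (by positivity) hb
  set T : ℕ := 2 ^ ρ with hT
  have hT0 : 0 < T := by positivity
  have hT2 : 2 ≤ T := by omega
  have hE : ∀ j ∈ range b, (Ex m η (2 ^ (ρ * j))).card ≤ ρ * b * (v * (Ex m η 2).card) := by
    intro j hj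
    rw [Finset.mem_range] at hj
    refine (Ex_pow_two hm hv _).trans (Nat.mul_le_mul_right _ ?_)
    exact Nat.mul_le_mul_left _ hj.le
  have hbad := bad_card (η := η) (l := fun j => 2 ^ (ρ * j)) hm hk hE
  set B := bad m η k (range b) (fun j => 2 ^ (ρ * j)) with hB
  set G : Finset ℕ := (range T).erase 0 with hG
  have hGc : (G.card : ℝ) ≤ T * (1 - 1 / 2 ^ ρ) := by
    rw [hG, Finset.card_erase_of_mem (Finset.mem_range.mpr hT0), Finset.card_range,
      Nat.cast_sub (by omega)]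
    have : (T : ℝ) = 2 ^ ρ := by rw [hT]; push_cast; rfl
    rw [this]
    have h0 : (2 : ℝ) ^ ρ ≠ 0 := by positivity
    field_simp
    push_cast
    linarith
  have hS := hit hT2 hb G (Ex m η k \ B) (by
      intro a ha
      exact Finset.mem_range.mpr (mem_Ex.mp (Finset.mem_sdiff.mp ha).1).1) (by
      intro a ha j hj
      obtain ⟨ha1, ha2⟩ := Finset.mem_sdiff.mp ha
      have hs : (T ^ j * a) % m < m := Nat.mod_lt _ hm
      have h3 := not_bad_near hη hk ha1 ha2 (Finset.mem_range.mpr hj)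
      have h4 : (2 ^ (ρ * j) * a) % m = (T ^ j * a) % m := by rw [hT, ← pow_mul]
      simp only [h4] at h3
      have hd : T * ((T ^ j * a) % m) / m < T := by
        rw [Nat.div_lt_iff_lt_mul hm]
        exact Nat.mul_lt_mul_of_pos_left hs hT0
      rw [hG, Finset.mem_erase]
      refine ⟨?_, Finset.mem_range.mpr hd⟩
      intro h0
      have h5 : T * ((T ^ j * a) % m) < m := by
        by_contra hcon
        have := Nat.div_pos (not_lt.mp hcon) hm
        omega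
      have h6 : 2 * k * ((T ^ j * a) % m) ≤ T * ((T ^ j * a) % m) :=
        Nat.mul_le_mul_right _ (by omega)
      omega)
  have hSr := hit_real hT0 hS hGc
  have hcard : (Ex m η k).card ≤ (Ex m η k \ B).card + B.card := by
    have := Finset.card_le_card_sdiff_add_card (s := Ex m η k) (t := B)
    omega
  have hBc : B.card ≤ b * (1 + K0) * (ρ * b * (v * (Ex m η 2).card)) := by
    refine hbad.trans ?_
    rw [Finset.card_range, ← mul_assoc]
    exact Nat.mul_le_mul_right _ (Nat.mul_le_mul_left _ (by omega))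
  have hBr : (B.card : ℝ) ≤ b * (1 + K0) * (ρ * b * (v * (Ex m η 2).card)) := by
    exact_mod_cast hBc
  have hcr : ((Ex m η k).card : ℝ) ≤ ((Ex m η k \ B).card : ℝ) + (B.card : ℝ) := by
    exact_mod_cast hcard
  linarith

end Pool.Agent.H11.LQ
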