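import Pool.Agent.H11.LQ.Defs

/-!
# LQ module Scale: exceptional sets of products

* `scale_card`: the fibres of `x ↦ a x` on `Z/m` have at most `gcd a m` elements.
* `Ex_mul_card`: if `x ∉ Ex l` and `l x ∉ Ex k` then `F (k l x) = lam k F (l x) = lam k lam l F x`.
* `Ex_pow_two`: induction on `i`, `2 ^ (i + 1) = 2 * 2 ^ i` (and `Ex 1 = ∅`).
* `Ex_four`: `Ex_mul_card` with `k = 2 ^ i`, `l = p q r`, then with `k = p q`, `l = r`, then `k = p`,
  `l = q`; `gcd l m ≤ l`.
-/

set_option autoImplicit false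

namespace Pool.Agent.H11.LQ

open Finset
open Pool.Agent.H34PG (lam lam_val lam_mul lam_prime)

variable {m : ℕ} {η : ℤ}

theorem scale_card {a : ℕ} (hm : 0 < m) (S : Finset ℕ) :
    ((range m).filter fun x => (a * x) % m ∈ S).card ≤ Nat.gcd a m * S.card := by
  classical
  set g := Nat.gcd a m with hg
  have hg0 : 0 < g := Nat.gcd_pos_of_pos_right a hm
  obtain ⟨m', hm'⟩ : g ∣ m := Nat.gcd_dvd_right a m
  have hm'0 : 0 < m' := by
    rcases Nat.eq_zero_or_pos m' with h | h
    · rw [h, mul_zero] at hm'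
      omega
    · exact h
  have hfib : ∀ s : ℕ, ((range m).filter fun x => (a * x) % m = s).card ≤ g := by
    intro s
    have h1 : ((range m).filter fun x => (a * x) % m = s).card ≤ (range g).card := by
      apply Finset.card_le_card_of_injOn (fun x => x / m')
      · intro x hx
        have hx' := (mem_filter.mp (mem_coe.mp hx)).1
        rw [mem_range] at hx'
        rw [mem_coe, mem_range]
        exact Nat.div_lt_of_lt_mul (by rw [mul_comm, ← hm']; exact hx')
      · intro x hx y hy hxy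
        have hx1 := (mem_filter.mp (mem_coe.mp hx)).2
        have hy1 := (mem_filter.mp (mem_coe.mp hy)).2
        have h2 : a * x ≡ a * y [MOD m] := by
          unfold Nat.ModEq
          rw [hx1, hy1]
        have h3 : x ≡ y [MOD m / Nat.gcd m a] := Nat.ModEq.cancel_left_div_gcd hm h2
        have h4 : m / Nat.gcd m a = m' := by
          rw [Nat.gcd_comm, ← hg]
          exact Nat.div_eq_of_eq_mul_right hg0 hm'
        rw [h4] at h3
        have h5 : x / m' = y / m' := hxy
        have h6 : x % m' = y % m' := h3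
        rw [← Nat.div_add_mod x m', ← Nat.div_add_mod y m', h5, h6]
    rwa [card_range] at h1
  have hsub : ((range m).filter fun x => (a * x) % m ∈ S)
      ⊆ S.biUnion fun s => (range m).filter fun x => (a * x) % m = s := by
    intro x hx
    rw [mem_filter] at hx
    rw [mem_biUnion]
    exact ⟨(a * x) % m, hx.2, mem_filter.mpr ⟨hx.1, rfl⟩⟩
  calc ((range m).filter fun x => (a * x) % m ∈ S).card
      ≤ (S.biUnion fun s => (range m).filter fun x => (a * x) % m = s).card := card_le_card hsub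
    _ ≤ ∑ s ∈ S, ((range m).filter fun x => (a * x) % m = s).card := card_biUnion_le
    _ ≤ ∑ _s ∈ S, g := sum_le_sum fun s _ => hfib s
    _ = g * S.card := by rw [sum_const, smul_eq_mul, mul_comm]

theorem Ex_mul_card {k l : ℕ} (hm : 0 < m) (hk : 0 < k) (hl : 0 < l) :
    (Ex m η (k * l)).card ≤ (Ex m η l).card + Nat.gcd l m * (Ex m η k).card := by
  have hsub : Ex m η (k * l) ⊆ Ex m η l ∪ (range m).filter fun x => (l * x) % m ∈ Ex m η k := by
    intro x hx
    rw [mem_union, mem_filter, mem_range]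
    by_contra hcon
    rw [not_or, not_and] at hcon
    obtain ⟨c1, c2⟩ := hcon
    rw [mem_Ex] at hx
    have c3 := c2 hx.1
    rw [mem_Ex, not_and, not_not] at c1 c3
    have d1 := c1 hx.1
    have d2 := c3 (Nat.mod_lt _ hm)
    rw [F_mod_mul, F_mod, d1] at d2
    apply hx.2
    rw [mul_assoc, d2, lam_mul k l hk hl]
    ring
  calc (Ex m η (k * l)).card
      ≤ (Ex m η l ∪ (range m).filter fun x => (l * x) % m ∈ Ex m η k).card := card_le_card hsub
    _ ≤ (Ex m η l).card + ((range m).filter fun x => (l * x) % m ∈ Ex m η k).card :=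
        card_union_le _ _
    _ ≤ (Ex m η l).card + Nat.gcd l m * (Ex m η k).card :=
        Nat.add_le_add_left (scale_card hm _) _

theorem Ex_pow_two {v : ℕ} (hm : 0 < m) (hv : ∀ i, Nat.gcd (2 ^ i) m ≤ v) (i : ℕ) :
    (Ex m η (2 ^ i)).card ≤ i * (v * (Ex m η 2).card) := by
  induction i with
  | zero =>
    have h1 : Ex m η (2 ^ 0) = ∅ := by
      rw [eq_empty_iff_forall_notMem]
      intro x hx
      rw [mem_Ex] at hx
      apply hx.2
      rw [pow_zero, one_mul, Pool.Agent.H34PG.lam_one, one_mul]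
    rw [h1, card_empty]
    exact Nat.zero_le _
  | succ i ih =>
    have h1 : 2 ^ (i + 1) = 2 * 2 ^ i := by ring
    rw [h1]
    have h2 := Ex_mul_card (η := η) (k := 2) (l := 2 ^ i) hm (by norm_num) (by positivity)
    have h3 : Nat.gcd (2 ^ i) m * (Ex m η 2).card ≤ v * (Ex m η 2).card :=
      Nat.mul_le_mul_right _ (hv i)
    have h4 : (i + 1) * (v * (Ex m η 2).card)
        = i * (v * (Ex m η 2).card) + v * (Ex m η 2).card := by ring
    omega

theorem Ex_four {v e K i p q r : ℕ} (hm : 0 < m) (hv : ∀ i, Nat.gcd (2 ^ i) m ≤ v)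
    (h2 : v * (Ex m η 2).card ≤ e) (hK : 1 ≤ K) (hp : 0 < p) (hq : 0 < q) (hr : 0 < r)
    (hpK : p ≤ K) (hqK : q ≤ K) (hrK : r ≤ K) (ep : (Ex m η p).card ≤ e)
    (eq : (Ex m η q).card ≤ e) (er : (Ex m η r).card ≤ e) :
    (Ex m η (2 ^ i * (p * q * r))).card ≤ (3 * K ^ 2 + K ^ 3 * i) * e := by
  have g1 : (Ex m η (2 ^ i)).card ≤ i * e :=
    le_trans (Ex_pow_two hm hv i) (Nat.mul_le_mul_left _ h2)
  have g2 : (Ex m η (p * q)).card ≤ e + K * e := by
    refine le_trans (Ex_mul_card hm hp hq) (Nat.add_le_add eq ?_)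
    exact Nat.mul_le_mul (le_trans (Nat.gcd_le_left m hq) hqK) ep
  have g3 : (Ex m η (p * q * r)).card ≤ e + K * (e + K * e) := by
    refine le_trans (Ex_mul_card hm (Nat.mul_pos hp hq) hr) (Nat.add_le_add er ?_)
    exact Nat.mul_le_mul (le_trans (Nat.gcd_le_left m hr) hrK) g2
  have hpqr : 0 < p * q * r := Nat.mul_pos (Nat.mul_pos hp hq) hr
  have g4 : p * q * r ≤ K ^ 3 := by
    calc p * q * r ≤ K * K * K := Nat.mul_le_mul (Nat.mul_le_mul hpK hqK) hrK
      _ = K ^ 3 := by ring
  have g5 : (Ex m η (2 ^ i * (p * q * r))).card ≤ (e + K * (e + K * e)) + K ^ 3 * (i * e) := by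
    refine le_trans (Ex_mul_card hm (by positivity) hpqr) (Nat.add_le_add g3 ?_)
    exact Nat.mul_le_mul (le_trans (Nat.gcd_le_left m hpqr) g4) g1
  refine le_trans g5 ?_
  have g6 : e + K * (e + K * e) + K ^ 3 * (i * e) = (1 + K + K ^ 2 + K ^ 3 * i) * e := by ring
  rw [g6]
  refine Nat.mul_le_mul_right _ ?_
  have g7 : K ≤ K ^ 2 := by nlinarith
  have g8 : 1 ≤ K ^ 2 := Nat.one_le_pow _ _ hK
  omega

end Pool.Agent.H11.LQ
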